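import Pool.Agent.R383.MQ.Stm

/-! Restriction to slices. -/

set_option autoImplicit false

namespace Pool.Agent.R383.MQ

open MvPolynomial

namespace Hm

variable {K : Type} [Field K] {ι κ : Type} [DecidableEq κ]

/-- the images of the variables -/
noncomputable def ph (s : ι → κ) (i : κ) (y : ι → K) (l : ι) : MvPolynomial ι K :=
  mix s i X (fun l => C (y l)) l

theorem res_eq [Fintype ι] (s : ι → κ) (i : κ) (y : ι → K) (G : MvPolynomial ι K) :
    res s i y G = ∑ m ∈ G.support, C (coeff m G) * ∏ l, ph s i y l ^ m l := by
  rw [res, aeval_def, eval₂_eq']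
  rfl

theorem hom_of [Fintype ι] (s : ι → κ) (i : κ) (y : ι → K) (G : MvPolynomial ι K) (d : ℕ)
    (h : ∀ m ∈ G.support, (∑ l, if s l = i then m l else 0) = d) :
    (res s i y G).IsHomogeneous d := by
  rw [res_eq]
  refine IsHomogeneous.sum _ _ _ fun m hm => ?_
  have h1 : (∏ l, ph s i y l ^ m l).IsHomogeneous (∑ l, if s l = i then m l else 0) := by
    refine IsHomogeneous.prod _ _ _ fun l _ => ?_
    by_cases hl : s l = i
    · have e : ph s i y l = X l := by
        unfold ph mix
        rw [if_pos hl]
      rw [e, if_pos hl]
      have := (isHomogeneous_X K l).pow (m l)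
      rwa [one_mul] at this
    · have e : ph s i y l = C (y l) := by
        unfold ph mix
        rw [if_neg hl]
      rw [e, if_neg hl]
      have := (isHomogeneous_C ι (y l)).pow (m l)
      rwa [zero_mul] at this
  have h2 := (isHomogeneous_C ι (coeff m G)).mul h1
  rwa [zero_add, h m hm] at h2

theorem pd_res (s : ι → κ) (i : κ) (y : ι → K) (G : MvPolynomial ι K) (l : ι) (hl : s l = i) :
    pderiv l (res s i y G) = res s i y (pderiv l G) := by
  classical
  induction G using MvPolynomial.induction_on with
  | C c =>
    have e : res s i y (C c) = C c := by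
      rw [res, aeval_C]
      rfl
    rw [e, pderiv_C, map_zero]
  | add p q hp hq => rw [map_add, map_add, map_add, map_add, hp, hq]
  | mul_X p k hp =>
    have hX : res s i y (X k) = ph s i y k := by
      rw [res, aeval_X]
      rfl
    have hd : pderiv l (ph s i y k) = res s i y (pderiv l (X k)) := by
      by_cases hk : s k = i
      · have e : ph s i y k = X k := by
          unfold ph mix
          rw [if_pos hk]
        rw [e, pderiv_X]
        by_cases hkl : k = l
        · subst hkl
          rw [Pi.single_eq_same, map_one]
        · rw [Pi.single_eq_of_ne hkl, map_zero]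
      · have e : ph s i y k = C (y k) := by
          unfold ph mix
          rw [if_neg hk]
        have hkl : l ≠ k := by
          rintro rfl
          exact hk hl
        rw [e, pderiv_C, pderiv_X, Pi.single_eq_of_ne hkl.symm, map_zero]
    rw [map_mul, Derivation.leibniz, Derivation.leibniz, map_add, smul_eq_mul, smul_eq_mul,
      smul_eq_mul, smul_eq_mul, map_mul, map_mul, hp, hX, hd]

theorem deg_res [Fintype ι] (s : ι → κ) (i : κ) (y : ι → K) (G : MvPolynomial ι K) (l : ι) :
    (res s i y G).degreeOf l ≤ G.degreeOf l := by
  classical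
  rw [res_eq]
  refine (degreeOf_sum_le _ _ _).trans ?_
  refine Finset.sup_le fun m hm => ?_
  refine (degreeOf_mul_le _ _ _).trans ?_
  rw [degreeOf_C, zero_add]
  refine (degreeOf_prod_le _ _ _).trans ?_
  have h1 : ∀ k ∈ (Finset.univ : Finset ι), degreeOf l (ph s i y k ^ m k) ≤
      if k = l then m k else 0 := by
    intro k _
    refine (degreeOf_pow_le _ _ _).trans ?_
    have h2 : degreeOf l (ph s i y k) ≤ if k = l then 1 else 0 := by
      by_cases hk : s k = i
      · have e : ph s i y k = X k := by
          unfold ph mix
          rw [if_pos hk]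
        rw [e, degreeOf_X]
        split_ifs with h3 h4 h4
        · exact le_rfl
        · exact absurd h3.symm h4
        · exact Nat.zero_le _
        · exact le_rfl
      · have e : ph s i y k = C (y k) := by
          unfold ph mix
          rw [if_neg hk]
        rw [e, degreeOf_C]
        exact Nat.zero_le _
    calc m k * degreeOf l (ph s i y k) ≤ m k * (if k = l then 1 else 0) :=
          Nat.mul_le_mul_left _ h2
      _ = _ := by split_ifs <;> simp
  refine (Finset.sum_le_sum h1).trans ?_
  rw [Finset.sum_ite_eq' Finset.univ l, if_pos (Finset.mem_univ l)]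
  exact monomial_le_degreeOf l hm

omit [Field K] in
theorem mix_self (s : ι → κ) (i : κ) (y : ι → K) : mix s i y y = y := by
  funext l
  unfold mix
  split_ifs <;> rfl

end Hm

open Hm in
theorem sHOM : S_HOM := by
  intro K _ ι κ _ _ s i y
  classical
  have p1 : ∀ F : MvPolynomial ι K, IsMQ s F → (res s i y F).IsHomogeneous 2 :=
    fun F hF => hom_of s i y F 2 (hF i)
  refine ⟨p1, ?_, fun G l hl => pd_res s i y G l hl, ?_, fun G l => deg_res s i y G l⟩
  · intro F hF l hl
    refine hom_of s i y _ 2 fun m hm => ?_
    have h1 : m + Finsupp.single l 1 ∈ F.support := by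
      rw [mem_support_iff] at hm ⊢
      intro h0
      apply hm
      rw [coeff_pderiv, h0, zero_mul]
    rw [← hF i _ h1]
    refine Finset.sum_congr rfl fun k _ => ?_
    by_cases hk : s k = i
    · have hlk : l ≠ k := by
        rintro rfl
        exact hl hk
      rw [if_pos hk, if_pos hk, Finsupp.add_apply, Finsupp.single_eq_of_ne hlk.symm, add_zero]
    · rw [if_neg hk, if_neg hk]
  · intro F hF l m hl hm
    have h1 : pderiv m (pderiv l (res s i y F)) = res s i y (pderiv m (pderiv l F)) := by
      rw [pd_res s i y F l hl, pd_res s i y _ m hm]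
    rw [pderiv_pderiv (p1 F hF)] at h1
    have h2 := congrArg (eval y) h1
    rw [eval_C, eval_res, mix_self] at h2
    exact h2

end Pool.Agent.R383.MQ
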