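import Pool.Agent.R383.MQ.Stm3
import Pool.Agent.R383.MQ.HOM

/-! Conics on the slices. -/

set_option autoImplicit false

namespace Pool.Agent.R383.MQ

open MvPolynomial Pool.Agent.TH178.MZ

namespace TIntAux

variable {K : Type} [Field K] {ι κ : Type}

/-- The vector with the coordinates `α`, `β` at `l`, `l'`. -/
noncomputable def vec [DecidableEq ι] (l l' : ι) (α β : K) (m : ι) : K :=
  (if m = l then α else 0) + (if m = l' then β else 0)

theorem val_fld [DecidableEq ι] (F : MvPolynomial ι K) (y : ι → K) (l l' m : ι) :
    valueAt y (fld F l l') m =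
      vec l l' (-(eval y (pderiv l' F))) (eval y (pderiv l F)) m := by
  rw [valueAt_apply, fld, Derivation.sub_apply, Derivation.smul_apply, Derivation.smul_apply,
    pderiv_X, pderiv_X, map_sub, smul_eq_mul, smul_eq_mul, map_mul, map_mul, vec]
  have e1 : ∀ j : ι, (Pi.single j (1 : MvPolynomial ι K) : ι → MvPolynomial ι K) m =
      if m = j then 1 else 0 := fun j => Pi.single_apply _ _ _
  rw [e1, e1]
  split_ifs
  · rw [map_one]; ring
  · rw [map_one, map_zero]; ring
  · rw [map_one, map_zero]; ring
  · rw [map_zero]; ring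

theorem quad_slice [CharZero K] [Fintype ι] [DecidableEq ι] [DecidableEq κ] (s : ι → κ)
    (F : MvPolynomial ι K) (hF : IsMQ s F) (l l' : ι) (hl : s l = s l') (y : ι → K)
    (hy : eval y F = 0) : ∃ A B D : K, ∀ α β : K,
      eval (fun m => y m + vec l l' α β m) F =
        α * eval y (pderiv l F) + β * eval y (pderiv l' F) + A * α ^ 2 + B * (α * β) +
          D * β ^ 2 := by
  have hq : (res s (s l) y F).IsHomogeneous 2 := (sHOM s (s l) y).1 F hF
  have hpd := (sHOM s (s l) y).2.2.1 F
  obtain ⟨q, hqd⟩ : ∃ q, q = res s (s l) y F := ⟨_, rfl⟩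
  have hq' : q.IsHomogeneous 2 := by rw [hqd]; exact hq
  have hqy : eval y q = 0 := by
    rw [hqd, eval_res, Hm.mix_self]
    exact hy
  have hbil : ∀ m, s m = s l → bil q y (Pi.single m 1) = eval y (pderiv m F) := by
    intro m hm
    have h1 := aeval_pderiv hq' m y
    rw [aeval_eq_eval, hqd, hpd m hm, eval_res, Hm.mix_self] at h1
    rw [h1, bil_symm, bil, Finset.sum_eq_single m]
    · rw [hqd]
      refine Finset.sum_congr rfl fun k _ => ?_
      rw [Pi.single_eq_same, mul_one]
    · intro b _ hb
      refine Finset.sum_eq_zero fun k _ => ?_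
      rw [Pi.single_eq_of_ne hb]
      ring
    · intro h
      exact absurd (Finset.mem_univ m) h
  refine ⟨eval (Pi.single l 1) q, bil q (Pi.single l 1) (Pi.single l' 1),
    eval (Pi.single l' 1) q, fun α β => ?_⟩
  have e1 : eval (fun m => y m + vec l l' α β m) F = eval (fun m => y m + vec l l' α β m) q := by
    have e0 : mix s (s l) (fun m => y m + vec l l' α β m) y = fun m => y m + vec l l' α β m := by
      funext m
      unfold mix
      split_ifs with h
      · rfl
      · have h1 : m ≠ l := by
          rintro rfl
          exact h rfl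
        have h2 : m ≠ l' := by
          rintro rfl
          exact h hl.symm
        unfold vec
        rw [if_neg h1, if_neg h2, add_zero, add_zero]
    rw [hqd, eval_res, e0]
  have e2 : (fun m => y m + vec l l' α β m) = fun m => (1 : K) * y m + 1 * vec l l' α β m := by
    funext m
    ring
  have e3 : vec l l' α β = fun m => α * (Pi.single l (1 : K) : ι → K) m +
      β * (Pi.single l' (1 : K) : ι → K) m := by
    funext m
    unfold vec
    rw [Pi.single_apply, Pi.single_apply]
    split_ifs <;> ring
  have c1 := aeval_comb hq' y (vec l l' α β) (1 : K) 1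
  have c2 := aeval_comb hq' (Pi.single l (1 : K)) (Pi.single l' (1 : K)) α β
  rw [← e3] at c2
  have c3 : bil q y (vec l l' α β) = α * eval y (pderiv l F) + β * eval y (pderiv l' F) := by
    rw [e3, bil_symm, bil_lin, bil_symm q _ y, bil_symm q _ y, hbil l rfl, hbil l' hl.symm]
  simp only [aeval_eq_eval] at c1 c2
  rw [e1, e2, c1, c2, c3, hqy]
  ring

end TIntAux

open TIntAux in
theorem tINT : T_INT := by
  intro K _ _ ι κ _ _ s F hF l l' hl
  classical
  intro y hy hV
  obtain ⟨A, B, D, hQ⟩ := quad_slice s F hF l l' hl y hy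
  have hval := val_fld F y l l'
  obtain ⟨a, ha⟩ : ∃ a, a = eval y (pderiv l F) := ⟨_, rfl⟩
  obtain ⟨b, hb⟩ : ∃ b, b = eval y (pderiv l' F) := ⟨_, rfl⟩
  rw [← ha, ← hb] at hQ hval
  have hab : a ≠ 0 ∨ b ≠ 0 := by
    by_contra hcon
    push Not at hcon
    apply hV
    funext m
    rw [hval, hcon.1, hcon.2, vec]
    simp
  by_cases h0 : A * (-b) ^ 2 + B * (-b * a) + D * a ^ 2 = 0
  · refine ⟨fun m => Polynomial.C (y m) + Polynomial.C (valueAt y (fld F l l') m) * Polynomial.X,
      1, 1, by simp, one_ne_zero, ?_, ?_, ?_⟩
    · intro m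
      simp
    · intro m
      simp
    · intro t _
      show eval _ F = 0
      have h1 := hQ (t * -b) (t * a)
      have h2 : (fun m => (Polynomial.C (y m) + Polynomial.C (valueAt y (fld F l l') m) *
          Polynomial.X).eval t / (1 : Polynomial K).eval t) =
          fun m => y m + vec l l' (t * -b) (t * a) m := by
        funext m
        rw [hval]
        unfold vec
        simp only [Polynomial.eval_add, Polynomial.eval_C, Polynomial.eval_mul, Polynomial.eval_X,
          Polynomial.eval_one, div_one]
        split_ifs <;> ring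
      rw [h2, h1]
      linear_combination t ^ 2 * h0
  · obtain ⟨p, r, hκ⟩ : ∃ p r : K, p * a + r * b ≠ 0 := by
      rcases hab with h | h
      · exact ⟨1, 0, by simpa using h⟩
      · exact ⟨0, 1, by simpa using h⟩
    obtain ⟨k, hk⟩ : ∃ k, k = p * a + r * b := ⟨_, rfl⟩
    rw [← hk] at hκ
    obtain ⟨P, hP⟩ : ∃ P : Polynomial K, P = Polynomial.C (-b) + Polynomial.C p * Polynomial.X :=
      ⟨_, rfl⟩
    obtain ⟨R, hR⟩ : ∃ R : Polynomial K, R = Polynomial.C a + Polynomial.C r * Polynomial.X :=
      ⟨_, rfl⟩
    obtain ⟨den, hden⟩ : ∃ den : Polynomial K, den = Polynomial.C A * P ^ 2 +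
      Polynomial.C B * (P * R) + Polynomial.C D * R ^ 2 := ⟨_, rfl⟩
    have eP : ∀ t, P.eval t = -b + p * t := fun t => by rw [hP]; simp
    have eR : ∀ t, R.eval t = a + r * t := fun t => by rw [hR]; simp
    have eden : ∀ t, den.eval t = A * (-b + p * t) ^ 2 + B * ((-b + p * t) * (a + r * t)) +
        D * (a + r * t) ^ 2 := fun t => by rw [hden]; simp [eP, eR]
    have hden0 : den.eval 0 ≠ 0 := by
      rw [eden]
      simpa using h0
    obtain ⟨W, hWd⟩ : ∃ W : ι → Polynomial K, ∀ m, W m = (if m = l then P else 0) +
      (if m = l' then R else 0) := ⟨_, fun m => rfl⟩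
    have hW : ∀ m t, (W m).eval t = vec l l' (-b + p * t) (a + r * t) m := by
      intro m t
      rw [hWd]
      unfold vec
      split_ifs <;> simp [eP, eR]
    refine ⟨fun m => den * Polynomial.C (y m) - Polynomial.C k * Polynomial.X * W m, den, -k,
      hden0, neg_ne_zero.2 hκ, ?_, ?_, ?_⟩
    · intro m
      simp
    · intro m
      have e1 := hW m 0
      rw [mul_zero, mul_zero, add_zero, add_zero] at e1
      rw [hval, ← e1]
      simp [Polynomial.derivative_mul, Polynomial.derivative_sub]
      ring
    · intro t ht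
      show eval _ F = 0
      have h1 := hQ (-(t * k) / den.eval t * (-b + p * t)) (-(t * k) / den.eval t * (a + r * t))
      have h2 : (fun m => (den * Polynomial.C (y m) - Polynomial.C k * Polynomial.X *
          W m).eval t / den.eval t) =
          fun m => y m + vec l l' (-(t * k) / den.eval t * (-b + p * t))
            (-(t * k) / den.eval t * (a + r * t)) m := by
        funext m
        have e1 := hW m t
        have e2 : vec l l' (-(t * k) / den.eval t * (-b + p * t))
            (-(t * k) / den.eval t * (a + r * t)) m =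
            (-(t * k) / den.eval t) * vec l l' (-b + p * t) (a + r * t) m := by
          unfold vec
          split_ifs <;> ring
        rw [e2, ← e1]
        simp only [Polynomial.eval_sub, Polynomial.eval_mul, Polynomial.eval_C,
          Polynomial.eval_X]
        field_simp
        ring
      rw [h2, h1]
      have h3 := eden t
      field_simp
      rw [hk]
      linear_combination (-(t * (p * a + r * b)) ^ 2) * h3
end Pool.Agent.R383.MQ
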