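import Pool.Agent.R383.MQ.Stm

/-! Statements of the pieces, third version (brackets of vector fields). -/

set_option autoImplicit false

namespace Pool.Agent.R383.MQ

open MvPolynomial Pool.Agent.TH178.MZ

/-- The vector field `∂F/∂x_l ∂_{l'} - ∂F/∂x_{l'} ∂_l`. -/
noncomputable def fld {K : Type} [Field K] {ι : Type} (F : MvPolynomial ι K) (l l' : ι) :
    Derivation K (MvPolynomial ι K) (MvPolynomial ι K) :=
  pderiv l F • pderiv l' - pderiv l' F • pderiv l

/-- The fields of pairs of variables of the same slot. -/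
noncomputable def flds {K : Type} [Field K] {ι κ : Type} (s : ι → κ) (F : MvPolynomial ι K)
    (p : {p : ι × ι // s p.1 = s p.2}) : Derivation K (MvPolynomial ι K) (MvPolynomial ι K) :=
  fld F p.1.1 p.1.2

/-- The value at `(e_{l'}-part, e_l-part) × (m', m)` of the Hessian form of `F` on the tangent vectors
`F_l e_{l'} - F_{l'} e_l` and `F_m e_{m'} - F_{m'} e_m`. -/
noncomputable def bet {K : Type} [Field K] {ι : Type} {A : Type} [CommRing A] [Algebra K A]
    (F : MvPolynomial ι K) (z : ι → A) (l l' m m' : ι) : A :=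
  aeval z (pderiv l F) * aeval z (pderiv m F) * aeval z (pderiv m' (pderiv l' F)) -
  aeval z (pderiv l F) * aeval z (pderiv m' F) * aeval z (pderiv m (pderiv l' F)) -
  aeval z (pderiv l' F) * aeval z (pderiv m F) * aeval z (pderiv m' (pderiv l F)) +
  aeval z (pderiv l' F) * aeval z (pderiv m' F) * aeval z (pderiv m (pderiv l F))

/-- Some partial derivative with respect to a variable of the slot `i` is not zero at `z`. -/
def Moves {K : Type} [Field K] {ι κ : Type} {A : Type} [CommRing A] [Algebra K A]
    (s : ι → κ) (F : MvPolynomial ι K) (i : κ) (z : ι → A) : Prop :=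
  ∃ l, s l = i ∧ aeval z (pderiv l F) ≠ 0

/-- The slots `i` and `j` are linked at `z`: the Hessian form is not zero on the product of the
tangent spaces of the two slices. -/
def Linked {K : Type} [Field K] {ι κ : Type} {A : Type} [CommRing A] [Algebra K A]
    (s : ι → κ) (F : MvPolynomial ι K) (z : ι → A) (i j : κ) : Prop :=
  ∃ l l' m m', s l = i ∧ s l' = i ∧ s m = j ∧ s m' = j ∧ bet F z l l' m m' ≠ 0

/-- Good points (with coordinates in an extension of `K`): `F` has a nonzero partial derivative in
each slot, and any two slots are connected by a chain of linked slots. -/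
def Good {K : Type} [Field K] {ι κ : Type} {A : Type} [CommRing A] [Algebra K A]
    (s : ι → κ) (F : MvPolynomial ι K) (z : ι → A) : Prop :=
  (∀ i, Moves s F i z) ∧ ∀ i j, Relation.ReflTransGen (Linked s F z) i j

/-- The component through `y` of the slice `F (·; y) = 0` in the slot `j` is given by `g`: either
`y` is a nonsingular point of the slice and `g` is the irreducible factor vanishing at `y`, or the
slice is everything and `g = 0`. -/
def Branch {K : Type} [Field K] {ι κ : Type} [DecidableEq κ] (s : ι → κ) (F : MvPolynomial ι K)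
    (y : ι → K) (j : κ) (g : MvPolynomial ι K) : Prop :=
  (Irreducible g ∧ g ∣ res s j y F ∧ eval y g = 0 ∧ Moves s F j y) ∨
    (g = 0 ∧ res s j y F = 0)

/-- Semi-good points: for some slot the component through `y` of the slice contains a good
geometric point. -/
def SemiGood {K : Type} [Field K] {ι κ : Type} [DecidableEq κ]
    (s : ι → κ) (F : MvPolynomial ι K) (y : ι → K) : Prop :=
  ∃ j g, Branch s F y j g ∧ ∃ z : ι → AlgebraicClosure K,
    (∀ l, s l ≠ j → z l = algebraMap K (AlgebraicClosure K) (y l)) ∧ aeval z g = 0 ∧ Good s F z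

/-- Conics. -/
def T_INT : Prop := ∀ {K : Type} [Field K] [CharZero K] {ι κ : Type} [Fintype ι] [DecidableEq κ]
  (s : ι → κ) (F : MvPolynomial ι K), IsMQ s F → ∀ l l' : ι, s l = s l' →
    RationallyIntegrable {y | eval y F = 0} (fld F l l')

/-- The brackets at a good point. -/
def T_RANK : Prop := ∀ {K : Type} [Field K] {ι κ : Type} [Fintype ι]
  (s : ι → κ) (F : MvPolynomial ι K) (y : ι → K), Good s F y →
    Fintype.card ι - 1 ≤ bracketRank (flds s F) y

/-- The dimension of a hypersurface. -/
def T_TRDEG : Prop := ∀ {K : Type} [Field K] {ι : Type} [Fintype ι] (F : MvPolynomial ι K),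
  Prime F → Algebra.trdeg K (MvPolynomial ι K ⧸ Ideal.span {F}) ≤ ((Fintype.card ι - 1 : ℕ) : Cardinal)

/-- Rational points of a factor of a quadratic form near a nonsingular point. -/
def T_SLICE : Prop := ∀ {K : Type} [Field K] [CharZero K] {ι : Type} [Fintype ι] {L : Type}
  [NontriviallyNormedField L] (σ : K →+* L), DenseRange σ → ∀ q : MvPolynomial ι K,
  q.IsHomogeneous 2 → ∀ g : MvPolynomial ι K, Irreducible g → g ∣ q → ∀ y : ι → K, eval y g = 0 →
  ∀ l : ι, eval y (pderiv l q) ≠ 0 → ∀ U ∈ nhds (fun i => σ (y i)), ∀ f : MvPolynomial ι K,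
    (∀ z : ι → K, eval z g = 0 → (fun i => σ (z i)) ∈ U → eval z f = 0) → g ∣ f

/-- Good rational points near semi-good points. -/
def T_SEMI : Prop := ∀ {K : Type} [Field K] [CharZero K] {ι κ : Type} [Fintype ι] [Fintype κ]
  [DecidableEq κ] {L : Type} [NontriviallyNormedField L] (σ : K →+* L), DenseRange σ →
  ∀ (s : ι → κ) (F : MvPolynomial ι K), IsMQ s F → ∀ y : ι → K, eval y F = 0 → SemiGood s F y →
    ∀ U ∈ nhds (fun l => σ (y l)), ∃ z : ι → K, eval z F = 0 ∧
      (fun l => σ (z l)) ∈ U ∧ Good s F z

/-- Semi-goodness does not depend on the choice of the multihomogeneous coordinates. -/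
def T_INV : Prop := ∀ {K : Type} [Field K] [CharZero K] {r : ℕ} {a : Fin r → ℕ}
  (F : MvPolynomial (Idx a) K), IsMultiQuadratic F → ∀ (y : Idx a → K) (t : Fin r → K),
    (∀ k, t k ≠ 0) → SemiGood Sigma.fst F y → SemiGood Sigma.fst F (fun l => t l.1 * y l)

end Pool.Agent.R383.MQ
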