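import Pool.Agent.R383.MQ.Slice
import Pool.Agent.R383.MQ.Stm3

/-! TSLICE: rational points of a factor of a quadratic form near a nonsingular point. -/

set_option autoImplicit false

namespace Pool.Agent.R383.MQ

open MvPolynomial Pool.Agent.TH178.MZ

namespace TSl

theorem linear_form {K : Type} [Field K] {ι : Type} [Fintype ι] (g : MvPolynomial ι K)
    (hg : g.totalDegree ≤ 1) : ∃ (c0 : K) (c : ι → K), g = C c0 + ∑ m, C (c m) * X m := by
  classical
  set g1 := homogeneousComponent 1 g with hg1
  have h1 : g1.IsHomogeneous 1 := homogeneousComponent_isHomogeneous 1 g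
  have hsum : g = C (coeff 0 g) + g1 := by
    conv_lhs => rw [← sum_homogeneousComponent g]
    rw [← homogeneousComponent_zero]
    rcases Nat.le_one_iff_eq_zero_or_eq_one.1 hg with h | h
    · rw [h, zero_add, Finset.sum_range_one]
      have : g1 = 0 := homogeneousComponent_eq_zero 1 g (by omega)
      rw [this, add_zero]
    · rw [h, Finset.sum_range_succ, Finset.sum_range_one]
  have hE := h1.sum_X_mul_pderiv
  rw [one_smul] at hE
  refine ⟨coeff 0 g, fun m => coeff 0 (pderiv m g1), ?_⟩
  conv_lhs => rw [hsum, ← hE]
  congr 1
  refine Finset.sum_congr rfl fun m _ => ?_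
  have h2 : (pderiv m g1).IsHomogeneous 0 := h1.pderiv (i := m)
  have h3 : (pderiv m g1).totalDegree = 0 := by
    have := h2.totalDegree_le
    omega
  rw [totalDegree_eq_zero_iff_eq_C] at h3
  rw [← h3, mul_comm]

end TSl

theorem tSLICE : T_SLICE := by
  classical
  intro K _ _ ι _ L _ σ hσ q hq g hg hgq y hy l hl U hU f hf
  obtain ⟨h, hh⟩ := hgq
  have hq0 : q ≠ 0 := by
    rintro rfl
    simp at hl
  have hg0 : g ≠ 0 := hg.ne_zero
  have hh0 : h ≠ 0 := by
    rintro rfl
    rw [mul_zero] at hh
    exact hq0 hh
  have hdeg : g.totalDegree + h.totalDegree = 2 := by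
    rw [← totalDegree_mul_of_isDomain hg0 hh0, ← hh]
    exact totalDegree_quad hq hq0
  rcases Nat.eq_zero_or_pos h.totalDegree with hd | hd
  · -- `q` and `g` are associated
    rw [totalDegree_eq_zero_iff_eq_C] at hd
    set c := coeff 0 h with hc
    have hc0 : c ≠ 0 := by
      intro h0
      rw [h0, map_zero] at hd
      exact hh0 hd
    have hu : IsUnit h := by
      rw [hd]
      exact (IsUnit.mk0 _ hc0).map C
    have hass : Associated g q := ⟨hu.unit, by rw [hh]; rfl⟩
    have hqp : Prime q := (hass.irreducible hg).prime
    have hyq : eval y q = 0 := by rw [hh, map_mul, hy, zero_mul]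
    have := slice σ hσ hq hqp hyq hl hU f (fun z hz hzU => by
      apply hf z _ hzU
      rw [hh, hd, map_mul, eval_C] at hz
      exact (mul_eq_zero.1 hz).resolve_right hc0)
    exact hass.dvd.trans this
  · rcases Nat.eq_zero_or_pos g.totalDegree with hgd | hgd
    · exfalso
      rw [totalDegree_eq_zero_iff_eq_C] at hgd
      apply hg.not_isUnit
      rw [hgd]
      refine (IsUnit.mk0 _ ?_).map C
      intro h0
      rw [h0, map_zero] at hgd
      exact hg0 hgd
    · obtain ⟨c0, c, hgc⟩ := TSl.linear_form g (by omega)
      have hpd : pderiv l g = C (c l) := by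
        rw [hgc, map_add, pderiv_C, zero_add, map_sum, Finset.sum_eq_single l]
        · rw [pderiv_C_mul, pderiv_X_self, mul_one]
        · intro b _ hb
          rw [pderiv_C_mul, pderiv_X_of_ne hb, mul_zero]
        · intro h'
          exact absurd (Finset.mem_univ l) h'
      have hcl : c l ≠ 0 := by
        intro h0
        apply hl
        rw [hh, pderiv_mul, map_add, map_mul, map_mul, hy, hpd, h0, map_zero, map_zero]
        ring
      let φ : ι → MvPolynomial ι K := fun m => if m = l then X l - C (c l)⁻¹ * g else X m
      have hφl : φ l = X l - C (c l)⁻¹ * g := if_pos rfl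
      have hφm : ∀ m, m ≠ l → φ m = X m := fun m hm => if_neg hm
      have hφg : aeval φ g = 0 := by
        have h1 : aeval φ g = C c0 + ∑ m, C (c m) * φ m := by
          conv_lhs => rw [hgc]
          rw [map_add, map_sum, aeval_C]
          congr 1
          refine Finset.sum_congr rfl fun m _ => ?_
          rw [map_mul, aeval_C, aeval_X]
          rfl
        have h2 : ∑ m, C (c m) * φ m = ∑ m, C (c m) * X m - g := by
          rw [← Finset.add_sum_erase _ _ (Finset.mem_univ l),
            ← Finset.add_sum_erase _ (fun m => C (c m) * X m) (Finset.mem_univ l), hφl]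
          have h3 : ∑ m ∈ Finset.univ.erase l, C (c m) * φ m =
              ∑ m ∈ Finset.univ.erase l, C (c m) * X m :=
            Finset.sum_congr rfl fun m hm => by rw [hφm m (Finset.ne_of_mem_erase hm)]
          rw [h3]
          have h4 : (C (c l) : MvPolynomial ι K) * C (c l)⁻¹ = 1 := by
            rw [← map_mul, mul_inv_cancel₀ hcl, map_one]
          linear_combination (-g) * h4
        rw [h1, h2]
        linear_combination -hgc
      have hev : ∀ (u : ι → K) (k : MvPolynomial ι K),
          eval u (aeval φ k) = eval (fun m => eval u (φ m)) k := by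
        intro u k
        rw [← aeval_eq_eval, ← aeval_eq_eval, ← AlgHom.comp_apply]
        congr 1
        apply algHom_ext
        intro m
        rw [AlgHom.comp_apply, aeval_X, aeval_X, aeval_eq_eval]
      have hc2 : Continuous fun z : ι → L => eval₂ σ z g := by
        have h1 : (fun z : ι → L => eval₂ σ z g) = fun z => eval z (MvPolynomial.map σ g) := by
          funext z
          rw [eval_map]
        rw [h1]
        exact MvPolynomial.continuous_eval _
      have hσe : ∀ u : ι → K, eval₂ σ (fun i => σ (u i)) g = σ (eval u g) := by
        intro u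
        exact (MvPolynomial.eval₂_comp σ u g).symm
      let Φ : (ι → L) → (ι → L) := fun x m =>
        if m = l then x l - σ (c l)⁻¹ * eval₂ σ x g else x m
      have hΦc : Continuous Φ := by
        refine continuous_pi fun m => ?_
        by_cases hm : m = l
        · have : (fun x : ι → L => Φ x m) = fun x => x l - σ (c l)⁻¹ * eval₂ σ x g := by
            funext x
            exact if_pos hm
          rw [this]
          exact (continuous_apply l).sub (continuous_const.mul hc2)
        · have : (fun x : ι → L => Φ x m) = fun x => x m := by
            funext x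
            exact if_neg hm
          rw [this]
          exact continuous_apply m
      have hΦσ : ∀ u : ι → K, Φ (fun i => σ (u i)) = fun m => σ (eval u (φ m)) := by
        intro u
        funext m
        by_cases hm : m = l
        · subst hm
          rw [hφl, map_sub, map_mul, eval_X, eval_C, map_sub, map_mul, ← hσe u]
          exact if_pos rfl
        · rw [hφm m hm, eval_X]
          exact if_neg hm
      have hφy : ∀ m, eval y (φ m) = y m := by
        intro m
        by_cases hm : m = l
        · subst hm
          rw [hφl, map_sub, map_mul, eval_X, hy, mul_zero, sub_zero]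
        · rw [hφm m hm, eval_X]
      have hVn : Φ ⁻¹' U ∈ nhds (fun i => σ (y i)) := by
        apply hΦc.continuousAt.preimage_mem_nhds
        rw [hΦσ]
        simpa only [hφy] using hU
      have hφf : aeval φ f = 0 := by
        apply eq_zero_of_open σ hσ hVn
        intro u hu
        rw [hev]
        apply hf
        · rw [← hev, hφg, map_zero]
        · have h1 : Φ (fun i => σ (u i)) ∈ U := hu
          rwa [hΦσ] at h1
      have hdvd := dvd_sub_aeval g φ X (fun m => by
        by_cases hm : m = l
        · subst hm
          rw [hφl]
          exact ⟨-C (c m)⁻¹, by ring⟩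
        · rw [hφm m hm, sub_self]
          exact dvd_zero g) f
      rw [hφf, zero_sub, aeval_X_left_apply, dvd_neg] at hdvd
      exact hdvd

end Pool.Agent.R383.MQ

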