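import Pool.Agent.R383.MQ.Stm3

/-! The dimension of a hypersurface. -/

set_option autoImplicit false

namespace Pool.Agent.R383.MQ

open MvPolynomial

theorem tTRDEG : T_TRDEG := by
  intro K _ ι _ F hF
  classical
  have hp : (Ideal.span {F}).IsPrime := (Ideal.span_singleton_prime hF.ne_zero).2 hF
  have : IsDomain (MvPolynomial ι K ⧸ Ideal.span {F}) := Ideal.Quotient.isDomain _
  let x : ι → MvPolynomial ι K ⧸ Ideal.span {F} := fun i => Ideal.Quotient.mk _ (X i)
  have haev : (aeval x : MvPolynomial ι K →ₐ[K] MvPolynomial ι K ⧸ Ideal.span {F}) =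
      Ideal.Quotient.mkₐ K (Ideal.span {F}) := by
    apply MvPolynomial.algHom_ext
    intro i
    rw [aeval_X]
    rfl
  have hadj : Algebra.adjoin K (Set.range x) = ⊤ := by
    rw [Algebra.adjoin_range_eq_range_aeval, haev, AlgHom.range_eq_top]
    exact Ideal.Quotient.mk_surjective
  have : Algebra.IsAlgebraic (Algebra.adjoin K (Set.range x))
      (MvPolynomial ι K ⧸ Ideal.span {F}) := by
    refine ⟨fun a => ?_⟩
    have ha : a ∈ Algebra.adjoin K (Set.range x) := by rw [hadj]; trivial
    exact isAlgebraic_algebraMap (⟨a, ha⟩ : Algebra.adjoin K (Set.range x))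
  obtain ⟨t, ht, hb⟩ := exists_isTranscendenceBasis_subset (R := K) (Set.range x)
  have : Finite t := (Set.finite_range x).subset ht
  have : Fintype t := Fintype.ofFinite t
  rw [← hb.cardinalMk_eq_trdeg, Cardinal.mk_fintype, Nat.cast_le]
  choose g hg using fun u : t => ht u.2
  have hgi : Function.Injective g := by
    intro u v huv
    apply Subtype.ext
    rw [← hg u, ← hg v, huv]
  have hgs : ¬ Function.Surjective g := by
    intro hs
    let e : t ≃ ι := Equiv.ofBijective g ⟨hgi, hs⟩
    have h1 : AlgebraicIndependent K (fun i : ι => ((e.symm i : t) : MvPolynomial ι K ⧸ Ideal.span {F})) :=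
      hb.1.comp e.symm e.symm.injective
    have h2 : (fun i : ι => ((e.symm i : t) : MvPolynomial ι K ⧸ Ideal.span {F})) = x := by
      funext i
      rw [← hg (e.symm i)]
      exact congrArg x (e.apply_symm_apply i)
    rw [h2, algebraicIndependent_iff] at h1
    refine hF.ne_zero (h1 F ?_)
    rw [haev]
    exact Ideal.Quotient.eq_zero_iff_mem.2 (Ideal.mem_span_singleton_self F)
  have h3 := Fintype.card_lt_of_injective_not_surjective g hgi hgs
  have h4 : Fintype.card t ≤ Fintype.card ι - 1 := Nat.le_sub_one_of_lt h3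
  refine le_trans (le_of_eq ?_) h4
  exact Fintype.card_congr (Equiv.refl _)

end Pool.Agent.R383.MQ
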