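import Pool.Agent.R383.MQ.Stm5
import Pool.Agent.R383.MQ.HOM

/-! The conjugated fields are rationally integrable. -/

set_option autoImplicit false

namespace Pool.Agent.R383.MQ

open MvPolynomial Pool.Agent.TH178.MZ

namespace UIntAux

variable {K : Type} [Field K] {ι κ : Type}

/-- Pulling back a rational curve along a polynomial. -/
theorem pull (V : Derivation K (MvPolynomial ι K) (MvPolynomial ι K)) (num : ι → Polynomial K)
    (den : Polynomial K) (c : K) (z : ι → K) (h0 : den.eval 0 ≠ 0)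
    (h1 : ∀ l, (num l).eval 0 = den.eval 0 * z l)
    (h2 : ∀ l, (num l).derivative.eval 0 = den.derivative.eval 0 * z l + c * valueAt z V l)
    (P : MvPolynomial ι K) : ∃ D₀ : ℕ, ∀ D ≥ D₀, ∃ N : Polynomial K,
      (∀ t, den.eval t ≠ 0 → N.eval t = den.eval t ^ D *
        eval (fun l => (num l).eval t / den.eval t) P) ∧
      N.derivative.eval 0 * den.eval 0 = D * den.eval 0 ^ D * den.derivative.eval 0 * eval z P +
        c * den.eval 0 ^ D * eval z (V P) := by
  have hz : (fun l => (num l).eval 0 / den.eval 0) = z := by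
    funext l
    rw [h1, mul_div_cancel_left₀ _ h0]
  induction P using MvPolynomial.induction_on with
  | C a =>
    refine ⟨0, fun D _ => ⟨Polynomial.C a * den ^ D, fun t _ => ?_, ?_⟩⟩
    · rw [Polynomial.eval_mul, Polynomial.eval_C, Polynomial.eval_pow, eval_C, mul_comm]
    · have hV : V (C a) = 0 := by
        rw [← algebraMap_eq]
        exact V.map_algebraMap a
      rw [hV, map_zero, eval_C]
      rcases Nat.eq_zero_or_pos D with rfl | hD
      · simp
      · obtain ⟨k, rfl⟩ : ∃ k, D = k + 1 := ⟨D - 1, by omega⟩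
        simp [Polynomial.derivative_pow]
        ring
  | add p q hp hq =>
    obtain ⟨D1, hD1⟩ := hp
    obtain ⟨D2, hD2⟩ := hq
    refine ⟨max D1 D2, fun D hD => ?_⟩
    obtain ⟨N1, a1, b1⟩ := hD1 D ((le_max_left _ _).trans hD)
    obtain ⟨N2, a2, b2⟩ := hD2 D ((le_max_right _ _).trans hD)
    refine ⟨N1 + N2, fun t ht => ?_, ?_⟩
    · rw [Polynomial.eval_add, a1 t ht, a2 t ht, map_add]
      ring
    · rw [Polynomial.derivative_add, Polynomial.eval_add, map_add, map_add, map_add]
      linear_combination b1 + b2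
  | mul_X p i hp =>
    obtain ⟨D1, hD1⟩ := hp
    refine ⟨D1 + 1, fun D hD => ?_⟩
    obtain ⟨k, rfl⟩ : ∃ k, D = k + 1 := ⟨D - 1, by omega⟩
    obtain ⟨N1, a1, b1⟩ := hD1 k (by omega)
    refine ⟨N1 * num i, fun t ht => ?_, ?_⟩
    · rw [Polynomial.eval_mul, a1 t ht, map_mul, eval_X]
      field_simp
      ring
    · have a0 := a1 0 h0
      rw [hz] at a0
      have hV : eval z (V (p * X i)) = eval z p * valueAt z V i + z i * eval z (V p) := by
        rw [Derivation.leibniz, map_add, smul_eq_mul, smul_eq_mul, map_mul, map_mul, eval_X,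
          valueAt_apply]
      rw [hV, Polynomial.derivative_mul, Polynomial.eval_add, Polynomial.eval_mul,
        Polynomial.eval_mul, a0, h1, h2, map_mul, eval_X]
      push_cast
      linear_combination (den.eval 0 * z i) * b1

/-- Scaling one slot. -/
theorem scale_slot [Fintype ι] [DecidableEq κ] (s : ι → κ) (F : MvPolynomial ι K)
    (hF : IsMQ s F) (j : κ) (w : ι → K) (hw : eval w F = 0) (a : K) :
    eval (fun m => if s m = j then a * w m else w m) F = 0 := by
  have hq : (res s j w F).IsHomogeneous 2 := (sHOM s j w).1 F hF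
  have e0 : (fun m => if s m = j then a * w m else w m) = mix s j (fun m => a * w m) w := by
    funext m
    rfl
  rw [e0, ← eval_res, eval_mul_of_hom hq, eval_res, Hm.mix_self, hw, mul_zero]

end UIntAux

open UIntAux in
theorem uINT : T_INT → U_IVL → U_INT := by
  intro hT hI K _ _ ι κ _ _ s F hF j e l l' hl hlj y hy hV
  classical
  obtain ⟨V, hVd⟩ : ∃ V, V = fld F l l' := ⟨_, rfl⟩
  obtain ⟨Φ, hΦ⟩ : ∃ Φ, Φ = ivl s F j e := ⟨_, rfl⟩
  obtain ⟨z, hzd⟩ : ∃ z : ι → K, z = fun m => eval y (Φ m) := ⟨_, rfl⟩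
  obtain ⟨ε, hε⟩ : ∃ ε, ε = eval y (sub s j e F) := ⟨_, rfl⟩
  have hcomp : ∀ P : MvPolynomial ι K, eval y (aeval Φ P) = eval z P := by
    intro P
    rw [hzd, ← aeval_eq_eval, ← aeval_eq_eval, ← AlgHom.comp_apply]
    congr 1
    apply algHom_ext
    intro m
    rw [AlgHom.comp_apply, aeval_X, aeval_X]
  have hval : ∀ m, valueAt y (fldE s F j e l l') m = if s m = j then
      ε * eval z (V (Φ m)) else ε ^ 3 * eval z (V (X m)) := by
    intro m
    rw [valueAt_apply, fldE, mkDerivation_X, ← hVd, ← hΦ]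
    split_ifs
    · rw [map_mul, hcomp, hε]
    · rw [map_mul, hcomp, map_pow, hε]
  have hε0 : ε ≠ 0 := by
    intro h
    apply hV
    funext m
    rw [hval, h]
    simp
  have hVz : valueAt z V ≠ 0 := by
    intro h
    apply hV
    have h0 : ∀ P, eval z (V P) = 0 := by
      intro P
      rw [Pool.Agent.W572.derivation_eq_sum V P, map_sum]
      refine Finset.sum_eq_zero fun l _ => ?_
      rw [map_mul, show eval z (V (X l)) = 0 from congrFun h l, mul_zero]
    funext m
    rw [hval, h0, h0]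
    simp
  obtain ⟨hzS, hzz⟩ := hI s F hF j e y hy
  rw [← hΦ, ← hε] at hzz
  rw [← hΦ, ← hzd] at hzS
  rw [← hzd] at hzz
  obtain ⟨num, den, c, hd, hc, hn0, hn1, hcur⟩ := hT s F hF l l' hl z hzS (by rw [← hVd]; exact hVz)
  rw [← hVd] at hn1
  choose D₀ hD₀ using pull V num den c z hd hn0 hn1
  obtain ⟨k, hk⟩ : ∃ k, k = ∑ m, D₀ (Φ m) := ⟨_, rfl⟩
  have hkm : ∀ m, k + 1 ≥ D₀ (Φ m) := by
    intro m
    rw [hk]
    exact (Finset.single_le_sum (f := fun m => D₀ (Φ m)) (fun _ _ => Nat.zero_le _)
      (Finset.mem_univ m)).trans (Nat.le_succ _)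
  choose N hN hN' using fun m => hD₀ (Φ m) (k + 1) (hkm m)
  have hz0 : (fun l => (num l).eval 0 / den.eval 0) = z := by
    funext l
    rw [hn0, mul_div_cancel_left₀ _ hd]
  have hN0 : ∀ m, (N m).eval 0 = den.eval 0 ^ (k + 1) * (if s m = j then ε ^ 2 * y m else y m) := by
    intro m
    rw [hN m 0 hd, hz0, hzz]
  have hN1 : ∀ m, (N m).derivative.eval 0 = (k + 1) * den.eval 0 ^ k * den.derivative.eval 0 *
      (if s m = j then ε ^ 2 * y m else y m) + c * den.eval 0 ^ k * eval z (V (Φ m)) := by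
    intro m
    have h1 := hN' m
    rw [hzz] at h1
    apply mul_right_cancel₀ hd
    rw [h1]
    push_cast
    ring
  refine ⟨fun m => Polynomial.C (if s m = j then (ε ^ 2)⁻¹ else 1) * N m, den ^ (k + 1),
    c * den.eval 0 ^ k * (ε ^ 3)⁻¹, ?_, ?_, ?_, ?_, ?_⟩
  · rw [Polynomial.eval_pow]
    exact pow_ne_zero _ hd
  · exact mul_ne_zero (mul_ne_zero hc (pow_ne_zero _ hd)) (inv_ne_zero (pow_ne_zero _ hε0))
  · intro m
    rw [Polynomial.eval_mul, Polynomial.eval_C, Polynomial.eval_pow, hN0]
    split_ifs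
    · field_simp
    · ring
  · intro m
    rw [Polynomial.derivative_C_mul, Polynomial.eval_C_mul, hN1, hval, Polynomial.derivative_pow]
    by_cases hm : s m = j
    · simp only [if_pos hm]
      simp
      field_simp
    · have e1 : Φ m = X m := by
        rw [hΦ]
        unfold ivl
        rw [if_neg hm]
      simp only [if_neg hm, e1]
      simp
      field_simp
  · intro t ht
    rw [Polynomial.eval_pow] at ht
    have ht' : den.eval t ≠ 0 := fun h => ht (by rw [h]; exact zero_pow (Nat.succ_ne_zero k))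
    show eval _ F = 0
    obtain ⟨h1, -⟩ := hI s F hF j e _ (hcur t ht')
    rw [← hΦ] at h1
    have h2 := scale_slot s F hF j _ h1 (ε ^ 2)⁻¹
    have h3 : (fun m => (Polynomial.C (if s m = j then (ε ^ 2)⁻¹ else 1) * N m).eval t /
        (den ^ (k + 1)).eval t) = fun m => if s m = j then (ε ^ 2)⁻¹ *
          eval (fun l => (num l).eval t / den.eval t) (Φ m) else
          eval (fun l => (num l).eval t / den.eval t) (Φ m) := by
      funext m
      rw [Polynomial.eval_C_mul, Polynomial.eval_pow, hN m t ht']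
      split_ifs
      · field_simp
      · field_simp
    rw [h3]
    exact h2

end Pool.Agent.R383.MQ
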