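import Pool.Agent.R383.MQ.Stm5
import Pool.Agent.R383.MQ.HOM

/-! The second point of intersection. -/

set_option autoImplicit false

namespace Pool.Agent.R383.MQ

open MvPolynomial Pool.Agent.TH178.MZ

namespace Uivl

variable {K : Type} [Field K] [CharZero K] {ι κ : Type} [Fintype ι] [DecidableEq κ]

theorem mix_congr (s : ι → κ) (j : κ) (x x' z : ι → K) (h : ∀ l, s l = j → x l = x' l) :
    mix s j x z = mix s j x' z := by
  funext l
  unfold mix
  split_ifs with h1
  · exact h l h1
  · rfl

theorem mix_right (s : ι → κ) (j : κ) (x z z' : ι → K) (h : ∀ l, s l ≠ j → z l = z' l) :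
    mix s j x z = mix s j x z' := by
  funext l
  unfold mix
  split_ifs with h1
  · rfl
  · exact h l h1

theorem bil_eq (s : ι → κ) (F : MvPolynomial ι K) (hF : IsMQ s F) (j : κ) (e z x : ι → K) :
    (∑ m, if s m = j then e m * eval (mix s j x z) (pderiv m F) else 0) =
      bil (res s j z F) x (fun m => if s m = j then e m else 0) := by
  have hq := (sHOM s j z).1 F hF
  rw [bil_symm, bil]
  refine Finset.sum_congr rfl fun m _ => ?_
  by_cases hm : s m = j
  · rw [if_pos hm]
    have h1 := aeval_pderiv (A := K) hq m x
    rw [aeval_eq_eval, Hm.pd_res s j z F m hm, eval_res] at h1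
    rw [h1, Finset.mul_sum]
    refine Finset.sum_congr rfl fun k _ => ?_
    rw [if_pos hm]
    ring
  · rw [if_neg hm]
    symm
    refine Finset.sum_eq_zero fun k _ => ?_
    rw [if_neg hm]
    ring

end Uivl

open Uivl in
theorem uIVL : U_IVL := by
  intro K _ _ ι κ _ _ s F hF j e z hz
  classical
  have hq := (sHOM s j z).1 F hF
  set q := res s j z F with hqd
  set e' : ι → K := fun m => if s m = j then e m else 0 with he'
  set E : K := eval z (sub s j e F) with hE
  set B : K := ∑ m, if s m = j then e m * eval z (pderiv m F) else 0 with hB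
  set z' : ι → K := fun m => eval z (ivl s F j e m) with hz'
  have hz1 : ∀ m, s m = j → z' m = E * z m - B * e m := by
    intro m hm
    rw [hz']
    simp only [ivl, if_pos hm, map_sub, map_mul, eval_X, eval_C]
    rw [← hE]
    congr 2
    rw [map_sum, hB]
    refine Finset.sum_congr rfl fun k _ => ?_
    split_ifs
    · rw [map_mul, eval_C]
    · rw [map_zero]
  have hz2 : ∀ m, s m ≠ j → z' m = z m := by
    intro m hm
    rw [hz']
    simp only [ivl, if_neg hm, eval_X]
  have hEe : eval e' q = E := by
    rw [hqd, eval_res, hE, eval_sub', mix_congr s j e' e z]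
    intro l hl
    rw [he']
    simp only [if_pos hl]
  have hBz : B = bil q z e' := by
    have h := bil_eq s F hF j e z z
    rw [Hm.mix_self] at h
    exact h
  have hqz : eval z q = 0 := by
    rw [hqd, eval_res, Hm.mix_self, hz]
  -- the point with the same coordinates in the slot
  set z'' : ι → K := fun l => E * z l + (-B) * e' l with hz''
  have hmix : mix s j z'' z = z' := by
    funext l
    unfold mix
    by_cases hl : s l = j
    · rw [if_pos hl, hz1 l hl, hz'', he']
      simp only [if_pos hl]
      ring
    · rw [if_neg hl, hz2 l hl]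
  have hbz'' : bil q z'' e' = -(E * B) := by
    rw [hz'', bil_lin, ← hBz]
    have h2 := two_aeval (A := K) hq e'
    rw [aeval_eq_eval, hEe] at h2
    rw [← h2]
    ring
  refine ⟨?_, ?_⟩
  · have h1 : eval z' F = eval z'' q := by
      rw [hqd, eval_res, hmix]
    rw [h1]
    have h2 := aeval_comb (A := K) hq z e' E (-B)
    rw [aeval_eq_eval, aeval_eq_eval, aeval_eq_eval, hqz, hEe, ← hBz] at h2
    rw [hz'', h2]
    ring
  · intro m
    by_cases hm : s m = j
    · rw [if_pos hm]
      have hE' : eval z' (sub s j e F) = E := by
        rw [hE, eval_sub', eval_sub', mix_right s j e z' z hz2]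
      have hB' : (∑ k, if s k = j then e k * eval z' (pderiv k F) else 0) = -(E * B) := by
        have h := bil_eq s F hF j e z z''
        rw [hmix] at h
        rw [h]
        exact hbz''
      have h3 : eval z' (ivl s F j e m) = eval z' (sub s j e F) * z' m -
          (∑ k, if s k = j then e k * eval z' (pderiv k F) else 0) * e m := by
        simp only [ivl, if_pos hm, map_sub, map_mul, eval_X, eval_C]
        congr 2
        rw [map_sum]
        refine Finset.sum_congr rfl fun k _ => ?_
        split_ifs
        · rw [map_mul, eval_C]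
        · rw [map_zero]
      rw [h3, hE', hB', hz1 m hm]
      ring
    · rw [if_neg hm]
      simp only [ivl, if_neg hm, eval_X]
      exact hz2 m hm

end Pool.Agent.R383.MQ
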