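import Pool.Agent.R383.MQ.Near6
import Pool.Agent.R383.MQ.TINT
import Pool.Agent.R383.MQ.UIVL
import Pool.Agent.R383.MQ.UINT
import Pool.Agent.R383.MQ.TTRDEG
import Pool.Agent.R383.MQ.TSLICE

/-! The definitions used in the final statement. -/

set_option autoImplicit false

namespace Pool.Agent.R383.MQ

open MvPolynomial Pool.Agent.TH178.MZ Fn

/-- The `K`-points of the multicone over `X : F = 0`. -/
def ptsK {K : Type} [Field K] {r : ℕ} {a : Fin r → ℕ} (F : MvPolynomial (Idx a) K) :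
    Set (Idx a → K) := {y | eval y F = 0}

/-- The point with the multihomogeneous coordinates `x` is a limit of points of `T` (given by their
multihomogeneous coordinates, not all zero in any slot). -/
def LimitOf {K : Type} [Field K] {L : Type} [NontriviallyNormedField L] {r : ℕ} {a : Fin r → ℕ}
    (σ : K →+* L) (T : Set (Idx a → K)) (x : Idx a → L) : Prop :=
  ∀ U ∈ nhds x, ∃ y ∈ T, Pr y ∧ (fun l => σ (y l)) ∈ U

/-- The set `T` of multihomogeneous coordinates is finite up to scaling in each slot. -/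
def FiniteMod {K : Type} [Field K] {r : ℕ} {a : Fin r → ℕ} (T : Set (Idx a → K)) : Prop :=
  ∃ E : Finset (Idx a → K), ∀ y ∈ T, ∃ e ∈ E, ∃ t : Fin r → K, (∀ k, t k ≠ 0) ∧
    y = fun l => t l.1 * e l

/-- Mazur's question for hypersurfaces of multidegree `(2, ..., 2)`: the two cases. -/
theorem claim6 {K : Type} [Field K] [CharZero K] {L : Type} [NontriviallyNormedField L]
    (σ : K →+* L) (hσ : DenseRange σ) {r : ℕ} {a : Fin r → ℕ} {F : MvPolynomial (Idx a) K}
    (hF : IsMultiQuadratic F) (hirr : Irreducible F) {x : Idx a → L} (hx : Pr x) :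
    (LimitOf σ (ptsK F \ Exc6 F) x →
      locClos σ (ptsK F) x = (Ideal.span {F} : Set (MvPolynomial (Idx a) K))) ∧
    (¬ LimitOf σ (ptsK F \ Exc6 F) x → locClos σ (ptsK F) x = locClos σ (Exc6 F) x) := by
  constructor
  · intro h
    refine near6 tINT (uINT tINT uIVL) tTRDEG tSLICE σ hσ hF hirr.prime hx ?_
    intro U hU
    obtain ⟨y, ⟨hy, hyE⟩, hyP, hyU⟩ := h U hU
    refine ⟨y, hy, ?_, hyU⟩
    by_contra hs
    exact hyE ⟨hy, hyP, hs⟩
  · intro h
    refine far6 σ hσ hF hx ?_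
    unfold LimitOf at h
    push Not at h
    obtain ⟨U, hU, hUb⟩ := h
    refine ⟨U, hU, fun y hy hyP hyU => ?_⟩
    by_contra hyE
    exact hUb y ⟨hy, hyE⟩ hyP hyU

/-- Finiteness. -/
theorem claim6_finite {K : Type} [Field K] [CharZero K] {L : Type} [NontriviallyNormedField L]
    (σ : K →+* L) (hσ : DenseRange σ) {r : ℕ} {a : Fin r → ℕ} {F : MvPolynomial (Idx a) K}
    (hF : IsMultiQuadratic F) (hirr : Irreducible F) (hE : FiniteMod (Exc6 F)) :
    {J : Set (MvPolynomial (Idx a) K) | ∃ x : Idx a → L, Pr x ∧ eval₂ σ x F = 0 ∧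
      J = locClos σ (ptsK F) x}.Finite := by
  obtain ⟨-, h2⟩ := all6 tINT (uINT tINT uIVL) tTRDEG tSLICE σ hσ hF hirr.prime
  obtain ⟨E, hE⟩ := hE
  refine (h2 E hE).subset ?_
  rintro J ⟨x, hx, -, rfl⟩
  exact ⟨x, hx, rfl⟩

theorem claim6_empty {K : Type} [Field K] [CharZero K] {L : Type} [NontriviallyNormedField L]
    (σ : K →+* L) (hσ : DenseRange σ) {r : ℕ} {a : Fin r → ℕ} {F : MvPolynomial (Idx a) K}
    (hF : IsMultiQuadratic F) (hirr : Irreducible F) (hE : ∀ y ∈ ptsK F, Pr y →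
      SemiGoodU Sigma.fst F y) {x : Idx a → L} (hx : Pr x) :
    locClos σ (ptsK F) x = (Ideal.span {F} : Set (MvPolynomial (Idx a) K)) ∨
      locClos σ (ptsK F) x = Set.univ := by
  by_cases h : LimitOf σ (ptsK F \ Exc6 F) x
  · exact Or.inl ((claim6 σ hσ hF hirr hx).1 h)
  · right
    rw [(claim6 σ hσ hF hirr hx).2 h]
    have hE : Exc6 F = ∅ := by
      rw [Set.eq_empty_iff_forall_notMem]
      rintro y ⟨hy, hyP, hyS⟩
      exact hyS (hE y hy hyP)
    rw [hE]
    apply Set.eq_univ_of_forall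
    intro g
    exact ⟨Set.univ, Filter.univ_mem, fun y hy => absurd hy (Set.notMem_empty y)⟩

/-- `F = ∑_l X_{0,l}² P_l` where the forms `P_l` in the other slots do not vanish at rational points,
and three of them have, in each other slot and at each rational point, linearly independent
differentials. -/
def DiagT {K : Type} [Field K] {r : ℕ} {a : Fin (r + 1) → ℕ} (F : MvPolynomial (Idx a) K) : Prop :=
  2 ≤ a 0 ∧ ∃ P : Fin (a 0 + 1) → MvPolynomial (Idx a) K, F = ∑ l, X ⟨0, l⟩ ^ 2 * P l ∧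
    (∀ l j, pderiv (⟨0, j⟩ : Idx a) (P l) = 0) ∧ (∀ y : Idx a → K, Pr y → ∀ l, eval y (P l) ≠ 0) ∧
    ∃ l : Fin 3 → Fin (a 0 + 1), ∀ y : Idx a → K, Pr y → ∀ i, i ≠ 0 →
      LinearIndependent K fun (n : Fin 3) (j : Fin (a i + 1)) =>
        eval y (pderiv (⟨i, j⟩ : Idx a) (P (l n)))

end Pool.Agent.R383.MQ
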