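import Pool.Agent.R383.MQ.Claim6

/-! The family with empty exceptional set, final version. -/

set_option autoImplicit false

namespace Pool.Agent.R383.MQ

open MvPolynomial Pool.Agent.TH178.MZ Fn

/-- `F = ∑_l X_{0,l}² P_l` with `a_0 ≥ 2` and forms `P_l` in the other slots; at each rational point
`y` of `X` all `P_l` are not zero, and for each other slot `i` either the matrix of the derivatives
of the `P_l` in the slot `i` has rank at least three at `y`, or for some `e` the vectors of the
`P_l(y)`, of the `d_i P_l(y) e` and of the `P_l(e; y)` are linearly independent. -/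
def DiagW {K : Type} [Field K] {r : ℕ} {a : Fin (r + 1) → ℕ} (F : MvPolynomial (Idx a) K) : Prop :=
  2 ≤ a 0 ∧ ∃ P : Fin (a 0 + 1) → MvPolynomial (Idx a) K, F = ∑ l, X ⟨0, l⟩ ^ 2 * P l ∧
    (∀ l j, pderiv (⟨0, j⟩ : Idx a) (P l) = 0) ∧
    ∀ y : Idx a → K, eval y F = 0 → Pr y → (∀ l, eval y (P l) ≠ 0) ∧ ∀ i, i ≠ 0 →
      (∃ m : Fin 3 → Fin (a i + 1), LinearIndependent K fun (n : Fin 3) (l : Fin (a 0 + 1)) =>
        eval y (pderiv (⟨i, m n⟩ : Idx a) (P l))) ∨
      (∃ e : Idx a → K, LinearIndependent K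
        ![fun l : Fin (a 0 + 1) => eval y (P l),
          fun l => ∑ m : Fin (a i + 1), e ⟨i, m⟩ * eval y (pderiv (⟨i, m⟩ : Idx a) (P l)),
          fun l => eval (mix Sigma.fst i e y) (P l)])

end Pool.Agent.R383.MQ
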