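import Pool.Agent.R383.MQ.Slice
import Pool.Agent.TH178.MZ.Multi

/-! Polynomials which are quadratic forms in each of several groups of variables (slots):
definitions. -/

set_option autoImplicit false

namespace Pool.Agent.R383.MQ

open MvPolynomial

/-- The point with the coordinates of `z` in the slot `i` and those of `y` in the other slots
(`s l` is the slot of the coordinate `l`). -/
def mix {R ι κ : Type} [DecidableEq κ] (s : ι → κ) (i : κ) (z y : ι → R) : ι → R :=
  fun l => if s l = i then z l else y l

variable {K : Type} [Field K] {ι κ : Type} [DecidableEq κ]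

/-- Restriction to the slice through `y`: the variables of the slot `i` are kept, `y` is
substituted for the other variables. -/
noncomputable def res (s : ι → κ) (i : κ) (y : ι → K) : MvPolynomial ι K →ₐ[K] MvPolynomial ι K :=
  aeval (mix s i X (fun l => C (y l)))

/-- Substitution of `z` for the variables of the slot `i`. -/
noncomputable def sub (s : ι → κ) (i : κ) (z : ι → K) : MvPolynomial ι K →ₐ[K] MvPolynomial ι K :=
  aeval (mix s i (fun l => C (z l)) X)

/-- `F` is homogeneous of degree two in the variables of each slot. -/
def IsMQ [Fintype ι] (s : ι → κ) (F : MvPolynomial ι K) : Prop :=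
  ∀ i, ∀ m ∈ F.support, (∑ l, if s l = i then m l else 0) = 2

/-- In each slot the quadratic form `F (·; y)` has rank at least three: some `3 × 3` minor of its
matrix of second derivatives is not zero. -/
def MinorAt (s : ι → κ) (F : MvPolynomial ι K) (y : ι → K) : Prop :=
  ∀ i, ∃ l m : Fin 3 → ι, (∀ k, s (l k) = i) ∧ (∀ k, s (m k) = i) ∧
    (Matrix.of fun a b => eval y (pderiv (m b) (pderiv (l a) F))).det ≠ 0

/-- For all slots `i ≠ j` the biquadratic form `F (·, ·; y)` in the slots `j` and `i` is not a sum
of two products of a form in the slot `j` and a form in the slot `i`. -/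
def RankAt (s : ι → κ) (F : MvPolynomial ι K) (y : ι → K) : Prop :=
  ∀ i j, i ≠ j → ∃ u v : Fin 3 → ι → K,
    (Matrix.of fun a b => eval (mix s j (u a) (mix s i (v b) y)) F).det ≠ 0

/-- In each slot some partial derivative of `F` is not zero at `y`. -/
def NonsingAt (s : ι → κ) (F : MvPolynomial ι K) (y : ι → K) : Prop :=
  ∀ i, ∃ l, s l = i ∧ eval y (pderiv l F) ≠ 0

/-- For some slot `j` some partial derivative with respect to a variable of the slot `j` is not
zero at `y`, and for each other slot `i` some partial derivative of `F` with respect to a variable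
of the slot `i`, as a quadratic form in the variables of the slot `j`, is not proportional to the
form `F (·; y)`. -/
def SemiAt (s : ι → κ) (F : MvPolynomial ι K) (y : ι → K) : Prop :=
  ∃ j, (∃ l, s l = j ∧ eval y (pderiv l F) ≠ 0) ∧ ∀ i, i ≠ j → ∃ l, s l = i ∧
    ∃ z z' : ι → K, eval (mix s j z y) F * eval (mix s j z' y) (pderiv l F) ≠
      eval (mix s j z' y) F * eval (mix s j z y) (pderiv l F)

theorem eval_res (s : ι → κ) (i : κ) (y x : ι → K) (F : MvPolynomial ι K) :
    eval x (res s i y F) = eval (mix s i x y) F := by
  rw [res, ← aeval_eq_eval, ← aeval_eq_eval, ← AlgHom.comp_apply]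
  congr 1
  apply algHom_ext
  intro l
  rw [AlgHom.comp_apply, aeval_X, aeval_X]
  unfold mix
  split_ifs
  · rw [aeval_X]
  · rw [aeval_C]; rfl

theorem eval_sub' (s : ι → κ) (i : κ) (z x : ι → K) (F : MvPolynomial ι K) :
    eval x (sub s i z F) = eval (mix s i z x) F := by
  rw [sub, ← aeval_eq_eval, ← aeval_eq_eval, ← AlgHom.comp_apply]
  congr 1
  apply algHom_ext
  intro l
  rw [AlgHom.comp_apply, aeval_X, aeval_X]
  unfold mix
  split_ifs
  · rw [aeval_C]; rfl
  · rw [aeval_X]

end Pool.Agent.R383.MQ
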