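import Pool.Agent.R383.MQ.Stm

/-! Elimination of a variable (helper209). -/

set_option autoImplicit false

namespace Pool.Agent.R383.MQ

open MvPolynomial

/-- Bezout's relation with a constant on the right hand side. -/
theorem elim_bezout {S : Type} [CommRing S] [IsDomain S] [UniqueFactorizationMonoid S]
    (g q : Polynomial S) (hg : Irreducible g) (hdeg : g.natDegree ≠ 0) (hgq : ¬ g ∣ q) :
    ∃ (u v : Polynomial S) (r : S), r ≠ 0 ∧ u * g + v * q = Polynomial.C r := by
  classical
  let _ : StrongNormalizationMonoid S := UniqueFactorizationMonoid.strongNormalizationMonoid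
  let _ : StrongNormalizedGCDMonoid S := UniqueFactorizationMonoid.toStrongNormalizedGCDMonoid S
  have hinj : Function.Injective (algebraMap S (FractionRing S)) :=
    IsFractionRing.injective S (FractionRing S)
  have hprim : g.IsPrimitive := hg.isPrimitive hdeg
  have hmap : Irreducible (g.map (algebraMap S (FractionRing S))) :=
    (hprim.irreducible_iff_irreducible_map_fraction_map (K := FractionRing S)).mp hg
  have hnd : ¬ g.map (algebraMap S (FractionRing S)) ∣ q.map (algebraMap S (FractionRing S)) := by
    intro hdvd
    apply hgq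
    by_cases hq0 : q = 0
    · rw [hq0]; exact dvd_zero g
    rw [q.eq_C_content_mul_primPart] at hdvd ⊢
    rw [Polynomial.map_mul, Polynomial.map_C] at hdvd
    have hu : IsUnit (Polynomial.C (algebraMap S (FractionRing S) q.content)) := by
      rw [Polynomial.isUnit_C]
      rw [isUnit_iff_ne_zero]
      intro h
      have h5 := hinj (h.trans (map_zero _).symm)
      exact hq0 (Polynomial.content_eq_zero_iff.mp h5)
    have h6 := (hu.dvd_mul_left).mp hdvd
    exact dvd_mul_of_dvd_right (hprim.dvd_of_fraction_map_dvd_fraction_map h6) _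
  obtain ⟨a, b, hab⟩ := (hmap.coprime_iff_not_dvd).mpr hnd
  obtain ⟨c, hc, hca⟩ := IsLocalization.integerNormalization_spec (nonZeroDivisors S) a
  obtain ⟨d, hd, hdb⟩ := IsLocalization.integerNormalization_spec (nonZeroDivisors S) b
  refine ⟨Polynomial.C d * IsLocalization.integerNormalization (nonZeroDivisors S) a,
    Polynomial.C c * IsLocalization.integerNormalization (nonZeroDivisors S) b, c * d,
    mul_ne_zero (nonZeroDivisors.ne_zero hc) (nonZeroDivisors.ne_zero hd), ?_⟩
  apply Polynomial.map_injective _ hinj
  rw [Polynomial.map_add, Polynomial.map_mul, Polynomial.map_mul, Polynomial.map_mul,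
    Polynomial.map_mul, Polynomial.map_C, Polynomial.map_C, Polynomial.map_C, hca, hdb,
    Algebra.smul_def, Algebra.smul_def, Polynomial.algebraMap_apply,
    Polynomial.algebraMap_apply, map_mul, Polynomial.C_mul]
  linear_combination (Polynomial.C (algebraMap S (FractionRing S) c) *
    Polynomial.C (algebraMap S (FractionRing S) d)) * hab

theorem sELIM : S_ELIM := by
  intro K _ ι _ _ F f l hF hFf hl
  let E : MvPolynomial ι K ≃ₐ[K] Polynomial (MvPolynomial {j : ι // j ≠ l} K) :=
    (renameEquiv K (Equiv.optionSubtypeNe l).symm).trans (optionEquivLeft K {j : ι // j ≠ l})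
  have hnat : ∀ P : MvPolynomial ι K, (E P).natDegree = P.degreeOf l := by
    intro P
    change ((renameEquiv K (Equiv.optionSubtypeNe l).symm).trans
      (optionEquivLeft K {j : ι // j ≠ l}) P).natDegree = _
    rw [AlgEquiv.trans_apply, natDegree_optionEquivLeft, renameEquiv_apply,
      ← Equiv.optionSubtypeNe_symm_self l]
    exact degreeOf_rename_of_injective (Equiv.injective _) l
  have hirr : Irreducible (E F) := (MulEquiv.irreducible_iff E).2 hF.irreducible
  have hdvd : ¬ E F ∣ E f := by
    rintro ⟨g, hg⟩
    apply hFf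
    refine ⟨E.symm g, E.injective ?_⟩
    rw [map_mul, AlgEquiv.apply_symm_apply, hg]
  obtain ⟨u, v, r, hr, huv⟩ := elim_bezout (E F) (E f) hirr (by rw [hnat]; exact hl) hdvd
  have hE : E (E.symm u * F + E.symm v * f) = Polynomial.C r := by
    rw [map_add, map_mul, map_mul, AlgEquiv.apply_symm_apply, AlgEquiv.apply_symm_apply, huv]
  refine ⟨E.symm u, E.symm v, fun h0 => ?_, ?_⟩
  · rw [h0, map_zero] at hE
    exact hr (Polynomial.C_eq_zero.1 hE.symm)
  · rw [← hnat, hE, Polynomial.natDegree_C]

end Pool.Agent.R383.MQ
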