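import Pool.Agent.R383.MQ.Stm

/-! From cones to closures in products of projective spaces. -/

set_option autoImplicit false

namespace Pool.Agent.R383.MQ

open MvPolynomial Pool.Agent.TH178.MZ

namespace Fn

variable {K : Type} [Field K] {L : Type} [NontriviallyNormedField L] {r : ℕ} {a : Fin r → ℕ}

/-- the weights of the torus action -/
def wt (a : Fin r → ℕ) (l : Idx a) (k : Fin r) : ℕ := if l.1 = k then 1 else 0

theorem scale_wt {R : Type} [CommMonoid R] (t : Fin r → R) (y : Idx a → R) :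
    scale (wt a) t y = fun l => t l.1 * y l := by
  funext l
  simp only [scale, wt]
  congr 1
  rw [Finset.prod_eq_single l.1]
  · simp
  · intro k _ hk
    rw [if_neg (Ne.symm hk), pow_zero]
  · intro h
    exact absurd (Finset.mem_univ _) h

/-- proper points -/
def Pr {R : Type} [Zero R] (y : Idx a → R) : Prop := ∀ k, ∃ j, y ⟨k, j⟩ ≠ 0

theorem isOpen_pr (a : Fin r → ℕ) : IsOpen {x : Idx a → L | Pr x} := by
  have h : {x : Idx a → L | Pr x} = ⋂ i, ⋃ j, {x | x ⟨i, j⟩ ≠ 0} := by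
    ext x
    simp [Pr]
  rw [h]
  refine isOpen_iInter_of_finite fun i => isOpen_iUnion fun j => ?_
  exact isOpen_ne_fun (continuous_apply _) continuous_const

theorem pr_of (σ : K →+* L) {y : Idx a → K} (h : Pr fun l => σ (y l)) : Pr y := by
  intro k
  obtain ⟨j, hj⟩ := h k
  refine ⟨j, fun h0 => hj ?_⟩
  beta_reduce
  rw [h0, map_zero]

theorem scale_pr {R : Type} [Field R] {y : Idx a → R} (hy : Pr y) {t : Fin r → R}
    (ht : ∀ k, t k ≠ 0) : Pr (fun l => t l.1 * y l) := by
  intro i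
  obtain ⟨j, hj⟩ := hy i
  exact ⟨j, mul_ne_zero (ht i) hj⟩

theorem loc_eq (σ : K →+* L) (hσ : DenseRange σ) {T : Set (Idx a → K)}
    (hT : ∀ y ∈ T, ∀ t : Fin r → K, (∀ k, t k ≠ 0) → (fun l => t l.1 * y l) ∈ T)
    {x : Idx a → L} (hx : Pr x) : locClos σ T x = localIdeal σ T x := by
  have h1 := coneIdeal_eq σ hσ (wt a) (S := {y | y ∈ T ∧ Pr y}) (by
      rintro y ⟨hyT, hyP⟩ t ht
      rw [scale_wt]
      exact ⟨hT y hyT t ht, scale_pr hyP ht⟩) x
  have h2 : locClos σ T x = {g : MvPolynomial (Idx a) K | ∃ U ∈ nhds x,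
      ∀ y ∈ {y | y ∈ T ∧ Pr y},
      (∃ c : Fin r → L, (∀ k, c k ≠ 0) ∧ scale (wt a) c (fun i => σ (y i)) ∈ U) →
        ∀ t : Fin r → K, eval (scale (wt a) t y) g = 0} := by
    ext g
    simp only [scale_wt]
    constructor
    · rintro ⟨U, hU, hg⟩
      exact ⟨U, hU, fun y hy => hg y hy.1 hy.2⟩
    · rintro ⟨U, hU, hg⟩
      exact ⟨U, hU, fun y hy hyP => hg y ⟨hy, hyP⟩⟩
  rw [h2, h1]
  refine localIdeal_congr σ (U := {z | Pr z}) ((isOpen_pr a).mem_nhds hx) ?_
  intro y hy
  exact ⟨fun h => h.1, fun h => ⟨h, pr_of σ hy⟩⟩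

theorem isMQ_of {F : MvPolynomial (Idx a) K} (hF : IsMultiQuadratic F) :
    IsMQ Sigma.fst F := by
  intro i m hm
  rw [Fintype.sum_sigma, Finset.sum_eq_single i]
  · simp only [if_true]
    exact hF m hm i
  · intro k _ hk
    simp [hk]
  · intro h
    exact absurd (Finset.mem_univ _) h

/-- dilation -/
noncomputable def dil (t : Fin r → K) : MvPolynomial (Idx a) K →ₐ[K] MvPolynomial (Idx a) K :=
  aeval (fun l : Idx a => C (t l.1) * (X l : MvPolynomial (Idx a) K))

theorem eval_dil (t : Fin r → K) (z : Idx a → K) (g : MvPolynomial (Idx a) K) :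
    eval z (dil t g) = eval (fun l => t l.1 * z l) g := by
  unfold dil
  induction g using MvPolynomial.induction_on with
  | C b => rw [aeval_C, algebraMap_eq, eval_C, eval_C]
  | add p q hp hq => rw [map_add, map_add, hp, hq, map_add]
  | mul_X p j hp => rw [map_mul, map_mul, hp, aeval_X, map_mul, map_mul, eval_C, eval_X, eval_X]

theorem dil_F [CharZero K] {F : MvPolynomial (Idx a) K} (hF : IsMultiQuadratic F)
    (t : Fin r → K) : dil t F = C ((∏ k, t k) ^ 2) * F := by
  apply MvPolynomial.funext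
  intro z
  rw [eval_dil, hF.eval_scale, map_mul, eval_C]

theorem pd1 [CharZero K] {F : MvPolynomial (Idx a) K} (hF : IsMultiQuadratic F)
    (t : Fin r → K) (l : Idx a) :
    C (t l.1) * dil t (pderiv l F) = C ((∏ k, t k) ^ 2) * pderiv l F := by
  classical
  have h := congrArg (pderiv l) (dil_F hF t)
  unfold dil at h ⊢
  rw [pderiv_dilate (fun l : Idx a => t l.1) l F, pderiv_C_mul] at h
  exact h

theorem pd2 [CharZero K] {F : MvPolynomial (Idx a) K} (hF : IsMultiQuadratic F)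
    (t : Fin r → K) (l m : Idx a) :
    C (t l.1) * (C (t m.1) * dil t (pderiv m (pderiv l F))) =
      C ((∏ k, t k) ^ 2) * pderiv m (pderiv l F) := by
  classical
  have h := congrArg (pderiv m) (pd1 hF t l)
  rw [pderiv_C_mul, pderiv_C_mul] at h
  rw [← h]
  congr 1
  unfold dil
  rw [pderiv_dilate (fun l : Idx a => t l.1) m]

theorem ev1 [CharZero K] {F : MvPolynomial (Idx a) K} (hF : IsMultiQuadratic F)
    (t : Fin r → K) (l : Idx a) (y : Idx a → K) :
    t l.1 * eval (fun l => t l.1 * y l) (pderiv l F) = (∏ k, t k) ^ 2 * eval y (pderiv l F) := by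
  have h := congrArg (eval y) (pd1 hF t l)
  rwa [map_mul, eval_C, eval_dil, map_mul, eval_C] at h

theorem ev2 [CharZero K] {F : MvPolynomial (Idx a) K} (hF : IsMultiQuadratic F)
    (t : Fin r → K) (l m : Idx a) (y : Idx a → K) :
    t l.1 * (t m.1 * eval (fun l => t l.1 * y l) (pderiv m (pderiv l F))) =
      (∏ k, t k) ^ 2 * eval y (pderiv m (pderiv l F)) := by
  have h := congrArg (eval y) (pd2 hF t l m)
  rwa [map_mul, eval_C, map_mul, eval_C, eval_dil, map_mul, eval_C] at h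

theorem minor_scale [CharZero K] {F : MvPolynomial (Idx a) K} (hF : IsMultiQuadratic F)
    {t : Fin r → K} (ht : ∀ k, t k ≠ 0) {y : Idx a → K} (h : MinorAt Sigma.fst F y) :
    MinorAt Sigma.fst F (fun l => t l.1 * y l) := by
  intro i
  obtain ⟨l, m, hl, hm, hdet⟩ := h i
  refine ⟨l, m, hl, hm, ?_⟩
  have hc : ((∏ k, t k) ^ 2 : K) ≠ 0 := pow_ne_zero _ (Finset.prod_ne_zero_iff.2 fun k _ => ht k)
  have e : (Matrix.of fun a b => eval (fun l => t l.1 * y l) (pderiv (m b) (pderiv (l a) F))) =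
      ((∏ k, t k) ^ 2 * (t i)⁻¹ * (t i)⁻¹) •
        (Matrix.of fun a b => eval y (pderiv (m b) (pderiv (l a) F))) := by
    ext b c
    rw [Matrix.smul_apply, Matrix.of_apply, Matrix.of_apply, smul_eq_mul]
    have h1 := ev2 hF t (l b) (m c) y
    rw [hl b, hm c] at h1
    have h2 := ht i
    field_simp
    rw [← h1]
    ring
  rw [e, Matrix.det_smul]
  refine mul_ne_zero (pow_ne_zero _ ?_) hdet
  exact mul_ne_zero (mul_ne_zero hc (inv_ne_zero (ht i))) (inv_ne_zero (ht i))

theorem mix_scale (t : Fin r → K) (i : Fin r) (z y : Idx a → K) :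
    mix Sigma.fst i (fun l => t l.1 * z l) (fun l => t l.1 * y l) =
      fun l => t l.1 * mix Sigma.fst i z y l := by
  funext l
  unfold mix
  split_ifs <;> rfl

theorem rank_scale {F : MvPolynomial (Idx a) K} (hF : IsMultiQuadratic F)
    {t : Fin r → K} (ht : ∀ k, t k ≠ 0) {y : Idx a → K} (h : RankAt Sigma.fst F y) :
    RankAt Sigma.fst F (fun l => t l.1 * y l) := by
  intro i j hij
  obtain ⟨u, v, hdet⟩ := h i j hij
  refine ⟨fun b l => t l.1 * u b l, fun b l => t l.1 * v b l, ?_⟩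
  have hc : ((∏ k, t k) ^ 2 : K) ≠ 0 := pow_ne_zero _ (Finset.prod_ne_zero_iff.2 fun k _ => ht k)
  have e : (Matrix.of fun b c : Fin 3 => eval (mix Sigma.fst j (fun l => t l.1 * u b l)
      (mix Sigma.fst i (fun l => t l.1 * v c l) (fun l => t l.1 * y l))) F) =
      ((∏ k, t k) ^ 2) • (Matrix.of fun b c => eval (mix Sigma.fst j (u b)
        (mix Sigma.fst i (v c) y)) F) := by
    ext b c
    rw [Matrix.smul_apply, Matrix.of_apply, Matrix.of_apply, smul_eq_mul, mix_scale, mix_scale,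
      hF.eval_scale]
  rw [e, Matrix.det_smul]
  exact mul_ne_zero (pow_ne_zero _ hc) hdet

theorem semi_scale [CharZero K] {F : MvPolynomial (Idx a) K} (hF : IsMultiQuadratic F)
    {t : Fin r → K} (ht : ∀ k, t k ≠ 0) {y : Idx a → K} (h : SemiAt Sigma.fst F y) :
    SemiAt Sigma.fst F (fun l => t l.1 * y l) := by
  have hc : ((∏ k, t k) ^ 2 : K) ≠ 0 := pow_ne_zero _ (Finset.prod_ne_zero_iff.2 fun k _ => ht k)
  obtain ⟨j, ⟨l, hl, h1⟩, h2⟩ := h
  refine ⟨j, ⟨l, hl, ?_⟩, ?_⟩
  · intro h0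
    have h3 := ev1 hF t l y
    rw [h0, mul_zero] at h3
    exact (mul_ne_zero hc h1) h3.symm
  · intro i hij
    obtain ⟨l', hl', z, z', hz⟩ := h2 i hij
    refine ⟨l', hl', fun l => t l.1 * z l, fun l => t l.1 * z' l, ?_⟩
    rw [mix_scale, mix_scale, hF.eval_scale, hF.eval_scale]
    intro h0
    apply hz
    have k1 := ev1 hF t l' (mix Sigma.fst j z y)
    have k2 := ev1 hF t l' (mix Sigma.fst j z' y)
    have h3 := congrArg (fun x => t l'.1 * x) h0
    beta_reduce at h3
    have e1 : ∀ A B C D : K, t l'.1 * (A * B * C) = t l'.1 * (A * D * C) ↔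
      A * B * (t l'.1 * C) = A * D * (t l'.1 * C) := by
      intro A B C D
      constructor <;> intro h <;> linear_combination h
    have h4 : (∏ k, t k) ^ 2 * eval (mix Sigma.fst j z y) F *
        (t l'.1 * eval (fun l => t l.1 * mix Sigma.fst j z' y l) (pderiv l' F)) =
        (∏ k, t k) ^ 2 * eval (mix Sigma.fst j z' y) F *
        (t l'.1 * eval (fun l => t l.1 * mix Sigma.fst j z y l) (pderiv l' F)) := by
      linear_combination h3
    rw [k1, k2] at h4
    have h5 : ((∏ k, t k) ^ 2 * (∏ k, t k) ^ 2) *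
        (eval (mix Sigma.fst j z y) F * eval (mix Sigma.fst j z' y) (pderiv l' F)) =
        ((∏ k, t k) ^ 2 * (∏ k, t k) ^ 2) *
        (eval (mix Sigma.fst j z' y) F * eval (mix Sigma.fst j z y) (pderiv l' F)) := by
      linear_combination h4
    exact mul_left_cancel₀ (mul_ne_zero hc hc) h5

theorem exc_scale [CharZero K] {F : MvPolynomial (Idx a) K} (hF : IsMultiQuadratic F)
    {y : Idx a → K} (hy : y ∈ Exc F) {t : Fin r → K} (ht : ∀ k, t k ≠ 0) :
    (fun l => t l.1 * y l) ∈ Exc F := by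
  obtain ⟨h1, h2, h3⟩ := hy
  refine ⟨?_, scale_pr (show Pr y from h2) ht, ?_⟩
  · rw [hF.eval_scale, h1, mul_zero]
  · rintro ⟨m, rk, sm⟩
    apply h3
    have ht' : ∀ k, (t k)⁻¹ ≠ 0 := fun k => inv_ne_zero (ht k)
    have e : (fun l : Idx a => (t l.1)⁻¹ * (t l.1 * y l)) = y := by
      funext l
      rw [inv_mul_cancel_left₀ (ht l.1)]
    have m' := minor_scale hF (t := fun k => (t k)⁻¹) ht' m
    have rk' := rank_scale hF (t := fun k => (t k)⁻¹) ht' rk
    have sm' := semi_scale hF (t := fun k => (t k)⁻¹) ht' sm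
    beta_reduce at m' rk' sm'
    rw [e] at m' rk' sm'
    exact ⟨m', rk', sm'⟩

end Fn

open Fn in
theorem sFINAL : S_GOOD → S_SEMI → S_FINAL := by
  intro hgood hsemi K _ _ L _ σ hσ r a F hF hprime
  classical
  have hZ : ∀ y ∈ {y : Idx a → K | eval y F = 0}, ∀ t : Fin r → K, (∀ k, t k ≠ 0) →
      (fun l => t l.1 * y l) ∈ {y : Idx a → K | eval y F = 0} := by
    intro y hy t _
    rw [Set.mem_ofPred_eq] at hy ⊢
    rw [hF.eval_scale, hy, mul_zero]
  have hE : ∀ y ∈ Exc F, ∀ t : Fin r → K, (∀ k, t k ≠ 0) → (fun l => t l.1 * y l) ∈ Exc F :=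
    fun y hy t ht => exc_scale hF hy ht
  have hdich : ∀ x : Idx a → L, Pr x →
      localIdeal σ {y | eval y F = 0} x = (Ideal.span {F} : Set (MvPolynomial (Idx a) K)) ∨
      localIdeal σ {y | eval y F = 0} x = localIdeal σ (Exc F) x := by
    intro x hx
    by_cases h : ∃ U ∈ nhds x, ∀ y, eval y F = 0 → Pr y → (fun i => σ (y i)) ∈ U → y ∈ Exc F
    · right
      obtain ⟨U, hU, hUb⟩ := h
      refine localIdeal_congr σ (U := U ∩ {z | Pr z})
        (Filter.inter_mem hU ((isOpen_pr a).mem_nhds hx)) ?_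
      intro y hy
      exact ⟨fun h => hUb y h (pr_of σ hy.2) hy.1, fun h => h.1⟩
    · left
      push Not at h
      apply Set.Subset.antisymm
      · rintro f ⟨W, hW, hWf⟩
        obtain ⟨y, hy0, hyP, hyW, hyE⟩ := h (interior W) (interior_mem_nhds.2 hW)
        have hg : MinorAt Sigma.fst F y ∧ RankAt Sigma.fst F y ∧ SemiAt Sigma.fst F y := by
          by_contra hn
          exact hyE ⟨hy0, hyP, hn⟩
        obtain ⟨z, hz0, hzW, hzm, hzr, hzn⟩ := hsemi σ hσ Sigma.fst F (isMQ_of hF) y hy0 hg.1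
          hg.2.1 hg.2.2 (interior W) (isOpen_interior.mem_nhds hyW)
        have hd := hgood σ hσ Sigma.fst F (isMQ_of hF) hprime z hz0 hzm hzr hzn (interior W)
          (isOpen_interior.mem_nhds hzW) f (fun z' hz' hz'W => hWf z' hz' (interior_subset hz'W))
        exact Ideal.mem_span_singleton.2 hd
      · intro f hf
        refine ⟨Set.univ, Filter.univ_mem, fun y hy _ => ?_⟩
        obtain ⟨g, rfl⟩ := Ideal.mem_span_singleton.1 hf
        have hy' : eval y F = 0 := hy
        rw [map_mul, hy', zero_mul]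
  refine ⟨fun x hx => ?_, fun E hEfin => ?_⟩
  · rw [loc_eq σ hσ hZ hx, loc_eq σ hσ hE hx]
    exact hdich x hx
  · have hfin := finite_orbits σ hσ (wt a) (S := Exc F) (by
      intro y hy t ht
      rw [scale_wt]
      exact hE y hy t ht) E (by
      intro y hy
      obtain ⟨e, he, t, ht, hyt⟩ := hEfin y hy
      exact ⟨e, he, t, ht, by rw [scale_wt]; exact hyt⟩)
    refine (hfin.union (Set.finite_singleton
      (Ideal.span {F} : Set (MvPolynomial (Idx a) K)))).subset ?_
    rintro J ⟨x, hx, rfl⟩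
    rw [loc_eq σ hσ hZ hx]
    rcases hdich x hx with h | h
    · right
      exact h
    · left
      exact ⟨x, h⟩

end Pool.Agent.R383.MQ
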