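import Pool.Agent.R383.MQ.FINAL
import Pool.Agent.R383.MQ.Stm3

/-! From cones to closures in products of projective spaces, abstract version. -/

set_option autoImplicit false

namespace Pool.Agent.R383.MQ

open MvPolynomial Pool.Agent.TH178.MZ Fn

/-- Dichotomy and finiteness for an abstract exceptional set `B`. -/
theorem final3 {K : Type} [Field K] {L : Type} [NontriviallyNormedField L]
    (σ : K →+* L) (hσ : DenseRange σ) {r : ℕ} {a : Fin r → ℕ} {F : MvPolynomial (Idx a) K}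
    (hF : IsMultiQuadratic F) {B : Set (Idx a → K)}
    (hB1 : ∀ y ∈ B, eval y F = 0)
    (hB2 : ∀ y ∈ B, ∀ t : Fin r → K, (∀ k, t k ≠ 0) → (fun l => t l.1 * y l) ∈ B)
    (hB3 : ∀ y : Idx a → K, eval y F = 0 → (∀ k, ∃ j, y ⟨k, j⟩ ≠ 0) → y ∉ B →
      ∀ U ∈ nhds (fun l => σ (y l)), ∀ f : MvPolynomial (Idx a) K,
        (∀ z, eval z F = 0 → (fun l => σ (z l)) ∈ U → eval z f = 0) → F ∣ f) :
    (∀ x : Idx a → L, (∀ k, ∃ j, x ⟨k, j⟩ ≠ 0) →
      locClos σ {y | eval y F = 0} x = (Ideal.span {F} : Set (MvPolynomial (Idx a) K)) ∨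
      locClos σ {y | eval y F = 0} x = locClos σ B x) ∧
    ∀ E : Finset (Idx a → K), (∀ y ∈ B, ∃ e ∈ E, ∃ t : Fin r → K, (∀ k, t k ≠ 0) ∧
        y = fun l => t l.1 * e l) →
      {J | ∃ x : Idx a → L, (∀ k, ∃ j, x ⟨k, j⟩ ≠ 0) ∧
        J = locClos σ {y | eval y F = 0} x}.Finite := by
  classical
  have hZ : ∀ y ∈ {y : Idx a → K | eval y F = 0}, ∀ t : Fin r → K, (∀ k, t k ≠ 0) →
      (fun l => t l.1 * y l) ∈ {y : Idx a → K | eval y F = 0} := by
    intro y hy t _
    rw [Set.mem_ofPred_eq] at hy ⊢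
    rw [hF.eval_scale, hy, mul_zero]
  have hdich : ∀ x : Idx a → L, Pr x →
      localIdeal σ {y | eval y F = 0} x = (Ideal.span {F} : Set (MvPolynomial (Idx a) K)) ∨
      localIdeal σ {y | eval y F = 0} x = localIdeal σ B x := by
    intro x hx
    by_cases h : ∃ U ∈ nhds x, ∀ y, eval y F = 0 → Pr y → (fun i => σ (y i)) ∈ U → y ∈ B
    · right
      obtain ⟨U, hU, hUb⟩ := h
      refine localIdeal_congr σ (U := U ∩ {z | Pr z})
        (Filter.inter_mem hU ((isOpen_pr a).mem_nhds hx)) ?_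
      intro y hy
      exact ⟨fun h => hUb y h (pr_of σ hy.2) hy.1, fun h => hB1 y h⟩
    · left
      push Not at h
      apply Set.Subset.antisymm
      · rintro f ⟨W, hW, hWf⟩
        obtain ⟨y, hy0, hyP, hyW, hyE⟩ := h (interior W) (interior_mem_nhds.2 hW)
        have hd := hB3 y hy0 hyP hyE (interior W) (isOpen_interior.mem_nhds hyW) f
          (fun z' hz' hz'W => hWf z' hz' (interior_subset hz'W))
        exact Ideal.mem_span_singleton.2 hd
      · intro f hf
        refine ⟨Set.univ, Filter.univ_mem, fun y hy _ => ?_⟩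
        obtain ⟨g, rfl⟩ := Ideal.mem_span_singleton.1 hf
        have hy' : eval y F = 0 := hy
        rw [map_mul, hy', zero_mul]
  refine ⟨fun x hx => ?_, fun E hEfin => ?_⟩
  · rw [loc_eq σ hσ hZ hx, loc_eq σ hσ hB2 hx]
    exact hdich x hx
  · have hfin := finite_orbits σ hσ (wt a) (S := B) (by
      intro y hy t ht
      rw [scale_wt]
      exact hB2 y hy t ht) E (by
      intro y hy
      obtain ⟨e, he, t, ht, hyt⟩ := hEfin y hy
      exact ⟨e, he, t, ht, by rw [scale_wt]; exact hyt⟩)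
    refine (hfin.union (Set.finite_singleton
      (Ideal.span {F} : Set (MvPolynomial (Idx a) K)))).subset ?_
    rintro J ⟨x, hx, rfl⟩
    rw [loc_eq σ hσ hZ hx]
    rcases hdich x hx with h | h
    · right
      exact h
    · left
      exact ⟨x, h⟩

/-- The rational points near a good point. -/
theorem good3 (hINT : T_INT) (hRANK : T_RANK) (hTR : T_TRDEG) {K : Type} [Field K] [CharZero K]
    {ι κ : Type} [Fintype ι] [DecidableEq κ] {L : Type} [NontriviallyNormedField L]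
    (σ : K →+* L) (hσ : DenseRange σ) {s : ι → κ} {F : MvPolynomial ι K} (hF : IsMQ s F)
    (hp : Prime F) {y : ι → K} (hy : eval y F = 0) (hg : Good s F y) {U : Set (ι → L)}
    (hU : U ∈ nhds (fun l => σ (y l))) (f : MvPolynomial ι K)
    (hf : ∀ z : ι → K, eval z F = 0 → (fun l => σ (z l)) ∈ U → eval z f = 0) : F ∣ f := by
  have hprime : (Ideal.span {F}).IsPrime := (Ideal.span_singleton_prime hp.ne_zero).2 hp
  rw [← Ideal.mem_span_singleton]
  refine mem_of_good σ hσ (S := {y | eval y F = 0}) (p := Ideal.span {F}) ?_ (hTR F hp)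
    (flds s F) (fun p => hINT s F hF p.1.1 p.1.2 p.2) (U := interior U) isOpen_interior
    (y₀ := y) hy (mem_interior_iff_mem_nhds.2 hU) (hRANK s F y hg) f
    (fun z hz hzU => hf z hz (interior_subset hzU))
  intro g hg' z hz
  obtain ⟨h, rfl⟩ := Ideal.mem_span_singleton.1 hg'
  have hz' : eval z F = 0 := hz
  rw [map_mul, hz', zero_mul]

/-- The exceptional set. -/
def Exc3 {K : Type} [Field K] {r : ℕ} {a : Fin r → ℕ} (F : MvPolynomial (Idx a) K) :
    Set (Idx a → K) :=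
  {y | eval y F = 0 ∧ (∀ k, ∃ j, y ⟨k, j⟩ ≠ 0) ∧ ¬ SemiGood Sigma.fst F y}

/-- Mazur's question for hypersurfaces of multidegree `(2, ..., 2)`. -/
theorem all3 (hINT : T_INT) (hRANK : T_RANK) (hTR : T_TRDEG) (hSEMI : T_SEMI) (hINV : T_INV)
    {K : Type} [Field K] [CharZero K] {L : Type} [NontriviallyNormedField L]
    (σ : K →+* L) (hσ : DenseRange σ) {r : ℕ} {a : Fin r → ℕ} {F : MvPolynomial (Idx a) K}
    (hF : IsMultiQuadratic F) (hp : Prime F) :
    (∀ x : Idx a → L, (∀ k, ∃ j, x ⟨k, j⟩ ≠ 0) →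
      locClos σ {y | eval y F = 0} x = (Ideal.span {F} : Set (MvPolynomial (Idx a) K)) ∨
      locClos σ {y | eval y F = 0} x = locClos σ (Exc3 F) x) ∧
    ∀ E : Finset (Idx a → K), (∀ y ∈ Exc3 F, ∃ e ∈ E, ∃ t : Fin r → K, (∀ k, t k ≠ 0) ∧
        y = fun l => t l.1 * e l) →
      {J | ∃ x : Idx a → L, (∀ k, ∃ j, x ⟨k, j⟩ ≠ 0) ∧
        J = locClos σ {y | eval y F = 0} x}.Finite := by
  refine final3 σ hσ hF (B := Exc3 F) (fun y hy => hy.1) ?_ ?_
  · rintro y ⟨h1, h2, h3⟩ t ht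
    refine ⟨by rw [hF.eval_scale, h1, mul_zero], scale_pr (show Pr y from h2) ht, ?_⟩
    intro h4
    apply h3
    have h5 := hINV F hF _ (fun k => (t k)⁻¹) (fun k => inv_ne_zero (ht k)) h4
    have e : (fun l : Idx a => (t l.1)⁻¹ * (t l.1 * y l)) = y := by
      funext l
      rw [inv_mul_cancel_left₀ (ht l.1)]
    beta_reduce at h5
    rwa [e] at h5
  · intro y hy hyP hyB U hU f hf
    have hs : SemiGood Sigma.fst F y := by
      by_contra h
      exact hyB ⟨hy, hyP, h⟩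
    obtain ⟨z, hz, hzU, hzg⟩ := hSEMI σ hσ Sigma.fst F (isMQ_of hF) y hy hs (interior U)
      (interior_mem_nhds.2 hU)
    exact good3 hINT hRANK hTR σ hσ (isMQ_of hF) hp hz hzg (isOpen_interior.mem_nhds hzU) f
      (fun w hw hwU => hf w hw (interior_subset hwU))

end Pool.Agent.R383.MQ
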