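import Pool.Agent.R383.MQ.Stm3
import Pool.Agent.R383.MQ.FINAL

/-! TINV: semi-goodness is invariant under scaling. -/

set_option autoImplicit false

namespace Pool.Agent.R383.MQ

open MvPolynomial Pool.Agent.TH178.MZ

namespace TInv

open Fn

variable {K : Type} [Field K] {r : ℕ} {a : Fin r → ℕ}

theorem aeval_dil {A : Type} [CommRing A] [Algebra K A] (t : Fin r → K) (z : Idx a → A)
    (g : MvPolynomial (Idx a) K) :
    aeval z (dil t g) = aeval (fun l => algebraMap K A (t l.1) * z l) g := by
  unfold dil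
  induction g using MvPolynomial.induction_on with
  | C b => rw [aeval_C, algebraMap_eq, aeval_C, aeval_C]
  | add p q hp hq => rw [map_add, map_add, hp, hq, map_add]
  | mul_X p j hp => rw [map_mul, map_mul, hp, aeval_X, map_mul, map_mul, aeval_C, aeval_X, aeval_X]

theorem av1 [CharZero K] {A : Type} [CommRing A] [Algebra K A] {F : MvPolynomial (Idx a) K}
    (hF : IsMultiQuadratic F) (t : Fin r → K) (l : Idx a) (z : Idx a → A) :
    algebraMap K A (t l.1) * aeval (fun l => algebraMap K A (t l.1) * z l) (pderiv l F) =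
      algebraMap K A ((∏ k, t k) ^ 2) * aeval z (pderiv l F) := by
  have h := congrArg (aeval z) (pd1 hF t l)
  rwa [map_mul, aeval_C, aeval_dil, map_mul, aeval_C] at h

theorem av2 [CharZero K] {A : Type} [CommRing A] [Algebra K A] {F : MvPolynomial (Idx a) K}
    (hF : IsMultiQuadratic F) (t : Fin r → K) (l m : Idx a) (z : Idx a → A) :
    algebraMap K A (t l.1) * (algebraMap K A (t m.1) *
      aeval (fun l => algebraMap K A (t l.1) * z l) (pderiv m (pderiv l F))) =
      algebraMap K A ((∏ k, t k) ^ 2) * aeval z (pderiv m (pderiv l F)) := by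
  have h := congrArg (aeval z) (pd2 hF t l m)
  rwa [map_mul, aeval_C, map_mul, aeval_C, aeval_dil, map_mul, aeval_C] at h

theorem dil_dil (t u : Fin r → K) (h : ∀ k, t k * u k = 1) (g : MvPolynomial (Idx a) K) :
    dil t (dil u g) = g := by
  unfold dil
  induction g using MvPolynomial.induction_on with
  | C b => rw [aeval_C, algebraMap_eq, aeval_C, algebraMap_eq]
  | add p q hp hq => rw [map_add, map_add, hp, hq]
  | mul_X p j hp =>
    have e : (C (u j.1) : MvPolynomial (Idx a) K) * C (t j.1) = 1 := by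
      rw [← C_mul, mul_comm, h, C_1]
    rw [map_mul, map_mul, hp, aeval_X, map_mul, aeval_C, algebraMap_eq, aeval_X]
    linear_combination (p * X j) * e

/-- dilation is an automorphism -/
noncomputable def dilE (t u : Fin r → K) (h : ∀ k, t k * u k = 1) :
    MvPolynomial (Idx a) K ≃ₐ[K] MvPolynomial (Idx a) K :=
  AlgEquiv.ofAlgHom (dil t) (dil u)
    (AlgHom.ext fun g => dil_dil t u h g)
    (AlgHom.ext fun g => dil_dil u t (fun k => by rw [mul_comm, h]) g)

theorem irr_dil (t u : Fin r → K) (h : ∀ k, t k * u k = 1) {g : MvPolynomial (Idx a) K}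
    (hg : Irreducible g) : Irreducible (dil t g) := by
  have e : dil t g = (dilE t u h).toMulEquiv g := rfl
  rw [e, MulEquiv.irreducible_iff]
  exact hg

theorem res_dil [CharZero K] {F : MvPolynomial (Idx a) K} (hF : IsMultiQuadratic F)
    (t : Fin r → K) (ht : ∀ k, t k ≠ 0) (j : Fin r) (y : Idx a → K) :
    res Sigma.fst j (fun l => t l.1 * y l) F =
      C ((∏ k, t k) ^ 2) * dil (fun k => (t k)⁻¹) (res Sigma.fst j y F) := by
  apply MvPolynomial.funext
  intro x
  rw [eval_res, map_mul, eval_C, eval_dil, eval_res]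
  have e : mix Sigma.fst j x (fun l => t l.1 * y l) =
      fun l : Idx a => t l.1 * mix Sigma.fst j (fun l : Idx a => (t l.1)⁻¹ * x l) y l := by
    rw [← mix_scale]
    congr 1
    funext l
    rw [mul_inv_cancel_left₀ (ht l.1)]
  rw [e, hF.eval_scale]

theorem moves {A : Type} [Field A] [Algebra K A] [CharZero K] {F : MvPolynomial (Idx a) K}
    (hF : IsMultiQuadratic F) (t : Fin r → K) (ht : ∀ k, t k ≠ 0) (i : Fin r) (z : Idx a → A)
    (h : Moves Sigma.fst F i z) : Moves Sigma.fst F i (fun l => algebraMap K A (t l.1) * z l) := by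
  obtain ⟨l, hl, h1⟩ := h
  refine ⟨l, hl, fun h0 => ?_⟩
  have h2 := av1 hF t l z
  rw [h0, mul_zero] at h2
  have hc : algebraMap K A ((∏ k, t k) ^ 2) ≠ 0 := by
    rw [Ne, map_eq_zero]
    exact pow_ne_zero _ (Finset.prod_ne_zero_iff.2 fun k _ => ht k)
  exact (mul_ne_zero hc h1) h2.symm

theorem linked {A : Type} [Field A] [Algebra K A] [CharZero K] {F : MvPolynomial (Idx a) K}
    (hF : IsMultiQuadratic F) (t : Fin r → K) (ht : ∀ k, t k ≠ 0) (i j : Fin r) (z : Idx a → A)
    (h : Linked Sigma.fst F z i j) :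
    Linked Sigma.fst F (fun l => algebraMap K A (t l.1) * z l) i j := by
  obtain ⟨l, l', m, m', hl, hl', hm, hm', hb⟩ := h
  refine ⟨l, l', m, m', hl, hl', hm, hm', fun h0 => ?_⟩
  have hc : algebraMap K A ((∏ k, t k) ^ 2) ≠ 0 := by
    rw [Ne, map_eq_zero]
    exact pow_ne_zero _ (Finset.prod_ne_zero_iff.2 fun k _ => ht k)
  have key : algebraMap K A (t l.1) * algebraMap K A (t l'.1) * algebraMap K A (t m.1) *
      algebraMap K A (t m'.1) * bet F (fun l => algebraMap K A (t l.1) * z l) l l' m m' =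
      algebraMap K A ((∏ k, t k) ^ 2) ^ 3 * bet F z l l' m m' := by
    have a1 := av1 hF t l z
    have a2 := av1 hF t l' z
    have a3 := av1 hF t m z
    have a4 := av1 hF t m' z
    have b1 := av2 hF t l' m' z
    have b2 := av2 hF t l' m z
    have b3 := av2 hF t l m' z
    have b4 := av2 hF t l m z
    unfold bet
    generalize aeval (fun l => algebraMap K A (t l.1) * z l) (pderiv l F) = p1 at *
    generalize aeval (fun l => algebraMap K A (t l.1) * z l) (pderiv l' F) = p2 at *
    generalize aeval (fun l => algebraMap K A (t l.1) * z l) (pderiv m F) = p3 at *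
    generalize aeval (fun l => algebraMap K A (t l.1) * z l) (pderiv m' F) = p4 at *
    generalize aeval (fun l => algebraMap K A (t l.1) * z l) (pderiv m' (pderiv l' F)) = q1 at *
    generalize aeval (fun l => algebraMap K A (t l.1) * z l) (pderiv m (pderiv l' F)) = q2 at *
    generalize aeval (fun l => algebraMap K A (t l.1) * z l) (pderiv m' (pderiv l F)) = q3 at *
    generalize aeval (fun l => algebraMap K A (t l.1) * z l) (pderiv m (pderiv l F)) = q4 at *
    generalize aeval z (pderiv l F) = P1 at *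
    generalize aeval z (pderiv l' F) = P2 at *
    generalize aeval z (pderiv m F) = P3 at *
    generalize aeval z (pderiv m' F) = P4 at *
    generalize aeval z (pderiv m' (pderiv l' F)) = Q1 at *
    generalize aeval z (pderiv m (pderiv l' F)) = Q2 at *
    generalize aeval z (pderiv m' (pderiv l F)) = Q3 at *
    generalize aeval z (pderiv m (pderiv l F)) = Q4 at *
    generalize algebraMap K A (t l.1) = u1 at *
    generalize algebraMap K A (t l'.1) = u2 at *
    generalize algebraMap K A (t m.1) = u3 at *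
    generalize algebraMap K A (t m'.1) = u4 at *
    generalize algebraMap K A ((∏ k, t k) ^ 2) = T at *
    have e1 : u1 * u2 * u3 * u4 * (p1 * p3 * q1) = T ^ 3 * (P1 * P3 * Q1) := by
      calc u1 * u2 * u3 * u4 * (p1 * p3 * q1) = (u1 * p1) * (u3 * p3) * (u2 * (u4 * q1)) := by ring
        _ = _ := by rw [a1, a3, b1]; ring
    have e2 : u1 * u2 * u3 * u4 * (p1 * p4 * q2) = T ^ 3 * (P1 * P4 * Q2) := by
      calc u1 * u2 * u3 * u4 * (p1 * p4 * q2) = (u1 * p1) * (u4 * p4) * (u2 * (u3 * q2)) := by ring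
        _ = _ := by rw [a1, a4, b2]; ring
    have e3 : u1 * u2 * u3 * u4 * (p2 * p3 * q3) = T ^ 3 * (P2 * P3 * Q3) := by
      calc u1 * u2 * u3 * u4 * (p2 * p3 * q3) = (u2 * p2) * (u3 * p3) * (u1 * (u4 * q3)) := by ring
        _ = _ := by rw [a2, a3, b3]; ring
    have e4 : u1 * u2 * u3 * u4 * (p2 * p4 * q4) = T ^ 3 * (P2 * P4 * Q4) := by
      calc u1 * u2 * u3 * u4 * (p2 * p4 * q4) = (u2 * p2) * (u4 * p4) * (u1 * (u3 * q4)) := by ring
        _ = _ := by rw [a2, a4, b4]; ring
    linear_combination e1 - e2 - e3 + e4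
  rw [h0, mul_zero] at key
  exact (mul_ne_zero (pow_ne_zero 3 hc) hb) key.symm

theorem good {A : Type} [Field A] [Algebra K A] [CharZero K] {F : MvPolynomial (Idx a) K}
    (hF : IsMultiQuadratic F) (t : Fin r → K) (ht : ∀ k, t k ≠ 0) (z : Idx a → A)
    (h : Good Sigma.fst F z) : Good Sigma.fst F (fun l => algebraMap K A (t l.1) * z l) := by
  refine ⟨fun i => moves hF t ht i z (h.1 i), fun i j => ?_⟩
  exact Relation.ReflTransGen.mono (fun x y hxy => linked hF t ht x y z hxy) _ _ (h.2 i j)

end TInv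

open TInv Fn in
theorem tINV : T_INV := by
  intro K _ _ r a F hF y t ht h
  obtain ⟨j, g, hg, z, hz, hzg, hgood⟩ := h
  have hinv : ∀ k, (t k)⁻¹ * t k = 1 := fun k => inv_mul_cancel₀ (ht k)
  refine ⟨j, dil (fun k => (t k)⁻¹) g, ?_, fun l => algebraMap K (AlgebraicClosure K) (t l.1) * z l,
    ?_, ?_, good hF t ht z hgood⟩
  · rcases hg with ⟨h1, h2, h3, h4⟩ | ⟨h1, h2⟩
    · left
      refine ⟨irr_dil _ t hinv h1, ?_, ?_, ?_⟩
      · rw [res_dil hF t ht]
        exact Dvd.dvd.mul_left (map_dvd (dil (fun k => (t k)⁻¹)) h2) _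
      · rw [eval_dil]
        have e : (fun l : Idx a => (t l.1)⁻¹ * (t l.1 * y l)) = y := by
          funext l
          rw [inv_mul_cancel_left₀ (ht l.1)]
        rw [e, h3]
      · exact moves (A := K) hF t ht j y h4
    · right
      refine ⟨by rw [h1, map_zero], ?_⟩
      rw [res_dil hF t ht, h2, map_zero, mul_zero]
  · intro l hl
    change algebraMap K (AlgebraicClosure K) (t l.1) * z l =
      algebraMap K (AlgebraicClosure K) (t l.1 * y l)
    rw [hz l hl, map_mul]
  · rw [aeval_dil]
    have e : (fun l : Idx a => algebraMap K (AlgebraicClosure K) ((t l.1)⁻¹) *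
        (algebraMap K (AlgebraicClosure K) (t l.1) * z l)) = z := by
      funext l
      rw [← mul_assoc, ← map_mul, inv_mul_cancel₀ (ht l.1), map_one, one_mul]
    rw [e, hzg]

end Pool.Agent.R383.MQ
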