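import Pool.Agent.R383.MQ.Stm5
import Pool.Agent.R383.MQ.TINV

/-! UINV: semi-goodness (version with second intersection points) is invariant under scaling. -/

set_option autoImplicit false

namespace Pool.Agent.R383.MQ

open MvPolynomial Pool.Agent.TH178.MZ

namespace UInv

open Fn TInv

theorem aeval_sub {K : Type} [Field K] {A : Type} [CommRing A] [Algebra K A] {ι κ : Type}
    [DecidableEq κ] (s : ι → κ) (i : κ) (e : ι → K) (z : ι → A) (F : MvPolynomial ι K) :
    aeval z (sub s i e F) = aeval (mix s i (fun l => algebraMap K A (e l)) z) F := by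
  rw [sub, ← AlgHom.comp_apply]
  congr 1
  apply algHom_ext
  intro l
  rw [AlgHom.comp_apply, aeval_X, aeval_X]
  unfold mix
  split_ifs
  · rw [aeval_C]
  · rw [aeval_X]

variable {K : Type} [Field K] {r : ℕ} {a : Fin r → ℕ}

theorem aeval_scale [CharZero K] {A : Type} [CommRing A] [Algebra K A]
    {F : MvPolynomial (Idx a) K} (hF : IsMultiQuadratic F) (t : Fin r → K) (z : Idx a → A) :
    aeval (fun l => algebraMap K A (t l.1) * z l) F =
      algebraMap K A ((∏ k, t k) ^ 2) * aeval z F := by
  rw [← aeval_dil]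
  have h : dil t F = C ((∏ k, t k) ^ 2) * F := by
    apply MvPolynomial.funext
    intro x
    rw [eval_dil, hF.eval_scale, map_mul, eval_C]
  rw [h, map_mul, aeval_C]

/-- the square of the product of the other scalars -/
noncomputable def T1 (t : Fin r → K) (j : Fin r) : K := (∏ k, Function.update t j 1 k) ^ 2

theorem T1_ne {t : Fin r → K} (ht : ∀ k, t k ≠ 0) (j : Fin r) : T1 t j ≠ 0 := by
  unfold T1
  apply pow_ne_zero
  rw [Finset.prod_ne_zero_iff]
  intro k _
  by_cases h : k = j
  · rw [h, Function.update_self]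
    exact one_ne_zero
  · rw [Function.update_of_ne h]
    exact ht k

theorem T_eq (t : Fin r → K) (j : Fin r) : (∏ k, t k) ^ 2 = t j ^ 2 * T1 t j := by
  unfold T1
  rw [← mul_pow]
  congr 1
  rw [Finset.prod_update_of_mem (Finset.mem_univ j), one_mul,
    ← Finset.prod_eq_mul_prod_sdiff_singleton_of_mem (Finset.mem_univ j)]

theorem E_scale [CharZero K] {A : Type} [CommRing A] [Algebra K A]
    {F : MvPolynomial (Idx a) K} (hF : IsMultiQuadratic F) (t : Fin r → K) (z : Idx a → A)
    (j : Fin r) (e : Idx a → K) :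
    aeval (fun l => algebraMap K A (t l.1) * z l) (sub Sigma.fst j e F) =
      algebraMap K A (T1 t j) * aeval z (sub Sigma.fst j e F) := by
  rw [aeval_sub, aeval_sub, T1, ← aeval_scale hF]
  congr 1
  congr 1
  funext l
  unfold mix
  by_cases h : l.1 = j
  · rw [if_pos h, if_pos h, h, Function.update_self, map_one, one_mul]
  · rw [if_neg h, if_neg h, Function.update_of_ne h]

theorem B_scale [CharZero K] {A : Type} [CommRing A] [Algebra K A]
    {F : MvPolynomial (Idx a) K} (hF : IsMultiQuadratic F) (t : Fin r → K) (z : Idx a → A)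
    (j : Fin r) (e : Idx a → K) :
    algebraMap K A (t j) * aeval (fun l => algebraMap K A (t l.1) * z l)
        (∑ m : Idx a, if m.1 = j then C (e m) * pderiv m F else 0) =
      algebraMap K A ((∏ k, t k) ^ 2) *
        aeval z (∑ m : Idx a, if m.1 = j then C (e m) * pderiv m F else 0) := by
  rw [map_sum, map_sum, Finset.mul_sum, Finset.mul_sum]
  refine Finset.sum_congr rfl fun m _ => ?_
  by_cases h : m.1 = j
  · rw [if_pos h, map_mul, map_mul, aeval_C, aeval_C]
    have h1 := av1 hF t m z
    rw [h] at h1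
    linear_combination (algebraMap K A (e m)) * h1
  · rw [if_neg h, map_zero, map_zero, mul_zero, mul_zero]

/-- the scalars for the second point -/
noncomputable def t2 (t : Fin r → K) (j : Fin r) : Fin r → K :=
  Function.update t j (T1 t j * t j)

theorem ivl_scale [CharZero K] {A : Type} [Field A] [Algebra K A]
    {F : MvPolynomial (Idx a) K} (hF : IsMultiQuadratic F) (t : Fin r → K) (ht : ∀ k, t k ≠ 0)
    (z : Idx a → A) (j : Fin r) (e : Idx a → K) (m : Idx a) :
    aeval (fun l => algebraMap K A (t l.1) * z l) (ivl Sigma.fst F j e m) =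
      algebraMap K A (t2 t j m.1) * aeval z (ivl Sigma.fst F j e m) := by
  unfold ivl
  by_cases h : m.1 = j
  · rw [if_pos h, map_sub, map_mul, map_mul, map_sub, map_mul, map_mul, aeval_C, aeval_C,
      aeval_X, aeval_X, E_scale hF t z j e]
    have hB := B_scale hF t z j e
    have hT : algebraMap K A ((∏ k, t k) ^ 2) =
        algebraMap K A (t j) ^ 2 * algebraMap K A (T1 t j) := by
      rw [T_eq t j, map_mul, map_pow]
    have htj : algebraMap K A (t j) ≠ 0 := by
      rw [Ne, map_eq_zero]
      exact ht j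
    rw [hT] at hB
    have hB' : aeval (fun l => algebraMap K A (t l.1) * z l)
        (∑ m : Idx a, if m.1 = j then C (e m) * pderiv m F else 0) =
        algebraMap K A (t j) * algebraMap K A (T1 t j) *
        aeval z (∑ m : Idx a, if m.1 = j then C (e m) * pderiv m F else 0) := by
      apply mul_left_cancel₀ htj
      rw [hB]
      ring
    rw [hB', t2, h, Function.update_self, map_mul]
    ring
  · rw [if_neg h, aeval_X, aeval_X, t2, Function.update_of_ne h]

theorem link [CharZero K] {A : Type} [Field A] [Algebra K A]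
    {F : MvPolynomial (Idx a) K} (hF : IsMultiQuadratic F) (t : Fin r → K) (ht : ∀ k, t k ≠ 0)
    (i j : Fin r) (z : Idx a → A) (h : Link Sigma.fst F z i j) :
    Link Sigma.fst F (fun l => algebraMap K A (t l.1) * z l) i j := by
  obtain ⟨hij, e, l, l', hl, hl', hb⟩ := h
  refine ⟨hij, e, l, l', hl, hl', fun h0 => ?_⟩
  have hne : ∀ u : K, u ≠ 0 → algebraMap K A u ≠ 0 := by
    intro u hu
    rw [Ne, map_eq_zero]
    exact hu
  have h2ne : ∀ k, t2 t j k ≠ 0 := by
    intro k
    unfold t2
    by_cases h : k = j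
    · rw [h, Function.update_self]
      exact mul_ne_zero (T1_ne ht j) (ht j)
    · rw [Function.update_of_ne h]
      exact ht k
  have h2i : t2 t j i = t i := by
    unfold t2
    rw [Function.update_of_ne hij]
  -- the derivatives at the second point
  have hG : ∀ m : Idx a, algebraMap K A (t2 t j m.1) *
      aeval (fun l => algebraMap K A (t l.1) * z l) (aeval (ivl Sigma.fst F j e) (pderiv m F)) =
      algebraMap K A ((∏ k, t2 t j k) ^ 2) *
        aeval z (aeval (ivl Sigma.fst F j e) (pderiv m F)) := by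
    intro m
    rw [comp_aeval_apply, comp_aeval_apply, ← av1 hF (t2 t j) m]
    congr 2
    congr 1
    funext k
    exact ivl_scale hF t ht z j e k
  have g1 := hG l
  have g2 := hG l'
  have p1 := av1 hF t l z
  have p2 := av1 hF t l' z
  have e1 := E_scale hF t z j e
  rw [hl, h2i] at g1
  rw [hl', h2i] at g2
  rw [hl] at p1
  rw [hl'] at p2
  unfold lnk at h0 hb
  rw [map_mul, map_sub, map_mul, map_mul] at h0 hb
  generalize aeval (fun l => algebraMap K A (t l.1) * z l) (sub Sigma.fst j e F) = E' at *
  generalize aeval z (sub Sigma.fst j e F) = E at *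
  generalize aeval (fun l => algebraMap K A (t l.1) * z l)
    (aeval (ivl Sigma.fst F j e) (pderiv l F)) = G1' at *
  generalize aeval (fun l => algebraMap K A (t l.1) * z l)
    (aeval (ivl Sigma.fst F j e) (pderiv l' F)) = G2' at *
  generalize aeval z (aeval (ivl Sigma.fst F j e) (pderiv l F)) = G1 at *
  generalize aeval z (aeval (ivl Sigma.fst F j e) (pderiv l' F)) = G2 at *
  generalize aeval (fun l => algebraMap K A (t l.1) * z l) (pderiv l F) = P1' at *
  generalize aeval (fun l => algebraMap K A (t l.1) * z l) (pderiv l' F) = P2' at *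
  generalize aeval z (pderiv l F) = P1 at *
  generalize aeval z (pderiv l' F) = P2 at *
  have hT : algebraMap K A ((∏ k, t k) ^ 2) ≠ 0 :=
    hne _ (pow_ne_zero _ (Finset.prod_ne_zero_iff.2 fun k _ => ht k))
  have hT2 : algebraMap K A ((∏ k, t2 t j k) ^ 2) ≠ 0 :=
    hne _ (pow_ne_zero _ (Finset.prod_ne_zero_iff.2 fun k _ => h2ne k))
  have hT1 : algebraMap K A (T1 t j) ≠ 0 := hne _ (T1_ne ht j)
  generalize algebraMap K A ((∏ k, t k) ^ 2) = T at *
  generalize algebraMap K A ((∏ k, t2 t j k) ^ 2) = S at *
  generalize algebraMap K A (T1 t j) = T' at *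
  generalize algebraMap K A (t i) = u at *
  have key : u * u * (E' * (G1' * P2' - G2' * P1')) =
      T' * S * T * (E * (G1 * P2 - G2 * P1)) := by
    rw [e1]
    have a1 : (u * G1') * (u * P2') = (S * G1) * (T * P2) := by rw [g1, p2]
    have a2 : (u * G2') * (u * P1') = (S * G2) * (T * P1) := by rw [g2, p1]
    linear_combination (T' * E) * a1 - (T' * E) * a2
  rw [h0, mul_zero] at key
  exact (mul_ne_zero (mul_ne_zero (mul_ne_zero hT1 hT2) hT) hb) key.symm

theorem goodE [CharZero K] {A : Type} [Field A] [Algebra K A] {F : MvPolynomial (Idx a) K}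
    (hF : IsMultiQuadratic F) (t : Fin r → K) (ht : ∀ k, t k ≠ 0) (z : Idx a → A)
    (h : GoodE Sigma.fst F z) : GoodE Sigma.fst F (fun l => algebraMap K A (t l.1) * z l) := by
  refine ⟨fun i => moves hF t ht i z (h.1 i), fun i j => ?_⟩
  refine Relation.ReflTransGen.mono (fun x y hxy => ?_) _ _ (h.2 i j)
  rcases hxy with hxy | hxy
  · exact Or.inl (link hF t ht x y z hxy)
  · exact Or.inr (link hF t ht y x z hxy)

end UInv

open TInv UInv Fn in
theorem uINV : U_INV := by
  intro K _ _ r a F hF y t ht h
  obtain ⟨j, g, hg, z, hz, hzg, hgood⟩ := h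
  have hinv : ∀ k, (t k)⁻¹ * t k = 1 := fun k => inv_mul_cancel₀ (ht k)
  refine ⟨j, dil (fun k => (t k)⁻¹) g, ?_, fun l => algebraMap K (AlgebraicClosure K) (t l.1) * z l,
    ?_, ?_, goodE hF t ht z hgood⟩
  · rcases hg with ⟨h1, h2, h3, h4⟩ | ⟨h1, h2⟩
    · left
      refine ⟨irr_dil _ t hinv h1, ?_, ?_, ?_⟩
      · rw [res_dil hF t ht]
        exact Dvd.dvd.mul_left (map_dvd (dil (fun k => (t k)⁻¹)) h2) _
      · rw [eval_dil]
        have e : (fun l : Idx a => (t l.1)⁻¹ * (t l.1 * y l)) = y := by
          funext l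
          rw [inv_mul_cancel_left₀ (ht l.1)]
        rw [e, h3]
      · exact moves (A := K) hF t ht j y h4
    · right
      refine ⟨by rw [h1, map_zero], ?_⟩
      rw [res_dil hF t ht, h2, map_zero, mul_zero]
  · intro l hl
    change algebraMap K (AlgebraicClosure K) (t l.1) * z l =
      algebraMap K (AlgebraicClosure K) (t l.1 * y l)
    rw [hz l hl, map_mul]
  · rw [aeval_dil]
    have e : (fun l : Idx a => algebraMap K (AlgebraicClosure K) ((t l.1)⁻¹) *
        (algebraMap K (AlgebraicClosure K) (t l.1) * z l)) = z := by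
      funext l
      rw [← mul_assoc, ← map_mul, inv_mul_cancel₀ (ht l.1), map_one, one_mul]
    rw [e, hzg]

end Pool.Agent.R383.MQ
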