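import Pool.Agent.R383.MQ.Stm6
import Pool.Agent.R383.MQ.UINV

/-! Semi-goodness does not depend on the choice of the coordinates, final version. -/

set_option autoImplicit false

namespace Pool.Agent.R383.MQ

open MvPolynomial Pool.Agent.TH178.MZ

open TInv UInv in
theorem goodU {K : Type} [Field K] {r : ℕ} {a : Fin r → ℕ} [CharZero K] {A : Type} [Field A]
    [Algebra K A] {F : MvPolynomial (Idx a) K}
    (hF : IsMultiQuadratic F) (t : Fin r → K) (ht : ∀ k, t k ≠ 0) (z : Idx a → A)
    (h : GoodU Sigma.fst F z) : GoodU Sigma.fst F (fun l => algebraMap K A (t l.1) * z l) := by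
  refine ⟨fun i => moves hF t ht i z (h.1 i), fun i j => ?_⟩
  refine Relation.ReflTransGen.mono (fun x y hxy => ?_) _ _ (h.2 i j)
  rcases hxy with hxy | hxy | hxy
  · exact Or.inl (linked hF t ht x y z hxy)
  · exact Or.inr (Or.inl (link hF t ht x y z hxy))
  · exact Or.inr (Or.inr (link hF t ht y x z hxy))

open TInv UInv Fn in
theorem wINV {K : Type} [Field K] [CharZero K] {r : ℕ} {a : Fin r → ℕ}
    {F : MvPolynomial (Idx a) K} (hF : IsMultiQuadratic F) (y : Idx a → K) (t : Fin r → K)
    (ht : ∀ k, t k ≠ 0) (h : SemiGoodU Sigma.fst F y) :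
    SemiGoodU Sigma.fst F (fun l => t l.1 * y l) := by
  obtain ⟨j, g, hg, z, hz, hzg, hgood⟩ := h
  have hinv : ∀ k, (t k)⁻¹ * t k = 1 := fun k => inv_mul_cancel₀ (ht k)
  refine ⟨j, dil (fun k => (t k)⁻¹) g, ?_, fun l => algebraMap K (AlgebraicClosure K) (t l.1) * z l,
    ?_, ?_, goodU hF t ht z hgood⟩
  · rcases hg with ⟨h1, h2, h3, h4⟩ | ⟨h1, h2⟩
    · left
      refine ⟨irr_dil _ t hinv h1, ?_, ?_, ?_⟩
      · rw [res_dil hF t ht]
        exact Dvd.dvd.mul_left (map_dvd (dil (fun k => (t k)⁻¹)) h2) _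
      · rw [eval_dil]
        have e : (fun l : Idx a => (t l.1)⁻¹ * (t l.1 * y l)) = y := by
          funext l
          rw [inv_mul_cancel_left₀ (ht l.1)]
        rw [e, h3]
      · exact moves (A := K) hF t ht j y h4
    · right
      refine ⟨by rw [h1, map_zero], ?_⟩
      rw [res_dil hF t ht, h2, map_zero, mul_zero]
  · intro l hl
    change algebraMap K (AlgebraicClosure K) (t l.1) * z l =
      algebraMap K (AlgebraicClosure K) (t l.1 * y l)
    rw [hz l hl, map_mul]
  · rw [aeval_dil]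
    have e : (fun l : Idx a => algebraMap K (AlgebraicClosure K) ((t l.1)⁻¹) *
        (algebraMap K (AlgebraicClosure K) (t l.1) * z l)) = z := by
      funext l
      rw [← mul_assoc, ← map_mul, inv_mul_cancel₀ (ht l.1), map_one, one_mul]
    rw [e, hzg]

end Pool.Agent.R383.MQ
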