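import Pool.Agent.R383.MQ.Stm3

/-! Brackets generate the tangent space at good points. -/

set_option autoImplicit false

namespace Pool.Agent.R383.MQ

open MvPolynomial Pool.Agent.TH178.MZ

namespace Trk

variable {K : Type} [Field K] {ι : Type}

theorem pc (q : MvPolynomial ι K) (l m : ι) : pderiv l (pderiv m q) = pderiv m (pderiv l q) := by
  classical
  induction q using MvPolynomial.induction_on with
  | C a => simp
  | add p q hp hq => simp only [map_add, hp, hq]
  | mul_X p j hp =>
    simp only [Derivation.leibniz, pderiv_X, smul_eq_mul, map_add, hp]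
    have h : ∀ a b : ι, pderiv a (Pi.single (M := fun _ => MvPolynomial ι K) b 1 j) = 0 := by
      intro a b
      rw [Pi.single_apply]
      split_ifs <;> simp
    rw [h, h]
    ring

theorem fld_apply (F G : MvPolynomial ι K) (l l' : ι) :
    fld F l l' G = pderiv l F * pderiv l' G - pderiv l' F * pderiv l G := by
  simp only [fld, Derivation.sub_apply, Derivation.smul_apply, smul_eq_mul]

theorem fld_X [DecidableEq ι] (F : MvPolynomial ι K) (l l' x : ι) :
    fld F l l' (X x) = (if x = l' then pderiv l F else 0) - (if x = l then pderiv l' F else 0) := by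
  rw [fld_apply, pderiv_X, pderiv_X, Pi.single_apply, Pi.single_apply]
  split_ifs <;> simp

theorem brk [DecidableEq ι] (y : ι → K) (F : MvPolynomial ι K) (l l' m m' x : ι) :
    valueAt y ⁅fld F l l', fld F m m'⁆ x =
      ((if x = m' then eval y (fld F l l' (pderiv m F)) else 0) -
        (if x = m then eval y (fld F l l' (pderiv m' F)) else 0)) -
      ((if x = l' then eval y (fld F m m' (pderiv l F)) else 0) -
        (if x = l then eval y (fld F m m' (pderiv l' F)) else 0)) := by
  rw [valueAt_apply, Derivation.commutator_apply, fld_X, fld_X]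
  simp only [map_sub]
  split_ifs <;> simp

theorem val [DecidableEq ι] (y : ι → K) (F : MvPolynomial ι K) (l l' x : ι) :
    valueAt y (fld F l l') x =
      (if x = l' then eval y (pderiv l F) else 0) - (if x = l then eval y (pderiv l' F) else 0) := by
  rw [valueAt_apply, fld_X]
  split_ifs <;> simp

theorem ev (y : ι → K) (F G : MvPolynomial ι K) (l l' : ι) :
    eval y (fld F l l' G) = eval y (pderiv l F) * eval y (pderiv l' G) -
      eval y (pderiv l' F) * eval y (pderiv l G) := by
  rw [fld_apply, map_sub, map_mul, map_mul]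

theorem aev (y : ι → K) (G : MvPolynomial ι K) : aeval y G = eval y G := by
  rw [aeval_def, eval]
  rfl

end Trk

open Trk in
/-- part TRANK -/
theorem tRANK : T_RANK := by
  classical
  intro K _ ι κ _ s F y hg
  obtain ⟨hmov, hcon⟩ := hg
  set L := LieSubalgebra.lieSpan K (Derivation K (MvPolynomial ι K) (MvPolynomial ι K))
    (Set.range (flds s F)) with hL
  unfold bracketRank
  set W : Submodule K (ι → K) := Submodule.map (valueAt y) L.toSubmodule with hW
  have hmem : ∀ l l', s l = s l' → fld F l l' ∈ L := fun l l' h =>
    LieSubalgebra.subset_lieSpan ⟨⟨(l, l'), h⟩, rfl⟩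
  -- the differential of `F`
  obtain ⟨φ₀, hφ₀⟩ : ∃ φ₀ : Module.Dual K (ι → K), ∀ v, φ₀ v = ∑ m, v m * eval y (pderiv m F) :=
    ⟨∑ m, eval y (pderiv m F) • LinearMap.proj m, fun v => by
      simp only [LinearMap.sum_apply, LinearMap.smul_apply, LinearMap.proj_apply, smul_eq_mul]
      exact Finset.sum_congr rfl fun m _ => mul_comm _ _⟩
  have hann : W.dualAnnihilator ≤ Submodule.span K {φ₀} := by
    intro φ hφ
    rw [Submodule.mem_dualAnnihilator] at hφ
    obtain ⟨f, hf⟩ : ∃ f : ι → K, ∀ v, φ v = ∑ m, v m * f m :=
      ⟨fun m => φ fun j => if m = j then 1 else 0, fun v => by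
        rw [LinearMap.pi_apply_eq_sum_univ φ v]
        rfl⟩
    have hL0 : ∀ V ∈ L, ∑ m, valueAt y V m * f m = 0 := by
      intro V hV
      rw [← hf]
      exact hφ _ ⟨V, hV, rfl⟩
    -- one field
    have h1 : ∀ l l', s l = s l' → eval y (pderiv l F) * f l' = eval y (pderiv l' F) * f l := by
      intro l l' h
      have h2 := hL0 _ (hmem l l' h)
      simp only [val, sub_mul, ite_mul, zero_mul, Finset.sum_sub_distrib, Finset.sum_ite_eq',
        Finset.mem_univ, if_true] at h2
      exact sub_eq_zero.1 h2
    -- the factors of proportionality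
    have h3 : ∀ i : κ, ∃ c : K, ∀ m, s m = i → f m = c * eval y (pderiv m F) := by
      intro i
      obtain ⟨l, hl, hl0⟩ := hmov i
      rw [aev] at hl0
      refine ⟨f l / eval y (pderiv l F), fun m hm => ?_⟩
      have h4 := h1 l m (hl.trans hm.symm)
      field_simp
      linear_combination h4
    choose c hc using h3
    have h5 : ∀ i j, Linked s F y i j → c i = c j := by
      intro i j hij
      obtain ⟨l, l', m, m', hl, hl', hm, hm', hb⟩ := hij
      have h6 : ∑ x, valueAt y ⁅fld F l l', fld F m m'⁆ x * f x = 0 :=
        hL0 _ (LieSubalgebra.lie_mem _ (hmem l l' (hl.trans hl'.symm))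
          (hmem m m' (hm.trans hm'.symm)))
      simp only [brk, sub_mul, ite_mul, zero_mul, Finset.sum_sub_distrib, Finset.sum_ite_eq',
        Finset.mem_univ, if_true] at h6
      rw [hc i l hl, hc i l' hl', hc j m hm, hc j m' hm'] at h6
      simp only [ev] at h6
      have e1 := pc F m l
      have e2 := pc F m l'
      have e3 := pc F m' l
      have e4 := pc F m' l'
      unfold bet at hb
      simp only [aev] at hb
      rw [e1, e2, e3, e4] at hb
      rw [e1, e2, e3, e4] at h6
      have h7 : (c i - c j) * (eval y (pderiv l F) * eval y (pderiv m F) *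
          eval y (pderiv l' (pderiv m' F)) -
        eval y (pderiv l F) * eval y (pderiv m' F) * eval y (pderiv l' (pderiv m F)) -
        eval y (pderiv l' F) * eval y (pderiv m F) * eval y (pderiv l (pderiv m' F)) +
        eval y (pderiv l' F) * eval y (pderiv m' F) * eval y (pderiv l (pderiv m F))) = 0 := by
        linear_combination h6
      exact sub_eq_zero.1 ((mul_eq_zero.1 h7).resolve_right hb)
    have h8 : ∀ i j, c i = c j := by
      intro i j
      have h9 := hcon i j
      induction h9 with
      | refl => rfl
      | tail _ h10 ih => exact ih.trans (h5 _ _ h10)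
    rw [Submodule.mem_span_singleton]
    rcases isEmpty_or_nonempty ι with hι | hι
    · refine ⟨0, LinearMap.ext fun v => ?_⟩
      rw [zero_smul, hf]
      simp
    · obtain ⟨m₀⟩ := hι
      refine ⟨c (s m₀), LinearMap.ext fun v => ?_⟩
      rw [LinearMap.smul_apply, hφ₀, hf, smul_eq_mul, Finset.mul_sum]
      refine Finset.sum_congr rfl fun m _ => ?_
      rw [hc (s m) m rfl, h8 (s m) (s m₀)]
      ring
  have h10 : Module.finrank K W.dualAnnihilator ≤ 1 := by
    refine (Submodule.finrank_mono hann).trans ?_
    exact (finrank_span_le_card _).trans (by simp)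
  have h11 := Subspace.finrank_add_finrank_dualAnnihilator_eq W
  rw [Module.finrank_fintype_fun_eq_card] at h11
  omega

end Pool.Agent.R383.MQ
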