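import Pool.Agent.R383.MQ.Stm5
import Pool.Agent.R383.MQ.TRANK

/-! The fields with second intersection points generate the tangent space at good points. -/

set_option autoImplicit false

namespace Pool.Agent.R383.MQ

open MvPolynomial Pool.Agent.TH178.MZ

namespace Urk

variable {K : Type} [Field K] {ι : Type}

/-- A rationally integrable field on a hypersurface is tangent to it. -/
theorem tangent [CharZero K] [Fintype ι] {F : MvPolynomial ι K}
    {V : Derivation K (MvPolynomial ι K) (MvPolynomial ι K)}
    (hV : RationallyIntegrable {y | eval y F = 0} V) (y : ι → K) (hy : eval y F = 0) :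
    ∑ l, valueAt y V l * eval y (pderiv l F) = 0 := by
  classical
  by_cases h0 : valueAt y V = 0
  · refine Finset.sum_eq_zero fun l _ => ?_
    rw [h0, Pi.zero_apply, zero_mul]
  obtain ⟨num, den, c, hden, hc, hnum0, hnum1, hcurve⟩ := hV y hy h0
  obtain ⟨k, G, hG⟩ := clear_den num den F
  have hfrac : ∀ t : K, den.eval t ≠ 0 → G.IsRoot t := by
    intro t ht
    have h1 := hG K (Polynomial.aeval t) ((den.eval t)⁻¹)
      (by rw [Polynomial.coe_aeval_eq_eval]; exact mul_inv_cancel₀ ht)
    rw [Polynomial.coe_aeval_eq_eval] at h1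
    have h2 : eval (fun l => (num l).eval t / den.eval t) F = 0 := hcurve t ht
    rw [Polynomial.IsRoot, h1]
    have h3 : (aeval fun l => Polynomial.eval t (num l) * (Polynomial.eval t den)⁻¹) F =
        eval (fun l => Polynomial.eval t (num l) / Polynomial.eval t den) F := by
      rw [aeval_def, Algebra.algebraMap_self, eval₂_id]
      simp only [div_eq_mul_inv]
    rw [h3, h2, mul_zero]
  have hden0 : den ≠ 0 := by
    rintro rfl
    exact hden Polynomial.eval_zero
  have hG0 : G = 0 := by
    apply Polynomial.eq_zero_of_infinite_isRoot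
    have hinf : ({t : K | den.IsRoot t}ᶜ).Infinite :=
      (Polynomial.finite_setOf_isRoot hden0).infinite_compl
    exact hinf.mono fun t ht => hfrac t ht
  -- the dual number point
  let φ : Polynomial K →ₐ[K] DualNumber K :=
    Polynomial.aeval (TrivSqZeroExt.inr (1 : K) : DualNumber K)
  have hφ : ∀ q : Polynomial K, φ q = TrivSqZeroExt.inl (q.eval 0) +
      TrivSqZeroExt.inr (q.derivative.eval 0) := by
    intro q
    obtain ⟨h1, h2⟩ := aeval_eps q
    refine TrivSqZeroExt.ext ?_ ?_
    · rw [TrivSqZeroExt.fst_add, TrivSqZeroExt.fst_inl, TrivSqZeroExt.fst_inr, add_zero, ← h1]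
    · rw [TrivSqZeroExt.snd_add, TrivSqZeroExt.snd_inl, TrivSqZeroExt.snd_inr, zero_add, ← h2]
  let u : DualNumber K := TrivSqZeroExt.inl (den.eval 0)⁻¹ +
    TrivSqZeroExt.inr (-(den.derivative.eval 0) / (den.eval 0) ^ 2)
  have hu : φ den * u = 1 := by
    rw [hφ]
    refine TrivSqZeroExt.ext ?_ ?_
    · simp [u, mul_inv_cancel₀ hden]
    · rw [DualNumber.snd_mul]
      simp only [u, TrivSqZeroExt.fst_add, TrivSqZeroExt.fst_inl, TrivSqZeroExt.fst_inr,
        TrivSqZeroExt.snd_add, TrivSqZeroExt.snd_inl, TrivSqZeroExt.snd_inr, add_zero, zero_add,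
        TrivSqZeroExt.snd_one]
      field_simp
      ring
  have hQ1 : ∀ l, (φ (num l) * u).fst = y l := by
    intro l
    rw [hφ, TrivSqZeroExt.fst_mul]
    simp only [u, TrivSqZeroExt.fst_add, TrivSqZeroExt.fst_inl, TrivSqZeroExt.fst_inr, add_zero]
    rw [hnum0]
    field_simp
  have hQ2 : ∀ l, (φ (num l) * u).snd = c / den.eval 0 * valueAt y V l := by
    intro l
    rw [hφ, DualNumber.snd_mul]
    simp only [u, TrivSqZeroExt.fst_add, TrivSqZeroExt.fst_inl, TrivSqZeroExt.fst_inr,
        TrivSqZeroExt.snd_add, TrivSqZeroExt.snd_inl, TrivSqZeroExt.snd_inr, add_zero, zero_add]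
    rw [hnum0, hnum1]
    field_simp
    ring
  have h5 := hG (DualNumber K) φ u hu
  rw [hG0, map_zero] at h5
  have h6 : aeval (fun l => φ (num l) * u) F = 0 := by
    have h7 : u ^ k * (φ den ^ k * aeval (fun l => φ (num l) * u) F) = 0 := by
      rw [← h5, mul_zero]
    rw [← mul_assoc, ← mul_pow, mul_comm u, hu, one_pow, one_mul] at h7
    exact h7
  have h8 := (taylor (fun l => φ (num l) * u) F).2
  rw [h6, TrivSqZeroExt.snd_zero] at h8
  simp only [hQ1, hQ2] at h8
  have h9 : c / den.eval 0 * ∑ l, valueAt y V l * eval y (pderiv l F) = 0 := by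
    refine Eq.trans ?_ h8.symm
    rw [Finset.mul_sum]
    refine Finset.sum_congr rfl fun l _ => ?_
    rw [aeval_def, Algebra.algebraMap_self, eval₂_id]
    ring
  exact (mul_eq_zero.1 h9).resolve_left (div_ne_zero hc hden)

theorem fldE_X {κ : Type} [Fintype ι] [DecidableEq κ] (s : ι → κ) (F : MvPolynomial ι K) (j : κ)
    (e : ι → K) (l l' m : ι) : fldE s F j e l l' (X m) = if s m = j then
    sub s j e F * aeval (ivl s F j e) (fld F l l' (ivl s F j e m)) else
    (sub s j e F) ^ 3 * aeval (ivl s F j e) (fld F l l' (X m)) := by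
  unfold fldE
  rw [mkDerivation_X]

end Urk

open Trk Urk in
/-- part URANK -/
theorem uRANK : T_INT → U_INT → U_RANK := by
  classical
  intro hT hU K _ _ ι κ _ _ s F hF y hy hg
  obtain ⟨hmov, hcon⟩ := hg
  set L := LieSubalgebra.lieSpan K (Derivation K (MvPolynomial ι K) (MvPolynomial ι K))
    (Set.range (fldsE s F)) with hL
  unfold bracketRank
  set W : Submodule K (ι → K) := Submodule.map (valueAt y) L.toSubmodule with hW
  have hmem : ∀ l l', s l = s l' → fld F l l' ∈ L := fun l l' h =>
    LieSubalgebra.subset_lieSpan ⟨Sum.inl ⟨(l, l'), h⟩, rfl⟩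
  have hmem2 : ∀ (j : κ) (e : ι → K) (l l' : ι), s l = s l' → s l ≠ j →
      fldE s F j e l l' ∈ L := fun j e l l' h h' =>
    LieSubalgebra.subset_lieSpan ⟨Sum.inr ⟨(j, e, l, l'), h, h'⟩, rfl⟩
  -- the differential of `F`
  obtain ⟨φ₀, hφ₀⟩ : ∃ φ₀ : Module.Dual K (ι → K), ∀ v, φ₀ v = ∑ m, v m * eval y (pderiv m F) :=
    ⟨∑ m, eval y (pderiv m F) • LinearMap.proj m, fun v => by
      simp only [LinearMap.sum_apply, LinearMap.smul_apply, LinearMap.proj_apply, smul_eq_mul]
      exact Finset.sum_congr rfl fun m _ => mul_comm _ _⟩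
  have hann : W.dualAnnihilator ≤ Submodule.span K {φ₀} := by
    intro φ hφ
    rw [Submodule.mem_dualAnnihilator] at hφ
    obtain ⟨f, hf⟩ : ∃ f : ι → K, ∀ v, φ v = ∑ m, v m * f m :=
      ⟨fun m => φ fun j => if m = j then 1 else 0, fun v => by
        rw [LinearMap.pi_apply_eq_sum_univ φ v]
        rfl⟩
    have hL0 : ∀ V ∈ L, ∑ m, valueAt y V m * f m = 0 := by
      intro V hV
      rw [← hf]
      exact hφ _ ⟨V, hV, rfl⟩
    -- one field
    have h1 : ∀ l l', s l = s l' → eval y (pderiv l F) * f l' = eval y (pderiv l' F) * f l := by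
      intro l l' h
      have h2 := hL0 _ (hmem l l' h)
      simp only [val, sub_mul, ite_mul, zero_mul, Finset.sum_sub_distrib, Finset.sum_ite_eq',
        Finset.mem_univ, if_true] at h2
      exact sub_eq_zero.1 h2
    -- the factors of proportionality
    have h3 : ∀ i : κ, ∃ c : K, ∀ m, s m = i → f m = c * eval y (pderiv m F) := by
      intro i
      obtain ⟨l, hl, hl0⟩ := hmov i
      rw [aev] at hl0
      refine ⟨f l / eval y (pderiv l F), fun m hm => ?_⟩
      have h4 := h1 l m (hl.trans hm.symm)
      field_simp
      linear_combination h4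
    choose c hc using h3
    have h5 : ∀ i j, Link s F y i j → c i = c j := by
      intro i j hij
      obtain ⟨hne, e, l, l', hl, hl', hb⟩ := hij
      have hll : s l = s l' := hl.trans hl'.symm
      have hlj : s l ≠ j := by rw [hl]; exact hne
      set V := fldE s F j e l l' with hV
      have h6 : ∑ m, valueAt y V m * f m = 0 := hL0 _ (hmem2 j e l l' hll hlj)
      have h7 : ∑ m, valueAt y V m * eval y (pderiv m F) = 0 :=
        tangent (hU s F hF j e l l' hll hlj) y hy
      have h8 : ∑ m, valueAt y V m * ((c (s m) - c j) * eval y (pderiv m F)) = 0 := by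
        have h9 : ∑ m, valueAt y V m * ((c (s m) - c j) * eval y (pderiv m F)) =
            ∑ m, valueAt y V m * f m - c j * ∑ m, valueAt y V m * eval y (pderiv m F) := by
          rw [Finset.mul_sum, ← Finset.sum_sub_distrib]
          refine Finset.sum_congr rfl fun m _ => ?_
          rw [hc (s m) m rfl]
          ring
        rw [h9, h6, h7, mul_zero, sub_zero]
      set E := eval y (sub s j e F) with hE
      set G : ι → K := fun m => eval y (aeval (ivl s F j e) (pderiv m F)) with hG
      have h10 : ∀ m, valueAt y V m * ((c (s m) - c j) * eval y (pderiv m F)) =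
          (if m = l' then (c i - c j) * E ^ 3 * G l * eval y (pderiv l' F) else 0) -
          (if m = l then (c i - c j) * E ^ 3 * G l' * eval y (pderiv l F) else 0) := by
        intro m
        by_cases hm : s m = j
        · have hml : m ≠ l := by
            rintro rfl
            exact hlj hm
          have hml' : m ≠ l' := by
            rintro rfl
            exact hlj (hll.trans hm)
          rw [if_neg hml, if_neg hml', hm, sub_self, sub_self, zero_mul, mul_zero]
        · rw [valueAt_apply, hV, fldE_X, if_neg hm, fld_X, map_mul, map_pow, map_sub, map_sub]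
          by_cases h1 : m = l'
          · subst h1
            by_cases h2 : m = l
            · subst h2
              simp only [if_true, hl, hG]
              ring
            · rw [if_pos rfl, if_pos rfl, if_neg h2, if_neg h2, hl', map_zero, map_zero]
              simp only [hG]
              ring
          · by_cases h2 : m = l
            · subst h2
              rw [if_neg h1, if_neg h1, if_pos rfl, if_pos rfl, hl, map_zero, map_zero]
              simp only [hG]
              ring
            · rw [if_neg h1, if_neg h1, if_neg h2, if_neg h2, map_zero, map_zero]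
              ring
      simp only [h10, Finset.sum_sub_distrib, Finset.sum_ite_eq', Finset.mem_univ, if_true] at h8
      rw [aev, lnk, map_mul, map_sub, map_mul, map_mul] at hb
      obtain ⟨hb1, hb2⟩ := mul_ne_zero_iff.1 hb
      have h11 : (c i - c j) * (E ^ 3 * (G l * eval y (pderiv l' F) -
          G l' * eval y (pderiv l F))) = 0 := by
        linear_combination h8
      exact sub_eq_zero.1 ((mul_eq_zero.1 h11).resolve_right
        (mul_ne_zero (pow_ne_zero 3 hb1) hb2))
    have h8 : ∀ i j, c i = c j := by
      intro i j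
      have h9 := hcon i j
      induction h9 with
      | refl => rfl
      | tail _ h10 ih =>
        rcases h10 with h10 | h10
        · exact ih.trans (h5 _ _ h10)
        · exact ih.trans (h5 _ _ h10).symm
    rw [Submodule.mem_span_singleton]
    rcases isEmpty_or_nonempty ι with hι | hι
    · refine ⟨0, LinearMap.ext fun v => ?_⟩
      rw [zero_smul, hf]
      simp
    · obtain ⟨m₀⟩ := hι
      refine ⟨c (s m₀), LinearMap.ext fun v => ?_⟩
      rw [LinearMap.smul_apply, hφ₀, hf, smul_eq_mul, Finset.mul_sum]
      refine Finset.sum_congr rfl fun m _ => ?_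
      rw [hc (s m) m rfl, h8 (s m) (s m₀)]
      ring
  have h10 : Module.finrank K W.dualAnnihilator ≤ 1 := by
    refine (Submodule.finrank_mono hann).trans ?_
    exact (finrank_span_le_card _).trans (by simp)
  have h11 := Subspace.finrank_add_finrank_dualAnnihilator_eq W
  rw [Module.finrank_fintype_fun_eq_card] at h11
  omega

end Pool.Agent.R383.MQ
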