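import Pool.Agent.R383.MQ.Stm6
import Pool.Agent.R383.MQ.URANK

/-! The fields generate the tangent space at good points, final version. -/

set_option autoImplicit false

namespace Pool.Agent.R383.MQ

open MvPolynomial Pool.Agent.TH178.MZ

open Trk Urk in
/-- The fields generate the tangent space at good points, final version. -/
theorem wRANK (hU : U_INT) {K : Type} [Field K] [CharZero K] {ι κ : Type} [Fintype ι]
    [DecidableEq κ] (s : ι → κ) (F : MvPolynomial ι K) (hF : IsMQ s F) (y : ι → K)
    (hy : eval y F = 0) (hg : GoodU s F y) :
    Fintype.card ι - 1 ≤ bracketRank (fldsE s F) y := by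
  classical
  obtain ⟨hmov, hcon⟩ := hg
  set L := LieSubalgebra.lieSpan K (Derivation K (MvPolynomial ι K) (MvPolynomial ι K))
    (Set.range (fldsE s F)) with hL
  unfold bracketRank
  set W : Submodule K (ι → K) := Submodule.map (valueAt y) L.toSubmodule with hW
  have hmem : ∀ l l', s l = s l' → fld F l l' ∈ L := fun l l' h =>
    LieSubalgebra.subset_lieSpan ⟨Sum.inl ⟨(l, l'), h⟩, rfl⟩
  have hmem2 : ∀ (j : κ) (e : ι → K) (l l' : ι), s l = s l' → s l ≠ j →
      fldE s F j e l l' ∈ L := fun j e l l' h h' =>
    LieSubalgebra.subset_lieSpan ⟨Sum.inr ⟨(j, e, l, l'), h, h'⟩, rfl⟩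
  -- the differential of `F`
  obtain ⟨φ₀, hφ₀⟩ : ∃ φ₀ : Module.Dual K (ι → K), ∀ v, φ₀ v = ∑ m, v m * eval y (pderiv m F) :=
    ⟨∑ m, eval y (pderiv m F) • LinearMap.proj m, fun v => by
      simp only [LinearMap.sum_apply, LinearMap.smul_apply, LinearMap.proj_apply, smul_eq_mul]
      exact Finset.sum_congr rfl fun m _ => mul_comm _ _⟩
  have hann : W.dualAnnihilator ≤ Submodule.span K {φ₀} := by
    intro φ hφ
    rw [Submodule.mem_dualAnnihilator] at hφ
    obtain ⟨f, hf⟩ : ∃ f : ι → K, ∀ v, φ v = ∑ m, v m * f m :=
      ⟨fun m => φ fun j => if m = j then 1 else 0, fun v => by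
        rw [LinearMap.pi_apply_eq_sum_univ φ v]
        rfl⟩
    have hL0 : ∀ V ∈ L, ∑ m, valueAt y V m * f m = 0 := by
      intro V hV
      rw [← hf]
      exact hφ _ ⟨V, hV, rfl⟩
    -- one field
    have h1 : ∀ l l', s l = s l' → eval y (pderiv l F) * f l' = eval y (pderiv l' F) * f l := by
      intro l l' h
      have h2 := hL0 _ (hmem l l' h)
      simp only [val, sub_mul, ite_mul, zero_mul, Finset.sum_sub_distrib, Finset.sum_ite_eq',
        Finset.mem_univ, if_true] at h2
      exact sub_eq_zero.1 h2
    -- the factors of proportionality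
    have h3 : ∀ i : κ, ∃ c : K, ∀ m, s m = i → f m = c * eval y (pderiv m F) := by
      intro i
      obtain ⟨l, hl, hl0⟩ := hmov i
      rw [aev] at hl0
      refine ⟨f l / eval y (pderiv l F), fun m hm => ?_⟩
      have h4 := h1 l m (hl.trans hm.symm)
      field_simp
      linear_combination h4
    choose c hc using h3
    have h5 : ∀ i j, Link s F y i j → c i = c j := by
      intro i j hij
      obtain ⟨hne, e, l, l', hl, hl', hb⟩ := hij
      have hll : s l = s l' := hl.trans hl'.symm
      have hlj : s l ≠ j := by rw [hl]; exact hne
      set V := fldE s F j e l l' with hV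
      have h6 : ∑ m, valueAt y V m * f m = 0 := hL0 _ (hmem2 j e l l' hll hlj)
      have h7 : ∑ m, valueAt y V m * eval y (pderiv m F) = 0 :=
        tangent (hU s F hF j e l l' hll hlj) y hy
      have h8 : ∑ m, valueAt y V m * ((c (s m) - c j) * eval y (pderiv m F)) = 0 := by
        have h9 : ∑ m, valueAt y V m * ((c (s m) - c j) * eval y (pderiv m F)) =
            ∑ m, valueAt y V m * f m - c j * ∑ m, valueAt y V m * eval y (pderiv m F) := by
          rw [Finset.mul_sum, ← Finset.sum_sub_distrib]
          refine Finset.sum_congr rfl fun m _ => ?_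
          rw [hc (s m) m rfl]
          ring
        rw [h9, h6, h7, mul_zero, sub_zero]
      set E := eval y (sub s j e F) with hE
      set G : ι → K := fun m => eval y (aeval (ivl s F j e) (pderiv m F)) with hG
      have h10 : ∀ m, valueAt y V m * ((c (s m) - c j) * eval y (pderiv m F)) =
          (if m = l' then (c i - c j) * E ^ 3 * G l * eval y (pderiv l' F) else 0) -
          (if m = l then (c i - c j) * E ^ 3 * G l' * eval y (pderiv l F) else 0) := by
        intro m
        by_cases hm : s m = j
        · have hml : m ≠ l := by
            rintro rfl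
            exact hlj hm
          have hml' : m ≠ l' := by
            rintro rfl
            exact hlj (hll.trans hm)
          rw [if_neg hml, if_neg hml', hm, sub_self, sub_self, zero_mul, mul_zero]
        · rw [valueAt_apply, hV, fldE_X, if_neg hm, fld_X, map_mul, map_pow, map_sub, map_sub]
          by_cases h1 : m = l'
          · subst h1
            by_cases h2 : m = l
            · subst h2
              simp only [if_true, hl, hG]
              ring
            · rw [if_pos rfl, if_pos rfl, if_neg h2, if_neg h2, hl', map_zero, map_zero]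
              simp only [hG]
              ring
          · by_cases h2 : m = l
            · subst h2
              rw [if_neg h1, if_neg h1, if_pos rfl, if_pos rfl, hl, map_zero, map_zero]
              simp only [hG]
              ring
            · rw [if_neg h1, if_neg h1, if_neg h2, if_neg h2, map_zero, map_zero]
              ring
      simp only [h10, Finset.sum_sub_distrib, Finset.sum_ite_eq', Finset.mem_univ, if_true] at h8
      rw [aev, lnk, map_mul, map_sub, map_mul, map_mul] at hb
      obtain ⟨hb1, hb2⟩ := mul_ne_zero_iff.1 hb
      have h11 : (c i - c j) * (E ^ 3 * (G l * eval y (pderiv l' F) -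
          G l' * eval y (pderiv l F))) = 0 := by
        linear_combination h8
      exact sub_eq_zero.1 ((mul_eq_zero.1 h11).resolve_right
        (mul_ne_zero (pow_ne_zero 3 hb1) hb2))
    have h5b : ∀ i j, Linked s F y i j → c i = c j := by
      intro i j hij
      obtain ⟨l, l', m, m', hl, hl', hm, hm', hb⟩ := hij
      have h6 : ∑ x, valueAt y ⁅fld F l l', fld F m m'⁆ x * f x = 0 :=
        hL0 _ (LieSubalgebra.lie_mem _ (hmem l l' (hl.trans hl'.symm))
          (hmem m m' (hm.trans hm'.symm)))
      simp only [brk, sub_mul, ite_mul, zero_mul, Finset.sum_sub_distrib, Finset.sum_ite_eq',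
        Finset.mem_univ, if_true] at h6
      rw [hc i l hl, hc i l' hl', hc j m hm, hc j m' hm'] at h6
      simp only [ev] at h6
      have e1 := pc F m l
      have e2 := pc F m l'
      have e3 := pc F m' l
      have e4 := pc F m' l'
      unfold bet at hb
      simp only [aev] at hb
      rw [e1, e2, e3, e4] at hb
      rw [e1, e2, e3, e4] at h6
      have h7 : (c i - c j) * (eval y (pderiv l F) * eval y (pderiv m F) *
          eval y (pderiv l' (pderiv m' F)) -
        eval y (pderiv l F) * eval y (pderiv m' F) * eval y (pderiv l' (pderiv m F)) -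
        eval y (pderiv l' F) * eval y (pderiv m F) * eval y (pderiv l (pderiv m' F)) +
        eval y (pderiv l' F) * eval y (pderiv m' F) * eval y (pderiv l (pderiv m F))) = 0 := by
        linear_combination h6
      exact sub_eq_zero.1 ((mul_eq_zero.1 h7).resolve_right hb)
    have h8 : ∀ i j, c i = c j := by
      intro i j
      have h9 := hcon i j
      induction h9 with
      | refl => rfl
      | tail _ h10 ih =>
        rcases h10 with h10 | h10 | h10
        · exact ih.trans (h5b _ _ h10)
        · exact ih.trans (h5 _ _ h10)
        · exact ih.trans (h5 _ _ h10).symm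
    rw [Submodule.mem_span_singleton]
    rcases isEmpty_or_nonempty ι with hι | hι
    · refine ⟨0, LinearMap.ext fun v => ?_⟩
      rw [zero_smul, hf]
      simp
    · obtain ⟨m₀⟩ := hι
      refine ⟨c (s m₀), LinearMap.ext fun v => ?_⟩
      rw [LinearMap.smul_apply, hφ₀, hf, smul_eq_mul, Finset.mul_sum]
      refine Finset.sum_congr rfl fun m _ => ?_
      rw [hc (s m) m rfl, h8 (s m) (s m₀)]
      ring
  have h10 : Module.finrank K W.dualAnnihilator ≤ 1 := by
    refine (Submodule.finrank_mono hann).trans ?_
    exact (finrank_span_le_card _).trans (by simp)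
  have h11 := Subspace.finrank_add_finrank_dualAnnihilator_eq W
  rw [Module.finrank_fintype_fun_eq_card] at h11
  omega

end Pool.Agent.R383.MQ
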