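import Pool.Agent.R383.MQ.Main

/-! The rational points near a good point. -/

set_option autoImplicit false

namespace Pool.Agent.R383.MQ

open MvPolynomial Pool.Agent.TH178.MZ

theorem mix_map {K L ι κ : Type} [DecidableEq κ] (σ : K → L) (s : ι → κ) (i : κ) (z y : ι → K) :
    (fun l => σ (mix s i z y l)) = mix s i (fun l => σ (z l)) (fun l => σ (y l)) := by
  funext l
  unfold mix
  split_ifs <;> rfl

theorem continuous_mix {L ι κ : Type} [TopologicalSpace L] [DecidableEq κ] (s : ι → κ) (i : κ)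
    (y : ι → L) : Continuous fun x : ι → L => mix s i x y := by
  refine continuous_pi fun l => ?_
  by_cases h : s l = i
  · simp only [mix, h, if_true]
    exact continuous_apply l
  · simp only [mix, h, if_false]
    exact continuous_const

theorem open_ne {K : Type} [Field K] {ι : Type} {L : Type} [NontriviallyNormedField L]
    (σ : K →+* L) (P : MvPolynomial ι K) {y : ι → K} (h : eval y P ≠ 0) :
    {x : ι → L | eval₂ σ x P ≠ 0} ∈ nhds (fun l => σ (y l)) := by
  have hc : Continuous fun z : ι → L => eval₂ σ z P := by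
    have h : (fun z : ι → L => eval₂ σ z P) = fun z => eval z (MvPolynomial.map σ P) := by
      funext z
      rw [eval_map]
    rw [h]
    exact MvPolynomial.continuous_eval _
  apply (isOpen_ne_fun hc continuous_const).mem_nhds
  show eval₂ σ (fun l => σ (y l)) P ≠ 0
  have h1 : eval₂ σ (fun l => σ (y l)) P = σ (eval y P) := (MvPolynomial.eval₂_comp σ y P).symm
  rw [h1]
  exact (map_ne_zero σ).2 h

theorem prime_res (hMINOR : S_MINOR) (hHOM : S_HOM) {K : Type} [Field K] {ι κ : Type} [Fintype ι]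
    [DecidableEq κ] {s : ι → κ} {F : MvPolynomial ι K} (hF : IsMQ s F) {y : ι → K}
    (hMin : MinorAt s F y) (i : κ) : Prime (res s i y F) := by
  obtain ⟨h1, -, -, h4, -⟩ := hHOM s i y
  obtain ⟨l, m, hl, hm, hdet⟩ := hMin i
  apply hMINOR (res s i y F) (h1 F hF) l m
  have h : (Matrix.of fun a b => hess (res s i y F) (l a) (m b)) =
      Matrix.of fun a b => eval y (pderiv (m b) (pderiv (l a) F)) := by
    ext a b
    rw [Matrix.of_apply, Matrix.of_apply]
    exact h4 F hF _ _ (hl a) (hm b)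
  rw [h]
  exact hdet

theorem slice_res (hHOM : S_HOM) {K : Type} [Field K] [CharZero K] {ι κ : Type} [Fintype ι]
    [DecidableEq κ] {L : Type} [NontriviallyNormedField L] (σ : K →+* L) (hσ : DenseRange σ)
    {s : ι → κ} {F : MvPolynomial ι K} (hF : IsMQ s F) {y : ι → K} (hy : eval y F = 0) {i : κ}
    (hp : Prime (res s i y F)) {l : ι} (hl : s l = i) (hyl : eval y (pderiv l F) ≠ 0)
    {W : Set (ι → L)} (hW : W ∈ nhds (fun l => σ (y l))) (f : MvPolynomial ι K)
    (hf : ∀ z : ι → K, eval z F = 0 → (fun l => σ (z l)) ∈ W → (∀ l, s l ≠ i → z l = y l) →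
      eval z f = 0) : res s i y F ∣ res s i y f := by
  obtain ⟨h1, -, h3, -, -⟩ := hHOM s i y
  have hW1 : (fun x : ι → L => mix s i x (fun l => σ (y l))) ⁻¹' W ∈
      nhds (fun l => σ (y l)) := by
    apply (continuous_mix s i _).continuousAt.preimage_mem_nhds
    rw [mix_self]
    exact hW
  refine slice σ hσ (h1 F hF) hp (y := y) ?_ (l := l) ?_ hW1 _ ?_
  · rw [eval_res, mix_self, hy]
  · rw [h3 F l hl, eval_res, mix_self]
    exact hyl
  · intro z hz hzW
    rw [eval_res] at hz ⊢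
    apply hf
    · exact hz
    · rw [mix_map]
      exact hzW
    · intro l hl
      simp [mix, hl]

theorem sGOOD (hMINOR : S_MINOR) (hELIM : S_ELIM) (hHOM : S_HOM) (hOPEN : S_OPEN) : S_GOOD := by
  intro K _ _ ι κ _ _ _ L _ σ hσ s F hF hp y₀ hy₀ hMin hRank hNon U hU f hf
  classical
  obtain ⟨V, hV, hVz⟩ := hOPEN σ s F y₀ hMin hRank
  -- a variable
  obtain ⟨l₁⟩ : Nonempty ι := by
    by_contra hcon
    rw [not_nonempty_iff] at hcon
    have h1 : F = C (coeff 0 F) := by
      rw [← totalDegree_eq_zero_iff_eq_C]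
      apply Nat.le_zero.1
      apply Finset.sup_le
      intro m _
      rw [Subsingleton.elim m 0]
      simp
    apply hp.not_unit
    rw [h1]
    have h2 : coeff 0 F ≠ 0 := by
      intro h0
      apply hp.ne_zero
      rw [h1, h0, C_0]
    exact (IsUnit.mk0 _ h2).map C
  obtain ⟨l, m, hl, hm, hdet⟩ := hMin (s l₁)
  obtain ⟨a, b, hab⟩ : ∃ a b, eval y₀ (pderiv (m b) (pderiv (l a) F)) ≠ 0 := by
    by_contra hcon
    push Not at hcon
    apply hdet
    rw [Matrix.det_fin_three]
    simp [hcon]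
  have hlm : s (m b) = s (l a) := by rw [hl, hm]
  set W := interior (U ∩ (V ∩ {x : ι → L | eval₂ σ x (pderiv (m b) (pderiv (l a) F)) ≠ 0}))
    with hWdef
  have hW0 : (fun l => σ (y₀ l)) ∈ W :=
    mem_interior_iff_mem_nhds.2 (Filter.inter_mem hU (Filter.inter_mem hV (open_ne σ _ hab)))
  have hWsub := interior_subset (s := U ∩ (V ∩ {x : ι → L |
    eval₂ σ x (pderiv (m b) (pderiv (l a) F)) ≠ 0}))
  let T : Set (ι → K) := {z | eval z F = 0 ∧ (fun l => σ (z l)) ∈ W}
  have hTall : ∀ z ∈ T, MinorAt s F z ∧ RankAt s F z ∧ NonsingAt s F z := by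
    rintro z ⟨-, hzW⟩
    obtain ⟨h1, h2, h3⟩ := hVz z (hWsub hzW).2.1
    exact ⟨h1, h2, h3 hNon⟩
  have hprime : ∀ y ∈ T, ∀ i, Prime (res s i y F) :=
    fun y hy i => prime_res hMINOR hHOM hF (hTall y hy).1 i
  have hdeg : ∀ y ∈ T, (res s (s (l a)) y F).degreeOf (l a) ≠ 0 := by
    intro y hy h0
    have h1 : eval y (pderiv (m b) (pderiv (l a) F)) ≠ 0 := by
      have h2 := (hWsub hy.2).2.2
      intro h3
      apply h2
      have h4 : eval₂ σ (fun l => σ (y l)) (pderiv (m b) (pderiv (l a) F)) =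
        σ (eval y (pderiv (m b) (pderiv (l a) F))) := (MvPolynomial.eval₂_comp σ y _).symm
      rw [h4, h3, map_zero]
    apply h1
    rw [← (hHOM s (s (l a)) y).2.2.2.1 F hF (l a) (m b) rfl hlm, hess]
    have h5 : pderiv (l a) (res s (s (l a)) y F) = 0 := by
      apply pderiv_eq_zero_of_notMem_vars
      intro h6
      rw [← not_not (a := l a ∈ _)] at h6
      apply h6
      intro h7
      rw [mem_vars] at h7
      obtain ⟨d, hd, hd2⟩ := h7
      have h8 := monomial_le_degreeOf (l a) hd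
      rw [h0] at h8
      rw [Finsupp.mem_support_iff] at hd2
      omega
    rw [h5, map_zero, coeff_zero]
  refine main (T := T) ⟨y₀, hy₀, hW0⟩ hprime (fun i w => (hHOM s i w).1 F hF) ?_
    (fun y hy => (hTall y hy).2.1) (fun y hy => hy.1) (l a) hdeg
    (fun y G => (hHOM s (s (l a)) y).2.2.2.2 G (l a)) ?_ f ?_
  · intro y hy i g hg
    obtain ⟨l', hl', hyl'⟩ := (hTall y hy).2.2 i
    refine slice_res hHOM σ hσ hF hy.1 (hprime y hy i) hl' hyl'
      (isOpen_interior.mem_nhds hy.2) g ?_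
    intro z hz hzW hzy
    exact hg z ⟨hz, hzW⟩ hzy
  · intro g hg
    refine hELIM F g (l a) hp hg ?_
    intro h0
    have h1 := (hHOM s (s (l a)) y₀).2.2.2.2 F (l a)
    have h2 := hdeg y₀ ⟨hy₀, hW0⟩
    omega
  · intro z hz
    exact hf z hz.1 (hWsub hz.2).1

end Pool.Agent.R383.MQ
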