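import Pool.Agent.R383.MQ.Stm3
import Pool.Agent.R383.MQ.HOM
import Pool.Agent.R383.MQ.Good

/-! Good rational points near semi-good points. -/

set_option autoImplicit false

namespace Pool.Agent.R383.MQ

open MvPolynomial Pool.Agent.TH178.MZ

namespace TSem

/-- The polynomial whose values are given by `bet`. -/
noncomputable def betP {K : Type} [Field K] {ι : Type} (F : MvPolynomial ι K) (l l' m m' : ι) :
    MvPolynomial ι K :=
  pderiv l F * pderiv m F * pderiv m' (pderiv l' F) -
  pderiv l F * pderiv m' F * pderiv m (pderiv l' F) -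
  pderiv l' F * pderiv m F * pderiv m' (pderiv l F) +
  pderiv l' F * pderiv m' F * pderiv m (pderiv l F)

theorem aeval_betP {K : Type} [Field K] {ι : Type} {A : Type} [CommRing A] [Algebra K A]
    (F : MvPolynomial ι K) (z : ι → A) (l l' m m' : ι) :
    aeval z (betP F l l' m m') = bet F z l l' m m' := by
  simp only [betP, bet, map_add, map_sub, map_mul]

/-- A polynomial detecting good points. -/
theorem exists_detect {K : Type} [Field K] {ι κ : Type} [Fintype κ] {A : Type}
    [CommRing A] [IsDomain A] [Algebra K A] (s : ι → κ) (F : MvPolynomial ι K) (z : ι → A)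
    (hz : Good s F z) : ∃ P : MvPolynomial ι K, aeval z P ≠ 0 ∧
      ∀ w : ι → K, eval w P ≠ 0 → Good s F w := by
  classical
  obtain ⟨hM, hL⟩ := hz
  choose lf hlf hlz using hM
  have hQ : ∀ i k : κ, ∃ Q : MvPolynomial ι K, aeval z Q ≠ 0 ∧
      ∀ w : ι → K, eval w Q ≠ 0 → Linked s F z i k → Linked s F w i k := by
    intro i k
    by_cases h : Linked s F z i k
    · obtain ⟨l, l', m, m', h1, h2, h3, h4, h5⟩ := h
      refine ⟨betP F l l' m m', ?_, ?_⟩
      · rw [aeval_betP]; exact h5
      · intro w hw _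
        refine ⟨l, l', m, m', h1, h2, h3, h4, ?_⟩
        rw [← aeval_betP, aeval_eq_eval]
        exact hw
    · exact ⟨1, by rw [map_one]; exact one_ne_zero, fun w _ h' => absurd h' h⟩
  choose Q hQz hQw using hQ
  refine ⟨(∏ i, pderiv (lf i) F) * ∏ i, ∏ k, Q i k, ?_, ?_⟩
  · rw [map_mul, map_prod, map_prod]
    refine mul_ne_zero (Finset.prod_ne_zero_iff.2 fun i _ => hlz i)
      (Finset.prod_ne_zero_iff.2 fun i _ => ?_)
    rw [map_prod]
    exact Finset.prod_ne_zero_iff.2 fun k _ => hQz i k
  · intro w hw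
    rw [map_mul, map_prod, map_prod] at hw
    have h1 := left_ne_zero_of_mul hw
    have h2 := right_ne_zero_of_mul hw
    rw [Finset.prod_ne_zero_iff] at h1 h2
    refine ⟨fun i => ⟨lf i, hlf i, ?_⟩, fun i j => ?_⟩
    · rw [aeval_eq_eval]
      exact h1 i (Finset.mem_univ i)
    · refine Relation.ReflTransGen.mono (fun a b hab => ?_) i j (hL i j)
      have h3 := h2 a (Finset.mem_univ a)
      rw [map_prod, Finset.prod_ne_zero_iff] at h3
      exact hQw a b w (h3 b (Finset.mem_univ b)) hab

theorem aeval_res {K : Type} [Field K] {ι κ : Type} [DecidableEq κ] {A : Type}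
    [CommRing A] [Algebra K A] (s : ι → κ) (j : κ) (y : ι → K) (z : ι → A)
    (hz : ∀ l, s l ≠ j → z l = algebraMap K A (y l)) (P : MvPolynomial ι K) :
    aeval z (res s j y P) = aeval z P := by
  rw [res, ← AlgHom.comp_apply]
  congr 1
  apply algHom_ext
  intro l
  rw [AlgHom.comp_apply, aeval_X, aeval_X]
  unfold mix
  split_ifs with h
  · rw [aeval_X]
  · rw [aeval_C, hz l h]

end TSem

theorem tSEMI : T_SLICE → T_SEMI := by
  intro hS K _ _ ι κ _ _ _ L _ σ hσ s F hF y hy hSG U hU
  obtain ⟨j, g, hB, z, hzy, hzg, hG⟩ := hSG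
  obtain ⟨P, hPz, hPw⟩ := TSem.exists_detect s F z hG
  by_contra hcon
  push Not at hcon
  obtain ⟨h1, -, h3, -, -⟩ := sHOM s j y (K := K)
  have hW : (fun x : ι → L => mix s j x (fun l => σ (y l))) ⁻¹' U ∈
      nhds (fun l => σ (y l)) := by
    apply (continuous_mix s j _).continuousAt.preimage_mem_nhds
    rw [mix_self]
    exact hU
  have hvan : ∀ x : ι → K, eval x (res s j y F) = 0 →
      (fun l => σ (x l)) ∈ (fun x : ι → L => mix s j x (fun l => σ (y l))) ⁻¹' U →
      eval x (res s j y P) = 0 := by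
    intro x hx hxU
    rw [eval_res] at hx ⊢
    by_contra hne
    refine hcon (mix s j x y) hx ?_ (hPw _ hne)
    rw [mix_map]
    exact hxU
  apply hPz
  rw [← TSem.aeval_res s j y z hzy P]
  rcases hB with ⟨hirr, hdvd, hgy, l, hl, hyl⟩ | ⟨hg0, hr0⟩
  · have h4 : g ∣ res s j y P := by
      refine hS σ hσ (res s j y F) (h1 F hF) g hirr hdvd y hgy l ?_ _ hW (res s j y P) ?_
      · rw [h3 F l hl, eval_res, mix_self]
        rw [aeval_eq_eval] at hyl
        exact hyl
      · intro x hx hxU
        refine hvan x ?_ hxU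
        obtain ⟨h, hh⟩ := hdvd
        rw [hh, map_mul, hx, zero_mul]
    obtain ⟨h, hh⟩ := h4
    rw [hh, map_mul, hzg, zero_mul]
  · have h4 : res s j y P = 0 := by
      refine eq_zero_of_open σ hσ hW _ (fun u hu => hvan u ?_ hu)
      rw [hr0, map_zero]
    rw [h4, map_zero]

end Pool.Agent.R383.MQ
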