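import Pool.Agent.R383.MQ.Final3
import Pool.Agent.R383.MQ.WSEMI
import Pool.Agent.R383.MQ.WRANK
import Pool.Agent.R383.MQ.WINV

/-! Mazur's question for hypersurfaces of multidegree `(2, ..., 2)`, final version. -/

set_option autoImplicit false

namespace Pool.Agent.R383.MQ

open MvPolynomial Pool.Agent.TH178.MZ Fn

/-- The rational points near a good point. -/
theorem good6 (hINT : T_INT) (hU : U_INT) (hTR : T_TRDEG) {K : Type} [Field K] [CharZero K]
    {ι κ : Type} [Fintype ι] [DecidableEq κ] {L : Type} [NontriviallyNormedField L]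
    (σ : K →+* L) (hσ : DenseRange σ) {s : ι → κ} {F : MvPolynomial ι K} (hF : IsMQ s F)
    (hp : Prime F) {y : ι → K} (hy : eval y F = 0) (hg : GoodU s F y) {U : Set (ι → L)}
    (hUn : U ∈ nhds (fun l => σ (y l))) (f : MvPolynomial ι K)
    (hf : ∀ z : ι → K, eval z F = 0 → (fun l => σ (z l)) ∈ U → eval z f = 0) : F ∣ f := by
  have hprime : (Ideal.span {F}).IsPrime := (Ideal.span_singleton_prime hp.ne_zero).2 hp
  rw [← Ideal.mem_span_singleton]
  refine mem_of_good σ hσ (S := {y | eval y F = 0}) (p := Ideal.span {F}) ?_ (hTR F hp)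
    (fldsE s F) ?_ (U := interior U) isOpen_interior
    (y₀ := y) hy (mem_interior_iff_mem_nhds.2 hUn) (wRANK hU s F hF y hy hg) f
    (fun z hz hzU => hf z hz (interior_subset hzU))
  · intro g hg' z hz
    obtain ⟨h, rfl⟩ := Ideal.mem_span_singleton.1 hg'
    have hz' : eval z F = 0 := hz
    rw [map_mul, hz', zero_mul]
  · rintro (p | p)
    · exact hINT s F hF p.1.1 p.1.2 p.2
    · exact hU s F hF p.1.1 p.1.2.1 p.1.2.2.1 p.1.2.2.2 p.2.1 p.2.2

/-- The exceptional set: the rational points of `X : F = 0` (given by multihomogeneous coordinates)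
which are not semi-good. -/
def Exc6 {K : Type} [Field K] {r : ℕ} {a : Fin r → ℕ} (F : MvPolynomial (Idx a) K) :
    Set (Idx a → K) :=
  {y | eval y F = 0 ∧ (∀ k, ∃ j, y ⟨k, j⟩ ≠ 0) ∧ ¬ SemiGoodU Sigma.fst F y}

/-- Mazur's question for hypersurfaces of multidegree `(2, ..., 2)`. -/
theorem all6 (hINT : T_INT) (hU : U_INT) (hTR : T_TRDEG) (hSL : T_SLICE)
    {K : Type} [Field K] [CharZero K] {L : Type} [NontriviallyNormedField L]
    (σ : K →+* L) (hσ : DenseRange σ) {r : ℕ} {a : Fin r → ℕ} {F : MvPolynomial (Idx a) K}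
    (hF : IsMultiQuadratic F) (hp : Prime F) :
    (∀ x : Idx a → L, (∀ k, ∃ j, x ⟨k, j⟩ ≠ 0) →
      locClos σ {y | eval y F = 0} x = (Ideal.span {F} : Set (MvPolynomial (Idx a) K)) ∨
      locClos σ {y | eval y F = 0} x = locClos σ (Exc6 F) x) ∧
    ∀ E : Finset (Idx a → K), (∀ y ∈ Exc6 F, ∃ e ∈ E, ∃ t : Fin r → K, (∀ k, t k ≠ 0) ∧
        y = fun l => t l.1 * e l) →
      {J | ∃ x : Idx a → L, (∀ k, ∃ j, x ⟨k, j⟩ ≠ 0) ∧
        J = locClos σ {y | eval y F = 0} x}.Finite := by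
  refine final3 σ hσ hF (B := Exc6 F) (fun y hy => hy.1) ?_ ?_
  · rintro y ⟨h1, h2, h3⟩ t ht
    refine ⟨by rw [hF.eval_scale, h1, mul_zero], scale_pr (show Pr y from h2) ht, ?_⟩
    intro h4
    apply h3
    have h5 := wINV hF _ (fun k => (t k)⁻¹) (fun k => inv_ne_zero (ht k)) h4
    have e : (fun l : Idx a => (t l.1)⁻¹ * (t l.1 * y l)) = y := by
      funext l
      rw [inv_mul_cancel_left₀ (ht l.1)]
    beta_reduce at h5
    rwa [e] at h5
  · intro y hy hyP hyB U hUn f hf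
    have hs : SemiGoodU Sigma.fst F y := by
      by_contra h
      exact hyB ⟨hy, hyP, h⟩
    obtain ⟨z, hz, hzU, hzg⟩ := wSEMI hSL σ hσ Sigma.fst F (isMQ_of hF) y hy hs (interior U)
      (interior_mem_nhds.2 hUn)
    exact good6 hINT hU hTR σ hσ (isMQ_of hF) hp hz hzg (isOpen_interior.mem_nhds hzU) f
      (fun w hw hwU => hf w hw (interior_subset hwU))

end Pool.Agent.R383.MQ
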