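import Pool.Agent.R383.MQ.Stm

/-! A quadratic form with a nonzero `3 × 3` minor of its Hessian matrix is prime. -/

set_option autoImplicit false

namespace Pool.Agent.R383.MQ

open MvPolynomial

/-- second derivatives of a polynomial of degree at most one -/
theorem minor_aux1 {K : Type} [Field K] {ι : Type} [Fintype ι] {g : MvPolynomial ι K}
    (hg : g.totalDegree ≤ 1) (l m : ι) : coeff 0 (pderiv m (pderiv l g)) = 0 := by
  classical
  rw [coeff_pderiv, coeff_pderiv, coeff_eq_zero_of_totalDegree_lt, zero_mul, zero_mul]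
  have h1 : ∑ i ∈ (0 + Finsupp.single m 1 + Finsupp.single l 1 : ι →₀ ℕ).support,
      (0 + Finsupp.single m 1 + Finsupp.single l 1 : ι →₀ ℕ) i = 2 := by
    have h2 : ∑ i ∈ (0 + Finsupp.single m 1 + Finsupp.single l 1 : ι →₀ ℕ).support,
      (0 + Finsupp.single m 1 + Finsupp.single l 1 : ι →₀ ℕ) i =
      ∑ i, (0 + Finsupp.single m 1 + Finsupp.single l 1 : ι →₀ ℕ) i := by
      refine Finset.sum_subset (Finset.subset_univ _) fun i _ hi => ?_
      exact Finsupp.notMem_support_iff.1 hi
    rw [h2]
    simp only [zero_add, Finsupp.add_apply, Finset.sum_add_distrib, Finsupp.single_apply]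
    simp
  rw [h1]
  omega

theorem minor_aux2 {K : Type} [Field K] {ι : Type} [Fintype ι] {g h : MvPolynomial ι K}
    (hg : g.totalDegree ≤ 1) (hh : h.totalDegree ≤ 1) (l m : ι) :
    hess (g * h) l m = constantCoeff (pderiv l g) * constantCoeff (pderiv m h) +
      constantCoeff (pderiv m g) * constantCoeff (pderiv l h) := by
  unfold hess
  have e1 := minor_aux1 hg l m
  have e2 := minor_aux1 hh l m
  rw [← constantCoeff_eq] at e1 e2 ⊢
  rw [pderiv_mul, map_add, pderiv_mul, pderiv_mul, map_add, map_add, map_add, map_mul, map_mul,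
    map_mul, map_mul, e1, e2]
  ring

theorem minor_aux3 {K : Type} [Field K] {ι : Type} [Fintype ι] (c : K) (l m : Fin 3 → ι) :
    (Matrix.of fun a b => hess (C c : MvPolynomial ι K) (l a) (m b)).det = 0 := by
  have h : (Matrix.of fun a b => hess (C c : MvPolynomial ι K) (l a) (m b)) = 0 := by
    ext a b
    simp [hess]
  rw [h]
  simp

theorem sMINOR : S_MINOR := by
  intro K _ ι _ q hq l m hdet
  have hnC : ∀ c : K, q ≠ C c := by
    rintro c rfl
    exact hdet (minor_aux3 c l m)
  have hq0 : q ≠ 0 := by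
    intro h
    apply hnC 0
    rw [h, C_0]
  rw [← UniqueFactorizationMonoid.irreducible_iff_prime]
  constructor
  · intro hu
    obtain ⟨c, -, hc⟩ := isUnit_iff_eq_C_of_isReduced.1 hu
    exact hnC c hc
  · intro g h hgh
    have hg0 : g ≠ 0 := by
      rintro rfl
      rw [zero_mul] at hgh
      exact hq0 hgh
    have hh0 : h ≠ 0 := by
      rintro rfl
      rw [mul_zero] at hgh
      exact hq0 hgh
    have hunit : ∀ g : MvPolynomial ι K, g ≠ 0 → g.totalDegree = 0 → IsUnit g := by
      intro g hg hgd
      rw [totalDegree_eq_zero_iff_eq_C] at hgd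
      rw [isUnit_iff_eq_C_of_isReduced]
      refine ⟨coeff 0 g, ?_, hgd⟩
      rw [isUnit_iff_ne_zero]
      intro h0
      apply hg
      rw [hgd, h0, C_0]
    by_contra hcon
    push Not at hcon
    have h1 : g.totalDegree ≠ 0 := fun h => hcon.1 (hunit g hg0 h)
    have h2 : h.totalDegree ≠ 0 := fun h' => hcon.2 (hunit h hh0 h')
    have h3 := hq.totalDegree_le
    rw [hgh, totalDegree_mul_of_isDomain hg0 hh0] at h3
    apply hdet
    rw [hgh]
    rw [Matrix.det_fin_three]
    simp only [Matrix.of_apply]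
    simp only [minor_aux2 (show g.totalDegree ≤ 1 by omega) (show h.totalDegree ≤ 1 by omega)]
    ring

end Pool.Agent.R383.MQ
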