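import Pool.Agent.R383.MQ.MainB

/-! The main argument. -/

set_option autoImplicit false

namespace Pool.Agent.R383.MQ

open MvPolynomial Pool.Agent.TH178.MZ

variable {K : Type} [Field K] {ι κ : Type} [DecidableEq κ]

theorem exists_eval_ne [Infinite K] {R : MvPolynomial ι K} (hR : R ≠ 0) :
    ∃ z : ι → K, eval z R ≠ 0 := by
  by_contra hcon
  push Not at hcon
  exact hR (MvPolynomial.funext fun x => by rw [hcon x, map_zero])

/-- No nonzero polynomial independent of one of the slots vanishes on `T`. -/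
theorem no_indep [Infinite K] [Fintype κ] {s : ι → κ} {F : MvPolynomial ι K} {T : Set (ι → K)}
    (hT : T.Nonempty) (hprime : ∀ y ∈ T, ∀ i, Prime (res s i y F))
    (hM2 : ∀ i w, (res s i w F).IsHomogeneous 2)
    (hS : ∀ y ∈ T, ∀ i, ∀ f : MvPolynomial ι K, (∀ z ∈ T, (∀ l, s l ≠ i → z l = y l) →
      eval z f = 0) → res s i y F ∣ res s i y f)
    (hrank : ∀ y ∈ T, RankAt s F y) (J : Finset κ) : (∃ i, i ∉ J) →
    ∀ R : MvPolynomial ι K, R ≠ 0 → (∀ y ∈ T, eval y R = 0) → (∀ k, k ∉ J → Indep s k R) →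
      False := by
  classical
  induction J using Finset.induction_on with
  | empty =>
    rintro - R hR hRT hind
    obtain ⟨y, hy⟩ := hT
    obtain ⟨z, hz⟩ := exists_eval_ne hR
    apply hz
    rw [eval_const (fun k => hind k (Finset.notMem_empty k)) z y, hRT y hy]
  | insert j J hj ih =>
    rintro ⟨i, hi⟩ R hR hRT hind
    rw [Finset.mem_insert, not_or] at hi
    by_cases h : ∀ y ∈ T, res s j y R = 0
    · obtain ⟨z, hz⟩ := exists_eval_ne hR
      refine ih ⟨i, hi.2⟩ (sub s j z R) ?_ ?_ ?_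
      · intro h0
        apply hz
        have h1 := congrArg (eval z) h0
        rwa [eval_sub', mix_self, map_zero] at h1
      · intro y hy
        rw [eval_sub', ← eval_res, h y hy, map_zero]
      · intro k hk
        by_cases hkj : k = j
        · subst hkj
          exact indep_sub s k z R
        · exact (hind k (by rw [Finset.mem_insert, not_or]; exact ⟨hkj, hk⟩)).sub z
    · push Not at h
      obtain ⟨y, hy, hρ⟩ := h
      obtain ⟨u, v, hdet⟩ := hrank y hy i j hi.1
      exact lemB hi.1 (fun z hz => hprime z hz j) (hprime y hy i) (hM2 i) (hS y hy i)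
        (fun z hz => hS z hz j R fun w hw _ => hRT w hw)
        (hind i (by rw [Finset.mem_insert, not_or]; exact hi)) hρ u v hdet

theorem main [Infinite K] [Fintype κ] {s : ι → κ} {F : MvPolynomial ι K} {T : Set (ι → K)}
    (hT : T.Nonempty) (hprime : ∀ y ∈ T, ∀ i, Prime (res s i y F))
    (hM2 : ∀ i w, (res s i w F).IsHomogeneous 2)
    (hS : ∀ y ∈ T, ∀ i, ∀ f : MvPolynomial ι K, (∀ z ∈ T, (∀ l, s l ≠ i → z l = y l) →
      eval z f = 0) → res s i y F ∣ res s i y f)
    (hrank : ∀ y ∈ T, RankAt s F y) (hTF : ∀ y ∈ T, eval y F = 0) (l₀ : ι)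
    (hdeg : ∀ y ∈ T, (res s (s l₀) y F).degreeOf l₀ ≠ 0)
    (hdegres : ∀ (y : ι → K) (G : MvPolynomial ι K),
      (res s (s l₀) y G).degreeOf l₀ ≤ G.degreeOf l₀)
    (helim : ∀ f : MvPolynomial ι K, ¬ F ∣ f → ∃ U V : MvPolynomial ι K,
      U * F + V * f ≠ 0 ∧ (U * F + V * f).degreeOf l₀ = 0)
    (f : MvPolynomial ι K) (hf : ∀ y ∈ T, eval y f = 0) : F ∣ f := by
  classical
  by_contra hcon
  obtain ⟨U, V, hR, hR0⟩ := helim f hcon
  set R := U * F + V * f with hRdef
  have hRT : ∀ y ∈ T, eval y R = 0 := by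
    intro y hy
    rw [hRdef, map_add, map_mul, map_mul, hTF y hy, hf y hy, mul_zero, mul_zero, add_zero]
  have hres : ∀ y ∈ T, res s (s l₀) y R = 0 := by
    intro y hy
    by_contra h0
    obtain ⟨t, ht⟩ := hS y hy (s l₀) R fun z hz _ => hRT z hz
    have ht0 : t ≠ 0 := by
      rintro rfl
      exact h0 (by rw [ht, mul_zero])
    have h1 := degreeOf_mul_eq (n := l₀) (hprime y hy (s l₀)).ne_zero ht0
    rw [← ht] at h1
    have h2 := hdegres y R
    have h3 := hdeg y hy
    omega
  obtain ⟨z, hz⟩ := exists_eval_ne hR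
  refine no_indep hT hprime hM2 hS hrank (Finset.univ.erase (s l₀))
    ⟨s l₀, Finset.notMem_erase _ _⟩ (sub s (s l₀) z R) ?_ ?_ ?_
  · intro h0
    apply hz
    have h1 := congrArg (eval z) h0
    rwa [eval_sub', mix_self, map_zero] at h1
  · intro y hy
    rw [eval_sub', ← eval_res, hres y hy, map_zero]
  · intro k hk
    have hk' : k = s l₀ := by
      by_contra h
      exact hk (Finset.mem_erase.2 ⟨h, Finset.mem_univ k⟩)
    subst hk'
    exact indep_sub s _ z R

end Pool.Agent.R383.MQ
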