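import Pool.Agent.R383.MQ.Stm

/-! The main argument: two slots. -/

set_option autoImplicit false

namespace Pool.Agent.R383.MQ

open MvPolynomial Pool.Agent.TH178.MZ

variable {K : Type} [Field K] {ι κ : Type} [DecidableEq κ]

theorem mix_self {R : Type} (s : ι → κ) (i : κ) (y : ι → R) : mix s i y y = y := by
  funext l
  simp [mix]

theorem mix_of_eq {R : Type} (s : ι → κ) (i : κ) {z y : ι → R} (h : ∀ l, s l ≠ i → z l = y l) :
    mix s i z y = z := by
  funext l
  unfold mix
  split_ifs with h1
  · rfl
  · exact (h l h1).symm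

theorem mix_mix {R : Type} (s : ι → κ) (i : κ) (x y z : ι → R) :
    mix s i (mix s i x y) z = mix s i x z := by
  funext l
  unfold mix
  split_ifs <;> rfl

theorem mix_comm {R : Type} (s : ι → κ) {i j : κ} (hij : i ≠ j) (u v y : ι → R) :
    mix s i u (mix s j v y) = mix s j v (mix s i u y) := by
  funext l
  unfold mix
  split_ifs with h1 h2
  · exact absurd (h1.symm.trans h2) hij
  · rfl
  · rfl
  · rfl

/-- `R` does not depend on the variables of the slot `i`. -/
def Indep (s : ι → κ) (i : κ) (R : MvPolynomial ι K) : Prop := ∀ z, sub s i z R = R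

theorem Indep.eval_eq {s : ι → κ} {i : κ} {R : MvPolynomial ι K} (h : Indep s i R) {w w' : ι → K}
    (hw : ∀ l, s l ≠ i → w l = w' l) : eval w R = eval w' R := by
  have h1 : eval w' R = eval w' (sub s i w R) := by rw [h w]
  rw [h1, eval_sub', mix_of_eq s i hw]

theorem Indep.res_eq [Infinite K] {s : ι → κ} {i j : κ} {R : MvPolynomial ι K} (h : Indep s i R)
    {w w' : ι → K} (hw : ∀ l, s l ≠ i → w l = w' l) : res s j w R = res s j w' R := by
  apply MvPolynomial.funext
  intro x
  rw [eval_res, eval_res]
  apply h.eval_eq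
  intro l hl
  unfold mix
  split_ifs
  · rfl
  · exact hw l hl

theorem indep_sub [Infinite K] (s : ι → κ) (i : κ) (z : ι → K) (R : MvPolynomial ι K) :
    Indep s i (sub s i z R) := by
  intro z'
  apply MvPolynomial.funext
  intro x
  rw [eval_sub', eval_sub', eval_sub', show mix s i z (mix s i z' x) = mix s i z x by
    funext l
    unfold mix
    split_ifs <;> rfl]

theorem Indep.sub [Infinite K] {s : ι → κ} {i j : κ} {R : MvPolynomial ι K} (h : Indep s i R)
    (z : ι → K) : Indep s i (sub s j z R) := by
  intro z'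
  apply MvPolynomial.funext
  intro x
  rw [eval_sub', eval_sub', eval_sub']
  apply h.eval_eq
  intro l hl
  unfold mix
  split_ifs <;> rfl

theorem res_res [Infinite K] (s : ι → κ) (i : κ) (y w : ι → K) (F : MvPolynomial ι K) :
    res s i y (res s i w F) = res s i w F := by
  apply MvPolynomial.funext
  intro x
  rw [eval_res, eval_res, eval_res, mix_mix]

theorem eval_const [Infinite K] [Fintype κ] {s : ι → κ} {R : MvPolynomial ι K}
    (h : ∀ i, Indep s i R) (w w' : ι → K) : eval w R = eval w' R := by
  classical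
  have h1 : ∀ S : Finset κ, eval (fun l => if s l ∈ S then w l else w' l) R = eval w' R := by
    intro S
    induction S using Finset.induction_on with
    | empty => simp
    | insert i S hi ih =>
      rw [← ih]
      apply (h i).eval_eq
      intro l hl
      simp [Finset.mem_insert, hl]
  have h2 := h1 Finset.univ
  simpa using h2

/-- The pencils. -/
noncomputable def pen (s : ι → κ) (i j : κ) (F : MvPolynomial ι K) (y : ι → K)
    (b : MvPolynomial ι K) (v v' : ι → K) : MvPolynomial ι K :=
  res s i (mix s j v y) F * C (eval v' b) - res s i (mix s j v' y) F * C (eval v b)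

theorem res_pen [Infinite K] (s : ι → κ) (i j : κ) (F : MvPolynomial ι K) (y : ι → K)
    (b : MvPolynomial ι K) (v v' : ι → K) :
    res s i y (pen s i j F y b v v') = pen s i j F y b v v' := by
  have hC : ∀ c : K, res s i y (C c) = C c := fun c => by
    rw [res, aeval_C]; rfl
  rw [pen, map_sub, map_mul, map_mul, res_res, res_res, hC, hC]

theorem pen_hom {s : ι → κ} {i j : κ} {F : MvPolynomial ι K}
    (hM2 : ∀ w, (res s i w F).IsHomogeneous 2) (y : ι → K)
    (b : MvPolynomial ι K) (v v' : ι → K) : (pen s i j F y b v v').IsHomogeneous 2 := by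
  have h1 : ∀ (w : ι → K) (c : K), (res s i w F * C c).IsHomogeneous 2 := by
    intro w c
    have h := (hM2 w).mul (isHomogeneous_C ι c)
    simpa using h
  exact (h1 _ _).sub (h1 _ _)

theorem eq_C_mul {q g : MvPolynomial ι K} (hq : q.IsHomogeneous 2) (hg : g.IsHomogeneous 2)
    (hq0 : q ≠ 0) (h : q ∣ g) : ∃ c : K, g = C c * q := by
  by_cases hg0 : g = 0
  · exact ⟨0, by rw [hg0, C_0, zero_mul]⟩
  obtain ⟨t, ht⟩ := h
  have ht0 : t ≠ 0 := by
    rintro rfl
    exact hg0 (by rw [ht, mul_zero])
  have h1 := totalDegree_mul_of_isDomain hq0 ht0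
  rw [← ht, hg.totalDegree hg0, hq.totalDegree hq0] at h1
  have h2 : t.totalDegree = 0 := by omega
  rw [totalDegree_eq_zero_iff_eq_C] at h2
  exact ⟨_, by rw [ht, h2, mul_comm]⟩

theorem lemB [Infinite K] {s : ι → κ} {F : MvPolynomial ι K} {T : Set (ι → K)} {y : ι → K}
    {i j : κ} (hij : i ≠ j) (hprime : ∀ z ∈ T, Prime (res s j z F))
    (hq : Prime (res s i y F)) (hM2 : ∀ w, (res s i w F).IsHomogeneous 2)
    (hS : ∀ f : MvPolynomial ι K, (∀ z ∈ T, (∀ l, s l ≠ i → z l = y l) → eval z f = 0) →
      res s i y F ∣ res s i y f) {R : MvPolynomial ι K}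
    (hSj : ∀ z ∈ T, res s j z F ∣ res s j z R) (hR : Indep s i R) (hρ : res s j y R ≠ 0)
    (u v : Fin 3 → ι → K)
    (hdet : (Matrix.of fun a b => eval (mix s j (u a) (mix s i (v b) y)) F).det ≠ 0) : False := by
  classical
  set q := res s i y F with hqdef
  have key : ∃ b ∈ UniqueFactorizationMonoid.factors (res s j y R), ∀ v v' : ι → K,
      q ∣ pen s i j F y b v v' := by
    by_contra hcon
    push Not at hcon
    choose! v v' hv using hcon
    set P := ((UniqueFactorizationMonoid.factors (res s j y R)).map
      fun b => pen s i j F y b (v b) (v' b)).prod with hP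
    have h1 : res s i y P = P := by
      rw [hP, map_multiset_prod, Multiset.map_map]
      congr 1
      apply Multiset.map_congr rfl
      intro b _
      exact res_pen s i j F y b (v b) (v' b)
    have h2 : q ∣ P := by
      rw [← h1]
      apply hS
      intro z hz hzy
      rw [hP, map_multiset_prod, Multiset.map_map, Multiset.prod_eq_zero_iff, Multiset.mem_map]
      have h3 := hSj z hz
      rw [hR.res_eq (j := j) hzy] at h3
      obtain ⟨b, hb, hassoc⟩ :=
        UniqueFactorizationMonoid.exists_mem_factors_of_dvd hρ (hprime z hz).irreducible h3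
      refine ⟨b, hb, ?_⟩
      obtain ⟨c, hc⟩ := hassoc
      have hcu := c.isUnit
      rw [MvPolynomial.isUnit_iff_eq_C_of_isReduced] at hcu
      obtain ⟨t, _, ht⟩ := hcu
      have h4 : ∀ x : ι → K, eval x b = eval (mix s j x z) F * t := by
        intro x
        rw [← hc, map_mul, ht, eval_C, eval_res]
      have h5 : ∀ x : ι → K, mix s i z (mix s j x y) = mix s j x z := by
        intro x
        rw [mix_comm s hij, mix_of_eq s i hzy]
      show eval z (pen s i j F y b (v b) (v' b)) = 0
      rw [pen, map_sub, map_mul, map_mul, eval_C, eval_C, eval_res, eval_res, h5, h5, h4, h4]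
      ring
    obtain ⟨b, hb, hdvd⟩ := hq.exists_mem_multiset_map_dvd h2
    exact hv b hb hdvd
  obtain ⟨b, hb, hpen⟩ := key
  have hb0 : b ≠ 0 := (UniqueFactorizationMonoid.irreducible_of_factor b hb).ne_zero
  obtain ⟨w, hw⟩ : ∃ w : ι → K, eval w b ≠ 0 := by
    by_contra hcon
    push Not at hcon
    exact hb0 (MvPolynomial.funext fun x => by rw [hcon x, map_zero])
  have h1 : ∀ v : ι → K, ∃ c : K, pen s i j F y b v w = C c * q := fun v =>
    eq_C_mul (hM2 y) (pen_hom hM2 y b v w) hq.ne_zero (hpen v w)
  choose h hh using h1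
  have h2 : ∀ x v : ι → K, eval (mix s j v (mix s i x y)) F =
      (eval w b)⁻¹ * (eval (mix s i x (mix s j w y)) F * eval v b + h v * eval x q) := by
    intro x v
    have h3 := congrArg (eval x) (hh v)
    rw [pen, map_sub, map_mul, map_mul, map_mul, eval_C, eval_C, eval_C, eval_res, eval_res] at h3
    rw [mix_comm s (Ne.symm hij), eq_inv_mul_iff_mul_eq₀ hw]
    linear_combination h3
  apply hdet
  rw [Matrix.det_fin_three]
  simp only [Matrix.of_apply, h2]
  ring

end Pool.Agent.R383.MQ
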