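import Pool.Agent.R383.MQ.Final6

/-! The limits of semi-good points. -/

set_option autoImplicit false

namespace Pool.Agent.R383.MQ

open MvPolynomial Pool.Agent.TH178.MZ Fn

/-- At a limit of semi-good rational points the local Zariski closure is everything. -/
theorem near6 (hINT : T_INT) (hU : U_INT) (hTR : T_TRDEG) (hSL : T_SLICE)
    {K : Type} [Field K] [CharZero K] {L : Type} [NontriviallyNormedField L]
    (σ : K →+* L) (hσ : DenseRange σ) {r : ℕ} {a : Fin r → ℕ} {F : MvPolynomial (Idx a) K}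
    (hF : IsMultiQuadratic F) (hp : Prime F) {x : Idx a → L} (hx : ∀ k, ∃ j, x ⟨k, j⟩ ≠ 0)
    (h : ∀ U ∈ nhds x, ∃ y : Idx a → K, eval y F = 0 ∧ SemiGoodU Sigma.fst F y ∧
      (fun l => σ (y l)) ∈ U) :
    locClos σ {y | eval y F = 0} x = (Ideal.span {F} : Set (MvPolynomial (Idx a) K)) := by
  have hZ : ∀ y ∈ {y : Idx a → K | eval y F = 0}, ∀ t : Fin r → K, (∀ k, t k ≠ 0) →
      (fun l => t l.1 * y l) ∈ {y : Idx a → K | eval y F = 0} := by
    intro y hy t _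
    rw [Set.mem_ofPred_eq] at hy ⊢
    rw [hF.eval_scale, hy, mul_zero]
  rw [loc_eq σ hσ hZ hx]
  apply Set.Subset.antisymm
  · rintro f ⟨W, hW, hWf⟩
    obtain ⟨y, hy0, hys, hyW⟩ := h (interior W) (interior_mem_nhds.2 hW)
    obtain ⟨z, hz, hzW, hzg⟩ := wSEMI hSL σ hσ Sigma.fst F (isMQ_of hF) y hy0 hys (interior W)
      (isOpen_interior.mem_nhds hyW)
    exact Ideal.mem_span_singleton.2 (good6 hINT hU hTR σ hσ (isMQ_of hF) hp hz hzg
      (isOpen_interior.mem_nhds hzW) f (fun w hw hwW => hWf w hw (interior_subset hwW)))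
  · intro f hf
    refine ⟨Set.univ, Filter.univ_mem, fun y hy _ => ?_⟩
    obtain ⟨g, rfl⟩ := Ideal.mem_span_singleton.1 hf
    have hy' : eval y F = 0 := hy
    rw [map_mul, hy', zero_mul]

theorem exc6_scale {K : Type} [Field K] [CharZero K] {r : ℕ} {a : Fin r → ℕ}
    {F : MvPolynomial (Idx a) K} (hF : IsMultiQuadratic F) (y : Idx a → K) (hy : y ∈ Exc6 F)
    (t : Fin r → K) (ht : ∀ k, t k ≠ 0) : (fun l => t l.1 * y l) ∈ Exc6 F := by
  obtain ⟨h1, h2, h3⟩ := hy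
  refine ⟨by rw [hF.eval_scale, h1, mul_zero], scale_pr (show Pr y from h2) ht, ?_⟩
  intro h4
  apply h3
  have h5 := wINV hF _ (fun k => (t k)⁻¹) (fun k => inv_ne_zero (ht k)) h4
  have e : (fun l : Idx a => (t l.1)⁻¹ * (t l.1 * y l)) = y := by
    funext l
    rw [inv_mul_cancel_left₀ (ht l.1)]
  beta_reduce at h5
  rwa [e] at h5

/-- At the other points it is the local Zariski closure of the exceptional set. -/
theorem far6 {K : Type} [Field K] [CharZero K] {L : Type} [NontriviallyNormedField L]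
    (σ : K →+* L) (hσ : DenseRange σ) {r : ℕ} {a : Fin r → ℕ} {F : MvPolynomial (Idx a) K}
    (hF : IsMultiQuadratic F) {x : Idx a → L} (hx : ∀ k, ∃ j, x ⟨k, j⟩ ≠ 0)
    (h : ∃ U ∈ nhds x, ∀ y : Idx a → K, eval y F = 0 → (∀ k, ∃ j, y ⟨k, j⟩ ≠ 0) →
      (fun l => σ (y l)) ∈ U → y ∈ Exc6 F) :
    locClos σ {y | eval y F = 0} x = locClos σ (Exc6 F) x := by
  have hZ : ∀ y ∈ {y : Idx a → K | eval y F = 0}, ∀ t : Fin r → K, (∀ k, t k ≠ 0) →
      (fun l => t l.1 * y l) ∈ {y : Idx a → K | eval y F = 0} := by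
    intro y hy t _
    rw [Set.mem_ofPred_eq] at hy ⊢
    rw [hF.eval_scale, hy, mul_zero]
  rw [loc_eq σ hσ hZ hx, loc_eq σ hσ (exc6_scale hF) hx]
  obtain ⟨U, hU, hUb⟩ := h
  refine localIdeal_congr σ (U := U ∩ {z | Pr z})
    (Filter.inter_mem hU ((isOpen_pr a).mem_nhds hx)) ?_
  intro y hy
  exact ⟨fun h => hUb y h (pr_of σ hy.2) hy.1, fun h => h.1⟩

end Pool.Agent.R383.MQ
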