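import Pool.Agent.R383.MQ.Stm

/-! # The nonvanishing conditions are open (S_OPEN) -/

set_option autoImplicit false

namespace Pool.Agent.R383.MQ

open MvPolynomial Filter

section

variable {K : Type} [Field K] {ι κ : Type} [Fintype ι] [Fintype κ] [DecidableEq κ]
  {L : Type} [NontriviallyNormedField L] (σ : K →+* L)

/-- the points of `K` near `y` -/
def nearF (y : ι → K) : Filter (ι → K) :=
  comap (fun z : ι → K => fun l => σ (z l)) (nhds (fun l => σ (y l)))

omit [Fintype ι] in
lemma ev_ne (y : ι → K) (P : MvPolynomial ι K) (h : eval y P ≠ 0) :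
    ∀ᶠ z in nearF σ y, eval z P ≠ 0 := by
  have key : ∀ z : ι → K, eval (fun l => σ (z l)) (map σ P) = σ (eval z P) := by
    intro z
    rw [eval_map, ← eval₂_id (g := z) P, eval₂_comp_left σ (RingHom.id K) z P, RingHom.comp_id]
    rfl
  have hc : Continuous fun x : ι → L => eval x (map σ P) := MvPolynomial.continuous_eval _
  have hU : {x : ι → L | eval x (map σ P) ≠ 0} ∈ nhds (fun l => σ (y l)) := by
    apply (isOpen_ne.preimage hc).mem_nhds
    show eval (fun l => σ (y l)) (map σ P) ≠ 0
    rw [key]
    exact (map_ne_zero σ).mpr h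
  refine Filter.mem_comap.mpr ⟨_, hU, ?_⟩
  intro z hz
  have hz' : eval (fun l => σ (z l)) (map σ P) ≠ 0 := hz
  rw [key] at hz'
  exact (map_ne_zero σ).mp hz'

lemma det_eval (y : ι → K) (M : Matrix (Fin 3) (Fin 3) (MvPolynomial ι K)) :
    (Matrix.of fun a b => eval y (M a b)).det = eval y M.det := by
  rw [RingHom.map_det]
  rfl

end

theorem sOPEN : S_OPEN := by
  intro K _ ι κ _ _ _ L _ σ s F y hM hR
  have h1 : ∀ᶠ z in nearF σ y, MinorAt s F z := by
    refine eventually_all.mpr fun i => ?_
    obtain ⟨l, m, hl, hm, hd⟩ := hM i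
    have e := det_eval y (Matrix.of fun a b => pderiv (m b) (pderiv (l a) F))
    have hd' : eval y (Matrix.of fun a b => pderiv (m b) (pderiv (l a) F)).det ≠ 0 := by
      rw [← e]; exact hd
    filter_upwards [ev_ne σ y _ hd'] with z hz
    refine ⟨l, m, hl, hm, ?_⟩
    have e' := det_eval z (Matrix.of fun a b => pderiv (m b) (pderiv (l a) F))
    rw [← e'] at hz
    exact hz
  have h2 : ∀ᶠ z in nearF σ y, RankAt s F z := by
    refine eventually_all.mpr fun i => eventually_all.mpr fun j => ?_
    by_cases hij : i = j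
    · exact Eventually.of_forall fun z h => absurd hij h
    obtain ⟨u, v, hd⟩ := hR i j hij
    have key : ∀ z : ι → K, (Matrix.of fun a b => eval (mix s j (u a) (mix s i (v b) z)) F).det =
        eval z (Matrix.of fun a b => sub s i (v b) (sub s j (u a) F)).det := by
      intro z
      rw [← det_eval z]
      congr 1
      ext a b
      simp only [Matrix.of_apply]
      rw [eval_sub', eval_sub']
    rw [key] at hd
    filter_upwards [ev_ne σ y _ hd] with z hz _
    refine ⟨u, v, ?_⟩
    rw [key]
    exact hz
  have h3 : ∀ᶠ z in nearF σ y, NonsingAt s F y → NonsingAt s F z := by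
    by_cases hN : NonsingAt s F y
    · have h4 : ∀ᶠ z in nearF σ y, NonsingAt s F z := by
        refine eventually_all.mpr fun i => ?_
        obtain ⟨l, hl, hd⟩ := hN i
        filter_upwards [ev_ne σ y _ hd] with z hz
        exact ⟨l, hl, hz⟩
      filter_upwards [h4] with z hz _
      exact hz
    · exact Eventually.of_forall fun z h => absurd h hN
  have h5 := (h1.and (h2.and h3))
  obtain ⟨V, hV, hsub⟩ := Filter.mem_comap.mp h5
  exact ⟨V, hV, fun z hz => hsub hz⟩

end Pool.Agent.R383.MQ
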