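import Mathlib

/-! Quadratic forms as polynomials. -/

set_option autoImplicit false

namespace Pool.Agent.R383.MQ

open MvPolynomial

variable {K : Type} [Field K] {ι : Type} [Fintype ι]

theorem aeval_mul_of_hom {A : Type} [CommRing A] [Algebra K A] {g : MvPolynomial ι K} {d : ℕ}
    (hg : g.IsHomogeneous d) (a : A) (z : ι → A) :
    aeval (fun l => a * z l) g = a ^ d * aeval z g := by
  rw [aeval_def, aeval_def, eval₂_eq', eval₂_eq', Finset.mul_sum]
  refine Finset.sum_congr rfl fun m hm => ?_
  have h3 : ∑ i, m i = d := by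
    have h4 := hg (mem_support_iff.1 hm)
    rw [Finsupp.weight_apply, Finsupp.sum_fintype _ _ (by simp)] at h4
    simpa using h4
  simp only [mul_pow, Finset.prod_mul_distrib]
  rw [Finset.prod_pow_eq_pow_sum, h3]
  ring

theorem eval_mul_of_hom {g : MvPolynomial ι K} {d : ℕ}
    (hg : g.IsHomogeneous d) (a : K) (z : ι → K) :
    eval (fun l => a * z l) g = a ^ d * eval z g := by
  have h := aeval_mul_of_hom hg a z
  rwa [aeval_eq_eval, aeval_eq_eval] at h

/-- The second partial derivatives. -/
noncomputable def hess (q : MvPolynomial ι K) (l m : ι) : K :=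
  coeff 0 (pderiv m (pderiv l q))

/-- The symmetric bilinear form. -/
noncomputable def bil {A : Type} [CommRing A] [Algebra K A] (q : MvPolynomial ι K) (x z : ι → A) :
    A := ∑ l, ∑ m, algebraMap K A (hess q l m) * x l * z m

theorem pderiv_comm' (q : MvPolynomial ι K) (l m : ι) :
    pderiv m (pderiv l q) = pderiv l (pderiv m q) := by
  classical
  have h : ⁅(pderiv m : Derivation K (MvPolynomial ι K) (MvPolynomial ι K)),
      (pderiv l : Derivation K (MvPolynomial ι K) (MvPolynomial ι K))⁆ = 0 := by
    apply MvPolynomial.derivation_ext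
    intro i
    have h0 : ∀ a b j : ι, pderiv a ((Pi.single b (1 : MvPolynomial ι K) :
        ι → MvPolynomial ι K) j) = 0 := by
      intro a b j
      by_cases h : j = b
      · subst h
        rw [Pi.single_eq_same, pderiv_one]
      · rw [Pi.single_eq_of_ne h, map_zero]
    rw [Derivation.commutator_apply, pderiv_X, pderiv_X, h0, h0, sub_zero,
      Derivation.zero_apply]
  have h1 := DFunLike.congr_fun h q
  rw [Derivation.commutator_apply, Derivation.zero_apply, sub_eq_zero] at h1
  exact h1

theorem hess_symm (q : MvPolynomial ι K) (l m : ι) : hess q l m = hess q m l := by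
  rw [hess, pderiv_comm', hess]

theorem bil_symm {A : Type} [CommRing A] [Algebra K A] (q : MvPolynomial ι K) (x z : ι → A) :
    bil q x z = bil q z x := by
  rw [bil, bil, Finset.sum_comm]
  refine Finset.sum_congr rfl fun l _ => Finset.sum_congr rfl fun m _ => ?_
  rw [hess_symm]
  ring

theorem pderiv_pderiv {q : MvPolynomial ι K} (hq : q.IsHomogeneous 2) (l m : ι) :
    pderiv m (pderiv l q) = C (hess q l m) := by
  have h1 : (pderiv m (pderiv l q)).IsHomogeneous 0 := (hq.pderiv (i := l)).pderiv (i := m)
  have h2 : (pderiv m (pderiv l q)).totalDegree = 0 := by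
    have := h1.totalDegree_le
    omega
  rw [totalDegree_eq_zero_iff_eq_C] at h2
  exact h2

theorem pderiv_eq {q : MvPolynomial ι K} (hq : q.IsHomogeneous 2) (l : ι) :
    pderiv l q = ∑ m, C (hess q l m) * X m := by
  have h1 := (hq.pderiv (i := l)).sum_X_mul_pderiv
  rw [show (2 - 1 : ℕ) = 1 from rfl, one_smul] at h1
  rw [← h1]
  refine Finset.sum_congr rfl fun m _ => ?_
  rw [pderiv_pderiv hq]
  ring

theorem aeval_pderiv {A : Type} [CommRing A] [Algebra K A] {q : MvPolynomial ι K}
    (hq : q.IsHomogeneous 2) (l : ι) (x : ι → A) :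
    aeval x (pderiv l q) = ∑ m, algebraMap K A (hess q l m) * x m := by
  rw [pderiv_eq hq, map_sum]
  refine Finset.sum_congr rfl fun m _ => ?_
  rw [map_mul, aeval_X, aeval_C]

theorem two_aeval {A : Type} [CommRing A] [Algebra K A] {q : MvPolynomial ι K}
    (hq : q.IsHomogeneous 2) (x : ι → A) : 2 * aeval x q = bil q x x := by
  have h1 := congrArg (aeval x) hq.sum_X_mul_pderiv
  rw [map_sum] at h1
  rw [show aeval x ((2 : ℕ) • q) = 2 * aeval x q by rw [map_nsmul, nsmul_eq_mul]; norm_num] at h1
  rw [← h1, bil]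
  refine Finset.sum_congr rfl fun l _ => ?_
  rw [map_mul, aeval_X, aeval_pderiv hq, Finset.mul_sum]
  refine Finset.sum_congr rfl fun m _ => ?_
  ring

theorem bil_lin {A : Type} [CommRing A] [Algebra K A] (q : MvPolynomial ι K) (x y z : ι → A)
    (a b : A) : bil q (fun l => a * x l + b * y l) z = a * bil q x z + b * bil q y z := by
  rw [bil, bil, bil, Finset.mul_sum, Finset.mul_sum, ← Finset.sum_add_distrib]
  refine Finset.sum_congr rfl fun l _ => ?_
  rw [Finset.mul_sum, Finset.mul_sum, ← Finset.sum_add_distrib]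
  refine Finset.sum_congr rfl fun m _ => ?_
  ring

theorem aeval_comb [CharZero K] {A : Type} [CommRing A] [Algebra K A] {q : MvPolynomial ι K}
    (hq : q.IsHomogeneous 2) (x y : ι → A) (a b : A) :
    aeval (fun l => a * x l + b * y l) q = a ^ 2 * aeval x q + a * b * bil q x y +
      b ^ 2 * aeval y q := by
  have h2 : IsUnit (2 : A) := by
    have h : (2 : A) = algebraMap K A 2 := by rw [map_ofNat]
    rw [h]
    exact (IsUnit.mk0 (2 : K) two_ne_zero).map _
  apply h2.mul_left_cancel
  rw [two_aeval hq, bil_lin, bil_symm q x, bil_symm q y, bil_lin, bil_lin, bil_symm q y x]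
  have h3 := two_aeval hq x
  have h4 := two_aeval hq y
  linear_combination (-a ^ 2) * h3 - b ^ 2 * h4

/-- The linear form `x ↦ b(y, x)`. -/
noncomputable def lam (q : MvPolynomial ι K) (y : ι → K) : MvPolynomial ι K :=
  ∑ l, C (eval y (pderiv l q)) * X l

theorem aeval_lam {A : Type} [CommRing A] [Algebra K A] {q : MvPolynomial ι K}
    (hq : q.IsHomogeneous 2) (y : ι → K) (x : ι → A) :
    aeval x (lam q y) = bil q (fun l => algebraMap K A (y l)) x := by
  rw [lam, map_sum, bil_symm, bil]
  refine Finset.sum_congr rfl fun l _ => ?_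
  rw [map_mul, aeval_X, aeval_C]
  have h := aeval_pderiv hq l y
  rw [aeval_eq_eval] at h
  rw [h, map_sum, Finset.sum_mul]
  refine Finset.sum_congr rfl fun m _ => ?_
  rw [map_mul]
  simp only [Algebra.algebraMap_self, RingHom.id_apply]
  ring

theorem lam_hom (q : MvPolynomial ι K) (y : ι → K) : (lam q y).IsHomogeneous 1 := by
  apply IsHomogeneous.sum
  intro l _
  have h := (isHomogeneous_C ι (eval y (pderiv l q))).mul (isHomogeneous_X K l)
  simpa using h

theorem coeff_lam [DecidableEq ι] (q : MvPolynomial ι K) (y : ι → K) (l : ι) :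
    coeff (Finsupp.single l 1) (lam q y) = eval y (pderiv l q) := by
  rw [lam, coeff_sum, Finset.sum_eq_single l]
  · rw [coeff_C_mul, coeff_X, if_pos rfl, mul_one]
  · intro m _ hm
    rw [coeff_C_mul, coeff_X, if_neg, mul_zero]
    intro h
    exact hm (Finsupp.single_left_injective one_ne_zero h)
  · intro h
    exact absurd (Finset.mem_univ l) h

end Pool.Agent.R383.MQ
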