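import Pool.Agent.R383.MQ.Stm

/-! Good points near semi-good points. -/

set_option autoImplicit false

namespace Pool.Agent.R383.MQ

open MvPolynomial Pool.Agent.TH178.MZ

theorem mix_self {R ι κ : Type} [DecidableEq κ] (s : ι → κ) (i : κ) (y : ι → R) :
    mix s i y y = y := by
  funext l
  unfold mix
  split_ifs <;> rfl

theorem sSEMI : S_MINOR → S_HOM → S_OPEN → S_SEMI := by
  intro hMI hHO hOP K _ _ ι κ _ _ _ L _ σ hσ s F hF y hy hM hR hS U hU
  classical
  obtain ⟨j, ⟨lj, hlj, hdj⟩, hSi⟩ := hS
  have hl : ∀ i, ∃ l, s l = i ∧ (i = j → l = lj) ∧ (i ≠ j → ∃ z z' : ι → K,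
      eval (mix s j z y) F * eval (mix s j z' y) (pderiv l F) ≠
        eval (mix s j z' y) F * eval (mix s j z y) (pderiv l F)) := by
    intro i
    by_cases hij : i = j
    · exact ⟨lj, by rw [hlj, hij], fun _ => rfl, fun h => absurd hij h⟩
    · obtain ⟨l, hl1, hl2⟩ := hSi i hij
      exact ⟨l, hl1, fun h => absurd h hij, fun _ => hl2⟩
  choose l hl1 hl2 hl3 using hl
  obtain ⟨V, hV, hVz⟩ := hOP σ s F y hM hR
  obtain ⟨hH1, hH2, hH3, hH4, -⟩ := hHO (K := K) s j y
  set q := res s j y F with hqdef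
  have hq2 : q.IsHomogeneous 2 := hH1 F hF
  obtain ⟨a, b, ha, hb, hdet⟩ := hM j
  have hqp : Prime q := by
    apply hMI q hq2 a b
    have h1 : (Matrix.of fun x z => hess q (a x) (b z)) =
        Matrix.of fun x z => eval y (pderiv (b z) (pderiv (a x) F)) := by
      ext x z
      exact hH4 F hF _ _ (ha x) (hb z)
    rw [h1]
    exact hdet
  have hyq : eval y q = 0 := by rw [hqdef, eval_res, mix_self, hy]
  have hdq : pderiv lj q = res s j y (pderiv lj F) := hH3 F lj hlj
  have hdq0 : eval y (pderiv lj q) ≠ 0 := by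
    rw [hdq, eval_res, mix_self]
    exact hdj
  by_contra hcon
  push Not at hcon
  have hU1 : {x : ι → L | mix s j x (fun l => σ (y l)) ∈ U ∩ V} ∈ nhds (fun i => σ (y i)) := by
    have hc : Continuous fun x : ι → L => mix s j x (fun l => σ (y l)) := by
      refine continuous_pi fun l => ?_
      unfold mix
      split_ifs
      · exact continuous_apply l
      · exact continuous_const
    have h1 := hc.continuousAt (x := fun i => σ (y i))
    apply h1.preimage_mem_nhds
    rw [mix_self]
    exact Filter.inter_mem hU hV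
  have hdvd : q ∣ res s j y (∏ i, pderiv (l i) F) := by
    apply slice σ hσ hq2 hqp hyq hdq0 hU1
    intro z hz hzU
    rw [eval_res] at hz ⊢
    have hw : (fun i => σ (mix s j z y i)) =
        mix s j (fun i => σ (z i)) (fun i => σ (y i)) := by
      funext i
      unfold mix
      split_ifs <;> rfl
    have h3 := hVz (mix s j z y) (by rw [hw]; exact hzU.2)
    have h4 := hcon (mix s j z y) hz (by rw [hw]; exact hzU.1) h3.1 h3.2.1
    unfold NonsingAt at h4
    push Not at h4
    obtain ⟨i, hi⟩ := h4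
    rw [map_prod]
    exact Finset.prod_eq_zero (Finset.mem_univ i) (hi (l i) (hl1 i))
  rw [map_prod, Prime.dvd_finsetProd_iff hqp] at hdvd
  obtain ⟨i, -, hi⟩ := hdvd
  by_cases hij : i = j
  · rw [hl2 i hij, ← hdq] at hi
    have h1 : (pderiv lj q).IsHomogeneous 1 := hq2.pderiv
    have hne : pderiv lj q ≠ 0 := by
      intro h
      rw [h, map_zero] at hdq0
      exact hdq0 rfl
    obtain ⟨h, hh⟩ := hi
    have hh0 : h ≠ 0 := by
      rintro rfl
      rw [mul_zero] at hh
      exact hne hh
    have h5 := totalDegree_mul_of_isDomain hqp.ne_zero hh0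
    rw [← hh, h1.totalDegree hne, totalDegree_quad hq2 hqp.ne_zero] at h5
    omega
  · have h2 : (res s j y (pderiv (l i) F)).IsHomogeneous 2 :=
      hH2 F hF (l i) (by rw [hl1]; exact hij)
    obtain ⟨h, hh⟩ := hi
    obtain ⟨z, z', hzz⟩ := hl3 i hij
    have hC : ∃ c : K, h = C c := by
      by_cases hh0 : h = 0
      · exact ⟨0, by rw [hh0, map_zero]⟩
      · have h5 := totalDegree_mul_of_isDomain hqp.ne_zero hh0
        have hne : res s j y (pderiv (l i) F) ≠ 0 := by
          rw [hh]
          exact mul_ne_zero hqp.ne_zero hh0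
        rw [← hh, h2.totalDegree hne, totalDegree_quad hq2 hqp.ne_zero] at h5
        exact ⟨_, totalDegree_eq_zero_iff_eq_C.1 (by omega)⟩
    obtain ⟨c, rfl⟩ := hC
    apply hzz
    rw [← eval_res s j y z F, ← eval_res s j y z' F, ← eval_res s j y z (pderiv (l i) F),
      ← eval_res s j y z' (pderiv (l i) F), hh, ← hqdef]
    simp only [map_mul, eval_C]
    ring

end Pool.Agent.R383.MQ
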