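import Pool.Agent.R383.MQ.Quad
import Pool.Agent.TH178.MZ.Scale

/-! The rational points of a quadric near a nonsingular point are Zariski dense. -/

set_option autoImplicit false

namespace Pool.Agent.R383.MQ

open MvPolynomial Pool.Agent.TH178.MZ

variable {K : Type} [Field K] {ι : Type} [Fintype ι] {L : Type} [NontriviallyNormedField L]

theorem eq_zero_of_open (σ : K →+* L) (hσ : DenseRange σ) {U : Set (ι → L)} {x : ι → L}
    (hU : U ∈ nhds x) (g : MvPolynomial ι K)
    (hg : ∀ u : ι → K, (fun i => σ (u i)) ∈ U → eval u g = 0) : g = 0 := by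
  rw [nhds_pi, Filter.mem_pi'] at hU
  obtain ⟨I, W, hW, hWO⟩ := hU
  apply MvPolynomial.funext_set (fun k => {t : K | σ t ∈ W k})
    (fun k => infinite_preimage σ hσ (x k) (hW k))
  intro t ht
  rw [map_zero]
  apply hg t
  apply hWO
  intro k _
  exact ht k (Set.mem_univ k)

theorem dvd_sub_aeval {R : Type} [CommRing R] [Algebra K R] (q : R) (φ ψ : ι → R)
    (h : ∀ l, q ∣ φ l - ψ l) (g : MvPolynomial ι K) : q ∣ aeval φ g - aeval ψ g := by
  induction g using MvPolynomial.induction_on with
  | C c => rw [aeval_C, aeval_C, sub_self]; exact dvd_zero q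
  | add f g hf hg =>
    rw [map_add, map_add, show aeval φ f + aeval φ g - (aeval ψ f + aeval ψ g) =
      (aeval φ f - aeval ψ f) + (aeval φ g - aeval ψ g) by ring]
    exact dvd_add hf hg
  | mul_X f l hf =>
    rw [map_mul, map_mul, aeval_X, aeval_X, show aeval φ f * φ l - aeval ψ f * ψ l =
      (aeval φ f - aeval ψ f) * φ l + aeval ψ f * (φ l - ψ l) by ring]
    exact dvd_add (hf.mul_right _) ((h l).mul_left _)

theorem totalDegree_quad {q : MvPolynomial ι K} (hq : q.IsHomogeneous 2) (h0 : q ≠ 0) :
    q.totalDegree = 2 := hq.totalDegree h0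

theorem lam_ne_zero {q : MvPolynomial ι K} {y : ι → K} {l : ι}
    (hl : eval y (pderiv l q) ≠ 0) : lam q y ≠ 0 := by
  classical
  intro h
  apply hl
  rw [← coeff_lam, h, coeff_zero]

theorem not_dvd_lam {q : MvPolynomial ι K} (hq : q.IsHomogeneous 2) (hp : Prime q) {y : ι → K}
    {l : ι} (hl : eval y (pderiv l q) ≠ 0) : ¬ q ∣ lam q y := by
  rintro ⟨h, hh⟩
  have h1 := lam_ne_zero hl
  have h2 : h ≠ 0 := by
    rintro rfl
    rw [mul_zero] at hh
    exact h1 hh
  have h3 := (lam_hom q y).totalDegree h1
  rw [hh, totalDegree_mul_of_isDomain hp.ne_zero h2, totalDegree_quad hq hp.ne_zero] at h3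
  omega

/-- A point on the tangent hyperplane which is not on the quadric. -/
theorem exists_tangent [CharZero K] {q : MvPolynomial ι K} (hq : q.IsHomogeneous 2)
    (hp : Prime q) {y : ι → K} {l : ι} (hl : eval y (pderiv l q) ≠ 0) :
    ∃ u : ι → K, bil q y u = 0 ∧ eval u q ≠ 0 := by
  classical
  set c : K := eval y (pderiv l q) with hc
  let e : ι → MvPolynomial ι K := fun m => if m = l then 1 else 0
  have hbe : ∀ {A : Type} [CommRing A] [Algebra K A],
      bil q (fun m => algebraMap K A (y m)) (fun m => if m = l then (1 : A) else 0) =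
        algebraMap K A c := by
    intro A _ _
    rw [bil_symm, bil, Finset.sum_eq_single l]
    · rw [if_pos rfl]
      have h := aeval_pderiv hq l y
      rw [aeval_eq_eval, ← hc] at h
      rw [h, map_sum]
      refine Finset.sum_congr rfl fun m _ => ?_
      rw [map_mul]
      simp
    · intro m _ hm
      rw [if_neg hm]
      simp
    · intro h
      exact absurd (Finset.mem_univ l) h
  let ψ : ι → MvPolynomial ι K := fun m => C c * X m + (- lam q y) * e m
  have hψ : aeval ψ q = (C c) ^ 2 * aeval X q + C c * (- lam q y) * bil q X e +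
      (- lam q y) ^ 2 * aeval e q := aeval_comb hq _ _ _ _
  rw [aeval_X_left_apply] at hψ
  have hψ0 : aeval ψ q ≠ 0 := by
    intro h0
    rw [hψ] at h0
    have h1 : lam q y ∣ q := by
      have hu : IsUnit ((C c : MvPolynomial ι K) ^ 2) := by
        rw [← map_pow]
        exact (IsUnit.mk0 _ (pow_ne_zero 2 hl)).map C
      rw [← hu.dvd_mul_left]
      refine ⟨C c * bil q X e - lam q y * aeval e q, ?_⟩
      linear_combination h0
    obtain ⟨h, hh⟩ := h1
    have hl0 := lam_ne_zero hl
    have hh0 : h ≠ 0 := by
      rintro rfl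
      rw [mul_zero] at hh
      exact hp.ne_zero hh
    have hd := totalDegree_mul_of_isDomain hl0 hh0
    rw [← hh, totalDegree_quad hq hp.ne_zero, (lam_hom q y).totalDegree hl0] at hd
    rcases hp.irreducible.isUnit_or_isUnit hh with h3 | h3
    · have h4 : (lam q y).totalDegree = 0 := by
        rw [MvPolynomial.isUnit_iff_eq_C_of_isReduced] at h3
        obtain ⟨r, _, hr⟩ := h3
        rw [hr, totalDegree_C]
      rw [(lam_hom q y).totalDegree hl0] at h4
      omega
    · have h4 : h.totalDegree = 0 := by
        rw [MvPolynomial.isUnit_iff_eq_C_of_isReduced] at h3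
        obtain ⟨r, _, hr⟩ := h3
        rw [hr, totalDegree_C]
      omega
  obtain ⟨u, hu⟩ : ∃ u : ι → K, eval u (aeval ψ q) ≠ 0 := by
    by_contra hcon
    push Not at hcon
    exact hψ0 (MvPolynomial.funext fun u => by rw [hcon u, map_zero])
  refine ⟨fun m => eval u (ψ m), ?_, ?_⟩
  · have h1 := aeval_lam hq y (fun m => eval u (ψ m))
    simp only [Algebra.algebraMap_self, RingHom.id_apply] at h1
    rw [← h1]
    have h2 : aeval ψ (lam q y) = 0 := by
      rw [aeval_lam hq, show ψ = fun m => C c * X m + (- lam q y) * e m from rfl, bil_symm,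
        bil_lin, bil_symm q X, bil_symm q e, hbe, ← aeval_lam hq, aeval_X_left_apply]
      rw [algebraMap_eq]
      ring
    have h3 : aeval (fun m => eval u (ψ m)) (lam q y) = eval u (aeval ψ (lam q y)) := by
      rw [aeval_eq_eval, ← aeval_eq_eval, ← aeval_eq_eval]
      rw [← AlgHom.comp_apply]
      congr 1
      apply algHom_ext
      intro m
      rw [AlgHom.comp_apply, aeval_X, aeval_X, aeval_eq_eval]
    rw [h3, h2, map_zero]
  · intro h0
    apply hu
    rw [← h0, ← aeval_eq_eval, ← aeval_eq_eval, ← AlgHom.comp_apply]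
    congr 1
    apply algHom_ext
    intro m
    rw [AlgHom.comp_apply, aeval_X, aeval_X, aeval_eq_eval]

/-- Local Zariski density of the rational points of a quadric at a nonsingular point. -/
theorem slice [CharZero K] (σ : K →+* L) (hσ : DenseRange σ) {q : MvPolynomial ι K}
    (hq : q.IsHomogeneous 2) (hp : Prime q) {y : ι → K} (hy : eval y q = 0) {l : ι}
    (hl : eval y (pderiv l q) ≠ 0) {U : Set (ι → L)} (hU : U ∈ nhds (fun i => σ (y i)))
    (f : MvPolynomial ι K)
    (hf : ∀ z : ι → K, eval z q = 0 → (fun i => σ (z i)) ∈ U → eval z f = 0) : q ∣ f := by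
  classical
  obtain ⟨u₀, hu₀, hq₀⟩ := exists_tangent hq hp hl
  set Λ := lam q y with hΛ
  let φ : ι → MvPolynomial ι K := fun m => q * C (y m) + (- Λ) * X m
  have hφq : aeval φ q = 0 := by
    have h1 : aeval φ q = q ^ 2 * aeval (fun m => (C (y m) : MvPolynomial ι K)) q +
        q * (- Λ) * bil q (fun m => (C (y m) : MvPolynomial ι K)) X + (- Λ) ^ 2 * aeval X q :=
      aeval_comb hq _ _ _ _
    have h2 : aeval (fun m => (C (y m) : MvPolynomial ι K)) q = 0 := by
      have h3 : aeval (fun m => (C (y m) : MvPolynomial ι K)) q = C (eval y q) := by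
        rw [← aeval_eq_eval]
        have h4 : (aeval (fun m => (C (y m) : MvPolynomial ι K)) :
            MvPolynomial ι K →ₐ[K] MvPolynomial ι K) =
            (Algebra.ofId K (MvPolynomial ι K)).comp (aeval y) := by
          apply algHom_ext
          intro m
          rw [AlgHom.comp_apply, aeval_X, aeval_X]
          rfl
        rw [h4]
        rfl
      rw [h3, hy, map_zero]
    have h3 : bil q (fun m => (C (y m) : MvPolynomial ι K)) X = Λ := by
      have h4 := aeval_lam hq y (X : ι → MvPolynomial ι K)
      rw [aeval_X_left_apply] at h4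
      rw [hΛ, h4]
      rfl
    rw [h1, h2, h3, aeval_X_left_apply]
    ring
  have hev : ∀ (u : ι → K) (g : MvPolynomial ι K),
      eval u (aeval φ g) = eval (fun m => eval u (φ m)) g := by
    intro u g
    rw [← aeval_eq_eval, ← aeval_eq_eval, ← AlgHom.comp_apply]
    congr 1
    apply algHom_ext
    intro m
    rw [AlgHom.comp_apply, aeval_X, aeval_X, aeval_eq_eval]
  have hφu : ∀ (u : ι → K) (m : ι), eval u (φ m) = eval u q * y m + - eval u Λ * u m := by
    intro u m
    simp only [φ, map_add, map_mul, map_neg, eval_C, eval_X]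
  have hΛ0 : eval u₀ Λ = 0 := by
    have h1 := aeval_lam hq y u₀
    simp only [Algebra.algebraMap_self, RingHom.id_apply] at h1
    rw [aeval_eq_eval] at h1
    rw [hΛ, h1, hu₀]
  set a : K := (eval u₀ q)⁻¹ with ha
  -- the components
  have hcomp : ∀ d : ℕ, aeval φ (homogeneousComponent d f) = 0 := by
    intro d
    -- open set of `u`
    let V : Set (ι → L) := {x | (fun m => σ a * (eval₂ σ x q * σ (y m) +
      - eval₂ σ x Λ * x m)) ∈ interior U}
    have hc2 : ∀ g : MvPolynomial ι K, Continuous fun z : ι → L => eval₂ σ z g := by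
      intro g
      have h : (fun z : ι → L => eval₂ σ z g) = fun z => eval z (MvPolynomial.map σ g) := by
        funext z
        rw [eval_map]
      rw [h]
      exact MvPolynomial.continuous_eval _
    have hσe : ∀ (u : ι → K) (g : MvPolynomial ι K),
        eval₂ σ (fun i => σ (u i)) g = σ (eval u g) := by
      intro u g
      exact (MvPolynomial.eval₂_comp σ u g).symm
    have hVo : IsOpen V := by
      apply isOpen_interior.preimage
      refine continuous_pi fun m => ?_
      exact continuous_const.mul (((hc2 q).mul continuous_const).add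
        ((hc2 Λ).neg.mul (continuous_apply m)))
    have hV0 : (fun i => σ (u₀ i)) ∈ V := by
      show (fun m => σ a * (eval₂ σ (fun i => σ (u₀ i)) q * σ (y m) +
        - eval₂ σ (fun i => σ (u₀ i)) Λ * σ (u₀ m))) ∈ interior U
      have h1 : (fun m => σ a * (eval₂ σ (fun i => σ (u₀ i)) q * σ (y m) +
        - eval₂ σ (fun i => σ (u₀ i)) Λ * σ (u₀ m))) = fun m => σ (y m) := by
        funext m
        rw [hσe, hσe, hΛ0, map_zero, neg_zero, zero_mul, add_zero, ← mul_assoc, ← map_mul,
          ha, inv_mul_cancel₀ hq₀, map_one, one_mul]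
      rw [h1]
      exact mem_interior_iff_mem_nhds.2 hU
    apply eq_zero_of_open σ hσ (hVo.mem_nhds hV0)
    intro u hu
    rw [hev]
    set w : ι → K := fun m => eval u (φ m) with hw
    have hwq : eval w q = 0 := by
      rw [hw, ← hev, hφq, map_zero]
    -- the polynomial in the scalar
    let P : Polynomial K := ∑ d ∈ Finset.range (f.totalDegree + 1),
      Polynomial.C (eval w (homogeneousComponent d f)) * Polynomial.X ^ d
    have hP : ∀ t : K, P.eval t = eval (fun m => t * w m) f := by
      intro t
      conv_rhs => rw [← sum_homogeneousComponent f]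
      rw [Polynomial.eval_finset_sum, map_sum]
      refine Finset.sum_congr rfl fun d _ => ?_
      rw [eval_mul_of_hom (homogeneousComponent_isHomogeneous d f)]
      simp only [Polynomial.eval_mul, Polynomial.eval_C, Polynomial.eval_pow, Polynomial.eval_X]
      ring
    have hcont : Continuous fun s : L => (fun m => s * σ (w m) : ι → L) :=
      continuous_pi fun m => continuous_id.mul continuous_const
    have hmem : (fun s : L => (fun m => s * σ (w m) : ι → L)) ⁻¹' interior U ∈ nhds (σ a) := by
      apply (isOpen_interior.preimage hcont).mem_nhds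
      show (fun m => σ a * σ (w m)) ∈ interior U
      have h1 : (fun m => σ a * σ (w m)) = (fun m => σ a * (eval₂ σ (fun i => σ (u i)) q *
          σ (y m) + - eval₂ σ (fun i => σ (u i)) Λ * σ (u m))) := by
        funext m
        rw [hw]
        simp only [hφu, hσe, map_add, map_mul, map_neg]
      rw [h1]
      exact hu
    have hP0 : P = 0 := by
      apply Polynomial.eq_zero_of_infinite_isRoot
      refine (infinite_preimage σ hσ (σ a) hmem).mono ?_
      intro t ht
      show P.IsRoot t
      rw [Polynomial.IsRoot, hP]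
      apply hf
      · rw [eval_mul_of_hom hq, hwq, mul_zero]
      · have ht' : (fun m => σ t * σ (w m)) ∈ interior U := ht
        have h1 : (fun i => σ (t * w i)) = fun m => σ t * σ (w m) := by
          funext m
          rw [map_mul]
        rw [h1]
        exact interior_subset ht'
    by_cases hd : d ∈ Finset.range (f.totalDegree + 1)
    · have h1 := congrArg (fun Q => Polynomial.coeff Q d) hP0
      simp only [P, Polynomial.finsetSum_coeff, Polynomial.coeff_C_mul, Polynomial.coeff_X_pow,
        Polynomial.coeff_zero] at h1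
      rw [Finset.sum_eq_single d] at h1
      · simpa using h1
      · intro b _ hb
        rw [if_neg (Ne.symm hb), mul_zero]
      · intro h
        exact absurd hd h
    · rw [Finset.mem_range, not_lt] at hd
      rw [homogeneousComponent_eq_zero d f (by omega), map_zero]
  have hdvd : ∀ d : ℕ, q ∣ homogeneousComponent d f := by
    intro d
    have h1 : q ∣ aeval φ (homogeneousComponent d f) -
        aeval (fun m => (- Λ) * (X m : MvPolynomial ι K)) (homogeneousComponent d f) := by
      apply dvd_sub_aeval
      intro m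
      refine ⟨C (y m), ?_⟩
      simp only [φ]
      ring
    rw [hcomp, zero_sub, aeval_mul_of_hom (homogeneousComponent_isHomogeneous d f),
      aeval_X_left_apply, dvd_neg] at h1
    rcases hp.dvd_or_dvd h1 with h2 | h2
    · exfalso
      have h3 := hp.dvd_of_dvd_pow h2
      rw [dvd_neg] at h3
      exact not_dvd_lam hq hp hl h3
    · exact h2
  rw [← sum_homogeneousComponent f]
  exact Finset.dvd_sum fun d _ => hdvd d

end Pool.Agent.R383.MQ
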