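import Pool.Agent.R383.MQ.Defs

/-! Statements of the pieces. -/

set_option autoImplicit false

namespace Pool.Agent.R383.MQ

open MvPolynomial Pool.Agent.TH178.MZ

/-- A quadratic form whose Hessian matrix has a nonzero `3 × 3` minor is prime. -/
def S_MINOR : Prop := ∀ {K : Type} [Field K] {ι : Type} [Fintype ι] (q : MvPolynomial ι K),
  q.IsHomogeneous 2 → ∀ l m : Fin 3 → ι,
    (Matrix.of fun a b => hess q (l a) (m b)).det ≠ 0 → Prime q

/-- Elimination of the variable `l`. -/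
def S_ELIM : Prop := ∀ {K : Type} [Field K] {ι : Type} [Fintype ι] [DecidableEq ι]
  (F f : MvPolynomial ι K) (l : ι), Prime F → ¬ F ∣ f → F.degreeOf l ≠ 0 →
    ∃ U V : MvPolynomial ι K, U * F + V * f ≠ 0 ∧ (U * F + V * f).degreeOf l = 0

/-- Restriction to slices. -/
def S_HOM : Prop := ∀ {K : Type} [Field K] {ι κ : Type} [Fintype ι] [DecidableEq κ] (s : ι → κ)
  (i : κ) (y : ι → K),
  (∀ F : MvPolynomial ι K, IsMQ s F → (res s i y F).IsHomogeneous 2) ∧
  (∀ F : MvPolynomial ι K, IsMQ s F → ∀ l, s l ≠ i → (res s i y (pderiv l F)).IsHomogeneous 2) ∧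
  (∀ (G : MvPolynomial ι K) (l : ι), s l = i →
    pderiv l (res s i y G) = res s i y (pderiv l G)) ∧
  (∀ F : MvPolynomial ι K, IsMQ s F → ∀ l m, s l = i → s m = i →
    hess (res s i y F) l m = eval y (pderiv m (pderiv l F))) ∧
  (∀ (G : MvPolynomial ι K) (l : ι), (res s i y G).degreeOf l ≤ G.degreeOf l)

/-- The conditions are open. -/
def S_OPEN : Prop := ∀ {K : Type} [Field K] {ι κ : Type} [Fintype ι] [Fintype κ] [DecidableEq κ]
  {L : Type} [NontriviallyNormedField L] (σ : K →+* L) (s : ι → κ) (F : MvPolynomial ι K)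
  (y : ι → K), MinorAt s F y → RankAt s F y → ∃ V ∈ nhds (fun l => σ (y l)),
    ∀ z : ι → K, (fun l => σ (z l)) ∈ V → MinorAt s F z ∧ RankAt s F z ∧
      (NonsingAt s F y → NonsingAt s F z)

/-- Good points near semi-good points. -/
def S_SEMI : Prop := ∀ {K : Type} [Field K] [CharZero K] {ι κ : Type} [Fintype ι] [Fintype κ]
  [DecidableEq κ] {L : Type} [NontriviallyNormedField L] (σ : K →+* L), DenseRange σ →
  ∀ (s : ι → κ) (F : MvPolynomial ι K), IsMQ s F → ∀ y : ι → K, eval y F = 0 → MinorAt s F y →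
    RankAt s F y → SemiAt s F y → ∀ U ∈ nhds (fun l => σ (y l)), ∃ z : ι → K, eval z F = 0 ∧
      (fun l => σ (z l)) ∈ U ∧ MinorAt s F z ∧ RankAt s F z ∧ NonsingAt s F z

/-- The main theorem: the rational points near a good point are Zariski dense. -/
def S_GOOD : Prop := ∀ {K : Type} [Field K] [CharZero K] {ι κ : Type} [Fintype ι] [Fintype κ]
  [DecidableEq κ] {L : Type} [NontriviallyNormedField L] (σ : K →+* L), DenseRange σ →
  ∀ (s : ι → κ) (F : MvPolynomial ι K), IsMQ s F → Prime F → ∀ y : ι → K, eval y F = 0 →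
    MinorAt s F y → RankAt s F y → NonsingAt s F y → ∀ U ∈ nhds (fun l => σ (y l)),
      ∀ f : MvPolynomial ι K, (∀ z : ι → K, eval z F = 0 → (fun l => σ (z l)) ∈ U →
        eval z f = 0) → F ∣ f

/-- The points of `X : F = 0` whose coordinates in each slot are not all zero and which are not
semi-good. -/
def Exc {K : Type} [Field K] {r : ℕ} {a : Fin r → ℕ} (F : MvPolynomial (Idx a) K) :
    Set (Idx a → K) :=
  {y | eval y F = 0 ∧ (∀ k, ∃ j, y ⟨k, j⟩ ≠ 0) ∧
    ¬ (MinorAt Sigma.fst F y ∧ RankAt Sigma.fst F y ∧ SemiAt Sigma.fst F y)}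

/-- The ideal of the local Zariski closure of the set `T` of rational points (given by their
multihomogeneous coordinates) at the point with the multihomogeneous coordinates `x`. -/
def locClos {K : Type} [Field K] {L : Type} [NontriviallyNormedField L] {r : ℕ} {a : Fin r → ℕ}
    (σ : K →+* L) (T : Set (Idx a → K)) (x : Idx a → L) : Set (MvPolynomial (Idx a) K) :=
  {g | ∃ U ∈ nhds x, ∀ y ∈ T, (∀ k, ∃ j, y ⟨k, j⟩ ≠ 0) →
    (∃ c : Fin r → L, (∀ k, c k ≠ 0) ∧ (fun l => c l.1 * σ (y l)) ∈ U) →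
    ∀ t : Fin r → K, eval (fun l => t l.1 * y l) g = 0}

/-- The final theorem. -/
def S_FINAL : Prop := ∀ {K : Type} [Field K] [CharZero K] {L : Type} [NontriviallyNormedField L]
  (σ : K →+* L), DenseRange σ → ∀ {r : ℕ} {a : Fin r → ℕ} (F : MvPolynomial (Idx a) K),
  IsMultiQuadratic F → Prime F →
  (∀ x : Idx a → L, (∀ k, ∃ j, x ⟨k, j⟩ ≠ 0) →
    locClos σ {y | eval y F = 0} x = (Ideal.span {F} : Set (MvPolynomial (Idx a) K)) ∨
    locClos σ {y | eval y F = 0} x = locClos σ (Exc F) x) ∧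
  ∀ E : Finset (Idx a → K), (∀ y ∈ Exc F, ∃ e ∈ E, ∃ t : Fin r → K, (∀ k, t k ≠ 0) ∧
      y = fun l => t l.1 * e l) →
    {J | ∃ x : Idx a → L, (∀ k, ∃ j, x ⟨k, j⟩ ≠ 0) ∧
      J = locClos σ {y | eval y F = 0} x}.Finite

end Pool.Agent.R383.MQ
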