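import Pool.Agent.R383.MQ.Stm3

/-! Statement of the piece on forms which are diagonal in one slot. -/

set_option autoImplicit false

namespace Pool.Agent.R383.MQ

open MvPolynomial Pool.Agent.TH178.MZ

/-- Forms `F = ∑_l X_{0,l}² P_l` with coefficients `P_l` in the other slots which do not vanish at
rational points, three of which have linearly independent differentials in each other slot. -/
def T_DIAG : Prop := ∀ {K : Type} [Field K] [CharZero K] {r : ℕ} {a : Fin (r + 1) → ℕ},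
  2 ≤ a 0 → ∀ (P : Fin (a 0 + 1) → MvPolynomial (Idx a) K) (F : MvPolynomial (Idx a) K),
  F = ∑ l, X ⟨0, l⟩ ^ 2 * P l → IsMultiQuadratic F →
  (∀ l j, pderiv (⟨0, j⟩ : Idx a) (P l) = 0) →
  (∀ y : Idx a → K, (∀ k, ∃ j, y ⟨k, j⟩ ≠ 0) → ∀ l, eval y (P l) ≠ 0) →
  ∀ l₀ l₁ l₂ : Fin (a 0 + 1), (∀ y : Idx a → K, (∀ k, ∃ j, y ⟨k, j⟩ ≠ 0) → ∀ i, i ≠ 0 →
    LinearIndependent K ![fun j : Fin (a i + 1) => eval y (pderiv (⟨i, j⟩ : Idx a) (P l₀)),
      fun j => eval y (pderiv (⟨i, j⟩ : Idx a) (P l₁)),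
      fun j => eval y (pderiv (⟨i, j⟩ : Idx a) (P l₂))]) →
  ∀ y : Idx a → K, eval y F = 0 → (∀ k, ∃ j, y ⟨k, j⟩ ≠ 0) → SemiGood Sigma.fst F y

end Pool.Agent.R383.MQ
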