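import Pool.Agent.R383.MQ.Stm3

/-! Statements of the pieces, version with second intersection points (this includes slots with two
variables). -/

set_option autoImplicit false

namespace Pool.Agent.R383.MQ

open MvPolynomial Pool.Agent.TH178.MZ

/-- The second point of intersection of the line through `z` and `e` in the slot `j` with the slice
`F (·; z) = 0`: the point `F(e; z) z - (d_j F(z) e) e` in the slot `j`; the coordinates in the other
slots are not changed. -/
noncomputable def ivl {K : Type} [Field K] {ι κ : Type} [Fintype ι] [DecidableEq κ]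
    (s : ι → κ) (F : MvPolynomial ι K) (j : κ) (e : ι → K) : ι → MvPolynomial ι K :=
  fun l => if s l = j then
    sub s j e F * X l - (∑ m, if s m = j then C (e m) * pderiv m F else 0) * C (e l) else X l

/-- `F(e; z)` times a `2 × 2` minor of the differentials of `F` in a slot at `z` and at the second
point. -/
noncomputable def lnk {K : Type} [Field K] {ι κ : Type} [Fintype ι] [DecidableEq κ]
    (s : ι → κ) (F : MvPolynomial ι K) (j : κ) (e : ι → K) (l l' : ι) : MvPolynomial ι K :=
  sub s j e F * (aeval (ivl s F j e) (pderiv l F) * pderiv l' F -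
    aeval (ivl s F j e) (pderiv l' F) * pderiv l F)

/-- The slots `i` and `j` are linked at `z`. -/
def Link {K : Type} [Field K] {ι κ : Type} [Fintype ι] [DecidableEq κ] {A : Type} [CommRing A]
    [Algebra K A] (s : ι → κ) (F : MvPolynomial ι K) (z : ι → A) (i j : κ) : Prop :=
  i ≠ j ∧ ∃ (e : ι → K) (l l' : ι), s l = i ∧ s l' = i ∧ aeval z (lnk s F j e l l') ≠ 0

/-- Good points: `F` has a nonzero partial derivative in each slot, and any two slots are connected
by a chain of linked slots. -/
def GoodE {K : Type} [Field K] {ι κ : Type} [Fintype ι] [DecidableEq κ] {A : Type} [CommRing A]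
    [Algebra K A] (s : ι → κ) (F : MvPolynomial ι K) (z : ι → A) : Prop :=
  (∀ i, Moves s F i z) ∧
    ∀ i j, Relation.ReflTransGen (fun i j => Link s F z i j ∨ Link s F z j i) i j

/-- Semi-good points: for some slot the component through `y` of the slice contains a good
geometric point. -/
def SemiGoodE {K : Type} [Field K] {ι κ : Type} [Fintype ι] [DecidableEq κ]
    (s : ι → κ) (F : MvPolynomial ι K) (y : ι → K) : Prop :=
  ∃ j g, Branch s F y j g ∧ ∃ z : ι → AlgebraicClosure K,
    (∀ l, s l ≠ j → z l = algebraMap K (AlgebraicClosure K) (y l)) ∧ aeval z g = 0 ∧ GoodE s F z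

/-- The field which moves the slot of `l`, `l'` keeping the second point fixed. -/
noncomputable def fldE {K : Type} [Field K] {ι κ : Type} [Fintype ι] [DecidableEq κ]
    (s : ι → κ) (F : MvPolynomial ι K) (j : κ) (e : ι → K) (l l' : ι) :
    Derivation K (MvPolynomial ι K) (MvPolynomial ι K) :=
  mkDerivation K fun m => if s m = j then
    sub s j e F * aeval (ivl s F j e) (fld F l l' (ivl s F j e m)) else
    (sub s j e F) ^ 3 * aeval (ivl s F j e) (fld F l l' (X m))

/-- All fields. -/
noncomputable def fldsE {K : Type} [Field K] {ι κ : Type} [Fintype ι] [DecidableEq κ]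
    (s : ι → κ) (F : MvPolynomial ι K) : ({p : ι × ι // s p.1 = s p.2} ⊕
      {p : κ × (ι → K) × ι × ι // s p.2.2.1 = s p.2.2.2 ∧ s p.2.2.1 ≠ p.1}) →
    Derivation K (MvPolynomial ι K) (MvPolynomial ι K) :=
  Sum.elim (flds s F) fun p => fldE s F p.1.1 p.1.2.1 p.1.2.2.1 p.1.2.2.2

/-- The new fields are rationally integrable. -/
def U_INT : Prop := ∀ {K : Type} [Field K] [CharZero K] {ι κ : Type} [Fintype ι] [DecidableEq κ]
  (s : ι → κ) (F : MvPolynomial ι K), IsMQ s F → ∀ (j : κ) (e : ι → K) (l l' : ι), s l = s l' →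
    s l ≠ j → RationallyIntegrable {y | eval y F = 0} (fldE s F j e l l')

/-- The fields at a good point. -/
def U_RANK : Prop := ∀ {K : Type} [Field K] [CharZero K] {ι κ : Type} [Fintype ι] [DecidableEq κ]
  (s : ι → κ) (F : MvPolynomial ι K), IsMQ s F → ∀ y : ι → K, eval y F = 0 → GoodE s F y →
    Fintype.card ι - 1 ≤ bracketRank (fldsE s F) y

/-- Good rational points near semi-good points. -/
def U_SEMI : Prop := ∀ {K : Type} [Field K] [CharZero K] {ι κ : Type} [Fintype ι] [Fintype κ]
  [DecidableEq κ] {L : Type} [NontriviallyNormedField L] (σ : K →+* L), DenseRange σ →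
  ∀ (s : ι → κ) (F : MvPolynomial ι K), IsMQ s F → ∀ y : ι → K, eval y F = 0 → SemiGoodE s F y →
    ∀ U ∈ nhds (fun l => σ (y l)), ∃ z : ι → K, eval z F = 0 ∧
      (fun l => σ (z l)) ∈ U ∧ GoodE s F z

/-- Semi-goodness does not depend on the choice of the multihomogeneous coordinates. -/
def U_INV : Prop := ∀ {K : Type} [Field K] [CharZero K] {r : ℕ} {a : Fin r → ℕ}
  (F : MvPolynomial (Idx a) K), IsMultiQuadratic F → ∀ (y : Idx a → K) (t : Fin r → K),
    (∀ k, t k ≠ 0) → SemiGoodE Sigma.fst F y → SemiGoodE Sigma.fst F (fun l => t l.1 * y l)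

/-- The second point lies on the slice, the map is an involution up to a factor. -/
def U_IVL : Prop := ∀ {K : Type} [Field K] [CharZero K] {ι κ : Type} [Fintype ι] [DecidableEq κ]
  (s : ι → κ) (F : MvPolynomial ι K), IsMQ s F → ∀ (j : κ) (e : ι → K) (z : ι → K),
    eval z F = 0 →
    eval (fun m => eval z (ivl s F j e m)) F = 0 ∧
    ∀ m, eval (fun m => eval z (ivl s F j e m)) (ivl s F j e m) =
      if s m = j then (eval z (sub s j e F)) ^ 2 * z m else z m

end Pool.Agent.R383.MQ
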