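import Pool.Agent.R383.MQ.Stm5

/-! Good and semi-good points, final version (both kinds of links). -/

set_option autoImplicit false

namespace Pool.Agent.R383.MQ

open MvPolynomial Pool.Agent.TH178.MZ

/-- The slots `i` and `j` are linked at `z`: (a) the mixed second differential of `F` is not zero on
the product of the kernels of the differentials of `F` in the two slots, or (b) for some point `e`
of one of the slots the second intersection point of the line through `z` and `e` with the slice
through `z` has, in the other slot, a tangent hyperplane different from that of `z`. -/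
def LinkU {K : Type} [Field K] {ι κ : Type} [Fintype ι] [DecidableEq κ] {A : Type} [CommRing A]
    [Algebra K A] (s : ι → κ) (F : MvPolynomial ι K) (z : ι → A) (i j : κ) : Prop :=
  Linked s F z i j ∨ Link s F z i j ∨ Link s F z j i

/-- Good points: `F` has a nonzero partial derivative in each slot, and any two slots are connected
by a chain of linked slots. -/
def GoodU {K : Type} [Field K] {ι κ : Type} [Fintype ι] [DecidableEq κ] {A : Type} [CommRing A]
    [Algebra K A] (s : ι → κ) (F : MvPolynomial ι K) (z : ι → A) : Prop :=
  (∀ i, Moves s F i z) ∧ ∀ i j, Relation.ReflTransGen (LinkU s F z) i j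

/-- Semi-good points: for some slot the component through `y` of the slice contains a good
geometric point. -/
def SemiGoodU {K : Type} [Field K] {ι κ : Type} [Fintype ι] [DecidableEq κ]
    (s : ι → κ) (F : MvPolynomial ι K) (y : ι → K) : Prop :=
  ∃ j g, Branch s F y j g ∧ ∃ z : ι → AlgebraicClosure K,
    (∀ l, s l ≠ j → z l = algebraMap K (AlgebraicClosure K) (y l)) ∧ aeval z g = 0 ∧ GoodU s F z

theorem SemiGood.toU {K : Type} [Field K] {ι κ : Type} [Fintype ι] [DecidableEq κ] {s : ι → κ}
    {F : MvPolynomial ι K} {y : ι → K} (h : SemiGood s F y) : SemiGoodU s F y := by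
  obtain ⟨j, g, hg, z, hz, hzg, h1, h2⟩ := h
  exact ⟨j, g, hg, z, hz, hzg, h1, fun i k =>
    Relation.ReflTransGen.mono (fun _ _ hab => Or.inl hab) i k (h2 i k)⟩

end Pool.Agent.R383.MQ
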