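import Pool.Agent.R383.MQ.Stm6

/-! Statement of the piece on forms which are diagonal in one slot, final version. -/

set_option autoImplicit false

namespace Pool.Agent.R383.MQ

open MvPolynomial Pool.Agent.TH178.MZ

/-- Forms `F = ∑_l X_{0,l}² P_l` with coefficients `P_l` in the other slots which do not vanish at
rational points. -/
def W_DIAG : Prop := ∀ {K : Type} [Field K] [CharZero K] {r : ℕ} {a : Fin (r + 1) → ℕ},
  2 ≤ a 0 → ∀ (P : Fin (a 0 + 1) → MvPolynomial (Idx a) K) (F : MvPolynomial (Idx a) K),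
  F = ∑ l, X ⟨0, l⟩ ^ 2 * P l → IsMultiQuadratic F →
  (∀ l j, pderiv (⟨0, j⟩ : Idx a) (P l) = 0) →
  ∀ y : Idx a → K, eval y F = 0 → (∀ k, ∃ j, y ⟨k, j⟩ ≠ 0) → (∀ l, eval y (P l) ≠ 0) →
  (∀ i, i ≠ 0 →
    (∃ m₀ m₁ m₂ : Fin (a i + 1), LinearIndependent K
      ![fun l : Fin (a 0 + 1) => eval y (pderiv (⟨i, m₀⟩ : Idx a) (P l)),
        fun l => eval y (pderiv (⟨i, m₁⟩ : Idx a) (P l)),
        fun l => eval y (pderiv (⟨i, m₂⟩ : Idx a) (P l))]) ∨
    (∃ e : Idx a → K, LinearIndependent K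
      ![fun l : Fin (a 0 + 1) => eval y (P l),
        fun l => ∑ m : Fin (a i + 1), e ⟨i, m⟩ * eval y (pderiv (⟨i, m⟩ : Idx a) (P l)),
        fun l => eval (mix Sigma.fst i e y) (P l)])) →
  SemiGoodU Sigma.fst F y

end Pool.Agent.R383.MQ
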