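import Pool.Agent.R383.MQ.Stm4
import Pool.Agent.R383.MQ.FINAL

/-! Semi-goodness for forms which are diagonal in one slot (helper656). -/

set_option autoImplicit false

namespace Pool.Agent.R383.MQ

open MvPolynomial Pool.Agent.TH178.MZ

namespace Dg

section general

variable {K : Type} [Field K] {ι : Type}

lemma notMem_vars [CharZero K] {G : MvPolynomial ι K} {i : ι} (h : pderiv i G = 0) :
    i ∉ G.vars := by
  classical
  intro hi
  rw [mem_vars] at hi
  obtain ⟨d, hd, hid⟩ := hi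
  have h1 : d - Finsupp.single i 1 + Finsupp.single i 1 = d := by
    refine tsub_add_cancel_of_le ?_
    rw [Finsupp.single_le_iff]
    exact Nat.one_le_iff_ne_zero.2 (Finsupp.mem_support_iff.1 hid)
  have h2 : coeff (d - Finsupp.single i 1) (pderiv i G) = 0 := by rw [h, coeff_zero]
  rw [coeff_pderiv, h1] at h2
  rcases mul_eq_zero.1 h2 with h3 | h3
  · exact (mem_support_iff.1 hd) h3
  · exact absurd h3 (Nat.cast_add_one_ne_zero _)

lemma aeval_off [CharZero K] {A : Type} [CommRing A] [Algebra K A] {G : MvPolynomial ι K}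
    (p : ι → Prop) (h : ∀ i, p i → pderiv i G = 0) (z z' : ι → A)
    (hz : ∀ i, ¬ p i → z i = z' i) : aeval z G = aeval z' G := by
  show eval₂Hom (algebraMap K A) z G = eval₂Hom (algebraMap K A) z' G
  refine eval₂Hom_congr' rfl (fun i hi _ => ?_) rfl
  exact hz i fun hp => notMem_vars (h i hp) hi

lemma aeval_res' {κ : Type} [DecidableEq κ] {A : Type} [CommRing A] [Algebra K A] (s : ι → κ)
    (i : κ) (y : ι → K) (z : ι → A) (hz : ∀ l, s l ≠ i → z l = algebraMap K A (y l))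
    (F : MvPolynomial ι K) : aeval z (res s i y F) = aeval z F := by
  rw [res, ← AlgHom.comp_apply]
  congr 1
  apply algHom_ext
  intro l
  rw [AlgHom.comp_apply, aeval_X, aeval_X]
  unfold mix
  split_ifs with h
  · rw [aeval_X]
  · rw [aeval_C, hz l h]

lemma aeval_amap {A : Type} [CommRing A] [Algebra K A] (y : ι → K) (G : MvPolynomial ι K) :
    aeval (fun x => algebraMap K A (y x)) G = algebraMap K A (eval y G) := by
  induction G using MvPolynomial.induction_on with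
  | C b => rw [aeval_C, eval_C]
  | add p q hp hq => rw [map_add, map_add, map_add, hp, hq]
  | mul_X p j hp => rw [map_mul, map_mul, map_mul, hp, aeval_X, eval_X]

lemma bet_symm [Fintype ι] {A : Type} [CommRing A] [Algebra K A] (F : MvPolynomial ι K) (z : ι → A)
    (l l' m m' : ι) : bet F z l l' m m' = bet F z m m' l l' := by
  unfold bet
  rw [pderiv_comm' F m' l', pderiv_comm' F m l', pderiv_comm' F m' l, pderiv_comm' F m l]
  ring

/-- linear algebra -/
lemma key {n : ℕ} (w : Fin 3 → Fin n → K) (hw : LinearIndependent K w) (p₀ p₁ t s : K)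
    (hp₁ : p₁ ≠ 0) (hs : s ≠ 0) :
    (∃ m, w 0 m + t * w 1 m + s * w 2 m ≠ 0) ∧ ∃ m m',
      (w 0 m + t * w 1 m + s * w 2 m) * (p₀ * w 1 m' - p₁ * w 0 m') -
        (w 0 m' + t * w 1 m' + s * w 2 m') * (p₀ * w 1 m - p₁ * w 0 m) ≠ 0 := by
  have li : ∀ c0 c1 c2 : K, (∀ m, c0 * w 0 m + c1 * w 1 m + c2 * w 2 m = 0) →
      c0 = 0 ∧ c1 = 0 ∧ c2 = 0 := by
    intro c0 c1 c2 h
    have h1 := Fintype.linearIndependent_iff.1 hw ![c0, c1, c2] (by
      funext m
      simp only [Fin.sum_univ_three, Pi.add_apply, Pi.smul_apply, smul_eq_mul, Pi.zero_apply,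
        Matrix.cons_val_zero, Matrix.cons_val_one, Matrix.cons_val]
      exact h m)
    exact ⟨h1 0, h1 1, h1 2⟩
  have hu : ∃ m, w 0 m + t * w 1 m + s * w 2 m ≠ 0 := by
    by_contra h
    push Not at h
    have := (li 1 t s (fun m => by rw [one_mul]; exact h m)).1
    exact one_ne_zero this
  refine ⟨hu, ?_⟩
  obtain ⟨m₀, hm₀⟩ := hu
  by_contra hall
  push Not at hall
  set u : Fin n → K := fun m => w 0 m + t * w 1 m + s * w 2 m with hudef
  set v : Fin n → K := fun m => p₀ * w 1 m - p₁ * w 0 m with hvdef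
  have hum : u m₀ ≠ 0 := hm₀
  set c : K := v m₀ / u m₀ with hc
  have hv : ∀ m, v m = c * u m := by
    intro m
    have h1 : u m₀ * v m - u m * v m₀ = 0 := hall m₀ m
    rw [hc]
    field_simp
    linear_combination h1
  have h2 := li (-p₁ - c) (p₀ - c * t) (-(c * s)) (fun m => by
    have h3 := hv m
    simp only [hudef, hvdef] at h3
    linear_combination h3)
  have h4 : c * s = 0 := neg_eq_zero.1 h2.2.2
  have h5 : c = 0 := by
    rcases mul_eq_zero.1 h4 with h | h
    · exact h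
    · exact absurd h hs
  have h6 := h2.1
  rw [h5, sub_zero, neg_eq_zero] at h6
  exact hp₁ h6

end general

section diag

variable {K : Type} [Field K] {r : ℕ} {a : Fin (r + 1) → ℕ}

lemma pd0 (P : Fin (a 0 + 1) → MvPolynomial (Idx a) K)
    (hP : ∀ l j, pderiv (⟨0, j⟩ : Idx a) (P l) = 0) (l : Fin (a 0 + 1)) :
    pderiv (⟨0, l⟩ : Idx a) (∑ k, X ⟨0, k⟩ ^ 2 * P k) = 2 * X ⟨0, l⟩ * P l := by
  rw [map_sum, Finset.sum_eq_single l]
  · rw [Derivation.leibniz, hP, Derivation.leibniz_pow, pderiv_X_self]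
    simp only [smul_eq_mul, nsmul_eq_mul]
    push_cast
    ring
  · intro k _ hk
    have h1 : (⟨0, k⟩ : Idx a) ≠ ⟨0, l⟩ := fun h => hk (by simpa using h)
    rw [Derivation.leibniz, hP, Derivation.leibniz_pow, pderiv_X_of_ne h1]
    simp
  · intro h
    exact absurd (Finset.mem_univ _) h

lemma pdi (P : Fin (a 0 + 1) → MvPolynomial (Idx a) K) (x : Idx a) (hx : x.1 ≠ 0) :
    pderiv x (∑ k, X ⟨0, k⟩ ^ 2 * P k) = ∑ k, X ⟨0, k⟩ ^ 2 * pderiv x (P k) := by
  rw [map_sum]
  refine Finset.sum_congr rfl fun k _ => ?_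
  have h1 : (⟨0, k⟩ : Idx a) ≠ x := fun h => hx (by rw [← h])
  rw [Derivation.leibniz, Derivation.leibniz_pow, pderiv_X_of_ne h1]
  simp

lemma pdi0 (P : Fin (a 0 + 1) → MvPolynomial (Idx a) K) (x : Idx a) (hx : x.1 ≠ 0)
    (l : Fin (a 0 + 1)) :
    pderiv x (2 * X ⟨0, l⟩ * P l) = 2 * X ⟨0, l⟩ * pderiv x (P l) := by
  have h1 : (⟨0, l⟩ : Idx a) ≠ x := fun h => hx (by rw [← h])
  have h2 : pderiv x (2 * X ⟨0, l⟩ : MvPolynomial (Idx a) K) = 0 := by
    rw [Derivation.leibniz, pderiv_X_of_ne h1]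
    have : pderiv x (2 : MvPolynomial (Idx a) K) = 0 := by
      rw [show (2 : MvPolynomial (Idx a) K) = C 2 from (map_ofNat C 2).symm, pderiv_C]
    rw [this]
    simp
  rw [Derivation.leibniz, h2]
  simp

lemma pd00 (P : Fin (a 0 + 1) → MvPolynomial (Idx a) K)
    (hP : ∀ l j, pderiv (⟨0, j⟩ : Idx a) (P l) = 0) (l m : Fin (a 0 + 1)) :
    pderiv (⟨0, m⟩ : Idx a) (2 * X ⟨0, l⟩ * P l) = if m = l then 2 * P l else 0 := by
  have h2 : pderiv (⟨0, m⟩ : Idx a) (2 : MvPolynomial (Idx a) K) = 0 := by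
    rw [show (2 : MvPolynomial (Idx a) K) = C 2 from (map_ofNat C 2).symm, pderiv_C]
  rw [Derivation.leibniz, hP, Derivation.leibniz, h2]
  split_ifs with h
  · subst h
    rw [pderiv_X_self]
    simp only [smul_eq_mul]
    ring
  · have h1 : (⟨0, l⟩ : Idx a) ≠ ⟨0, m⟩ := fun h' => h (by simpa using h'.symm)
    rw [pderiv_X_of_ne h1]
    simp

end diag

end Dg

open Dg in
theorem tDIAG : S_MINOR → S_HOM → T_DIAG := by
  intro hMINOR hHOM K _ _ r a ha P F hF hMQ hP0 hPne l₀ l₁ l₂ hLI y hy hyp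
  classical
  have hIs : IsMQ Sigma.fst F := Fn.isMQ_of hMQ
  obtain ⟨H1, -, -, H4, -⟩ := hHOM (K := K) (Sigma.fst : Idx a → Fin (r + 1)) 0 y
  have h2K : (2 : K) ≠ 0 := two_ne_zero
  -- first derivatives at points
  have f0 : ∀ l, pderiv (⟨0, l⟩ : Idx a) F = 2 * X ⟨0, l⟩ * P l := fun l => by
    rw [hF]; exact pd0 P hP0 l
  have fi : ∀ x : Idx a, x.1 ≠ 0 → pderiv x F = ∑ k, X ⟨0, k⟩ ^ 2 * pderiv x (P k) :=
    fun x hx => by rw [hF]; exact pdi P x hx
  have f0i : ∀ (x : Idx a) (l), x.1 ≠ 0 → pderiv x (pderiv (⟨0, l⟩ : Idx a) F) =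
      2 * X ⟨0, l⟩ * pderiv x (P l) := fun x l hx => by rw [f0]; exact pdi0 P x hx l
  have hyP : ∀ l, eval y (P l) ≠ 0 := hPne y hyp
  -- the branch
  have hprime : Prime (res Sigma.fst 0 y F) := by
    have hlt : ∀ k : Fin 3, k.val < a 0 + 1 := fun k => by omega
    refine hMINOR (res Sigma.fst 0 y F) (H1 F hIs) (fun k => ⟨0, ⟨k.val, hlt k⟩⟩)
      (fun k => ⟨0, ⟨k.val, hlt k⟩⟩) ?_
    have hmat : (Matrix.of fun b c : Fin 3 => hess (res Sigma.fst 0 y F)
        (⟨0, ⟨b.val, hlt b⟩⟩ : Idx a) ⟨0, ⟨c.val, hlt c⟩⟩) =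
        Matrix.diagonal fun b : Fin 3 => 2 * eval y (P ⟨b.val, hlt b⟩) := by
      ext b c
      rw [Matrix.of_apply, H4 F hIs _ _ rfl rfl, f0, pd00 P hP0, Matrix.diagonal_apply]
      by_cases hbc : b = c
      · subst hbc
        rw [if_pos rfl, if_pos rfl, map_mul, map_ofNat]
      · rw [if_neg hbc, if_neg, map_zero]
        intro h
        apply hbc
        rw [Fin.mk.injEq] at h
        exact Fin.ext h.symm
    rw [hmat, Matrix.det_diagonal]
    exact Finset.prod_ne_zero_iff.2 fun b _ => mul_ne_zero h2K (hyP _)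
  have hmix : mix Sigma.fst 0 y y = y := by
    funext x
    unfold mix
    split_ifs <;> rfl
  have hmov : Moves Sigma.fst F 0 y := by
    obtain ⟨l, hl⟩ := hyp 0
    refine ⟨⟨0, l⟩, rfl, ?_⟩
    rw [f0, aeval_eq_eval, map_mul, map_mul, map_ofNat, eval_X]
    exact mul_ne_zero (mul_ne_zero h2K hl) (hyP l)
  have hg0 : eval y (res Sigma.fst 0 y F) = 0 := by
    rw [eval_res, hmix, hy]
  refine ⟨0, res Sigma.fst 0 y F, Or.inl ⟨hprime.irreducible, dvd_rfl, hg0, hmov⟩, ?_⟩
  set AC := AlgebraicClosure K with hAC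
  have hinj : Function.Injective (algebraMap K AC) := (algebraMap K AC).injective
  by_cases hr : ∃ i : Fin (r + 1), i ≠ 0
  swap
  · -- only one slot
    push Not at hr
    have hz : ∀ G : MvPolynomial (Idx a) K, aeval (fun x => algebraMap K AC (y x)) G =
        algebraMap K AC (eval y G) := fun G => aeval_amap y G
    refine ⟨fun x => algebraMap K AC (y x), fun l _ => rfl, ?_, ?_, ?_⟩
    · rw [hz, hg0, map_zero]
    · intro i
      rw [hr i]
      obtain ⟨l, hl, hl'⟩ := hmov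
      refine ⟨l, hl, ?_⟩
      rw [hz]
      rw [aeval_eq_eval] at hl'
      exact fun h => hl' (hinj (by rw [h, map_zero]))
    · intro i j
      rw [hr i, hr j]
  · obtain ⟨i₁, hi₁⟩ := hr
    have hne : l₀ ≠ l₁ ∧ l₀ ≠ l₂ ∧ l₁ ≠ l₂ := by
      have hinjw := (hLI y hyp i₁ hi₁).injective
      refine ⟨?_, ?_, ?_⟩
      · intro h
        have : (0 : Fin 3) = 1 := hinjw (by simp [h])
        exact absurd this (by decide)
      · intro h
        have : (0 : Fin 3) = 2 := hinjw (by simp [h])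
        exact absurd this (by decide)
      · intro h
        have : (1 : Fin 3) = 2 := hinjw (by simp [h])
        exact absurd this (by decide)
    obtain ⟨h01, h02, h12⟩ := hne
    set p₀ : K := eval y (P l₀) with hp₀
    set p₁ : K := eval y (P l₁) with hp₁
    set p₂ : K := eval y (P l₂) with hp₂
    have hp0 : p₀ ≠ 0 := hyP l₀
    have hp1 : p₁ ≠ 0 := hyP l₁
    have hp2 : p₂ ≠ 0 := hyP l₂
    obtain ⟨t, ht, hpt⟩ : ∃ t : K, t ≠ 0 ∧ p₀ + t * p₁ ≠ 0 := by
      by_cases h : p₀ + p₁ = 0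
      · refine ⟨2, h2K, fun h' => hp1 ?_⟩
        linear_combination h' - h
      · exact ⟨1, one_ne_zero, by rwa [one_mul]⟩
    set s : K := -(p₀ + t * p₁) / p₂ with hs
    have hs0 : s ≠ 0 := div_ne_zero (neg_ne_zero.2 hpt) hp2
    have hsum0 : p₀ + t * p₁ + s * p₂ = 0 := by
      rw [hs]
      field_simp
      ring
    obtain ⟨α, hα⟩ := IsAlgClosed.exists_pow_nat_eq (algebraMap K AC t) (n := 2) (by norm_num)
    obtain ⟨β, hβ⟩ := IsAlgClosed.exists_pow_nat_eq (algebraMap K AC s) (n := 2) (by norm_num)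
    have hα0 : α ≠ 0 := by
      rintro rfl
      rw [zero_pow (by norm_num)] at hα
      exact ht (hinj (by rw [← hα, map_zero]))
    set z : Idx a → AC := fun x => if x.1 = 0 then (if x = ⟨0, l₀⟩ then 1 else
      if x = ⟨0, l₁⟩ then α else if x = ⟨0, l₂⟩ then β else 0) else algebraMap K AC (y x) with hz
    have z0 : z ⟨0, l₀⟩ = 1 := by simp [hz]
    have z1 : z ⟨0, l₁⟩ = α := by simp [hz, h01.symm]
    have z2 : z ⟨0, l₂⟩ = β := by simp [hz, h02.symm, h12.symm]
    have zo : ∀ l, l ≠ l₀ → l ≠ l₁ → l ≠ l₂ → z ⟨0, l⟩ = 0 := by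
      intro l e0 e1 e2
      simp [hz, e0, e1, e2]
    have zi : ∀ x : Idx a, x.1 ≠ 0 → z x = algebraMap K AC (y x) := by
      intro x hx
      simp only [hz, if_neg hx]
    have hsum : ∀ w : Fin (a 0 + 1) → AC, ∑ l, z ⟨0, l⟩ ^ 2 * w l =
        w l₀ + algebraMap K AC t * w l₁ + algebraMap K AC s * w l₂ := by
      intro w
      rw [← Finset.sum_subset (Finset.subset_univ {l₀, l₁, l₂})]
      · rw [Finset.sum_insert (by simp [h01, h02]), Finset.sum_insert (by simp [h12]),
          Finset.sum_singleton, z0, z1, z2, hα, hβ]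
        ring
      · intro l _ hl
        simp only [Finset.mem_insert, Finset.mem_singleton, not_or] at hl
        rw [zo l hl.1 hl.2.1 hl.2.2]
        ring
    -- values of polynomials without variables of the slot 0
    have hval : ∀ G : MvPolynomial (Idx a) K, (∀ j, pderiv (⟨0, j⟩ : Idx a) G = 0) →
        aeval z G = algebraMap K AC (eval y G) := by
      intro G hG
      rw [aeval_off (fun x : Idx a => x.1 = 0) (fun x hx => by
        obtain ⟨i, j⟩ := x
        simp only at hx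
        subst hx
        exact hG j) z (fun x => algebraMap K AC (y x)) (fun x hx => zi x hx)]
      exact aeval_amap y G
    have hvP : ∀ l, aeval z (P l) = algebraMap K AC (eval y (P l)) := fun l => hval _ (hP0 l)
    have hvD : ∀ (x : Idx a) (l), aeval z (pderiv x (P l)) =
        algebraMap K AC (eval y (pderiv x (P l))) := fun x l => hval _ fun j => by
      rw [pderiv_comm', hP0, map_zero]
    have e0 : ∀ l, aeval z (pderiv (⟨0, l⟩ : Idx a) F) =
        2 * z ⟨0, l⟩ * algebraMap K AC (eval y (P l)) := by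
      intro l
      rw [f0, map_mul, map_mul, map_ofNat, aeval_X, hvP]
    have ei : ∀ x : Idx a, x.1 ≠ 0 → aeval z (pderiv x F) =
        algebraMap K AC (eval y (pderiv x (P l₀)) + t * eval y (pderiv x (P l₁)) +
          s * eval y (pderiv x (P l₂))) := by
      intro x hx
      rw [fi x hx, map_sum]
      simp only [map_mul, map_pow, aeval_X, hvD]
      rw [hsum]
      simp only [map_add, map_mul]
    have e0i : ∀ (x : Idx a) (l), x.1 ≠ 0 → aeval z (pderiv x (pderiv (⟨0, l⟩ : Idx a) F)) =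
        2 * z ⟨0, l⟩ * algebraMap K AC (eval y (pderiv x (P l))) := by
      intro x l hx
      rw [f0i x l hx, map_mul, map_mul, map_ofNat, aeval_X, hvD]
    have h2A : (2 : AC) ≠ 0 := two_ne_zero
    have hk : ∀ i : Fin (r + 1), i ≠ 0 → _ := fun i hi =>
      key _ (hLI y hyp i hi) p₀ p₁ t s hp1 hs0
    have hMov : ∀ i, Moves Sigma.fst F i z := by
      intro i
      by_cases hi : i = 0
      · rw [hi]
        refine ⟨⟨0, l₀⟩, rfl, ?_⟩
        rw [e0, z0, mul_one]
        exact mul_ne_zero h2A fun h => hp0 (hinj (by rw [h, map_zero]))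
      · obtain ⟨m, hm⟩ := (hk i hi).1
        refine ⟨⟨i, m⟩, rfl, ?_⟩
        rw [ei _ hi]
        exact fun h => hm (hinj (by rw [map_zero]; exact h))
    have hL0 : ∀ i, i ≠ 0 → Linked Sigma.fst F z 0 i := by
      intro i hi
      obtain ⟨m, m', hm⟩ := (hk i hi).2
      refine ⟨⟨0, l₀⟩, ⟨0, l₁⟩, ⟨i, m⟩, ⟨i, m'⟩, rfl, rfl, rfl, rfl, ?_⟩
      have hb : bet F z (⟨0, l₀⟩ : Idx a) ⟨0, l₁⟩ ⟨i, m⟩ ⟨i, m'⟩ = 4 * α *
          algebraMap K AC ((eval y (pderiv (⟨i, m⟩ : Idx a) (P l₀)) +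
            t * eval y (pderiv (⟨i, m⟩ : Idx a) (P l₁)) +
            s * eval y (pderiv (⟨i, m⟩ : Idx a) (P l₂))) *
            (p₀ * eval y (pderiv (⟨i, m'⟩ : Idx a) (P l₁)) -
              p₁ * eval y (pderiv (⟨i, m'⟩ : Idx a) (P l₀))) -
          (eval y (pderiv (⟨i, m'⟩ : Idx a) (P l₀)) +
            t * eval y (pderiv (⟨i, m'⟩ : Idx a) (P l₁)) +
            s * eval y (pderiv (⟨i, m'⟩ : Idx a) (P l₂))) *
            (p₀ * eval y (pderiv (⟨i, m⟩ : Idx a) (P l₁)) -
              p₁ * eval y (pderiv (⟨i, m⟩ : Idx a) (P l₀)))) := by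
        unfold bet
        rw [e0, e0, ei _ (show (⟨i, m⟩ : Idx a).1 ≠ 0 from hi),
          ei _ (show (⟨i, m'⟩ : Idx a).1 ≠ 0 from hi),
          e0i _ _ (show (⟨i, m⟩ : Idx a).1 ≠ 0 from hi),
          e0i _ _ (show (⟨i, m⟩ : Idx a).1 ≠ 0 from hi),
          e0i _ _ (show (⟨i, m'⟩ : Idx a).1 ≠ 0 from hi),
          e0i _ _ (show (⟨i, m'⟩ : Idx a).1 ≠ 0 from hi), z0, z1]
        simp only [map_add, map_mul, map_sub, ← hp₀, ← hp₁]
        ring
      rw [hb]
      refine mul_ne_zero (mul_ne_zero (by norm_num) hα0) ?_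
      exact fun h => hm (hinj (by rw [map_zero]; exact h))
    have hL0' : ∀ i, i ≠ 0 → Linked Sigma.fst F z i 0 := by
      intro i hi
      obtain ⟨l, l', m, m', e1, e2, e3, e4, hb⟩ := hL0 i hi
      exact ⟨m, m', l, l', e3, e4, e1, e2, by rwa [← bet_symm]⟩
    refine ⟨z, fun l hl => zi l hl, ?_, hMov, ?_⟩
    · rw [aeval_res' Sigma.fst 0 y z (fun l hl => zi l hl), hF, map_sum]
      simp only [map_mul, map_pow, aeval_X, hvP]
      rw [hsum, ← map_mul, ← map_mul, ← map_add, ← map_add, hsum0, map_zero]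
    · intro i j
      have h1 : Relation.ReflTransGen (Linked Sigma.fst F z) i 0 := by
        by_cases hi : i = 0
        · rw [hi]
        · exact Relation.ReflTransGen.single (hL0' i hi)
      refine h1.trans ?_
      by_cases hj : j = 0
      · rw [hj]
      · exact Relation.ReflTransGen.single (hL0 j hj)

end Pool.Agent.R383.MQ
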