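import Pool.Agent.R383.MQ.Stm4

/-! Forms which are diagonal in one slot. -/

set_option autoImplicit false
set_option maxHeartbeats 400000

namespace Pool.Agent.R383.MQ

open MvPolynomial Pool.Agent.TH178.MZ

namespace Dg

theorem vars_of {K : Type} [Field K] [CharZero K] {ι : Type} {G : MvPolynomial ι K} {i : ι}
    (h : pderiv i G = 0) : i ∉ G.vars := by
  intro hi
  rw [mem_vars] at hi
  obtain ⟨d, hd, hdi⟩ := hi
  have h1 : coeff (d - Finsupp.single i 1) (pderiv i G) = 0 := by rw [h, coeff_zero]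
  have h2 : d - Finsupp.single i 1 + Finsupp.single i 1 = d := by
    refine tsub_add_cancel_of_le ?_
    rw [Finsupp.single_le_iff]
    exact Nat.one_le_iff_ne_zero.2 (Finsupp.mem_support_iff.1 hdi)
  rw [coeff_pderiv, h2, mul_eq_zero] at h1
  rcases h1 with h1 | h1
  · exact (mem_support_iff.1 hd) h1
  · exact absurd h1 (Nat.cast_add_one_ne_zero _)

theorem aeval_indep {K : Type} [Field K] [CharZero K] {ι κ : Type} {A : Type} [CommRing A]
    [Algebra K A] (s : ι → κ) (j : κ) {G : MvPolynomial ι K} (h : ∀ i, s i = j → pderiv i G = 0)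
    (z z' : ι → A) (hz : ∀ i, s i ≠ j → z i = z' i) : aeval z G = aeval z' G := by
  refine eval₂Hom_congr' (f₁ := algebraMap K A) (f₂ := algebraMap K A) (g₁ := z) (g₂ := z')
    (p₁ := G) (p₂ := G) rfl ?_ rfl
  intro i hi _
  by_cases hs : s i = j
  · exact absurd hi (vars_of (h i hs))
  · exact hz i hs

theorem aeval_alg {K : Type} [Field K] {ι : Type} {A : Type} [CommRing A]
    [Algebra K A] (y : ι → K) (G : MvPolynomial ι K) :
    aeval (fun i => algebraMap K A (y i)) G = algebraMap K A (eval y G) := by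
  induction G using MvPolynomial.induction_on with
  | C c => rw [aeval_C, eval_C]
  | add p q hp hq => rw [map_add, map_add, map_add, hp, hq]
  | mul_X p i hp => rw [map_mul, map_mul, map_mul, hp, aeval_X, eval_X]

theorem pd2 {K : Type} [Field K] {ι : Type} (m : ι) : pderiv m (2 : MvPolynomial ι K) = 0 := by
  have : (2 : MvPolynomial ι K) = C 2 := (map_ofNat C 2).symm
  rw [this, pderiv_C]

theorem aeval_res {K : Type} [Field K] {ι κ : Type} [DecidableEq κ] {A : Type} [CommRing A]
    [Algebra K A] (s : ι → κ) (i : κ) (y : ι → K) (x : ι → A) (F : MvPolynomial ι K) :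
    aeval x (res s i y F) = aeval (mix s i x (fun l => algebraMap K A (y l))) F := by
  rw [res, ← AlgHom.comp_apply]
  congr 1
  apply algHom_ext
  intro l
  rw [AlgHom.comp_apply, aeval_X, aeval_X]
  unfold mix
  split_ifs
  · rw [aeval_X]
  · rw [aeval_C]

theorem bet_symm {K : Type} [Field K] {ι : Type} [Fintype ι] {A : Type} [CommRing A] [Algebra K A]
    (F : MvPolynomial ι K) (z : ι → A) (l l' m m' : ι) :
    bet F z m m' l l' = bet F z l l' m m' := by
  unfold bet
  rw [pderiv_comm' F m' l', pderiv_comm' F m' l, pderiv_comm' F m l', pderiv_comm' F m l]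
  ring

variable {K : Type} [Field K] [CharZero K] {r : ℕ} {a : Fin (r + 1) → ℕ}
  {P : Fin (a 0 + 1) → MvPolynomial (Idx a) K} {F : MvPolynomial (Idx a) K}

theorem d1 (hF : F = ∑ l, X ⟨0, l⟩ ^ 2 * P l)
    (h0 : ∀ l j, pderiv (⟨0, j⟩ : Idx a) (P l) = 0) (l : Fin (a 0 + 1)) :
    pderiv (⟨0, l⟩ : Idx a) F = 2 * X ⟨0, l⟩ * P l := by
  classical
  rw [hF, map_sum, Finset.sum_eq_single l]
  · rw [pderiv_mul, h0, mul_zero, add_zero, pderiv_pow, pderiv_X_self]
    simp
  · intro k _ hk
    rw [pderiv_mul, h0, mul_zero, add_zero, pderiv_pow, pderiv_X_of_ne, mul_zero, zero_mul]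
    intro h
    exact hk (by simpa using h)
  · intro h
    exact absurd (Finset.mem_univ _) h

theorem d2 (hF : F = ∑ l, X ⟨0, l⟩ ^ 2 * P l) (m : Idx a) (hm : m.1 ≠ 0) :
    pderiv m F = ∑ l, X ⟨0, l⟩ ^ 2 * pderiv m (P l) := by
  classical
  rw [hF, map_sum]
  refine Finset.sum_congr rfl fun k _ => ?_
  rw [pderiv_mul, pderiv_pow, pderiv_X_of_ne, mul_zero, zero_mul, zero_add]
  rintro rfl
  exact hm rfl

theorem d3 (hF : F = ∑ l, X ⟨0, l⟩ ^ 2 * P l)
    (h0 : ∀ l j, pderiv (⟨0, j⟩ : Idx a) (P l) = 0) (l : Fin (a 0 + 1)) (m : Idx a)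
    (hm : m.1 ≠ 0) :
    pderiv m (pderiv (⟨0, l⟩ : Idx a) F) = 2 * X ⟨0, l⟩ * pderiv m (P l) := by
  classical
  rw [d1 hF h0, pderiv_mul, pderiv_mul, pderiv_X_of_ne]
  · rw [pd2]
    ring
  · rintro rfl
    exact hm rfl

theorem d4 (hF : F = ∑ l, X ⟨0, l⟩ ^ 2 * P l)
    (h0 : ∀ l j, pderiv (⟨0, j⟩ : Idx a) (P l) = 0) (l m : Fin (a 0 + 1)) :
    pderiv (⟨0, m⟩ : Idx a) (pderiv (⟨0, l⟩ : Idx a) F) = if l = m then 2 * P l else 0 := by
  classical
  rw [d1 hF h0, pderiv_mul, pderiv_mul, h0, pd2]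
  split_ifs with h
  · subst h
    rw [pderiv_X_self]
    ring
  · rw [pderiv_X_of_ne]
    · ring
    · intro h'
      exact h (by simpa using h')

/-- the linear algebra: `u = w₀ + t w₁ + s w₂` and `v = p₀ w₁ - p₁ w₀` are independent -/
theorem lin_alg {J : Type} {w0 w1 w2 : J → K} (h : LinearIndependent K ![w0, w1, w2])
    {p0 p1 t s : K} (hp0 : p0 ≠ 0) (hs : s ≠ 0) :
    ∃ m m' : J, (w0 m + t * w1 m + s * w2 m) * (p0 * w1 m' - p1 * w0 m') -
      (w0 m' + t * w1 m' + s * w2 m') * (p0 * w1 m - p1 * w0 m) ≠ 0 := by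
  by_contra hcon
  push Not at hcon
  have key : ∀ c0 c1 c2 : K, (∀ m, c0 * w0 m + c1 * w1 m + c2 * w2 m = 0) →
      c0 = 0 ∧ c1 = 0 ∧ c2 = 0 := by
    intro c0 c1 c2 hc
    have h1 := Fintype.linearIndependent_iff.1 h ![c0, c1, c2] (by
      funext m
      have := hc m
      simp only [Fin.sum_univ_three, Matrix.cons_val_zero, Matrix.cons_val_one, Matrix.cons_val,
        Pi.add_apply, Pi.smul_apply, smul_eq_mul, Pi.zero_apply]
      exact this)
    exact ⟨h1 0, h1 1, h1 2⟩
  -- some `v m' ≠ 0`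
  have hv : ∃ m', p0 * w1 m' - p1 * w0 m' ≠ 0 := by
    by_contra h2
    push Not at h2
    obtain ⟨-, h3, -⟩ := key (-p1) p0 0 (fun m => by
      have := h2 m
      linear_combination this)
    exact hp0 h3
  obtain ⟨m', hm'⟩ := hv
  set v := p0 * w1 m' - p1 * w0 m' with hvd
  set u := w0 m' + t * w1 m' + s * w2 m' with hud
  obtain ⟨-, -, h3⟩ := key (v + u * p1) (v * t - u * p0) (v * s) (fun m => by
    have := hcon m m'
    rw [← hvd, ← hud] at this
    linear_combination this)
  exact (mul_ne_zero hm' hs) h3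

end Dg

open Dg in
theorem tDIAG2 : S_MINOR → S_HOM → T_DIAG := by
  intro hMIN hHOM K _ _ r a ha P F hF hMQ h0 hP l₀ l₁ l₂ hlin y hy hyP
  classical
  have hsmq : IsMQ (Sigma.fst : Idx a → Fin (r + 1)) F := by
    intro i m hm
    rw [Fintype.sum_sigma, Finset.sum_eq_single i]
    · simp only [if_true]
      exact hMQ m hm i
    · intro k _ hk
      simp [hk]
    · intro h
      exact absurd (Finset.mem_univ _) h
  obtain ⟨H1, H2, H3, H4, H5⟩ := hHOM (Sigma.fst : Idx a → Fin (r + 1)) 0 y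
  have hPy : ∀ l, eval y (P l) ≠ 0 := hP y hyP
  have h0' : ∀ l (i : Idx a), i.1 = 0 → pderiv i (P l) = 0 := by
    rintro l ⟨i, j⟩ hi
    simp only at hi
    subst hi
    exact h0 l j
  have h0'' : ∀ l (m : Idx a) (i : Idx a), i.1 = 0 → pderiv i (pderiv m (P l)) = 0 := by
    intro l m i hi
    rw [pderiv_comm', h0' l i hi, map_zero]
  set q := res (Sigma.fst : Idx a → Fin (r + 1)) 0 y F with hq
  have hqy : eval y q = 0 := by
    rw [hq, eval_res]
    have : mix (Sigma.fst : Idx a → Fin (r + 1)) 0 y y = y := by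
      funext l
      unfold mix
      split_ifs <;> rfl
    rw [this, hy]
  have htwo : (2 : K) ≠ 0 := two_ne_zero
  have hprime : Prime q := by
    set c : Fin 3 → Fin (a 0 + 1) := fun k => Fin.castLE (by omega) k with hc
    have hcinj : Function.Injective c := Fin.castLE_injective _
    refine hMIN q (H1 F hsmq) (fun k => ⟨0, c k⟩) (fun k => ⟨0, c k⟩) ?_
    have e : (Matrix.of fun i j : Fin 3 => hess q (⟨0, c i⟩ : Idx a) ⟨0, c j⟩) =
        Matrix.diagonal (fun k => 2 * eval y (P (c k))) := by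
      ext i j
      rw [Matrix.of_apply, hq, H4 F hsmq ⟨0, c i⟩ ⟨0, c j⟩ rfl rfl, d4 hF h0]
      by_cases hij : i = j
      · subst hij
        rw [if_pos rfl, Matrix.diagonal_apply_eq, map_mul]
        simp
      · rw [if_neg (fun h => hij (hcinj h)), Matrix.diagonal_apply_ne _ hij, map_zero]
    rw [e, Matrix.det_diagonal]
    exact Finset.prod_ne_zero_iff.2 fun k _ => mul_ne_zero htwo (hPy _)
  have hmov : Moves (Sigma.fst : Idx a → Fin (r + 1)) F 0 y := by
    obtain ⟨j, hj⟩ := hyP 0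
    refine ⟨⟨0, j⟩, rfl, ?_⟩
    rw [d1 hF h0, map_mul, map_mul, aeval_X, aeval_eq_eval]
    simp only [map_ofNat]
    exact mul_ne_zero (mul_ne_zero htwo hj) (hPy j)
  refine ⟨0, q, Or.inl ⟨hprime.irreducible, dvd_rfl, hqy, hmov⟩, ?_⟩
  set A := AlgebraicClosure K with hA
  have hinj : Function.Injective (algebraMap K A) := (algebraMap K A).injective
  by_cases hr : ∃ i : Fin (r + 1), i ≠ 0
  · obtain ⟨i₁, hi₁⟩ := hr
    -- the three indices are distinct
    have hli := hlin y hyP i₁ hi₁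
    have hinjv := hli.injective
    have h01 : l₀ ≠ l₁ := by
      rintro rfl
      have := @hinjv 0 1 rfl
      exact absurd this (by decide)
    have h02 : l₀ ≠ l₂ := by
      rintro rfl
      have := @hinjv 0 2 rfl
      exact absurd this (by decide)
    have h12 : l₁ ≠ l₂ := by
      rintro rfl
      have := @hinjv 1 2 rfl
      exact absurd this (by decide)
    set p0 := eval y (P l₀) with hp0
    set p1 := eval y (P l₁) with hp1
    set p2 := eval y (P l₂) with hp2
    have hp0' : p0 ≠ 0 := hPy _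
    have hp1' : p1 ≠ 0 := hPy _
    have hp2' : p2 ≠ 0 := hPy _
    obtain ⟨t, ht0, ht⟩ : ∃ t : K, t ≠ 0 ∧ p0 + t * p1 ≠ 0 := by
      by_cases h : p0 + 1 * p1 = 0
      · refine ⟨2, htwo, ?_⟩
        intro h'
        apply hp1'
        linear_combination h' - h
      · exact ⟨1, one_ne_zero, h⟩
    set s := -(p0 + t * p1) / p2 with hs
    have hs0 : s ≠ 0 := div_ne_zero (neg_ne_zero.2 ht) hp2'
    obtain ⟨β, hβ⟩ := IsAlgClosed.exists_pow_nat_eq (algebraMap K A t) (n := 2) (by norm_num)
    obtain ⟨γ, hγ⟩ := IsAlgClosed.exists_pow_nat_eq (algebraMap K A s) (n := 2) (by norm_num)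
    have hβ0 : β ≠ 0 := by
      rintro rfl
      rw [zero_pow two_ne_zero] at hβ
      exact ht0 (hinj (by rw [← hβ, map_zero]))
    set z : Idx a → A := fun i => if h : i.1 = 0 then
      (if (h ▸ i.2 : Fin (a 0 + 1)) = l₀ then 1 else
        if (h ▸ i.2 : Fin (a 0 + 1)) = l₁ then β else
        if (h ▸ i.2 : Fin (a 0 + 1)) = l₂ then γ else 0) else algebraMap K A (y i) with hz
    have hz0 : ∀ j : Fin (a 0 + 1), z ⟨0, j⟩ = if j = l₀ then 1 else if j = l₁ then β else
        if j = l₂ then γ else 0 := by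
      intro j
      rw [hz]
      simp
    have hzo : ∀ i : Idx a, i.1 ≠ 0 → z i = algebraMap K A (y i) := by
      intro i hi
      rw [hz]
      simp [hi]
    have hsum : ∀ W : Fin (a 0 + 1) → A, ∑ k, z ⟨0, k⟩ ^ 2 * W k =
        W l₀ + algebraMap K A t * W l₁ + algebraMap K A s * W l₂ := by
      intro W
      have h3 : ∀ k, z ⟨0, k⟩ ^ 2 * W k = (if k = l₀ then W l₀ else 0) +
          (if k = l₁ then algebraMap K A t * W l₁ else 0) +
          (if k = l₂ then algebraMap K A s * W l₂ else 0) := by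
        intro k
        rw [hz0]
        by_cases k0 : k = l₀
        · subst k0
          simp [h01, h02]
        · by_cases k1 : k = l₁
          · subst k1
            simp [k0, h12, hβ]
          · by_cases k2 : k = l₂
            · subst k2
              simp [k0, k1, hγ]
            · simp [k0, k1, k2]
      simp only [h3, Finset.sum_add_distrib, Finset.sum_ite_eq', Finset.mem_univ, if_true]
    have hPz : ∀ l, aeval z (P l) = algebraMap K A (eval y (P l)) := by
      intro l
      rw [aeval_indep (Sigma.fst : Idx a → Fin (r + 1)) 0 (h0' l) z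
        (fun i => algebraMap K A (y i)) hzo]
      exact aeval_alg y _
    have hPz' : ∀ l m, aeval z (pderiv m (P l)) = algebraMap K A (eval y (pderiv m (P l))) := by
      intro l m
      rw [aeval_indep (Sigma.fst : Idx a → Fin (r + 1)) 0 (h0'' l m) z
        (fun i => algebraMap K A (y i)) hzo]
      exact aeval_alg y _
    have hFl : ∀ l, aeval z (pderiv (⟨0, l⟩ : Idx a) F) =
        2 * z ⟨0, l⟩ * algebraMap K A (eval y (P l)) := by
      intro l
      rw [d1 hF h0, map_mul, map_mul, aeval_X, hPz]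
      simp
    have hFm : ∀ m : Idx a, m.1 ≠ 0 → aeval z (pderiv m F) =
        algebraMap K A (eval y (pderiv m (P l₀)) + t * eval y (pderiv m (P l₁)) +
          s * eval y (pderiv m (P l₂))) := by
      intro m hm
      rw [d2 hF m hm, map_sum]
      have h3 : ∀ k, aeval z (X (⟨0, k⟩ : Idx a) ^ 2 * pderiv m (P k)) =
          z ⟨0, k⟩ ^ 2 * algebraMap K A (eval y (pderiv m (P k))) := by
        intro k
        rw [map_mul, map_pow, aeval_X, hPz']
      simp only [h3]
      rw [hsum]
      simp only [map_add, map_mul]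
    have hFlm : ∀ (l : Fin (a 0 + 1)) (m : Idx a), m.1 ≠ 0 →
        aeval z (pderiv m (pderiv (⟨0, l⟩ : Idx a) F)) =
        2 * z ⟨0, l⟩ * algebraMap K A (eval y (pderiv m (P l))) := by
      intro l m hm
      rw [d3 hF h0 l m hm, map_mul, map_mul, aeval_X, hPz']
      simp
    have hzl0 : z ⟨0, l₀⟩ = 1 := by rw [hz0, if_pos rfl]
    have hzl1 : z ⟨0, l₁⟩ = β := by rw [hz0, if_neg (Ne.symm h01), if_pos rfl]
    -- the linking
    have hbet : ∀ i : Fin (r + 1), i ≠ 0 → ∃ m m' : Idx a, m.1 = i ∧ m'.1 = i ∧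
        bet F z ⟨0, l₀⟩ ⟨0, l₁⟩ m m' ≠ 0 := by
      intro i hi
      obtain ⟨j, j', hjj⟩ := lin_alg (hlin y hyP i hi) (p0 := p0) (p1 := p1) (t := t) (s := s)
        hp0' hs0
      refine ⟨⟨i, j⟩, ⟨i, j'⟩, rfl, rfl, ?_⟩
      unfold bet
      rw [hFl, hFl, hFm _ hi, hFm _ hi, hFlm _ _ hi, hFlm _ _ hi, hFlm _ _ hi, hFlm _ _ hi, hzl0,
        hzl1, ← hp0, ← hp1]
      set w0 := eval y (pderiv (⟨i, j⟩ : Idx a) (P l₀))
      set w1 := eval y (pderiv (⟨i, j⟩ : Idx a) (P l₁))
      set w2 := eval y (pderiv (⟨i, j⟩ : Idx a) (P l₂))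
      set v0 := eval y (pderiv (⟨i, j'⟩ : Idx a) (P l₀))
      set v1 := eval y (pderiv (⟨i, j'⟩ : Idx a) (P l₁))
      set v2 := eval y (pderiv (⟨i, j'⟩ : Idx a) (P l₂))
      have h4 : (4 : A) * β * algebraMap K A ((w0 + t * w1 + s * w2) * (p0 * v1 - p1 * v0) -
          (v0 + t * v1 + s * v2) * (p0 * w1 - p1 * w0)) ≠ 0 := by
        refine mul_ne_zero (mul_ne_zero (by norm_num) hβ0) ?_
        intro h5
        exact hjj (hinj (by rw [h5, map_zero]))
      intro h6
      apply h4
      rw [← h6]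
      simp only [map_add, map_mul, map_sub]
      ring
    have hmoves : ∀ i, Moves (Sigma.fst : Idx a → Fin (r + 1)) F i z := by
      intro i
      by_cases hi : i = 0
      · subst hi
        refine ⟨⟨0, l₀⟩, rfl, ?_⟩
        rw [hFl, hzl0, mul_one]
        exact mul_ne_zero two_ne_zero (fun h => hp0' (hinj (by rw [h, map_zero])))
      · obtain ⟨m, m', hm, hm', hb⟩ := hbet i hi
        by_contra hcon
        unfold Moves at hcon
        push Not at hcon
        apply hb
        unfold bet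
        rw [hcon m hm, hcon m' hm']
        ring
    have hlink : ∀ i : Fin (r + 1), i ≠ 0 →
        Linked (Sigma.fst : Idx a → Fin (r + 1)) F z 0 i ∧
        Linked (Sigma.fst : Idx a → Fin (r + 1)) F z i 0 := by
      intro i hi
      obtain ⟨m, m', hm, hm', hb⟩ := hbet i hi
      exact ⟨⟨⟨0, l₀⟩, ⟨0, l₁⟩, m, m', rfl, rfl, hm, hm', hb⟩,
        ⟨m, m', ⟨0, l₀⟩, ⟨0, l₁⟩, hm, hm', rfl, rfl, by rwa [bet_symm]⟩⟩
    refine ⟨z, fun l hl => hzo l hl, ?_, hmoves, ?_⟩
    · rw [hq, aeval_res]
      have e1 : mix (Sigma.fst : Idx a → Fin (r + 1)) 0 z (fun l => algebraMap K A (y l)) = z := by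
        funext l
        unfold mix
        split_ifs with h
        · rfl
        · exact (hzo l h).symm
      rw [e1, hF, map_sum]
      have h3 : ∀ k, aeval z (X (⟨0, k⟩ : Idx a) ^ 2 * P k) =
          z ⟨0, k⟩ ^ 2 * algebraMap K A (eval y (P k)) := by
        intro k
        rw [map_mul, map_pow, aeval_X, hPz]
      simp only [h3]
      rw [hsum, ← hp0, ← hp1, ← hp2, ← map_mul, ← map_mul, ← map_add, ← map_add]
      have h5 : p0 + t * p1 + s * p2 = 0 := by
        rw [hs]
        field_simp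
        ring
      rw [h5, map_zero]
    · intro i j
      have hi0 : Relation.ReflTransGen (Linked (Sigma.fst : Idx a → Fin (r + 1)) F z) i 0 := by
        by_cases hi : i = 0
        · subst hi
          exact Relation.ReflTransGen.refl
        · exact Relation.ReflTransGen.single (hlink i hi).2
      have h0j : Relation.ReflTransGen (Linked (Sigma.fst : Idx a → Fin (r + 1)) F z) 0 j := by
        by_cases hj : j = 0
        · subst hj
          exact Relation.ReflTransGen.refl
        · exact Relation.ReflTransGen.single (hlink j hj).1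
      exact hi0.trans h0j
  · push Not at hr
    have hev : ∀ G : MvPolynomial (Idx a) K,
        aeval (fun l => algebraMap K A (y l)) G = algebraMap K A (eval y G) := by
      intro G
      exact aeval_alg y G
    refine ⟨fun l => algebraMap K A (y l), fun l _ => rfl, ?_, ?_, ?_⟩
    · rw [hev, hqy, map_zero]
    · intro i
      rw [hr i]
      obtain ⟨l, hl, hl'⟩ := hmov
      refine ⟨l, hl, ?_⟩
      rw [hev]
      intro h
      apply hl'
      rw [aeval_eq_eval]
      exact hinj (by rw [h, map_zero])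
    · intro i j
      rw [hr i, hr j]

end Pool.Agent.R383.MQ
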