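import Pool.Agent.R383.MQ.Stm5
import Pool.Agent.R383.MQ.HOM

/-! The conjugated fields are rationally integrable. -/

set_option autoImplicit false

namespace Pool.Agent.R383.MQ

open MvPolynomial Pool.Agent.TH178.MZ

namespace UInt2

variable {K : Type} [Field K] {ι κ : Type}

theorem eval_aeval' (y : ι → K) (Φ : ι → MvPolynomial ι K) (P : MvPolynomial ι K) :
    eval y (aeval Φ P) = eval (fun m => eval y (Φ m)) P := by
  rw [← aeval_eq_eval, ← aeval_eq_eval, ← AlgHom.comp_apply]
  congr 1
  apply algHom_ext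
  intro l
  rw [AlgHom.comp_apply, aeval_X, aeval_X]

theorem eval_der_eq_zero (z : ι → K)
    (V : Derivation K (MvPolynomial ι K) (MvPolynomial ι K))
    (h : ∀ m, eval z (V (X m)) = 0) (P : MvPolynomial ι K) : eval z (V P) = 0 := by
  induction P using MvPolynomial.induction_on with
  | C a =>
    have e : V (C a) = 0 := V.map_algebraMap a
    rw [e, map_zero]
  | add p q hp hq => rw [map_add, map_add, hp, hq, add_zero]
  | mul_X p n hp =>
    rw [Derivation.leibniz, map_add, smul_eq_mul, smul_eq_mul, map_mul, map_mul, hp, h n,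
      mul_zero, mul_zero, add_zero]

theorem rep (num : ι → Polynomial K) (den : Polynomial K) (c : K) (z : ι → K)
    (V : Derivation K (MvPolynomial ι K) (MvPolynomial ι K)) (hden : den.eval 0 ≠ 0)
    (h0 : ∀ l, (num l).eval 0 = den.eval 0 * z l)
    (h1 : ∀ l, (num l).derivative.eval 0 = den.derivative.eval 0 * z l + c * eval z (V (X l)))
    (P : MvPolynomial ι K) : ∃ d₀ : ℕ, ∀ d : ℕ, d₀ ≤ d → ∃ N : Polynomial K,
      (∀ t, den.eval t ≠ 0 → N.eval t =
        (den.eval t) ^ (d + 1) * eval (fun l => (num l).eval t / den.eval t) P) ∧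
      N.derivative.eval 0 = ((d : K) + 1) * (den.eval 0) ^ d * den.derivative.eval 0 * eval z P +
        c * (den.eval 0) ^ d * eval z (V P) := by
  have hz : (fun l => (num l).eval 0 / den.eval 0) = z := by
    funext l
    rw [h0, mul_div_cancel_left₀ _ hden]
  induction P using MvPolynomial.induction_on with
  | C a =>
    refine ⟨0, fun d _ => ⟨Polynomial.C a * den ^ (d + 1), fun t _ => ?_, ?_⟩⟩
    · rw [Polynomial.eval_mul, Polynomial.eval_C, Polynomial.eval_pow, eval_C]
      ring
    · have e : V (C a) = 0 := V.map_algebraMap a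
      rw [e, map_zero, mul_zero, add_zero, eval_C, Polynomial.derivative_C_mul,
        Polynomial.derivative_pow_succ, Polynomial.eval_mul, Polynomial.eval_C,
        Polynomial.eval_mul, Polynomial.eval_mul, Polynomial.eval_pow, Polynomial.eval_C]
      push_cast
      ring
  | add p q hp hq =>
    obtain ⟨d1, hd1⟩ := hp
    obtain ⟨d2, hd2⟩ := hq
    refine ⟨max d1 d2, fun d hd => ?_⟩
    obtain ⟨N1, hN1, hN1'⟩ := hd1 d ((le_max_left _ _).trans hd)
    obtain ⟨N2, hN2, hN2'⟩ := hd2 d ((le_max_right _ _).trans hd)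
    refine ⟨N1 + N2, fun t ht => ?_, ?_⟩
    · rw [Polynomial.eval_add, hN1 t ht, hN2 t ht, map_add]
      ring
    · rw [Polynomial.derivative_add, Polynomial.eval_add, hN1', hN2', map_add, map_add, map_add]
      ring
  | mul_X p n hp =>
    obtain ⟨d1, hd1⟩ := hp
    refine ⟨d1 + 1, fun d hd => ?_⟩
    obtain ⟨e, rfl⟩ : ∃ e, d = e + 1 := ⟨d - 1, by omega⟩
    obtain ⟨N1, hN1, hN1'⟩ := hd1 e (by omega)
    refine ⟨N1 * num n, fun t ht => ?_, ?_⟩
    · rw [Polynomial.eval_mul, hN1 t ht, map_mul, eval_X]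
      field_simp
      ring
    · have e0 := hN1 0 hden
      rw [hz] at e0
      rw [Polynomial.derivative_mul, Polynomial.eval_add, Polynomial.eval_mul,
        Polynomial.eval_mul, hN1', e0, h0, h1, Derivation.leibniz, map_add, smul_eq_mul,
        smul_eq_mul, map_mul, map_mul, map_mul, eval_X]
      push_cast
      ring

end UInt2

open UInt2 in
theorem uINT2 : T_INT → U_IVL → U_INT := by
  intro hT hI K _ _ ι κ _ _ s F hF j e l l' hl hlj y hy hV
  classical
  obtain ⟨V, hVd⟩ : ∃ V, V = fld F l l' := ⟨_, rfl⟩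
  obtain ⟨E, hE⟩ : ∃ E, E = eval y (sub s j e F) := ⟨_, rfl⟩
  obtain ⟨z, hz⟩ : ∃ z : ι → K, z = fun m => eval y (ivl s F j e m) := ⟨_, rfl⟩
  have hval : ∀ m, valueAt y (fldE s F j e l l') m =
      if s m = j then E * eval z (V (ivl s F j e m)) else E ^ 3 * eval z (V (X m)) := by
    intro m
    rw [valueAt_apply, fldE, mkDerivation_X]
    split_ifs
    · rw [map_mul, eval_aeval', ← hE, ← hz, hVd]
    · rw [map_mul, map_pow, eval_aeval', ← hE, ← hz, hVd]
  have hy' : eval y F = 0 := hy
  obtain ⟨hzF, hzz⟩ := hI s F hF j e y hy'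
  rw [← hz] at hzF hzz
  have hE0 : E ≠ 0 := by
    intro h0
    apply hV
    funext m
    rw [hval, h0]
    split_ifs <;> simp
  have hVz : valueAt z V ≠ 0 := by
    intro h0
    apply hV
    have h1 : ∀ P, eval z (V P) = 0 := eval_der_eq_zero z V (fun m => congrFun h0 m)
    funext m
    rw [hval, h1, h1]
    split_ifs <;> simp
  obtain ⟨num, den, c, hden, hc, hn0, hn1, hcurve⟩ := hT s F hF l l' hl z hzF (by
    rw [← hVd]; exact hVz)
  rw [← hVd] at hn1
  have hrep := rep num den c z V hden hn0 hn1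
  have hrep' := fun m => hrep (ivl s F j e m)
  choose d0 hd0 using hrep'
  obtain ⟨d, hd⟩ : ∃ d, ∀ m, d0 m ≤ d :=
    ⟨Finset.univ.sup d0, fun m => Finset.le_sup (Finset.mem_univ m)⟩
  have hN := fun m => hd0 m d (hd m)
  choose N hN0 hN1 using hN
  have hδz : (fun l => (num l).eval 0 / den.eval 0) = z := by
    funext l
    rw [hn0, mul_div_cancel_left₀ _ hden]
  have hsc : ∀ m, (if s m = j then (E ^ 2)⁻¹ else 1) * eval z (ivl s F j e m) = y m := by
    intro m
    rw [hzz m]
    split_ifs
    · rw [← hE]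
      field_simp
    · rw [one_mul]
  refine ⟨fun m => Polynomial.C (if s m = j then (E ^ 2)⁻¹ else 1) * N m, den ^ (d + 1),
    c * (den.eval 0) ^ d * (E ^ 3)⁻¹, ?_, ?_, ?_, ?_, ?_⟩
  · rw [Polynomial.eval_pow]
    exact pow_ne_zero _ hden
  · exact mul_ne_zero (mul_ne_zero hc (pow_ne_zero _ hden)) (inv_ne_zero (pow_ne_zero _ hE0))
  · intro m
    rw [Polynomial.eval_mul, Polynomial.eval_C, hN0 m 0 hden, hδz, Polynomial.eval_pow]
    have := hsc m
    linear_combination (Polynomial.eval 0 den ^ (d + 1)) * this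
  · intro m
    rw [Polynomial.derivative_C_mul, Polynomial.eval_mul, Polynomial.eval_C, hN1 m, hval m,
      Polynomial.derivative_pow_succ, Polynomial.eval_mul, Polynomial.eval_mul,
      Polynomial.eval_pow, Polynomial.eval_C]
    have h1 := hsc m
    push_cast
    by_cases hm : s m = j
    · rw [if_pos hm] at h1
      rw [if_pos hm, if_pos hm]
      have h3 : (E ^ 3)⁻¹ * E = (E ^ 2)⁻¹ := by
        field_simp
      linear_combination (((d : K) + 1) * Polynomial.eval 0 den ^ d *
        Polynomial.eval 0 (Polynomial.derivative den)) * h1 -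
        (c * Polynomial.eval 0 den ^ d * eval z (V (ivl s F j e m))) * h3
    · have h2 : ivl s F j e m = X m := by
        unfold ivl
        rw [if_neg hm]
      rw [if_neg hm] at h1
      rw [if_neg hm, if_neg hm]
      rw [h2] at h1 ⊢
      have h3 : (E ^ 3)⁻¹ * E ^ 3 = 1 := inv_mul_cancel₀ (pow_ne_zero _ hE0)
      linear_combination (((d : K) + 1) * Polynomial.eval 0 den ^ d *
        Polynomial.eval 0 (Polynomial.derivative den)) * h1 -
        (c * Polynomial.eval 0 den ^ d * eval z (V (X m))) * h3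
  · intro t ht
    have ht' : den.eval t ≠ 0 := by
      intro h0
      apply ht
      rw [Polynomial.eval_pow, h0]
      simp
    obtain ⟨p, hp⟩ : ∃ p : ι → K, p = fun l => (num l).eval t / den.eval t := ⟨_, rfl⟩
    have hpS : eval p F = 0 := by
      rw [hp]
      exact hcurve t ht'
    obtain ⟨w, hw⟩ : ∃ w : ι → K, w = fun m => eval p (ivl s F j e m) := ⟨_, rfl⟩
    have hwS : eval w F = 0 := by
      rw [hw]
      exact (hI s F hF j e p hpS).1
    show eval _ F = 0
    have h1 : (fun m => Polynomial.eval t (Polynomial.C (if s m = j then (E ^ 2)⁻¹ else 1) * N m) /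
        Polynomial.eval t (den ^ (d + 1))) = mix s j (fun m => (E ^ 2)⁻¹ * w m) w := by
      funext m
      rw [Polynomial.eval_mul, Polynomial.eval_C, hN0 m t ht', ← hp, Polynomial.eval_pow, hw]
      unfold mix
      have h2 : den.eval t ^ (d + 1) ≠ 0 := pow_ne_zero _ ht'
      split_ifs
      · field_simp
      · field_simp
    rw [h1, ← eval_res]
    have hq : (res s j w F).IsHomogeneous 2 := (sHOM s j w).1 F hF
    rw [eval_mul_of_hom hq, eval_res, Hm.mix_self, hwS, mul_zero]

end Pool.Agent.R383.MQ
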