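import Pool.Agent.R383.MQ.Stm5
import Pool.Agent.R383.MQ.TINV

/-! UINV: semi-goodness (with second points of intersection) is invariant under scaling. -/

set_option autoImplicit false

namespace Pool.Agent.R383.MQ

open MvPolynomial Pool.Agent.TH178.MZ

namespace UInv

open Fn TInv

variable {K : Type} [Field K] {r : ℕ} {a : Fin r → ℕ}

theorem aeval_sub'' {ι κ : Type} [DecidableEq κ] {A : Type} [CommRing A] [Algebra K A]
    (s : ι → κ) (i : κ) (e : ι → K) (x : ι → A) (F : MvPolynomial ι K) :
    aeval x (sub s i e F) = aeval (mix s i (fun l => algebraMap K A (e l)) x) F := by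
  rw [sub, ← AlgHom.comp_apply]
  congr 1
  apply algHom_ext
  intro l
  rw [AlgHom.comp_apply, aeval_X, aeval_X]
  unfold mix
  split_ifs
  · rw [aeval_C]
  · rw [aeval_X]

theorem av0 [CharZero K] {A : Type} [CommRing A] [Algebra K A] {F : MvPolynomial (Idx a) K}
    (hF : IsMultiQuadratic F) (t : Fin r → K) (z : Idx a → A) :
    aeval (fun l => algebraMap K A (t l.1) * z l) F =
      algebraMap K A ((∏ k, t k) ^ 2) * aeval z F := by
  have h := congrArg (aeval z) (dil_F hF t)
  rwa [aeval_dil, map_mul, aeval_C] at h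

/-- the product of the factors off `j` -/
noncomputable def uu (t : Fin r → K) (j : Fin r) : K := ∏ k, (Function.update t j 1) k

theorem prod_eq (t : Fin r → K) (j : Fin r) : ∏ k, t k = t j * uu t j := by
  unfold uu
  rw [← Finset.mul_prod_erase Finset.univ t (Finset.mem_univ j),
    ← Finset.mul_prod_erase Finset.univ (Function.update t j 1) (Finset.mem_univ j)]
  rw [Function.update_self, one_mul]
  congr 1
  refine Finset.prod_congr rfl fun k hk => ?_
  rw [Function.update_of_ne (Finset.ne_of_mem_erase hk)]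

theorem uu_ne (t : Fin r → K) (ht : ∀ k, t k ≠ 0) (j : Fin r) : uu t j ≠ 0 := by
  unfold uu
  refine Finset.prod_ne_zero_iff.2 fun k _ => ?_
  by_cases h : k = j
  · subst h
    rw [Function.update_self]
    exact one_ne_zero
  · rw [Function.update_of_ne h]
    exact ht k

theorem sub_t [CharZero K] {A : Type} [CommRing A] [Algebra K A] {F : MvPolynomial (Idx a) K}
    (hF : IsMultiQuadratic F) (t : Fin r → K) (j : Fin r) (e : Idx a → K) (z : Idx a → A) :
    aeval (fun l => algebraMap K A (t l.1) * z l) (sub Sigma.fst j e F) =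
      algebraMap K A (uu t j ^ 2) * aeval z (sub Sigma.fst j e F) := by
  rw [aeval_sub'', aeval_sub'']
  have h : mix Sigma.fst j (fun l => algebraMap K A (e l))
      (fun l => algebraMap K A (t l.1) * z l) = fun l : Idx a =>
        algebraMap K A ((Function.update t j 1) l.1) *
          mix Sigma.fst j (fun l => algebraMap K A (e l)) z l := by
    funext l
    unfold mix
    split_ifs with hl
    · rw [hl, Function.update_self, map_one, one_mul]
    · rw [Function.update_of_ne hl]
  rw [h, av0 hF]
  rfl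

/-- the sum in the definition of `ivl` -/
noncomputable def BB {ι κ : Type} [Fintype ι] [DecidableEq κ]
    (s : ι → κ) (F : MvPolynomial ι K) (j : κ) (e : ι → K) : MvPolynomial ι K :=
  ∑ m, if s m = j then C (e m) * pderiv m F else 0

theorem BB_t [CharZero K] {A : Type} [Field A] [Algebra K A] {F : MvPolynomial (Idx a) K}
    (hF : IsMultiQuadratic F) (t : Fin r → K) (ht : ∀ k, t k ≠ 0) (j : Fin r) (e : Idx a → K)
    (z : Idx a → A) :
    aeval (fun l => algebraMap K A (t l.1) * z l) (BB Sigma.fst F j e) =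
      algebraMap K A (t j * uu t j ^ 2) * aeval z (BB Sigma.fst F j e) := by
  have htj : algebraMap K A (t j) ≠ 0 := by
    rw [Ne, map_eq_zero]
    exact ht j
  apply mul_left_cancel₀ htj
  unfold BB
  rw [map_sum, map_sum, Finset.mul_sum, Finset.mul_sum, Finset.mul_sum]
  refine Finset.sum_congr rfl fun m _ => ?_
  by_cases hm : m.1 = j
  · rw [if_pos hm]
    have e1 : ∀ x : Idx a → A, aeval x (C (e m) * pderiv m F) =
        algebraMap K A (e m) * aeval x (pderiv m F) := fun x => by rw [map_mul, aeval_C]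
    rw [e1, e1]
    have h := av1 hF t m z
    rw [hm, prod_eq t j] at h
    calc algebraMap K A (t j) * (algebraMap K A (e m) *
          aeval (fun l => algebraMap K A (t l.1) * z l) (pderiv m F)) =
        algebraMap K A (e m) * (algebraMap K A (t j) *
          aeval (fun l => algebraMap K A (t l.1) * z l) (pderiv m F)) := by ring
      _ = _ := by
        rw [h, map_mul, map_pow, map_mul, map_pow]
        ring
  · rw [if_neg hm, map_zero, map_zero, mul_zero, mul_zero, mul_zero]

/-- the factors of the second point -/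
noncomputable def tt (t : Fin r → K) (j : Fin r) : Fin r → K :=
  Function.update t j (t j * uu t j ^ 2)

theorem tt_ne (t : Fin r → K) (ht : ∀ k, t k ≠ 0) (j k : Fin r) : tt t j k ≠ 0 := by
  unfold tt
  by_cases h : k = j
  · subst h
    rw [Function.update_self]
    exact mul_ne_zero (ht k) (pow_ne_zero 2 (uu_ne t ht k))
  · rw [Function.update_of_ne h]
    exact ht k

theorem ivl_t [CharZero K] {A : Type} [Field A] [Algebra K A] {F : MvPolynomial (Idx a) K}
    (hF : IsMultiQuadratic F) (t : Fin r → K) (ht : ∀ k, t k ≠ 0) (j : Fin r) (e : Idx a → K)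
    (z : Idx a → A) (m : Idx a) :
    aeval (fun l => algebraMap K A (t l.1) * z l) (ivl Sigma.fst F j e m) =
      algebraMap K A (tt t j m.1) * aeval z (ivl Sigma.fst F j e m) := by
  unfold ivl
  by_cases hm : m.1 = j
  · rw [if_pos hm, map_sub, map_mul, map_mul, map_sub, map_mul, map_mul]
    change aeval _ (sub Sigma.fst j e F) * _ - aeval _ (BB Sigma.fst F j e) * _ =
      _ * (_ * _ - aeval _ (BB Sigma.fst F j e) * _)
    rw [sub_t hF, BB_t hF t ht, aeval_X, aeval_X, aeval_C, aeval_C]
    unfold tt
    rw [hm, Function.update_self, map_mul]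
    ring
  · rw [if_neg hm, aeval_X, aeval_X]
    unfold tt
    rw [Function.update_of_ne hm]

theorem aeval_aeval' {ι : Type} {A : Type} [CommRing A] [Algebra K A] (x : ι → A)
    (φ : ι → MvPolynomial ι K) (P : MvPolynomial ι K) :
    aeval x (aeval φ P) = aeval (fun m => aeval x (φ m)) P := by
  rw [← AlgHom.comp_apply]
  congr 1
  apply algHom_ext
  intro l
  rw [AlgHom.comp_apply, aeval_X, aeval_X]

theorem lnk_t [CharZero K] {A : Type} [Field A] [Algebra K A] {F : MvPolynomial (Idx a) K}
    (hF : IsMultiQuadratic F) (t : Fin r → K) (ht : ∀ k, t k ≠ 0) (j : Fin r) (e : Idx a → K)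
    (z : Idx a → A) (i : Fin r) (l l' : Idx a) (hl : l.1 = i) (hl' : l'.1 = i) :
    algebraMap K A (tt t j i) * algebraMap K A (t i) *
      aeval (fun l => algebraMap K A (t l.1) * z l) (lnk Sigma.fst F j e l l') =
      algebraMap K A (uu t j ^ 2 * (∏ k, tt t j k) ^ 2 * (∏ k, t k) ^ 2) *
        aeval z (lnk Sigma.fst F j e l l') := by
  have hw : (fun m => aeval (fun l => algebraMap K A (t l.1) * z l) (ivl Sigma.fst F j e m)) =
      fun m : Idx a => algebraMap K A (tt t j m.1) * aeval z (ivl Sigma.fst F j e m) := by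
    funext m
    exact ivl_t hF t ht j e z m
  have e1 : ∀ x : Idx a → A, aeval x (lnk Sigma.fst F j e l l') =
      aeval x (sub Sigma.fst j e F) * (aeval (fun m => aeval x (ivl Sigma.fst F j e m))
        (pderiv l F) * aeval x (pderiv l' F) - aeval (fun m => aeval x (ivl Sigma.fst F j e m))
        (pderiv l' F) * aeval x (pderiv l F)) := fun x => by
    unfold lnk
    rw [map_mul, map_sub, map_mul, map_mul, aeval_aeval', aeval_aeval']
  rw [e1, e1, hw, sub_t hF]
  have a1 := av1 hF t l z
  have a2 := av1 hF t l' z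
  have b1 := av1 hF (tt t j) l (fun m => aeval z (ivl Sigma.fst F j e m))
  have b2 := av1 hF (tt t j) l' (fun m => aeval z (ivl Sigma.fst F j e m))
  rw [hl] at a1 b1
  rw [hl'] at a2 b2
  rw [map_mul, map_mul]
  generalize aeval (fun l => algebraMap K A (t l.1) * z l) (pderiv l F) = p1 at *
  generalize aeval (fun l => algebraMap K A (t l.1) * z l) (pderiv l' F) = p2 at *
  generalize aeval (fun m : Idx a => algebraMap K A (tt t j m.1) *
    aeval z (ivl Sigma.fst F j e m)) (pderiv l F) = q1 at *
  generalize aeval (fun m : Idx a => algebraMap K A (tt t j m.1) *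
    aeval z (ivl Sigma.fst F j e m)) (pderiv l' F) = q2 at *
  generalize aeval z (pderiv l F) = P1 at *
  generalize aeval z (pderiv l' F) = P2 at *
  generalize aeval (fun m => aeval z (ivl Sigma.fst F j e m)) (pderiv l F) = Q1 at *
  generalize aeval (fun m => aeval z (ivl Sigma.fst F j e m)) (pderiv l' F) = Q2 at *
  generalize aeval z (sub Sigma.fst j e F) = E at *
  generalize algebraMap K A (t i) = u at *
  generalize algebraMap K A (tt t j i) = v at *
  generalize algebraMap K A ((∏ k, t k) ^ 2) = T at *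
  generalize algebraMap K A ((∏ k, tt t j k) ^ 2) = V at *
  generalize algebraMap K A (uu t j ^ 2) = U at *
  calc v * u * (U * E * (q1 * p2 - q2 * p1)) =
      U * E * ((v * q1) * (u * p2) - (v * q2) * (u * p1)) := by ring
    _ = _ := by rw [a1, a2, b1, b2]; ring

theorem link [CharZero K] {A : Type} [Field A] [Algebra K A] {F : MvPolynomial (Idx a) K}
    (hF : IsMultiQuadratic F) (t : Fin r → K) (ht : ∀ k, t k ≠ 0) (i j : Fin r) (z : Idx a → A)
    (h : Link Sigma.fst F z i j) :
    Link Sigma.fst F (fun l => algebraMap K A (t l.1) * z l) i j := by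
  obtain ⟨hij, e, l, l', hl, hl', hb⟩ := h
  refine ⟨hij, e, l, l', hl, hl', fun h0 => ?_⟩
  have key := lnk_t hF t ht j e z i l l' hl hl'
  rw [h0, mul_zero] at key
  have hc : algebraMap K A (uu t j ^ 2 * (∏ k, tt t j k) ^ 2 * (∏ k, t k) ^ 2) ≠ 0 := by
    rw [Ne, map_eq_zero]
    refine mul_ne_zero (mul_ne_zero (pow_ne_zero 2 (uu_ne t ht j)) (pow_ne_zero 2 ?_))
      (pow_ne_zero 2 ?_)
    · exact Finset.prod_ne_zero_iff.2 fun k _ => tt_ne t ht j k
    · exact Finset.prod_ne_zero_iff.2 fun k _ => ht k
  exact (mul_ne_zero hc hb) key.symm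

theorem goodE [CharZero K] {A : Type} [Field A] [Algebra K A] [CharZero A]
    {F : MvPolynomial (Idx a) K}
    (hF : IsMultiQuadratic F) (t : Fin r → K) (ht : ∀ k, t k ≠ 0) (z : Idx a → A)
    (h : GoodE Sigma.fst F z) : GoodE Sigma.fst F (fun l => algebraMap K A (t l.1) * z l) := by
  refine ⟨fun i => moves hF t ht i z (h.1 i), fun i j => ?_⟩
  exact Relation.ReflTransGen.mono (fun x y hxy => hxy.imp (link hF t ht x y z)
    (link hF t ht y x z)) _ _ (h.2 i j)

end UInv

open UInv TInv Fn in
theorem uINV2 : U_INV := by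
  intro K _ _ r a F hF y t ht h
  obtain ⟨j, g, hg, z, hz, hzg, hgood⟩ := h
  have hinv : ∀ k, (t k)⁻¹ * t k = 1 := fun k => inv_mul_cancel₀ (ht k)
  refine ⟨j, dil (fun k => (t k)⁻¹) g, ?_, fun l => algebraMap K (AlgebraicClosure K) (t l.1) * z l,
    ?_, ?_, goodE hF t ht z hgood⟩
  · rcases hg with ⟨h1, h2, h3, h4⟩ | ⟨h1, h2⟩
    · left
      refine ⟨irr_dil _ t hinv h1, ?_, ?_, ?_⟩
      · rw [res_dil hF t ht]
        exact Dvd.dvd.mul_left (map_dvd (dil (fun k => (t k)⁻¹)) h2) _
      · rw [eval_dil]
        have e : (fun l : Idx a => (t l.1)⁻¹ * (t l.1 * y l)) = y := by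
          funext l
          rw [inv_mul_cancel_left₀ (ht l.1)]
        rw [e, h3]
      · exact moves (A := K) hF t ht j y h4
    · right
      refine ⟨by rw [h1, map_zero], ?_⟩
      rw [res_dil hF t ht, h2, map_zero, mul_zero]
  · intro l hl
    change algebraMap K (AlgebraicClosure K) (t l.1) * z l =
      algebraMap K (AlgebraicClosure K) (t l.1 * y l)
    rw [hz l hl, map_mul]
  · rw [aeval_dil]
    have e : (fun l : Idx a => algebraMap K (AlgebraicClosure K) ((t l.1)⁻¹) *
        (algebraMap K (AlgebraicClosure K) (t l.1) * z l)) = z := by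
      funext l
      rw [← mul_assoc, ← map_mul, inv_mul_cancel₀ (ht l.1), map_one, one_mul]
    rw [e, hzg]

end Pool.Agent.R383.MQ
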