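import Pool.Agent.R383.MQ.Stm7
import Pool.Agent.R383.MQ.TDIAG
import Pool.Agent.R383.MQ.UIVL

/-! Forms which are diagonal in one slot, final version (helper700). -/

set_option autoImplicit false

namespace Pool.Agent.R383.MQ

open MvPolynomial Pool.Agent.TH178.MZ

namespace Wd


section lin
variable {K : Type} [Field K]

/-- `v` is not a multiple of `p`. -/
def NM {n : ℕ} (p : Fin n → K) (l0 : Fin n) (v : Fin n → K) : Prop :=
  ∃ m, v m * p l0 ≠ p m * v l0

lemma avoid [CharZero K] {n : ℕ} (p : Fin n → K) (l0 : Fin n) {J : Type} [Finite J]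
    (w : J → Fin n → K) (h : ∀ j, NM p l0 (w j)) :
    ∃ s : Fin n → K, (∑ l, s l * p l = 0) ∧ ∀ j, ∑ l, s l * w j l ≠ 0 := by
  classical
  have hf : ∀ (v x : Fin n → K), (∑ l, v l • (LinearMap.proj l : (Fin n → K) →ₗ[K] K)) x =
      ∑ l, x l * v l := by
    intro v x
    simp only [LinearMap.sum_apply, LinearMap.smul_apply, LinearMap.proj_apply, smul_eq_mul]
    exact Finset.sum_congr rfl fun l _ => mul_comm _ _
  obtain ⟨s, hs, hs2⟩ := Module.Dual.exists_forall_mem_ne_zero_of_forall_exists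
    (LinearMap.ker (∑ l, p l • (LinearMap.proj l : (Fin n → K) →ₗ[K] K)))
    (fun j : J => ∑ l, w j l • (LinearMap.proj l : (Fin n → K) →ₗ[K] K)) (by
      intro j
      obtain ⟨m, hm⟩ := h j
      refine ⟨fun l => (if l = m then p l0 else 0) - (if l = l0 then p m else 0), ?_, ?_⟩
      · rw [LinearMap.mem_ker, hf]
        simp only [sub_mul, ite_mul, zero_mul, Finset.sum_sub_distrib, Finset.sum_ite_eq',
          Finset.mem_univ, if_true]
        ring
      · rw [hf]
        simp only [sub_mul, ite_mul, zero_mul, Finset.sum_sub_distrib, Finset.sum_ite_eq',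
          Finset.mem_univ, if_true]
        intro h0
        apply hm
        linear_combination h0)
  refine ⟨s, ?_, fun j => ?_⟩
  · rw [LinearMap.mem_ker, hf] at hs
    exact hs
  · have := hs2 j
    rw [hf] at this
    exact this

lemma li3 {n : ℕ} {u v w : Fin n → K} (h : LinearIndependent K ![u, v, w]) (c0 c1 c2 : K)
    (hc : ∀ l, c0 * u l + c1 * v l + c2 * w l = 0) : c0 = 0 ∧ c1 = 0 ∧ c2 = 0 := by
  have h1 := Fintype.linearIndependent_iff.1 h ![c0, c1, c2] (by
    funext m
    simp only [Fin.sum_univ_three, Pi.add_apply, Pi.smul_apply, smul_eq_mul, Pi.zero_apply,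
      Matrix.cons_val_zero, Matrix.cons_val_one, Matrix.cons_val]
    exact hc m)
  exact ⟨h1 0, h1 1, h1 2⟩

lemma key1 {n k : ℕ} (p : Fin n → K) (l0 : Fin n) (hp : p l0 ≠ 0) (b : Fin n → Fin k → K)
    (m₀ m₁ m₂ : Fin k)
    (h : LinearIndependent K ![fun l => b l m₀, fun l => b l m₁, fun l => b l m₂]) :
    ∃ m, NM p l0 (fun l => b l m) := by
  by_contra hall
  simp only [NM, not_exists, not_not] at hall
  have h1 := li3 h (b l0 m₁) (-b l0 m₀) 0 (fun l => by
    have e0 := hall m₀ l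
    have e1 := hall m₁ l
    refine mul_left_cancel₀ hp ?_
    linear_combination b l0 m₁ * e0 - b l0 m₀ * e1)
  have h2 : ∀ l, b l m₀ = 0 := fun l => by
    have e0 := hall m₀ l
    have e1 : b l0 m₀ = 0 := neg_eq_zero.1 h1.2.1
    rw [e1, mul_zero] at e0
    exact (mul_eq_zero.1 e0).resolve_right hp
  have h3 := li3 h 1 0 0 (fun l => by simp only [h2 l]; ring)
  exact one_ne_zero h3.1

lemma key2 {n k : ℕ} (p : Fin n → K) (l0 : Fin n) (hp : p l0 ≠ 0) (b : Fin n → Fin k → K)
    (m₀ m₁ m₂ : Fin k)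
    (h : LinearIndependent K ![fun l => b l m₀, fun l => b l m₁, fun l => b l m₂])
    (u : Fin k → K) (ms : Fin k) (hu : u ms ≠ 0) :
    ∃ l' m m', u m * (p l0 * b l' m' - p l' * b l0 m') -
      u m' * (p l0 * b l' m - p l' * b l0 m) ≠ 0 := by
  by_contra hall
  push Not at hall
  have hw : ∀ l m, p l0 * b l m = p l * b l0 m + u m * ((p l0 * b l ms - p l * b l0 ms) / u ms) := by
    intro l m
    have e := hall l ms m
    field_simp
    linear_combination e
  set w : Fin n → K := fun l => (p l0 * b l ms - p l * b l0 ms) / u ms with hwd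
  have hc : ∀ c0 c1 c2 : K, c0 * b l0 m₀ + c1 * b l0 m₁ + c2 * b l0 m₂ = 0 →
      c0 * u m₀ + c1 * u m₁ + c2 * u m₂ = 0 → c0 = 0 ∧ c1 = 0 ∧ c2 = 0 := by
    intro c0 c1 c2 ha hb
    refine li3 h c0 c1 c2 fun l => ?_
    refine mul_left_cancel₀ hp ?_
    linear_combination c0 * hw l m₀ + c1 * hw l m₁ + c2 * hw l m₂ + p l * ha +
      (p l0 * b l ms - p l * b l0 ms) / u ms * hb
  obtain ⟨-, -, h3⟩ := hc (b l0 m₁ * u m₂ - b l0 m₂ * u m₁) (b l0 m₂ * u m₀ - b l0 m₀ * u m₂)
    (b l0 m₀ * u m₁ - b l0 m₁ * u m₀) (by ring) (by ring)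
  obtain ⟨h4, h5, -⟩ := hc (b l0 m₁) (-b l0 m₀) 0 (by ring) (by linear_combination -h3)
  obtain ⟨h6, h7, -⟩ := hc (u m₁) (-u m₀) 0 (by linear_combination h3) (by ring)
  have h8 := hc 1 0 0 (by rw [neg_eq_zero.1 h5]; ring) (by rw [neg_eq_zero.1 h7]; ring)
  exact one_ne_zero h8.1

lemma key3 {n : ℕ} (p : Fin n → K) (l0 : Fin n) (hp : p l0 ≠ 0) (b q : Fin n → K)
    (h : LinearIndependent K ![p, b, q]) : NM p l0 b ∧ NM p l0 q ∧
      ∀ E B : K, E ≠ 0 → ∃ l', (-E * b l0 + B * q l0) * p l' - (-E * b l' + B * q l') * p l0 ≠ 0 := by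
  refine ⟨?_, ?_, ?_⟩
  · by_contra hall
    simp only [NM, not_exists, not_not] at hall
    have h1 := li3 h (-b l0) (p l0) 0 (fun l => by linear_combination hall l)
    exact hp h1.2.1
  · by_contra hall
    simp only [NM, not_exists, not_not] at hall
    have h1 := li3 h (-q l0) 0 (p l0) (fun l => by linear_combination hall l)
    exact hp h1.2.2
  · intro E B hE
    by_contra hall
    push Not at hall
    have h1 := li3 h (-E * b l0 + B * q l0) (E * p l0) (-B * p l0) (fun l => by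
      linear_combination hall l)
    exact mul_ne_zero hE hp h1.2.1

end lin
section gen

variable {K : Type} [Field K] {ι κ : Type} [DecidableEq κ]

lemma aeval_sub' {A : Type} [CommRing A] [Algebra K A] (s : ι → κ) (i : κ) (e : ι → K)
    (z : ι → A) (F : MvPolynomial ι K) :
    aeval z (sub s i e F) = aeval (mix s i (fun l => algebraMap K A (e l)) z) F := by
  rw [sub, ← AlgHom.comp_apply]
  congr 1
  apply algHom_ext
  intro l
  rw [AlgHom.comp_apply, aeval_X, aeval_X]
  unfold mix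
  split_ifs with h
  · rw [aeval_C]
  · rw [aeval_X]

lemma aeval_aeval' {A : Type} [CommRing A] [Algebra K A] (z : ι → A) (f : ι → MvPolynomial ι K)
    (G : MvPolynomial ι K) : aeval z (aeval f G) = aeval (fun m => aeval z (f m)) G := by
  rw [← AlgHom.comp_apply]
  congr 1
  apply algHom_ext
  intro l
  rw [AlgHom.comp_apply, aeval_X, aeval_X]

end gen

section diag

variable {K : Type} [Field K] [CharZero K] {r : ℕ} {a : Fin (r + 1) → ℕ}

lemma sum_slot {A : Type} [AddCommMonoid A] (i : Fin (r + 1)) (f : Idx a → A) :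
    (∑ x : Idx a, if x.1 = i then f x else 0) = ∑ m : Fin (a i + 1), f ⟨i, m⟩ := by
  classical
  rw [Fintype.sum_sigma, Finset.sum_eq_single i]
  · exact Finset.sum_congr rfl fun m _ => if_pos rfl
  · intro k _ hk
    exact Finset.sum_eq_zero fun m _ => if_neg hk
  · intro h
    exact absurd (Finset.mem_univ _) h

open Dg Uivl in
/-- the coefficients are quadratic in the other slots -/
lemma quadP (P : Fin (a 0 + 1) → MvPolynomial (Idx a) K) (F : MvPolynomial (Idx a) K)
    (hF : F = ∑ l, X ⟨0, l⟩ ^ 2 * P l) (hMQ : IsMQ (Sigma.fst : Idx a → Fin (r + 1)) F)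
    (hP : ∀ l j, pderiv (⟨0, j⟩ : Idx a) (P l) = 0) (i : Fin (r + 1)) (hi : i ≠ 0)
    (y e : Idx a → K) (E B : K) (l : Fin (a 0 + 1)) :
    eval (fun x : Idx a => if x.1 = i then E * y x - B * e x else y x) (P l) =
      E ^ 2 * eval y (P l) - E * B * (∑ m : Fin (a i + 1), e ⟨i, m⟩ *
        eval y (pderiv (⟨i, m⟩ : Idx a) (P l))) + B ^ 2 * eval (mix Sigma.fst i e y) (P l) := by
  classical
  set δ : Idx a → K := fun x => if x = ⟨0, l⟩ then 1 else 0 with hδ
  set yl : Idx a → K := mix Sigma.fst 0 δ y with hyl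
  have hoff : ∀ (G : MvPolynomial (Idx a) K) (x x' : Idx a → K),
      (∀ j, pderiv (⟨0, j⟩ : Idx a) G = 0) → (∀ k : Idx a, k.1 ≠ 0 → x k = x' k) →
      eval x G = eval x' G := by
    intro G x x' hG hx
    have := aeval_off (A := K) (G := G) (fun x : Idx a => x.1 = 0) (fun x hx => by
      obtain ⟨i, j⟩ := x
      simp only at hx
      subst hx
      exact hG j) x x' (fun k hk => hx k hk)
    rwa [aeval_eq_eval, aeval_eq_eval] at this
  -- values of `F` at points with the slot `0` given by `δ`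
  have hval : ∀ x : Idx a → K, (∀ k : Idx a, k.1 = 0 → x k = δ k) → eval x F = eval x (P l) := by
    intro x hx
    rw [hF, map_sum, Finset.sum_eq_single l]
    · rw [map_mul, map_pow, eval_X, hx ⟨0, l⟩ rfl, hδ]
      simp
    · intro k _ hk
      have : (⟨0, k⟩ : Idx a) ≠ ⟨0, l⟩ := fun h => hk (by simpa using h)
      rw [map_mul, map_pow, eval_X, hx ⟨0, k⟩ rfl, hδ]
      simp [this]
    · intro h
      exact absurd (Finset.mem_univ _) h
  have hvald : ∀ x : Idx a → K, (∀ k : Idx a, k.1 = 0 → x k = δ k) → ∀ m : Fin (a i + 1),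
      eval x (pderiv (⟨i, m⟩ : Idx a) F) = eval x (pderiv (⟨i, m⟩ : Idx a) (P l)) := by
    intro x hx m
    rw [hF, pdi P _ hi, map_sum, Finset.sum_eq_single l]
    · rw [map_mul, map_pow, eval_X, hx ⟨0, l⟩ rfl, hδ]
      simp
    · intro k _ hk
      have : (⟨0, k⟩ : Idx a) ≠ ⟨0, l⟩ := fun h => hk (by simpa using h)
      rw [map_mul, map_pow, eval_X, hx ⟨0, k⟩ rfl, hδ]
      simp [this]
    · intro h
      exact absurd (Finset.mem_univ _) h
  have hi0 : ∀ k : Idx a, k.1 = 0 → k.1 ≠ i := fun k hk h => hi (h ▸ hk)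
  have hyl0 : ∀ k : Idx a, k.1 = 0 → yl k = δ k := by
    intro k hk
    rw [hyl, mix, if_pos hk]
  have hyl1 : ∀ k : Idx a, k.1 ≠ 0 → yl k = y k := by
    intro k hk
    rw [hyl, mix, if_neg hk]
  have hq := (sHOM (Sigma.fst : Idx a → Fin (r + 1)) i yl).1 F hMQ
  set q := res Sigma.fst i yl F with hqd
  set e' : Idx a → K := fun m => if m.1 = i then e m else 0 with he'
  have h2 := aeval_comb (A := K) hq y e' E (-B)
  rw [aeval_eq_eval, aeval_eq_eval, aeval_eq_eval] at h2
  have t1 : eval (fun x => E * y x + (-B) * e' x) q =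
      eval (fun x : Idx a => if x.1 = i then E * y x - B * e x else y x) (P l) := by
    rw [hqd, eval_res, hval _ (fun k hk => by
      rw [mix, if_neg (hi0 k hk), hyl0 k hk])]
    refine hoff _ _ _ (hP l) fun k hk => ?_
    unfold mix
    by_cases hki : k.1 = i
    · rw [if_pos hki, if_pos hki, he']
      simp only [if_pos hki]
      ring
    · rw [if_neg hki, if_neg hki, hyl1 k hk]
  have t2 : eval y q = eval y (P l) := by
    rw [hqd, eval_res, hval _ (fun k hk => by
      rw [mix, if_neg (hi0 k hk), hyl0 k hk])]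
    refine hoff _ _ _ (hP l) fun k hk => ?_
    unfold mix
    by_cases hki : k.1 = i
    · rw [if_pos hki]
    · rw [if_neg hki, hyl1 k hk]
  have t3 : eval e' q = eval (mix Sigma.fst i e y) (P l) := by
    rw [hqd, eval_res, hval _ (fun k hk => by
      rw [mix, if_neg (hi0 k hk), hyl0 k hk])]
    refine hoff _ _ _ (hP l) fun k hk => ?_
    unfold mix
    by_cases hki : k.1 = i
    · rw [if_pos hki, if_pos hki, he']
      simp only [if_pos hki]
    · rw [if_neg hki, if_neg hki, hyl1 k hk]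
  have t4 : bil q y e' = ∑ m : Fin (a i + 1), e ⟨i, m⟩ *
      eval y (pderiv (⟨i, m⟩ : Idx a) (P l)) := by
    have h := bil_eq (Sigma.fst : Idx a → Fin (r + 1)) F hMQ i e yl y
    rw [← hqd] at h
    rw [he', ← h, sum_slot]
    refine Finset.sum_congr rfl fun m _ => ?_
    rw [hvald _ (fun k hk => by rw [mix, if_neg (hi0 k hk), hyl0 k hk])]
    congr 1
    refine hoff _ _ _ (fun j => by rw [pderiv_comm', hP, map_zero]) fun k hk => ?_
    unfold mix
    by_cases hki : k.1 = i
    · rw [if_pos hki]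
    · rw [if_neg hki, hyl1 k hk]
  rw [t1, t2, t3, t4] at h2
  rw [h2]
  ring

end diag

end Wd

open Dg Wd in
theorem wDIAG : S_MINOR → S_HOM → W_DIAG := by
  intro hMINOR hHOM K _ _ r a ha P F hF hMQ hP0 y hy hyp hyP hkind
  classical
  have hIs : IsMQ Sigma.fst F := Fn.isMQ_of hMQ
  obtain ⟨H1, -, -, H4, -⟩ := hHOM (K := K) (Sigma.fst : Idx a → Fin (r + 1)) 0 y
  have h2K : (2 : K) ≠ 0 := two_ne_zero
  -- first derivatives at points
  have f0 : ∀ l, pderiv (⟨0, l⟩ : Idx a) F = 2 * X ⟨0, l⟩ * P l := fun l => by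
    rw [hF]; exact pd0 P hP0 l
  have fi : ∀ x : Idx a, x.1 ≠ 0 → pderiv x F = ∑ k, X ⟨0, k⟩ ^ 2 * pderiv x (P k) :=
    fun x hx => by rw [hF]; exact pdi P x hx
  have f0i : ∀ (x : Idx a) (l), x.1 ≠ 0 → pderiv x (pderiv (⟨0, l⟩ : Idx a) F) =
      2 * X ⟨0, l⟩ * pderiv x (P l) := fun x l hx => by rw [f0]; exact pdi0 P x hx l
  -- the branch
  have hprime : Prime (res Sigma.fst 0 y F) := by
    have hlt : ∀ k : Fin 3, k.val < a 0 + 1 := fun k => by omega
    refine hMINOR (res Sigma.fst 0 y F) (H1 F hIs) (fun k => ⟨0, ⟨k.val, hlt k⟩⟩)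
      (fun k => ⟨0, ⟨k.val, hlt k⟩⟩) ?_
    have hmat : (Matrix.of fun b c : Fin 3 => hess (res Sigma.fst 0 y F)
        (⟨0, ⟨b.val, hlt b⟩⟩ : Idx a) ⟨0, ⟨c.val, hlt c⟩⟩) =
        Matrix.diagonal fun b : Fin 3 => 2 * eval y (P ⟨b.val, hlt b⟩) := by
      ext b c
      rw [Matrix.of_apply, H4 F hIs _ _ rfl rfl, f0, pd00 P hP0, Matrix.diagonal_apply]
      by_cases hbc : b = c
      · subst hbc
        rw [if_pos rfl, if_pos rfl, map_mul, map_ofNat]
      · rw [if_neg hbc, if_neg, map_zero]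
        intro h
        apply hbc
        rw [Fin.mk.injEq] at h
        exact Fin.ext h.symm
    rw [hmat, Matrix.det_diagonal]
    exact Finset.prod_ne_zero_iff.2 fun b _ => mul_ne_zero h2K (hyP _)
  have hmix : mix Sigma.fst 0 y y = y := by
    funext x
    unfold mix
    split_ifs <;> rfl
  have hmov : Moves Sigma.fst F 0 y := by
    obtain ⟨l, hl⟩ := hyp 0
    refine ⟨⟨0, l⟩, rfl, ?_⟩
    rw [f0, aeval_eq_eval, map_mul, map_mul, map_ofNat, eval_X]
    exact mul_ne_zero (mul_ne_zero h2K hl) (hyP l)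
  have hg0 : eval y (res Sigma.fst 0 y F) = 0 := by
    rw [eval_res, hmix, hy]
  refine ⟨0, res Sigma.fst 0 y F, Or.inl ⟨hprime.irreducible, dvd_rfl, hg0, hmov⟩, ?_⟩
  set AC := AlgebraicClosure K with hAC
  have hinj : Function.Injective (algebraMap K AC) := (algebraMap K AC).injective
  have hne0 : ∀ c : K, c ≠ 0 → algebraMap K AC c ≠ 0 := fun c hc h =>
    hc (hinj (by rw [h, map_zero]))
  set p : Fin (a 0 + 1) → K := fun l => eval y (P l) with hpd
  have hp : ∀ l, p l ≠ 0 := hyP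
  obtain ⟨b, hb⟩ : ∃ b : ∀ i : Fin (r + 1), Fin (a 0 + 1) → Fin (a i + 1) → K,
      ∀ i l m, b i l m = eval y (pderiv (⟨i, m⟩ : Idx a) (P l)) :=
    ⟨fun i l m => eval y (pderiv (⟨i, m⟩ : Idx a) (P l)), fun _ _ _ => rfl⟩
  have hNM1 : ∀ l : Fin (a 0 + 1), NM p 0 (fun k => if k = l then 1 else 0) := by
    intro l
    by_cases hl : 0 = l
    · refine ⟨⟨1, by omega⟩, ?_⟩
      have h1 : (⟨1, by omega⟩ : Fin (a 0 + 1)) ≠ l := by
        rw [← hl]
        intro h
        have := congrArg Fin.val h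
        simp at this
      simp only [if_neg h1, if_pos hl, zero_mul, mul_one]
      exact (hp _).symm
    · refine ⟨l, ?_⟩
      simp only [if_true, if_neg hl, mul_zero, one_mul]
      exact hp 0
  have hforms : ∀ i : Fin (r + 1), ∃ μ ν : Fin (a 0 + 1) → K, NM p 0 μ ∧ NM p 0 ν ∧
      (i ≠ 0 → ∀ s : Fin (a 0 + 1) → K, (∑ l, s l * μ l ≠ 0) → (∑ l, s l * ν l ≠ 0) →
        (∃ ms m₀ m₁ m₂ : Fin (a i + 1), LinearIndependent K
          ![fun l => b i l m₀, fun l => b i l m₁, fun l => b i l m₂] ∧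
          ∑ l, s l * b i l ms ≠ 0) ∨
        (∃ e : Idx a → K, LinearIndependent K
          ![p, fun l => ∑ m : Fin (a i + 1), e ⟨i, m⟩ * b i l m,
            fun l => eval (mix Sigma.fst i e y) (P l)] ∧
          (∑ l, s l * ∑ m : Fin (a i + 1), e ⟨i, m⟩ * b i l m) ≠ 0 ∧
          ∑ l, s l * eval (mix Sigma.fst i e y) (P l) ≠ 0)) := by
    intro i
    by_cases hi : i = 0
    · exact ⟨_, _, hNM1 0, hNM1 0, fun h => absurd hi h⟩
    · rcases hkind i hi with ⟨m₀, m₁, m₂, hLI⟩ | ⟨e, hLI⟩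
      · have hLI' : LinearIndependent K
            ![fun l => b i l m₀, fun l => b i l m₁, fun l => b i l m₂] := by
          simp only [hb]
          exact hLI
        obtain ⟨ms, hms⟩ := key1 p 0 (hp 0) (b i) m₀ m₁ m₂ hLI'
        exact ⟨_, _, hms, hms, fun _ s h1 _ => Or.inl ⟨ms, m₀, m₁, m₂, hLI', h1⟩⟩
      · have hLI' : LinearIndependent K
            ![p, fun l => ∑ m : Fin (a i + 1), e ⟨i, m⟩ * b i l m,
              fun l => eval (mix Sigma.fst i e y) (P l)] := by
          simp only [hb]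
          exact hLI
        obtain ⟨h1, h2, -⟩ := key3 p 0 (hp 0) _ _ hLI'
        exact ⟨_, _, h1, h2, fun _ s h3 h4 => Or.inr ⟨e, hLI', h3, h4⟩⟩
  choose μ ν hμ hν hQ using hforms
  obtain ⟨s, hs0, hs⟩ := avoid p 0 (J := Fin (a 0 + 1) ⊕ (Fin (r + 1) ⊕ Fin (r + 1)))
    (Sum.elim (fun l k => if k = l then 1 else 0) (Sum.elim μ ν)) (by
      rintro (l | i | i)
      · exact hNM1 l
      · exact hμ i
      · exact hν i)
  have hsl : ∀ l, s l ≠ 0 := by
    intro l
    have h1 := hs (Sum.inl l)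
    simp only [Sum.elim_inl, mul_ite, mul_one, mul_zero, Finset.sum_ite_eq', Finset.mem_univ,
      if_true] at h1
    exact h1
  have hζe : ∀ l, ∃ c : AC, c ^ 2 = algebraMap K AC (s l) := fun l =>
    IsAlgClosed.exists_pow_nat_eq (algebraMap K AC (s l)) (n := 2) (by norm_num)
  choose ζ hζ using hζe
  have hζ0 : ∀ l, ζ l ≠ 0 := by
    intro l h
    have h1 := hζ l
    rw [h, zero_pow (by norm_num)] at h1
    exact hne0 _ (hsl l) h1.symm
  set z : Idx a → AC := fun x => if x.1 = 0 then ζ ⟨min x.2.val (a 0), by omega⟩ else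
    algebraMap K AC (y x) with hz
  have z0 : ∀ l, z ⟨0, l⟩ = ζ l := by
    intro l
    simp only [hz, if_true]
    congr 1
    exact Fin.ext (min_eq_left (by omega))
  have zi : ∀ x : Idx a, x.1 ≠ 0 → z x = algebraMap K AC (y x) := by
    intro x hx
    simp only [hz, if_neg hx]
  -- values of polynomials without variables of the slot 0
  have hvalg : ∀ (G : MvPolynomial (Idx a) K) (w : Idx a → AC) (x : Idx a → K),
      (∀ j, pderiv (⟨0, j⟩ : Idx a) G = 0) → (∀ k : Idx a, k.1 ≠ 0 → w k = algebraMap K AC (x k)) →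
      aeval w G = algebraMap K AC (eval x G) := by
    intro G w x hG hw
    rw [aeval_off (fun x : Idx a => x.1 = 0) (fun x hx => by
      obtain ⟨i, j⟩ := x
      simp only at hx
      subst hx
      exact hG j) w (fun k => algebraMap K AC (x k)) (fun k hk => hw k hk)]
    exact aeval_amap x G
  have hvP : ∀ l, aeval z (P l) = algebraMap K AC (p l) := fun l => hvalg _ z y (hP0 l) zi
  have hvD : ∀ (x : Idx a) (l), aeval z (pderiv x (P l)) =
      algebraMap K AC (eval y (pderiv x (P l))) := fun x l => hvalg _ z y (fun j => by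
    rw [pderiv_comm', hP0, map_zero]) zi
  have e0 : ∀ l, aeval z (pderiv (⟨0, l⟩ : Idx a) F) = 2 * ζ l * algebraMap K AC (p l) := by
    intro l
    rw [f0, map_mul, map_mul, map_ofNat, aeval_X, hvP, z0]
  have ei : ∀ (i : Fin (r + 1)) (m : Fin (a i + 1)), i ≠ 0 →
      aeval z (pderiv (⟨i, m⟩ : Idx a) F) = algebraMap K AC (∑ l, s l * b i l m) := by
    intro i m hi
    rw [fi _ hi, map_sum, map_sum]
    refine Finset.sum_congr rfl fun l _ => ?_
    rw [map_mul, map_pow, aeval_X, hvD, z0, hζ, map_mul, hb]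
  have e0i : ∀ (i : Fin (r + 1)) (m : Fin (a i + 1)) (l), i ≠ 0 →
      aeval z (pderiv (⟨i, m⟩ : Idx a) (pderiv (⟨0, l⟩ : Idx a) F)) =
      2 * ζ l * algebraMap K AC (b i l m) := by
    intro i m l hi
    rw [f0i _ l hi, map_mul, map_mul, map_ofNat, aeval_X, hvD, z0, hb]
  have h2A : (2 : AC) ≠ 0 := two_ne_zero
  have hC : ∀ i, i ≠ 0 → Moves Sigma.fst F i z ∧ LinkU Sigma.fst F z 0 i := by
    intro i hi
    rcases hQ i hi s (hs (Sum.inr (Sum.inl i))) (hs (Sum.inr (Sum.inr i))) with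
      ⟨ms, m₀, m₁, m₂, hLI, hms⟩ | ⟨e, hLI, hB, hE⟩
    · refine ⟨⟨⟨i, ms⟩, rfl, ?_⟩, Or.inl ?_⟩
      · rw [ei i ms hi]
        exact hne0 _ hms
      · obtain ⟨l', m, m', hk⟩ := key2 p 0 (hp 0) (b i) m₀ m₁ m₂ hLI
          (fun m => ∑ l, s l * b i l m) ms hms
        refine ⟨⟨0, 0⟩, ⟨0, l'⟩, ⟨i, m⟩, ⟨i, m'⟩, rfl, rfl, rfl, rfl, ?_⟩
        have hbt : bet F z (⟨0, 0⟩ : Idx a) ⟨0, l'⟩ ⟨i, m⟩ ⟨i, m'⟩ = 4 * ζ 0 * ζ l' *
            algebraMap K AC ((∑ l, s l * b i l m) * (p 0 * b i l' m' - p l' * b i 0 m') -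
              (∑ l, s l * b i l m') * (p 0 * b i l' m - p l' * b i 0 m)) := by
          unfold bet
          rw [e0, e0, ei i m hi, ei i m' hi, e0i i m' l' hi, e0i i m l' hi, e0i i m' 0 hi,
            e0i i m 0 hi]
          rw [map_sub, map_mul, map_mul, map_sub, map_sub, map_mul, map_mul, map_mul, map_mul]
          ring
        rw [hbt]
        exact mul_ne_zero (mul_ne_zero (mul_ne_zero (by norm_num) (hζ0 _)) (hζ0 _)) (hne0 _ hk)
    · set E : K := ∑ l, s l * eval (mix Sigma.fst i e y) (P l) with hEd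
      set B : K := ∑ l, s l * ∑ m : Fin (a i + 1), e ⟨i, m⟩ * b i l m with hBd
      have hBsum : ∑ m : Fin (a i + 1), e ⟨i, m⟩ * (∑ l, s l * b i l m) = B := by
        rw [hBd]
        simp only [Finset.mul_sum]
        rw [Finset.sum_comm]
        refine Finset.sum_congr rfl fun l _ => Finset.sum_congr rfl fun m _ => ?_
        ring
      refine ⟨?_, Or.inr (Or.inl ⟨hi.symm, e, ?_⟩)⟩
      · by_contra hno
        apply hB
        rw [← hBsum]
        refine Finset.sum_eq_zero fun m _ => ?_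
        have h1 : ∑ l, s l * b i l m = 0 := by
          by_contra h2
          apply hno
          refine ⟨⟨i, m⟩, rfl, ?_⟩
          rw [ei i m hi]
          exact hne0 _ h2
        rw [h1, mul_zero]
      · obtain ⟨-, -, h3⟩ := key3 p 0 (hp 0) _ _ hLI
        obtain ⟨l', hl'⟩ := h3 E B hE
        refine ⟨⟨0, 0⟩, ⟨0, l'⟩, rfl, rfl, ?_⟩
        -- the value of `E`
        have hEz : aeval z (sub Sigma.fst i e F) = algebraMap K AC E := by
          rw [Wd.aeval_sub', hF, map_sum, hEd, map_sum]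
          refine Finset.sum_congr rfl fun l _ => ?_
          rw [map_mul, map_pow, aeval_X, map_mul, ← hζ, ← z0]
          have h4 : mix Sigma.fst i (fun l => algebraMap K AC (e l)) z (⟨0, l⟩ : Idx a) =
              z ⟨0, l⟩ := by
            rw [mix, if_neg (fun h => hi h.symm)]
          rw [h4]
          congr 1
          refine hvalg _ _ _ (hP0 l) fun k hk => ?_
          unfold mix
          split_ifs
          · rfl
          · exact zi k hk
        have hBz : aeval z (∑ m : Idx a, if m.1 = i then C (e m) * pderiv m F else 0) =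
            algebraMap K AC B := by
          rw [sum_slot, map_sum, ← hBsum, map_sum]
          refine Finset.sum_congr rfl fun m _ => ?_
          rw [map_mul, aeval_C, ei i m hi, map_mul]
        set y' : Idx a → K := fun x => if x.1 = i then E * y x - B * e x else y x with hy'
        have hz' : ∀ k : Idx a, k.1 ≠ 0 → aeval z (ivl Sigma.fst F i e k) =
            algebraMap K AC (y' k) := by
          intro k hk
          rw [ivl, hy']
          by_cases hki : k.1 = i
          · simp only [if_pos hki]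
            rw [map_sub, map_mul, map_mul, aeval_X, aeval_C, hEz, hBz, zi k hk, map_sub, map_mul,
              map_mul]
          · simp only [if_neg hki]
            rw [aeval_X, zi k hk]
        have hz0' : ∀ l, aeval z (ivl Sigma.fst F i e ⟨0, l⟩) = ζ l := by
          intro l
          rw [ivl, if_neg (fun h => hi h.symm), aeval_X, z0]
        have hFz' : ∀ l, aeval z (aeval (ivl Sigma.fst F i e) (pderiv (⟨0, l⟩ : Idx a) F)) =
            2 * ζ l * algebraMap K AC (eval y' (P l)) := by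
          intro l
          rw [aeval_aeval', f0, map_mul, map_mul, map_ofNat, aeval_X, hz0',
            hvalg (P l) _ y' (hP0 l) hz']
        have hPy : ∀ l, eval y' (P l) = E ^ 2 * p l - E * B * (∑ m : Fin (a i + 1),
            e ⟨i, m⟩ * b i l m) + B ^ 2 * eval (mix Sigma.fst i e y) (P l) := by
          intro l
          rw [hy', quadP P F hF hIs hP0 i hi y e E B l]
          simp only [hb, hpd]
        have hL : aeval z (lnk Sigma.fst F i e (⟨0, 0⟩ : Idx a) ⟨0, l'⟩) =
            algebraMap K AC E * (4 * ζ 0 * ζ l' * algebraMap K AC (eval y' (P 0) * p l' -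
              eval y' (P l') * p 0)) := by
          rw [lnk, map_mul, map_sub, map_mul, map_mul, hEz, hFz', hFz', e0, e0, map_sub, map_mul,
            map_mul]
          ring
        rw [hL]
        refine mul_ne_zero (hne0 _ hE) (mul_ne_zero (mul_ne_zero (mul_ne_zero (by norm_num)
          (hζ0 _)) (hζ0 _)) (hne0 _ ?_))
        intro h5
        rw [hPy, hPy] at h5
        have h6 : B * ((-E * (∑ m : Fin (a i + 1), e ⟨i, m⟩ * b i 0 m) +
            B * eval (mix Sigma.fst i e y) (P 0)) * p l' -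
            (-E * (∑ m : Fin (a i + 1), e ⟨i, m⟩ * b i l' m) +
              B * eval (mix Sigma.fst i e y) (P l')) * p 0) = 0 := by
          linear_combination h5
        exact mul_ne_zero hB hl' h6
  have hMov : ∀ i, Moves Sigma.fst F i z := by
    intro i
    by_cases hi : i = 0
    · rw [hi]
      refine ⟨⟨0, 0⟩, rfl, ?_⟩
      rw [e0]
      exact mul_ne_zero (mul_ne_zero h2A (hζ0 _)) (hne0 _ (hp 0))
    · exact (hC i hi).1
  have hL0' : ∀ i, i ≠ 0 → LinkU Sigma.fst F z i 0 := by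
    intro i hi
    rcases (hC i hi).2 with hb | hb | hb
    · obtain ⟨l, l', m, m', e1, e2, e3, e4, hb⟩ := hb
      exact Or.inl ⟨m, m', l, l', e3, e4, e1, e2, by rwa [← bet_symm]⟩
    · exact Or.inr (Or.inr hb)
    · exact Or.inr (Or.inl hb)
  refine ⟨z, fun l hl => zi l hl, ?_, hMov, ?_⟩
  · rw [aeval_res' Sigma.fst 0 y z (fun l hl => zi l hl), hF, map_sum]
    have h7 : ∀ l, aeval z (X (⟨0, l⟩ : Idx a) ^ 2 * P l) = algebraMap K AC (s l * p l) := by
      intro l
      rw [map_mul, map_pow, aeval_X, hvP, z0, hζ, map_mul]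
    rw [Finset.sum_congr rfl fun l _ => h7 l, ← map_sum, hs0, map_zero]
  · intro i j
    have h1 : Relation.ReflTransGen (LinkU Sigma.fst F z) i 0 := by
      by_cases hi : i = 0
      · rw [hi]
      · exact Relation.ReflTransGen.single (hL0' i hi)
    refine h1.trans ?_
    by_cases hj : j = 0
    · rw [hj]
    · exact Relation.ReflTransGen.single (hC j hj).2

end Pool.Agent.R383.MQ
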