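import Pool.Agent.R383.MQ.Stm7
import Pool.Agent.R383.MQ.TDIAG
import Pool.Agent.R383.MQ.UIVL

/-! Semi-goodness for forms which are diagonal in one slot, final version (helper27). -/

set_option autoImplicit false

namespace Pool.Agent.R383.MQ

open MvPolynomial Pool.Agent.TH178.MZ

namespace Wd2

open Dg

/-- not proportional -/
def NP {K : Type} [Field K] {n : ℕ} (p f : Fin n → K) : Prop :=
  ∃ l l', f l * p l' - f l' * p l ≠ 0

lemma prop_of {K : Type} [Field K] {n : ℕ} {p f : Fin n → K} (hp : ∀ l, p l ≠ 0)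
    (h : ¬ NP p f) (l₀ : Fin n) : f = (f l₀ / p l₀) • p := by
  funext l
  have h1 : f l * p l₀ - f l₀ * p l = 0 := by
    by_contra h2
    exact h ⟨l, l₀, h2⟩
  have := hp l₀
  simp only [Pi.smul_apply, smul_eq_mul]
  field_simp
  linear_combination h1

/-- avoiding finitely many hyperplanes -/
lemma avoid {K : Type} [Field K] [Infinite K] {n : ℕ} (p : Fin n → K) {T : Type} [DecidableEq T]
    (S : Finset T) (f : T → Fin n → K) (hf : ∀ t ∈ S, NP p (f t)) :
    ∃ s : Fin n → K, ∑ l, s l * p l = 0 ∧ ∀ t ∈ S, ∑ l, s l * f t l ≠ 0 := by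
  induction S using Finset.induction_on with
  | empty => exact ⟨0, by simp, by simp⟩
  | insert t S ht ih =>
    obtain ⟨s, hs1, hs2⟩ := ih fun t' h => hf t' (Finset.mem_insert_of_mem h)
    obtain ⟨l, l', hll⟩ := hf t (Finset.mem_insert_self _ _)
    classical
    let h : Fin n → K := fun k => Pi.single (M := fun _ => K) l (p l') k -
      Pi.single (M := fun _ => K) l' (p l) k
    have hsum : ∀ g : Fin n → K, ∑ k, h k * g k = p l' * g l - p l * g l' := by
      intro g
      simp only [h, sub_mul, Finset.sum_sub_distrib]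
      congr 1
      · rw [Finset.sum_eq_single l]
        · simp
        · intro j _ hj
          simp [Pi.single_eq_of_ne hj]
        · intro h
          exact absurd (Finset.mem_univ _) h
      · rw [Finset.sum_eq_single l']
        · simp
        · intro j _ hj
          simp [Pi.single_eq_of_ne hj]
        · intro h
          exact absurd (Finset.mem_univ _) h
    obtain ⟨c, hc⟩ := Infinite.exists_notMem_finset
      ((insert t S).image fun t' => -(∑ k, s k * f t' k) / (∑ k, h k * f t' k))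
    have hlin : ∀ g : Fin n → K, ∑ k, (s k + c * h k) * g k =
        ∑ k, s k * g k + c * ∑ k, h k * g k := by
      intro g
      rw [Finset.mul_sum, ← Finset.sum_add_distrib]
      exact Finset.sum_congr rfl fun k _ => by ring
    refine ⟨fun k => s k + c * h k, ?_, fun t' ht' => ?_⟩
    · rw [hlin, hs1, hsum]
      ring
    · rw [hlin]
      intro h0
      by_cases hz : ∑ k, h k * f t' k = 0
      · rw [hz, mul_zero, add_zero] at h0
        rcases Finset.mem_insert.1 ht' with h1 | h1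
        · subst h1
          rw [hsum] at hz
          exact hll (by linear_combination hz)
        · exact hs2 t' h1 h0
      · apply hc
        rw [Finset.mem_image]
        refine ⟨t', ht', ?_⟩
        rw [div_eq_iff hz]
        linear_combination -h0

lemma bil_eq' {K : Type} [Field K] [CharZero K] {ι κ : Type} [Fintype ι] [DecidableEq κ]
    (s : ι → κ) (G : MvPolynomial ι K) (j : κ) (e z x : ι → K)
    (hq : (res s j z G).IsHomogeneous 2) :
    (∑ m, if s m = j then e m * eval (mix s j x z) (pderiv m G) else 0) =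
      bil (res s j z G) x (fun m => if s m = j then e m else 0) := by
  rw [bil_symm, bil]
  refine Finset.sum_congr rfl fun m _ => ?_
  by_cases hm : s m = j
  · rw [if_pos hm]
    have h1 := aeval_pderiv (A := K) hq m x
    rw [aeval_eq_eval, Hm.pd_res s j z G m hm, eval_res] at h1
    rw [h1, Finset.mul_sum]
    refine Finset.sum_congr rfl fun k _ => ?_
    rw [if_pos hm]
    ring
  · rw [if_neg hm]
    symm
    refine Finset.sum_eq_zero fun k _ => ?_
    rw [if_neg hm]
    ring

section slot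

variable {K : Type} [Field K] [CharZero K] {r : ℕ} {a : Fin (r + 1) → ℕ}

lemma sum_slot {A : Type} [AddCommMonoid A] (i : Fin (r + 1)) (f : Idx a → A) :
    (∑ x : Idx a, if x.1 = i then f x else 0) = ∑ m : Fin (a i + 1), f ⟨i, m⟩ := by
  rw [Fintype.sum_sigma, Finset.sum_eq_single i]
  · simp
  · intro k _ hk
    simp [hk]
  · intro h
    exact absurd (Finset.mem_univ _) h

/-- value on a line in a slot -/
lemma line (G : MvPolynomial (Idx a) K) (i : Fin (r + 1)) (y e : Idx a → K) (E B : K)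
    (hq : (res Sigma.fst i y G).IsHomogeneous 2) :
    eval (fun x => if x.1 = i then E * y x - B * e x else y x) G =
      E ^ 2 * eval y G - E * B * (∑ m : Fin (a i + 1), e ⟨i, m⟩ * eval y (pderiv ⟨i, m⟩ G)) +
        B ^ 2 * eval (mix Sigma.fst i e y) G := by
  classical
  set q := res Sigma.fst i y G with hqd
  set e' : Idx a → K := fun x => if x.1 = i then e x else 0 with he'
  have h1 := aeval_comb (A := K) hq y e' E (-B)
  rw [aeval_eq_eval, aeval_eq_eval, aeval_eq_eval] at h1
  have m1 : mix Sigma.fst i (fun l => E * y l + -B * e' l) y =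
      fun x => if x.1 = i then E * y x - B * e x else y x := by
    funext x
    unfold mix
    by_cases h : x.1 = i
    · rw [if_pos h, if_pos h, he']
      simp only [if_pos h]
      ring
    · rw [if_neg h, if_neg h]
  have m2 : mix Sigma.fst i y y = y := Hm.mix_self _ _ _
  have m3 : mix Sigma.fst i e' y = mix Sigma.fst i e y := by
    refine Uivl.mix_congr _ _ _ _ _ fun l hl => ?_
    rw [he']
    simp only [if_pos hl]
  have hb := bil_eq' Sigma.fst G i e y y hq
  rw [m2] at hb
  rw [sum_slot i (fun m => e m * eval y (pderiv m G))] at hb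
  rw [hqd, eval_res, eval_res, eval_res, m1, m2, m3, ← hqd, ← hb] at h1
  rw [h1]
  ring

lemma hom_P {P : Fin (a 0 + 1) → MvPolynomial (Idx a) K} {F : MvPolynomial (Idx a) K}
    (hHOM : S_HOM) (hF : F = ∑ l, X ⟨0, l⟩ ^ 2 * P l) (hIs : IsMQ Sigma.fst F)
    (hP0 : ∀ l j, pderiv (⟨0, j⟩ : Idx a) (P l) = 0) (i : Fin (r + 1)) (hi : i ≠ 0)
    (y : Idx a → K) (l : Fin (a 0 + 1)) :
    (res Sigma.fst i y (P l)).IsHomogeneous 2 := by
  classical
  set y'' : Idx a → K := fun x => if x.1 = 0 then (if x = ⟨0, l⟩ then 1 else 0) else y x with hy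
  have h := (hHOM (K := K) (Sigma.fst : Idx a → Fin (r + 1)) i y'').1 F hIs
  have h1 : res Sigma.fst i y'' F = res Sigma.fst i y (P l) := by
    rw [hF, map_sum, Finset.sum_eq_single l]
    · rw [map_mul, map_pow]
      have e1 : res Sigma.fst i y'' (X ⟨0, l⟩) = 1 := by
        rw [res, aeval_X]
        unfold mix
        rw [if_neg (fun h => hi h.symm), hy]
        simp
      rw [e1, one_pow, one_mul]
      rw [res, res]
      refine aeval_off (fun x : Idx a => x.1 = 0) (fun x hx => ?_) _ _ (fun x hx => ?_)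
      · obtain ⟨k, j⟩ := x
        simp only at hx
        subst hx
        exact hP0 l j
      · unfold mix
        split_ifs
        · rfl
        · rw [hy]
          simp only [if_neg hx]
    · intro k _ hk
      rw [map_mul, map_pow]
      have e1 : res Sigma.fst i y'' (X ⟨0, k⟩) = 0 := by
        rw [res, aeval_X]
        unfold mix
        rw [if_neg (fun h => hi h.symm), hy]
        have : (⟨0, k⟩ : Idx a) ≠ ⟨0, l⟩ := fun h => hk (by simpa using h)
        simp [this]
      rw [e1]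
      simp
    · intro h
      exact absurd (Finset.mem_univ _) h
  rw [← h1]
  exact h

end slot

section links

variable {K : Type} [Field K] [CharZero K] {r : ℕ} {a : Fin (r + 1) → ℕ}
  {A : Type} [Field A] [Algebra K A]

/-- the geometric point -/
structure Pt (y : Idx a → K) (s : Fin (a 0 + 1) → K) (z : Idx a → A) : Prop where
  off : ∀ x : Idx a, x.1 ≠ 0 → z x = algebraMap K A (y x)
  sq : ∀ l, z ⟨0, l⟩ ^ 2 = algebraMap K A (s l)
  ne : ∀ l, z ⟨0, l⟩ ≠ 0

variable {P : Fin (a 0 + 1) → MvPolynomial (Idx a) K} {F : MvPolynomial (Idx a) K}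
  {y : Idx a → K} {s : Fin (a 0 + 1) → K} {z : Idx a → A}

lemma hval (h : Pt y s z) (G : MvPolynomial (Idx a) K)
    (hG : ∀ j, pderiv (⟨0, j⟩ : Idx a) G = 0) : aeval z G = algebraMap K A (eval y G) := by
  rw [aeval_off (fun x : Idx a => x.1 = 0) (fun x hx => by
    obtain ⟨i, j⟩ := x
    simp only at hx
    subst hx
    exact hG j) z (fun x => algebraMap K A (y x)) (fun x hx => h.off x hx)]
  exact aeval_amap y G

lemma e0 (h : Pt y s z) (hF : F = ∑ l, X ⟨0, l⟩ ^ 2 * P l)
    (hP0 : ∀ l j, pderiv (⟨0, j⟩ : Idx a) (P l) = 0) (l : Fin (a 0 + 1)) :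
    aeval z (pderiv (⟨0, l⟩ : Idx a) F) = 2 * z ⟨0, l⟩ * algebraMap K A (eval y (P l)) := by
  rw [hF, pd0 P hP0, map_mul, map_mul, map_ofNat, aeval_X, hval h _ (hP0 l)]

lemma ei (h : Pt y s z) (hF : F = ∑ l, X ⟨0, l⟩ ^ 2 * P l)
    (hP0 : ∀ l j, pderiv (⟨0, j⟩ : Idx a) (P l) = 0) (x : Idx a) (hx : x.1 ≠ 0) :
    aeval z (pderiv x F) = algebraMap K A (∑ k, s k * eval y (pderiv x (P k))) := by
  rw [hF, pdi P x hx, map_sum, map_sum]
  refine Finset.sum_congr rfl fun k _ => ?_
  rw [map_mul, map_pow, aeval_X, h.sq, hval h _ (fun j => by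
    rw [pderiv_comm', hP0, map_zero]), map_mul]

lemma e0i (h : Pt y s z) (hF : F = ∑ l, X ⟨0, l⟩ ^ 2 * P l)
    (hP0 : ∀ l j, pderiv (⟨0, j⟩ : Idx a) (P l) = 0) (x : Idx a) (hx : x.1 ≠ 0)
    (l : Fin (a 0 + 1)) :
    aeval z (pderiv x (pderiv (⟨0, l⟩ : Idx a) F)) =
      2 * z ⟨0, l⟩ * algebraMap K A (eval y (pderiv x (P l))) := by
  rw [hF, pd0 P hP0, pdi0 P x hx, map_mul, map_mul, map_ofNat, aeval_X,
    hval h _ (fun j => by rw [pderiv_comm', hP0, map_zero])]

lemma link1 (h : Pt y s z) (hF : F = ∑ l, X ⟨0, l⟩ ^ 2 * P l)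
    (hP0 : ∀ l j, pderiv (⟨0, j⟩ : Idx a) (P l) = 0) (hp : ∀ l, eval y (P l) ≠ 0)
    (i : Fin (r + 1)) (hi : i ≠ 0) (m₀ m₁ m₂ ms : Fin (a i + 1))
    (hLI : LinearIndependent K
      ![fun l : Fin (a 0 + 1) => eval y (pderiv (⟨i, m₀⟩ : Idx a) (P l)),
        fun l => eval y (pderiv (⟨i, m₁⟩ : Idx a) (P l)),
        fun l => eval y (pderiv (⟨i, m₂⟩ : Idx a) (P l))])
    (hu : ∑ k, s k * eval y (pderiv (⟨i, ms⟩ : Idx a) (P k)) ≠ 0) :
    Moves Sigma.fst F i z ∧ Linked Sigma.fst F z 0 i := by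
  classical
  have hinj : Function.Injective (algebraMap K A) := (algebraMap K A).injective
  obtain ⟨b, hb⟩ : ∃ b : Fin (a i + 1) → Fin (a 0 + 1) → K,
    b = fun m l => eval y (pderiv (⟨i, m⟩ : Idx a) (P l)) := ⟨_, rfl⟩
  obtain ⟨p, hpd⟩ : ∃ p : Fin (a 0 + 1) → K, p = fun l => eval y (P l) := ⟨_, rfl⟩
  obtain ⟨u, hud⟩ : ∃ u : Fin (a i + 1) → K, u = fun m => ∑ k, s k * b m k := ⟨_, rfl⟩
  have hus : u ms ≠ 0 := by rw [hud, hb]; exact hu
  have hp' : ∀ l, p l ≠ 0 := by rw [hpd]; exact hp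
  refine ⟨⟨⟨i, ms⟩, rfl, ?_⟩, ?_⟩
  · rw [ei h hF hP0 _ (show (⟨i, ms⟩ : Idx a).1 ≠ 0 from hi)]
    exact fun h' => hu (hinj (by rw [map_zero]; exact h'))
  · have hD : ∃ l l' m', u ms * (p l * b m' l' - p l' * b m' l) -
        u m' * (p l * b ms l' - p l' * b ms l) ≠ 0 := by
      by_contra hall
      push Not at hall
      have hspan : ∀ m', b m' ∈ Submodule.span K ((({p, b ms} : Finset (Fin (a 0 + 1) → K)) :
          Set (Fin (a 0 + 1) → K))) := by
        intro m'
        have h1 : b m' = ((b m' 0 - u m' / u ms * b ms 0) / p 0) • p +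
            (u m' / u ms) • b ms := by
          funext l'
          have h2 := hall 0 l' m'
          have h3 := hp' 0
          simp only [Pi.add_apply, Pi.smul_apply, smul_eq_mul]
          field_simp
          linear_combination h2
        rw [h1]
        refine Submodule.add_mem _ (Submodule.smul_mem _ _ (Submodule.subset_span ?_))
          (Submodule.smul_mem _ _ (Submodule.subset_span ?_))
        · simp
        · simp
      have hLI' : LinearIndependent K ![b m₀, b m₁, b m₂] := by rw [hb]; exact hLI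
      have hle : Submodule.span K (Set.range ![b m₀, b m₁, b m₂]) ≤
          Submodule.span K ((({p, b ms} : Finset (Fin (a 0 + 1) → K)) :
          Set (Fin (a 0 + 1) → K))) := by
        rw [Submodule.span_le]
        rintro _ ⟨k, rfl⟩
        fin_cases k
        · exact hspan m₀
        · exact hspan m₁
        · exact hspan m₂
      have h1 := Submodule.finrank_mono hle
      rw [finrank_span_eq_card hLI', Fintype.card_fin] at h1
      have h2 := finrank_span_finset_le_card (R := K) ({p, b ms} : Finset (Fin (a 0 + 1) → K))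
      have h3 : ({p, b ms} : Finset (Fin (a 0 + 1) → K)).card ≤ 2 := Finset.card_le_two
      unfold Set.finrank at h2
      omega
    obtain ⟨l, l', m', hm⟩ := hD
    refine ⟨⟨0, l⟩, ⟨0, l'⟩, ⟨i, ms⟩, ⟨i, m'⟩, rfl, rfl, rfl, rfl, ?_⟩
    have hbt : bet F z (⟨0, l⟩ : Idx a) ⟨0, l'⟩ ⟨i, ms⟩ ⟨i, m'⟩ = 4 * z ⟨0, l⟩ * z ⟨0, l'⟩ *
        algebraMap K A (u ms * (p l * b m' l' - p l' * b m' l) -
        u m' * (p l * b ms l' - p l' * b ms l)) := by
      unfold bet
      rw [e0 h hF hP0, e0 h hF hP0, ei h hF hP0 _ (show (⟨i, ms⟩ : Idx a).1 ≠ 0 from hi),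
        ei h hF hP0 _ (show (⟨i, m'⟩ : Idx a).1 ≠ 0 from hi),
        e0i h hF hP0 _ (show (⟨i, ms⟩ : Idx a).1 ≠ 0 from hi),
        e0i h hF hP0 _ (show (⟨i, ms⟩ : Idx a).1 ≠ 0 from hi),
        e0i h hF hP0 _ (show (⟨i, m'⟩ : Idx a).1 ≠ 0 from hi),
        e0i h hF hP0 _ (show (⟨i, m'⟩ : Idx a).1 ≠ 0 from hi)]
      have u1 : ∑ k, s k * eval y (pderiv (⟨i, ms⟩ : Idx a) (P k)) = u ms := by rw [hud, hb]
      have u2 : ∑ k, s k * eval y (pderiv (⟨i, m'⟩ : Idx a) (P k)) = u m' := by rw [hud, hb]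
      have p1 : ∀ l, eval y (P l) = p l := fun l => by rw [hpd]
      have b1 : ∀ m l, eval y (pderiv (⟨i, m⟩ : Idx a) (P l)) = b m l := fun m l => by rw [hb]
      rw [u1, u2]
      simp only [p1, b1, map_add, map_mul, map_sub]
      ring
    rw [hbt]
    have h4 : (4 : A) ≠ 0 := by
      have : (4 : A) = algebraMap K A 4 := by rw [map_ofNat]
      rw [this]
      exact fun h' => (show (4 : K) ≠ 0 by norm_num) (hinj (by rw [h', map_zero]))
    refine mul_ne_zero (mul_ne_zero (mul_ne_zero h4 (h.ne _)) (h.ne _)) ?_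
    exact fun h' => hm (hinj (by rw [map_zero]; exact h'))

lemma link2 (h : Pt y s z) (hHOM : S_HOM) (hIs : IsMQ Sigma.fst F)
    (hF : F = ∑ l, X ⟨0, l⟩ ^ 2 * P l)
    (hP0 : ∀ l j, pderiv (⟨0, j⟩ : Idx a) (P l) = 0) (hp : ∀ l, eval y (P l) ≠ 0)
    (i : Fin (r + 1)) (hi : i ≠ 0) (e : Idx a → K) (p b q : Fin (a 0 + 1) → K)
    (hpd : p = fun l => eval y (P l))
    (hbd : b = fun l => ∑ m : Fin (a i + 1), e ⟨i, m⟩ * eval y (pderiv (⟨i, m⟩ : Idx a) (P l)))
    (hqd : q = fun l => eval (mix Sigma.fst i e y) (P l))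
    (hLI : LinearIndependent K ![p, b, q])
    (hB0 : ∑ l, s l * b l ≠ 0) (hE0 : ∑ l, s l * q l ≠ 0) :
    Moves Sigma.fst F i z ∧ Link Sigma.fst F z 0 i := by
  classical
  have hinj : Function.Injective (algebraMap K A) := (algebraMap K A).injective
  obtain ⟨B, hB⟩ : ∃ B : K, B = ∑ l, s l * b l := ⟨_, rfl⟩
  obtain ⟨E, hE⟩ : ∃ E : K, E = ∑ l, s l * q l := ⟨_, rfl⟩
  rw [← hB] at hB0
  rw [← hE] at hE0
  have hBv : aeval z (∑ m : Idx a, if m.1 = i then C (e m) * pderiv m F else 0) =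
      algebraMap K A B := by
    rw [sum_slot i (fun m => C (e m) * pderiv m F), map_sum, hB, hbd]
    have : ∀ m : Fin (a i + 1), aeval z (C (e ⟨i, m⟩) * pderiv (⟨i, m⟩ : Idx a) F) =
        algebraMap K A (e ⟨i, m⟩ * ∑ k, s k * eval y (pderiv (⟨i, m⟩ : Idx a) (P k))) := by
      intro m
      rw [map_mul, aeval_C, ei h hF hP0 _ (show (⟨i, m⟩ : Idx a).1 ≠ 0 from hi), map_mul]
    rw [Finset.sum_congr rfl fun m _ => this m, ← map_sum]
    congr 1
    simp only [Finset.mul_sum]
    rw [Finset.sum_comm]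
    refine Finset.sum_congr rfl fun k _ => Finset.sum_congr rfl fun m _ => ?_
    ring
  have hqv : ∀ l, aeval z (sub Sigma.fst i e (P l)) = algebraMap K A (q l) := by
    intro l
    rw [sub, ← AlgHom.comp_apply, comp_aeval, hqd]
    rw [aeval_off (fun x : Idx a => x.1 = 0) (fun x hx => by
      obtain ⟨k, j⟩ := x
      simp only at hx
      subst hx
      exact hP0 l j) _ (fun x => algebraMap K A (mix Sigma.fst i e y x)) (fun x hx => by
        unfold mix
        split_ifs
        · rw [aeval_C]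
        · rw [aeval_X, h.off x hx])]
    exact aeval_amap _ _
  have hEv : aeval z (sub Sigma.fst i e F) = algebraMap K A E := by
    rw [hF, map_sum, map_sum, hE, map_sum]
    refine Finset.sum_congr rfl fun l _ => ?_
    have e1 : sub Sigma.fst i e (X ⟨0, l⟩) = (X ⟨0, l⟩ : MvPolynomial (Idx a) K) := by
      rw [sub, aeval_X]
      unfold mix
      rw [if_neg (fun h => hi h.symm)]
    rw [map_mul, map_pow, e1, map_mul, map_pow, aeval_X, hqv, h.sq, map_mul]
  have hQ : ∀ l, aeval z (aeval (ivl Sigma.fst F i e) (P l)) =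
      algebraMap K A (E ^ 2 * p l - E * B * b l + B ^ 2 * q l) := by
    intro l
    rw [← AlgHom.comp_apply, comp_aeval]
    rw [aeval_off (fun x : Idx a => x.1 = 0) (fun x hx => by
      obtain ⟨k, j⟩ := x
      simp only at hx
      subst hx
      exact hP0 l j) _ (fun x => algebraMap K A (if x.1 = i then E * y x - B * e x else y x))
      (fun x hx => by
        unfold ivl
        split_ifs with hxi
        · rw [map_sub, map_mul, map_mul, hEv, hBv, aeval_X, aeval_C, h.off x hx, map_sub,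
            map_mul, map_mul]
        · rw [aeval_X, h.off x hx])]
    rw [aeval_amap, line (P l) i y e E B (hom_P hHOM hF hIs hP0 i hi y l), hpd, hbd, hqd]
  have hd : ∀ l, aeval z (aeval (ivl Sigma.fst F i e) (pderiv (⟨0, l⟩ : Idx a) F)) =
      2 * z ⟨0, l⟩ * algebraMap K A (E ^ 2 * p l - E * B * b l + B ^ 2 * q l) := by
    intro l
    have e1 : aeval (ivl Sigma.fst F i e) (X ⟨0, l⟩ : MvPolynomial (Idx a) K) =
        (X ⟨0, l⟩ : MvPolynomial (Idx a) K) := by
      rw [aeval_X]
      unfold ivl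
      rw [if_neg (fun h => hi h.symm)]
    have h2 : aeval (ivl Sigma.fst F i e) (pderiv (⟨0, l⟩ : Idx a) F) =
        2 * X ⟨0, l⟩ * aeval (ivl Sigma.fst F i e) (P l) := by
      have hf : pderiv (⟨0, l⟩ : Idx a) F = 2 * X ⟨0, l⟩ * P l := by
        rw [hF]; exact pd0 P hP0 l
      rw [hf, map_mul, map_mul, map_ofNat, e1]
    rw [h2, map_mul, map_mul, map_ofNat, aeval_X, hQ]
  have hNP : NP p (fun l => -(E * B) * b l + B ^ 2 * q l) := by
    by_contra hn
    have hp' : ∀ l, p l ≠ 0 := by rw [hpd]; exact hp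
    have h1 := prop_of hp' hn 0
    set c : K := (-(E * B) * b 0 + B ^ 2 * q 0) / p 0 with hc
    have h2 := Fintype.linearIndependent_iff.1 hLI ![-c, -(E * B), B ^ 2] (by
      funext l
      have h3 := congrFun h1 l
      simp only [Pi.smul_apply, smul_eq_mul] at h3
      simp only [Fin.sum_univ_three, Pi.add_apply, Pi.smul_apply, smul_eq_mul, Pi.zero_apply,
        Matrix.cons_val_zero, Matrix.cons_val_one, Matrix.cons_val]
      linear_combination h3) 2
    have h3 : B ^ 2 = 0 := h2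
    exact hB0 (pow_eq_zero_iff (two_ne_zero) |>.1 h3)
  refine ⟨?_, ?_⟩
  · by_contra hno
    apply hB0
    apply hinj
    rw [map_zero, ← hBv, map_sum]
    refine Finset.sum_eq_zero fun m _ => ?_
    split_ifs with hm
    · rw [map_mul]
      have : aeval z (pderiv m F) = 0 := by
        by_contra h'
        exact hno ⟨m, hm, h'⟩
      rw [this, mul_zero]
    · rw [map_zero]
  · obtain ⟨l, l', hll⟩ := hNP
    refine ⟨fun h => hi h.symm, e, ⟨0, l⟩, ⟨0, l'⟩, rfl, rfl, ?_⟩
    have hlv : aeval z (lnk Sigma.fst F i e (⟨0, l⟩ : Idx a) ⟨0, l'⟩) =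
        4 * algebraMap K A E * z ⟨0, l⟩ * z ⟨0, l'⟩ * algebraMap K A
          ((-(E * B) * b l + B ^ 2 * q l) * p l' - (-(E * B) * b l' + B ^ 2 * q l') * p l) := by
      unfold lnk
      have p1 : ∀ l, eval y (P l) = p l := fun l => by rw [hpd]
      rw [map_mul, map_sub, map_mul, map_mul, hEv, hd, hd, e0 h hF hP0, e0 h hF hP0, p1, p1]
      simp only [map_add, map_mul, map_sub, map_neg, map_pow]
      ring
    rw [hlv]
    have h4 : (4 : A) ≠ 0 := by
      have : (4 : A) = algebraMap K A 4 := by rw [map_ofNat]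
      rw [this]
      exact fun h' => (show (4 : K) ≠ 0 by norm_num) (hinj (by rw [h', map_zero]))
    refine mul_ne_zero (mul_ne_zero (mul_ne_zero (mul_ne_zero h4 ?_) (h.ne _)) (h.ne _)) ?_
    · exact fun h' => hE0 (hinj (by rw [h', map_zero]))
    · exact fun h' => hll (hinj (by rw [map_zero]; exact h'))

end links

end Wd2

open Dg Wd2 in
theorem wDIAG2 : S_MINOR → S_HOM → W_DIAG := by
  intro hMINOR hHOM K _ _ r a ha P F hF hMQ hP0 y hy hyp hyP hyi
  classical
  have hIs : IsMQ Sigma.fst F := Fn.isMQ_of hMQ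
  obtain ⟨H1, -, -, H4, -⟩ := hHOM (K := K) (Sigma.fst : Idx a → Fin (r + 1)) 0 y
  have h2K : (2 : K) ≠ 0 := two_ne_zero
  have f0 : ∀ l, pderiv (⟨0, l⟩ : Idx a) F = 2 * X ⟨0, l⟩ * P l := fun l => by
    rw [hF]; exact pd0 P hP0 l
  have hprime : Prime (res Sigma.fst 0 y F) := by
    have hlt : ∀ k : Fin 3, k.val < a 0 + 1 := fun k => by omega
    refine hMINOR (res Sigma.fst 0 y F) (H1 F hIs) (fun k => ⟨0, ⟨k.val, hlt k⟩⟩)
      (fun k => ⟨0, ⟨k.val, hlt k⟩⟩) ?_
    have hmat : (Matrix.of fun b c : Fin 3 => hess (res Sigma.fst 0 y F)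
        (⟨0, ⟨b.val, hlt b⟩⟩ : Idx a) ⟨0, ⟨c.val, hlt c⟩⟩) =
        Matrix.diagonal fun b : Fin 3 => 2 * eval y (P ⟨b.val, hlt b⟩) := by
      ext b c
      rw [Matrix.of_apply, H4 F hIs _ _ rfl rfl, f0, pd00 P hP0, Matrix.diagonal_apply]
      by_cases hbc : b = c
      · subst hbc
        rw [if_pos rfl, if_pos rfl, map_mul, map_ofNat]
      · rw [if_neg hbc, if_neg, map_zero]
        intro h
        apply hbc
        rw [Fin.mk.injEq] at h
        exact Fin.ext h.symm
    rw [hmat, Matrix.det_diagonal]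
    exact Finset.prod_ne_zero_iff.2 fun b _ => mul_ne_zero h2K (hyP _)
  have hmix : mix Sigma.fst 0 y y = y := Hm.mix_self _ _ _
  have hmov : Moves Sigma.fst F 0 y := by
    obtain ⟨l, hl⟩ := hyp 0
    refine ⟨⟨0, l⟩, rfl, ?_⟩
    rw [f0, aeval_eq_eval, map_mul, map_mul, map_ofNat, eval_X]
    exact mul_ne_zero (mul_ne_zero h2K hl) (hyP l)
  have hg0 : eval y (res Sigma.fst 0 y F) = 0 := by
    rw [eval_res, hmix, hy]
  refine ⟨0, res Sigma.fst 0 y F, Or.inl ⟨hprime.irreducible, dvd_rfl, hg0, hmov⟩, ?_⟩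
  set AC := AlgebraicClosure K with hAC
  have hinj : Function.Injective (algebraMap K AC) := (algebraMap K AC).injective
  obtain ⟨p, hpd⟩ : ∃ p : Fin (a 0 + 1) → K, p = fun l => eval y (P l) := ⟨_, rfl⟩
  have hp' : ∀ l, p l ≠ 0 := by rw [hpd]; exact hyP
  have hcl : ∀ i : Fin (r + 1), i ≠ 0 → ∃ f1 f2 : Fin (a 0 + 1) → K, NP p f1 ∧ NP p f2 ∧
      ∀ (s : Fin (a 0 + 1) → K) (z : Idx a → AC), Pt y s z → ∑ l, s l * f1 l ≠ 0 →
        ∑ l, s l * f2 l ≠ 0 → Moves Sigma.fst F i z ∧ LinkU Sigma.fst F z 0 i ∧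
          LinkU Sigma.fst F z i 0 := by
    intro i hi
    rcases hyi i hi with ⟨m₀, m₁, m₂, hLI⟩ | ⟨e, hLI⟩
    · obtain ⟨ms, hms⟩ : ∃ ms : Fin (a i + 1),
          NP p (fun l => eval y (pderiv (⟨i, ms⟩ : Idx a) (P l))) := by
        by_contra hno
        push Not at hno
        have h0 := prop_of hp' (hno m₀) 0
        have h1 := prop_of hp' (hno m₁) 0
        set c0 := eval y (pderiv (⟨i, m₀⟩ : Idx a) (P 0)) / p 0
        set c1 := eval y (pderiv (⟨i, m₁⟩ : Idx a) (P 0)) / p 0
        have h2 := Fintype.linearIndependent_iff.1 hLI ![c1, -c0, 0] (by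
          funext l
          have h3 := congrFun h0 l
          have h4 := congrFun h1 l
          simp only [Pi.smul_apply, smul_eq_mul] at h3 h4
          simp only [Fin.sum_univ_three, Pi.add_apply, Pi.smul_apply, smul_eq_mul, Pi.zero_apply,
            Matrix.cons_val_zero, Matrix.cons_val_one, Matrix.cons_val]
          rw [h3, h4]
          ring)
        have h5 : c1 = 0 := h2 0
        rw [h5, zero_smul] at h1
        have h6 := hLI.ne_zero 1
        exact h6 h1
      refine ⟨_, _, hms, hms, fun s z hz h1 _ => ?_⟩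
      obtain ⟨g1, g2⟩ := link1 hz hF hP0 hyP i hi m₀ m₁ m₂ ms hLI h1
      refine ⟨g1, Or.inl g2, Or.inl ?_⟩
      obtain ⟨l, l', m, m', e1, e2, e3, e4, hb⟩ := g2
      exact ⟨m, m', l, l', e3, e4, e1, e2, by rwa [← bet_symm]⟩
    · obtain ⟨b, hbd⟩ : ∃ b : Fin (a 0 + 1) → K, b = fun l => ∑ m : Fin (a i + 1),
        e ⟨i, m⟩ * eval y (pderiv (⟨i, m⟩ : Idx a) (P l)) := ⟨_, rfl⟩
      obtain ⟨q, hqd⟩ : ∃ q : Fin (a 0 + 1) → K, q = fun l =>
        eval (mix Sigma.fst i e y) (P l) := ⟨_, rfl⟩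
      have hLI' : LinearIndependent K ![p, b, q] := by rw [hpd, hbd, hqd]; exact hLI
      have hNb : NP p b := by
        by_contra hn
        have h1 := prop_of hp' hn 0
        have h2 := Fintype.linearIndependent_iff.1 hLI' ![-(b 0 / p 0), 1, 0] (by
          funext l
          have h3 := congrFun h1 l
          simp only [Pi.smul_apply, smul_eq_mul] at h3
          simp only [Fin.sum_univ_three, Pi.add_apply, Pi.smul_apply, smul_eq_mul, Pi.zero_apply,
            Matrix.cons_val_zero, Matrix.cons_val_one, Matrix.cons_val]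
          linear_combination h3) 1
        exact one_ne_zero h2
      have hNq : NP p q := by
        by_contra hn
        have h1 := prop_of hp' hn 0
        have h2 := Fintype.linearIndependent_iff.1 hLI' ![-(q 0 / p 0), 0, 1] (by
          funext l
          have h3 := congrFun h1 l
          simp only [Pi.smul_apply, smul_eq_mul] at h3
          simp only [Fin.sum_univ_three, Pi.add_apply, Pi.smul_apply, smul_eq_mul, Pi.zero_apply,
            Matrix.cons_val_zero, Matrix.cons_val_one, Matrix.cons_val]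
          linear_combination h3) 2
        exact one_ne_zero h2
      refine ⟨b, q, hNb, hNq, fun s z hz h1 h2 => ?_⟩
      obtain ⟨g1, g2⟩ := link2 hz hHOM hIs hF hP0 hyP i hi e p b q hpd hbd hqd hLI' h1 h2
      exact ⟨g1, Or.inr (Or.inl g2), Or.inr (Or.inr g2)⟩
  have hN1 : ∀ l : Fin (a 0 + 1), NP p (Pi.single l 1) := by
    intro l
    obtain ⟨l', hl'⟩ : ∃ l' : Fin (a 0 + 1), l' ≠ l := by
      have : Nontrivial (Fin (a 0 + 1)) := Fin.nontrivial_iff_two_le.2 (by omega)
      exact exists_ne l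
    refine ⟨l, l', ?_⟩
    rw [Pi.single_eq_same, Pi.single_eq_of_ne hl', zero_mul, sub_zero, one_mul]
    exact hp' l'
  choose! f1 f2 hf1 hf2 hf using hcl
  let f : Fin (a 0 + 1) ⊕ (Fin (r + 1) ⊕ Fin (r + 1)) → Fin (a 0 + 1) → K :=
    Sum.elim (fun l => Pi.single l 1) (Sum.elim (fun i => if i = 0 then Pi.single 0 1 else f1 i)
      (fun i => if i = 0 then Pi.single 0 1 else f2 i))
  obtain ⟨s, hs1, hs2⟩ := avoid p (Finset.univ) f (by
    intro t _
    rcases t with l | i | i
    · exact hN1 l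
    · simp only [f, Sum.elim_inr, Sum.elim_inl]
      split_ifs with h
      · exact hN1 0
      · exact hf1 i h
    · simp only [f, Sum.elim_inr]
      split_ifs with h
      · exact hN1 0
      · exact hf2 i h)
  have hsne : ∀ l, s l ≠ 0 := by
    intro l
    have h := hs2 (Sum.inl l) (Finset.mem_univ _)
    simp only [f, Sum.elim_inl] at h
    rw [Finset.sum_eq_single l] at h
    · simpa using h
    · intro j _ hj
      rw [Pi.single_eq_of_ne hj, mul_zero]
    · intro h'
      exact absurd (Finset.mem_univ _) h'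
  have hs3 : ∀ i, i ≠ 0 → ∑ l, s l * f1 i l ≠ 0 := by
    intro i hi
    have h := hs2 (Sum.inr (Sum.inl i)) (Finset.mem_univ _)
    simpa only [f, Sum.elim_inr, Sum.elim_inl, if_neg hi] using h
  have hs4 : ∀ i, i ≠ 0 → ∑ l, s l * f2 i l ≠ 0 := by
    intro i hi
    have h := hs2 (Sum.inr (Sum.inr i)) (Finset.mem_univ _)
    simpa only [f, Sum.elim_inr, if_neg hi] using h
  have hζ : ∀ l, ∃ ζ : AC, ζ ^ 2 = algebraMap K AC (s l) := fun l =>
    IsAlgClosed.exists_pow_nat_eq (algebraMap K AC (s l)) (n := 2) (by norm_num)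
  choose ζ hζ using hζ
  let z : Idx a → AC := fun x => if h : x.1 = 0 then ζ (h ▸ x.2) else algebraMap K AC (y x)
  have z0 : ∀ l, z ⟨0, l⟩ = ζ l := fun l => by simp [z]
  have hPt : Pt y s z := by
    refine ⟨fun x hx => ?_, fun l => ?_, fun l => ?_⟩
    · simp only [z, dif_neg hx]
    · rw [z0, hζ]
    · rw [z0]
      intro h
      have h1 := hζ l
      rw [h, zero_pow (by norm_num)] at h1
      exact hsne l (hinj (by rw [← h1, map_zero]))
  refine ⟨z, fun x hx => hPt.off x hx, ?_, ?_, ?_⟩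
  · rw [aeval_res' Sigma.fst 0 y z (fun l hl => hPt.off l hl), hF, map_sum]
    have : ∀ l, aeval z (X ⟨0, l⟩ ^ 2 * P l) = algebraMap K AC (s l * p l) := by
      intro l
      rw [map_mul, map_pow, aeval_X, hPt.sq, hval hPt _ (hP0 l), map_mul, hpd]
    rw [Finset.sum_congr rfl fun l _ => this l, ← map_sum, hs1, map_zero]
  · intro i
    by_cases hi : i = 0
    · rw [hi]
      refine ⟨⟨0, 0⟩, rfl, ?_⟩
      rw [e0 hPt hF hP0]
      refine mul_ne_zero (mul_ne_zero two_ne_zero (hPt.ne 0)) ?_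
      exact fun h => hyP 0 (hinj (by rw [h, map_zero]))
    · exact (hf i hi s z hPt (hs3 i hi) (hs4 i hi)).1
  · intro i j
    have h1 : Relation.ReflTransGen (LinkU Sigma.fst F z) i 0 := by
      by_cases hi : i = 0
      · rw [hi]
      · exact Relation.ReflTransGen.single (hf i hi s z hPt (hs3 i hi) (hs4 i hi)).2.2
    refine h1.trans ?_
    by_cases hj : j = 0
    · rw [hj]
    · exact Relation.ReflTransGen.single (hf j hj s z hPt (hs3 j hj) (hs4 j hj)).2.1

end Pool.Agent.R383.MQ
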